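import Mathlib

/-!
# ORG: basic definitions (blueprint: `Blueprint.md`)

Groups live in `Type`. `Hat Ψ` is the kernel of `G * A → A`, `hat Ψ g a = a g (Ψ g)⁻¹ a⁻¹`.
-/

set_option autoImplicit false

open Monoid.Coprod

namespace ORG

noncomputable section

/-- the infinite cyclic group -/
abbrev Zm : Type := Multiplicative ℤ

/-- free products of two groups -/
abbrev Cop (G H : Type) [Group G] [Group H] : Type := Monoid.Coprod G H

/-- free products of copies of one group -/
abbrev CopI (I L : Type) [Group L] : Type := Monoid.CoprodI (fun _ : I => L)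

/-- maps between free products of copies -/
def CImap {I I' L L' : Type} [Group L] [Group L'] (j : I → I') (f : L →* L') :
    CopI I L →* CopI I' L' :=
  Monoid.CoprodI.lift fun i => (Monoid.CoprodI.of (M := fun _ : I' => L') (i := j i)).comp f

/-- a subgroup of the range of an injective homomorphism -/
lemma exists_hom_of_le_range {G H : Type} [Group G] [Group H] (f : G →* H)
    (hf : Function.Injective f) (P : Subgroup H) (hP : P ≤ f.range) :
    ∃ g : P →* G, Function.Injective g ∧ ∀ p : P, f (g p) = (p : H) := by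
  let e := MonoidHom.ofInjective hf
  refine ⟨e.symm.toMonoidHom.comp (Subgroup.inclusion hP), ?_, ?_⟩
  · exact e.symm.injective.comp (Subgroup.inclusion_injective hP)
  · intro p
    have := e.apply_symm_apply (Subgroup.inclusion hP p)
    exact congrArg Subtype.val this

/-- a homomorphism with a left inverse is injective -/
lemma inj_of_left {G H : Type} [Group G] [Group H] (f : G →* H) (g : H →* G)
    (h : g.comp f = MonoidHom.id G) : Function.Injective f :=
  Function.LeftInverse.injective (g := g) fun x => DFunLike.congr_fun h x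

/-! ## The wreath type group -/

/-- functions `A → H` together with an element of `A` -/
@[ext] structure Wr (H A : Type) where
  /-- the function -/
  f : A → H
  /-- the element -/
  a : A

section wr

variable {H A : Type} [Group H] [Group A]

instance : Mul (Wr H A) := ⟨fun x y => ⟨fun b => x.f b * y.f (b * x.a), x.a * y.a⟩⟩
instance : One (Wr H A) := ⟨⟨fun _ => 1, 1⟩⟩
instance : Inv (Wr H A) := ⟨fun x => ⟨fun b => (x.f (b * x.a⁻¹))⁻¹, x.a⁻¹⟩⟩

@[simp] lemma Wr.mul_f (x y : Wr H A) (b : A) : (x * y).f b = x.f b * y.f (b * x.a) := rfl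
@[simp] lemma Wr.mul_a (x y : Wr H A) : (x * y).a = x.a * y.a := rfl
@[simp] lemma Wr.one_f (b : A) : (1 : Wr H A).f b = 1 := rfl
@[simp] lemma Wr.one_a : (1 : Wr H A).a = 1 := rfl
@[simp] lemma Wr.inv_f (x : Wr H A) (b : A) : (x⁻¹).f b = (x.f (b * x.a⁻¹))⁻¹ := rfl
@[simp] lemma Wr.inv_a (x : Wr H A) : (x⁻¹).a = x.a⁻¹ := rfl

instance : Group (Wr H A) where
  mul_assoc x y z := by
    ext b
    · simp [mul_assoc]
    · simp [mul_assoc]
  one_mul x := by
    ext b
    · simp
    · simp
  mul_one x := by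
    ext b
    · simp
    · simp
  inv_mul_cancel x := by
    ext b
    · simp
    · simp

/-- the second coordinate -/
def Wr.pr : Wr H A →* A where
  toFun := Wr.a
  map_one' := rfl
  map_mul' _ _ := rfl

@[simp] lemma Wr.pr_apply (x : Wr H A) : Wr.pr x = x.a := rfl

/-- the elements of `A` -/
def Wr.tr : A →* Wr H A where
  toFun a := ⟨fun _ => 1, a⟩
  map_one' := rfl
  map_mul' _ _ := by
    ext b
    · simp
    · simp

@[simp] lemma Wr.tr_f (a b : A) : (Wr.tr a : Wr H A).f b = 1 := rfl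
@[simp] lemma Wr.tr_a (a : A) : (Wr.tr a : Wr H A).a = a := rfl

/-- the homomorphism to `Wr H A` of a cocycle -/
def Wr.mk' {G : Type} [Group G] (Ψ : G →* A) (c : G → A → H)
    (hc : ∀ g h a, c (g * h) a = c g a * c h (a * Ψ g)) : G →* Wr H A :=
  MonoidHom.mk' (fun g => ⟨c g, Ψ g⟩) (by
    intro g h
    ext b
    · simp [hc]
    · simp)

@[simp] lemma Wr.mk'_f {G : Type} [Group G] (Ψ : G →* A) (c : G → A → H)
    (hc : ∀ g h a, c (g * h) a = c g a * c h (a * Ψ g)) (g : G) (a : A) :
    (Wr.mk' Ψ c hc g).f a = c g a := rfl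

@[simp] lemma Wr.mk'_a {G : Type} [Group G] (Ψ : G →* A) (c : G → A → H)
    (hc : ∀ g h a, c (g * h) a = c g a * c h (a * Ψ g)) (g : G) :
    (Wr.mk' Ψ c hc g).a = Ψ g := rfl

end wr

/-! ## Hat -/

section hat

variable {G A : Type} [Group G] [Group A]

/-- the kernel of `G * A → A` -/
abbrev Hat (Ψ : G →* A) : Type := ↥(lift Ψ (MonoidHom.id A)).ker

/-- the element `a g (Ψ g)⁻¹ a⁻¹` of `Hat Ψ` -/
def hat (Ψ : G →* A) (g : G) (a : A) : Hat Ψ :=
  ⟨inr a * inl g * (inr (Ψ g))⁻¹ * (inr a)⁻¹, by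
    rw [MonoidHom.mem_ker]
    simp⟩

lemma hat_coe (Ψ : G →* A) (g : G) (a : A) :
    (hat Ψ g a : Cop G A) = inr a * inl g * (inr (Ψ g))⁻¹ * (inr a)⁻¹ := rfl

lemma hat_mul (Ψ : G →* A) (g h : G) (a : A) :
    hat Ψ (g * h) a = hat Ψ g a * hat Ψ h (a * Ψ g) := by
  apply Subtype.ext
  simp only [hat_coe, Subgroup.coe_mul, map_mul]
  group

@[simp] lemma hat_one (Ψ : G →* A) (a : A) : hat Ψ 1 a = 1 := by
  apply Subtype.ext
  simp [hat_coe]

lemma hat_inv (Ψ : G →* A) (g : G) (a : A) :
    hat Ψ g⁻¹ a = (hat Ψ g (a * (Ψ g)⁻¹))⁻¹ := by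
  have h := hat_mul Ψ g g⁻¹ (a * (Ψ g)⁻¹)
  rw [mul_inv_cancel, hat_one, inv_mul_cancel_right] at h
  exact (inv_eq_of_mul_eq_one_right h.symm).symm

/-- every element of `G * A` is an element of the subgroup generated by the `hat`s times an
element of `A` -/
lemma hat_dec (Ψ : G →* A) (S : Set G) (hS : Subgroup.closure S = ⊤) (w : Cop G A) :
    ∃ x ∈ Subgroup.closure {z : Hat Ψ | ∃ s ∈ S, ∃ a, z = hat Ψ s a}, ∃ a : A,
      w = (x : Cop G A) * inr a := by
  set C := Subgroup.closure {z : Hat Ψ | ∃ s ∈ S, ∃ a, z = hat Ψ s a} with hC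
  have hg : ∀ (g : G) (a : A), hat Ψ g a ∈ C := by
    intro g
    have : g ∈ Subgroup.closure S := by rw [hS]; trivial
    induction this using Subgroup.closure_induction with
    | mem s hs => exact fun a => Subgroup.subset_closure ⟨s, hs, a, rfl⟩
    | one => intro a; rw [hat_one]; exact C.one_mem
    | mul x y _ _ hx hy => intro a; rw [hat_mul]; exact C.mul_mem (hx a) (hy _)
    | inv x _ hx => intro a; rw [hat_inv]; exact C.inv_mem (hx _)
  have key : ∀ w : Cop G A, ∀ v : Cop G A, (∃ x ∈ C, ∃ a : A, v = (x : Cop G A) * inr a) →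
      ∃ x ∈ C, ∃ a : A, v * w = (x : Cop G A) * inr a := by
    intro w
    induction w using Monoid.Coprod.induction_on with
    | inl g =>
      rintro v ⟨x, hx, a, rfl⟩
      refine ⟨x * hat Ψ g a, C.mul_mem hx (hg g a), a * Ψ g, ?_⟩
      rw [Subgroup.coe_mul, hat_coe, map_mul]
      group
    | inr b =>
      rintro v ⟨x, hx, a, rfl⟩
      exact ⟨x, hx, a * b, by rw [map_mul]; group⟩
    | mul x y hx hy =>
      intro v hv
      rw [← mul_assoc]
      exact hy _ (hx _ hv)
  obtain ⟨x, hx, a, h⟩ := key w 1 ⟨1, C.one_mem, 1, by simp⟩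
  exact ⟨x, hx, a, by rw [← h, one_mul]⟩

/-- the elements `hat s a`, `s` in a generating set, generate `Hat Ψ` -/
lemma hat_closure (Ψ : G →* A) (S : Set G) (hS : Subgroup.closure S = ⊤) :
    Subgroup.closure {z : Hat Ψ | ∃ s ∈ S, ∃ a, z = hat Ψ s a} = ⊤ := by
  rw [Subgroup.eq_top_iff']
  intro w
  obtain ⟨x, hx, a, h⟩ := hat_dec Ψ S hS (w : Cop G A)
  have h1 : lift Ψ (MonoidHom.id A) (w : Cop G A) = 1 := w.2
  have h2 : lift Ψ (MonoidHom.id A) (x : Cop G A) = 1 := x.2
  rw [h, map_mul, h2, one_mul] at h1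
  have h3 : a = 1 := by simpa using h1
  have : w = x := Subtype.ext (by rw [h, h3]; simp)
  rw [this]
  exact hx

lemma Hat.hom_ext_of {H : Type} [Group H] {Ψ : G →* A} (S : Set G)
    (hS : Subgroup.closure S = ⊤) {f f' : Hat Ψ →* H}
    (h : ∀ s ∈ S, ∀ a, f (hat Ψ s a) = f' (hat Ψ s a)) : f = f' := by
  refine MonoidHom.eq_of_eqOn_dense (hat_closure Ψ S hS) ?_
  rintro _ ⟨s, hs, a, rfl⟩
  exact h s hs a

lemma Hat.hom_ext {H : Type} [Group H] {Ψ : G →* A} {f f' : Hat Ψ →* H}
    (h : ∀ g a, f (hat Ψ g a) = f' (hat Ψ g a)) : f = f' :=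
  Hat.hom_ext_of Set.univ (by simp) fun s _ => h s

/-- the homomorphism given by a homomorphism to `Wr H A` over `Ψ` -/
def Hat.lift {H : Type} [Group H] (Ψ : G →* A) (θ : G →* Wr H A) (hθ : ∀ g, (θ g).a = Ψ g) :
    Hat Ψ →* H where
  toFun z := (Monoid.Coprod.lift θ Wr.tr (z : Cop G A)).f 1
  map_one' := by simp
  map_mul' x y := by
    have h : ∀ w : Cop G A, (Monoid.Coprod.lift θ Wr.tr w).a =
        Monoid.Coprod.lift Ψ (MonoidHom.id A) w := by
      intro w
      have : (Wr.pr.comp (Monoid.Coprod.lift θ Wr.tr) : Cop G A →* A) =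
          Monoid.Coprod.lift Ψ (MonoidHom.id A) := by
        apply Monoid.Coprod.hom_ext
        · ext g
          simp [hθ]
        · ext a
          simp
      exact DFunLike.congr_fun this w
    have hx : (Monoid.Coprod.lift θ Wr.tr (x : Cop G A)).a = 1 := by
      rw [h]
      exact x.2
    rw [Subgroup.coe_mul, map_mul, Wr.mul_f, hx, one_mul]

@[simp] lemma Hat.lift_hat {H : Type} [Group H] (Ψ : G →* A) (θ : G →* Wr H A)
    (hθ : ∀ g, (θ g).a = Ψ g) (g : G) (a : A) :
    Hat.lift Ψ θ hθ (hat Ψ g a) = (θ g).f a := by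
  change (Monoid.Coprod.lift θ Wr.tr (inr a * inl g * (inr (Ψ g))⁻¹ * (inr a)⁻¹)).f 1 = _
  rw [map_mul, map_mul, map_mul, map_inv, map_inv]
  simp

/-- the homomorphism given by a cocycle -/
def Hat.coc {H : Type} [Group H] (Ψ : G →* A) (c : G → A → H)
    (hc : ∀ g h a, c (g * h) a = c g a * c h (a * Ψ g)) : Hat Ψ →* H :=
  Hat.lift Ψ (Wr.mk' Ψ c hc) fun g => Wr.mk'_a Ψ c hc g

@[simp] lemma Hat.coc_hat {H : Type} [Group H] (Ψ : G →* A) (c : G → A → H)
    (hc : ∀ g h a, c (g * h) a = c g a * c h (a * Ψ g)) (g : G) (a : A) :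
    Hat.coc Ψ c hc (hat Ψ g a) = c g a := by
  rw [Hat.coc, Hat.lift_hat, Wr.mk'_f]

/-- functoriality -/
def Hat.map {G' : Type} [Group G'] (Ψ : G →* A) (Ψ' : G' →* A) (F : G →* G')
    (h : ∀ g, Ψ' (F g) = Ψ g) : Hat Ψ →* Hat Ψ' :=
  Hat.coc Ψ (fun g a => hat Ψ' (F g) a) fun g g' a => by rw [map_mul, hat_mul, h]

@[simp] lemma Hat.map_hat {G' : Type} [Group G'] (Ψ : G →* A) (Ψ' : G' →* A) (F : G →* G')
    (h : ∀ g, Ψ' (F g) = Ψ g) (g : G) (a : A) :
    Hat.map Ψ Ψ' F h (hat Ψ g a) = hat Ψ' (F g) a := Hat.coc_hat _ _ _ _ _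

lemma Hat.map_coe {G' : Type} [Group G'] (Ψ : G →* A) (Ψ' : G' →* A) (F : G →* G')
    (h : ∀ g, Ψ' (F g) = Ψ g) (z : Hat Ψ) :
    (Hat.map Ψ Ψ' F h z : Cop G' A) = Monoid.Coprod.map F (MonoidHom.id A) (z : Cop G A) := by
  have : (Subgroup.subtype _).comp (Hat.map Ψ Ψ' F h) =
      (Monoid.Coprod.map F (MonoidHom.id A)).comp (Subgroup.subtype _) := by
    apply Hat.hom_ext
    intro g a
    simp only [MonoidHom.comp_apply, Hat.map_hat, Subgroup.subtype_apply, hat_coe, h]
    simp
  exact DFunLike.congr_fun this z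

/-- the homomorphism to `G` -/
def Hat.fst (Ψ : G →* A) : Hat Ψ →* G :=
  Hat.coc Ψ (fun g _ => g) fun _ _ _ => rfl

@[simp] lemma Hat.fst_hat (Ψ : G →* A) (g : G) (a : A) : Hat.fst Ψ (hat Ψ g a) = g :=
  Hat.coc_hat _ _ _ _ _

lemma hat_eq_one {Ψ : G →* A} {g : G} {a : A} : hat Ψ g a = 1 ↔ g = 1 := by
  refine ⟨fun h => ?_, fun h => by rw [h, hat_one]⟩
  have := congrArg (Hat.fst Ψ) h
  simpa using this

lemma hat_inj {Ψ : G →* A} {g g' : G} {a a' : A} (h : hat Ψ g a = hat Ψ g' a') : g = g' := by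
  have := congrArg (Hat.fst Ψ) h
  simpa using this

/-- powers of unseen elements -/
lemma hat_pow_of {Ψ : G →* A} {g : G} (hg : Ψ g = 1) (a : A) (n : ℕ) :
    hat Ψ (g ^ n) a = hat Ψ g a ^ n := by
  induction n with
  | zero => simp
  | succ n ih => rw [pow_succ, hat_mul, ih, map_pow, hg, one_pow, mul_one, pow_succ]

/-- integral powers of unseen elements -/
lemma hat_zpow_of {Ψ : G →* A} {g : G} (hg : Ψ g = 1) (a : A) (n : ℤ) :
    hat Ψ (g ^ n) a = hat Ψ g a ^ n := by
  cases n with
  | ofNat n => simpa using hat_pow_of hg a n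
  | negSucc n =>
    rw [zpow_negSucc, zpow_negSucc, hat_inv, map_pow, hg, one_pow, inv_one, mul_one,
      hat_pow_of hg]

end hat

/-! ## Quotients by relators -/

section quo

variable {P : Type} [Group P]

/-- the quotient by the normal closure of `R` -/
def Quo (R : Set P) : Type := P ⧸ Subgroup.normalClosure R

instance (R : Set P) : Group (Quo R) := inferInstanceAs (Group (P ⧸ Subgroup.normalClosure R))

/-- the projection -/
def Quo.mk (R : Set P) : P →* Quo R := QuotientGroup.mk' _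

lemma Quo.mk_surj (R : Set P) : Function.Surjective (Quo.mk R) := QuotientGroup.mk'_surjective _

lemma Quo.mk_eq_one {R : Set P} {x : P} : Quo.mk R x = 1 ↔ x ∈ Subgroup.normalClosure R :=
  QuotientGroup.eq_one_iff x

lemma Quo.mk_rel {R : Set P} {x : P} (hx : x ∈ R) : Quo.mk R x = 1 :=
  Quo.mk_eq_one.2 (Subgroup.subset_normalClosure hx)

/-- the universal property -/
def Quo.lift {H : Type} [Group H] (R : Set P) (f : P →* H) (h : ∀ x ∈ R, f x = 1) : Quo R →* H :=
  QuotientGroup.lift _ f (by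
    have : Subgroup.normalClosure R ≤ f.ker :=
      Subgroup.normalClosure_le_normal fun x hx => h x hx
    exact fun x hx => this hx)

@[simp] lemma Quo.lift_mk {H : Type} [Group H] (R : Set P) (f : P →* H) (h : ∀ x ∈ R, f x = 1)
    (x : P) : Quo.lift R f h (Quo.mk R x) = f x := rfl

lemma Quo.hom_ext {H : Type} [Group H] {R : Set P} {f f' : Quo R →* H}
    (h : ∀ x, f (Quo.mk R x) = f' (Quo.mk R x)) : f = f' := by
  ext z
  obtain ⟨x, rfl⟩ := Quo.mk_surj R z
  exact h x

end quo

/-! ## HNN families -/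

section hn

variable {B I : Type} [Group B]

/-- the relators `f_i x_i f_i⁻¹ y_i⁻¹` -/
def HNrel (x y : I → B) : Set (Cop B (FreeGroup I)) :=
  Set.range fun i => inr (FreeGroup.of i) * inl (x i) * (inr (FreeGroup.of i))⁻¹ * (inl (y i))⁻¹

/-- the HNN extension of `B` with stable letters `f_i`, `f_i x_i f_i⁻¹ = y_i` -/
def HN (x y : I → B) : Type := Quo (HNrel x y)

instance (x y : I → B) : Group (HN x y) := inferInstanceAs (Group (Quo (HNrel x y)))

/-- the base group -/
def HN.of (x y : I → B) : B →* HN x y := (Quo.mk (HNrel x y)).comp inl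

/-- the stable letters -/
def HN.t (x y : I → B) (i : I) : HN x y := Quo.mk (HNrel x y) (inr (FreeGroup.of i))

lemma HN.rel (x y : I → B) (i : I) :
    HN.t x y i * HN.of x y (x i) = HN.of x y (y i) * HN.t x y i := by
  have h : Quo.mk (HNrel x y)
      (inr (FreeGroup.of i) * inl (x i) * (inr (FreeGroup.of i))⁻¹ * (inl (y i))⁻¹) = 1 :=
    Quo.mk_rel ⟨i, rfl⟩
  rw [map_mul, mul_eq_one_iff_eq_inv, map_inv, inv_inv, map_mul, map_inv,
    mul_inv_eq_iff_eq_mul, map_mul] at h
  exact h

/-- the universal property -/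
def HN.lift {H : Type} [Group H] (x y : I → B) (f : B →* H) (s : I → H)
    (h : ∀ i, s i * f (x i) = f (y i) * s i) : HN x y →* H :=
  Quo.lift (HNrel x y) (Monoid.Coprod.lift f (FreeGroup.lift s)) (by
    rintro _ ⟨i, rfl⟩
    simp [h i])

@[simp] lemma HN.lift_of {H : Type} [Group H] (x y : I → B) (f : B →* H) (s : I → H)
    (h : ∀ i, s i * f (x i) = f (y i) * s i) (b : B) :
    HN.lift x y f s h (HN.of x y b) = f b := by
  change Quo.lift (HNrel x y) _ _ (Quo.mk (HNrel x y) (inl b)) = _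
  rw [Quo.lift_mk]
  simp

@[simp] lemma HN.lift_t {H : Type} [Group H] (x y : I → B) (f : B →* H) (s : I → H)
    (h : ∀ i, s i * f (x i) = f (y i) * s i) (i : I) :
    HN.lift x y f s h (HN.t x y i) = s i := by
  change Quo.lift (HNrel x y) _ _ (Quo.mk (HNrel x y) (inr (FreeGroup.of i))) = _
  rw [Quo.lift_mk]
  simp

lemma HN.hom_ext {H : Type} [Group H] {x y : I → B} {f f' : HN x y →* H}
    (h1 : ∀ b, f (HN.of x y b) = f' (HN.of x y b)) (h2 : ∀ i, f (HN.t x y i) = f' (HN.t x y i)) :
    f = f' := by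
  apply Quo.hom_ext
  intro w
  have : f.comp (Quo.mk (HNrel x y)) = f'.comp (Quo.mk (HNrel x y)) := by
    apply Monoid.Coprod.hom_ext
    · ext b
      exact h1 b
    · ext i
      exact h2 i
  exact DFunLike.congr_fun this w

/-- functoriality -/
def HN.map {B' I' : Type} [Group B'] (x y : I → B) (x' y' : I' → B') (φ : B →* B') (j : I → I')
    (hx : ∀ i, φ (x i) = x' (j i)) (hy : ∀ i, φ (y i) = y' (j i)) : HN x y →* HN x' y' :=
  HN.lift x y ((HN.of x' y').comp φ) (fun i => HN.t x' y' (j i)) fun i => by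
    simp only [MonoidHom.comp_apply, hx, hy]
    exact HN.rel x' y' (j i)

@[simp] lemma HN.map_of {B' I' : Type} [Group B'] (x y : I → B) (x' y' : I' → B') (φ : B →* B')
    (j : I → I') (hx : ∀ i, φ (x i) = x' (j i)) (hy : ∀ i, φ (y i) = y' (j i)) (b : B) :
    HN.map x y x' y' φ j hx hy (HN.of x y b) = HN.of x' y' (φ b) := HN.lift_of _ _ _ _ _ _

@[simp] lemma HN.map_t {B' I' : Type} [Group B'] (x y : I → B) (x' y' : I' → B') (φ : B →* B')
    (j : I → I') (hx : ∀ i, φ (x i) = x' (j i)) (hy : ∀ i, φ (y i) = y' (j i)) (i : I) :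
    HN.map x y x' y' φ j hx hy (HN.t x y i) = HN.t x' y' (j i) := HN.lift_t _ _ _ _ _ _

/-- the base group and the stable letters generate -/
lemma HN.closure (x y : I → B) :
    Subgroup.closure (Set.range (HN.of x y) ∪ Set.range (HN.t x y)) = ⊤ := by
  set C := Subgroup.closure (Set.range (HN.of x y) ∪ Set.range (HN.t x y)) with hC
  let f : HN x y →* C := HN.lift x y
    ((HN.of x y).codRestrict C fun b => Subgroup.subset_closure (Or.inl ⟨b, rfl⟩))
    (fun i => ⟨HN.t x y i, Subgroup.subset_closure (Or.inr ⟨i, rfl⟩)⟩) (by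
      intro i
      apply Subtype.ext
      simpa using HN.rel x y i)
  have hf : (Subgroup.subtype C).comp f = MonoidHom.id _ := by
    apply HN.hom_ext
    · intro b
      simp [f]
    · intro i
      simp [f]
  rw [Subgroup.eq_top_iff']
  intro w
  have := DFunLike.congr_fun hf w
  rw [MonoidHom.comp_apply, MonoidHom.id_apply] at this
  rw [← this]
  exact (f w).2

end hn

section hn2

variable {B I : Type} [Group B] (x y : I → B)

/-- the restriction of a family to a subset and a subgroup -/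
def rs {B I : Type} [Group B] (x : I → B) (B₀ : Subgroup B) (I₀ : Set I) (h : ∀ i ∈ I₀, x i ∈ B₀) :
    I₀ → B₀ := fun i => ⟨x i, h i i.2⟩

/-- the character on the base group -/
abbrev hnc (χ : HN x y →* Zm) : B →* Zm := χ.comp (HN.of x y)

/-- the base group of the HNN extension which contains `Hat χ` -/
abbrev HNB (χ : HN x y →* Zm) : Type := Cop (Hat (hnc x y χ)) (FreeGroup (I × Zm))

/-- the unseen pairs -/
def HNI (χ : HN x y →* Zm) : Type := {p : I × Zm // χ (HN.of x y (y p.1)) = 1}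

/-- the first elements of the unseen pairs -/
def hnx (χ : HN x y →* Zm) (p : HNI x y χ) : HNB x y χ :=
  inl (hat (hnc x y χ) (x p.1.1) (p.1.2 * χ (HN.t x y p.1.1)))

/-- the second elements of the unseen pairs -/
def hny (χ : HN x y →* Zm) (p : HNI x y χ) : HNB x y χ :=
  inl (hat (hnc x y χ) (y p.1.1) p.1.2)

/-- infinite order -/
def IOrd {G : Type} [Group G] (g : G) : Prop := ∀ n : ℤ, g ^ n = 1 → n = 0

end hn2

/-! ## The class `C_k` and visibility -/

/-- free product of a free group and copies of `ℤ/k` -/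
abbrev Mdl (k : ℕ) (S J : Type) : Type := Cop (FreeGroup S) (CopI J (Multiplicative (ZMod k)))

/-- the class `C_k` of groups -/
inductive InC (k : ℕ) : (G : Type) → [Group G] → Prop
  | base (G : Type) [Group G] : (∀ P : Subgroup G, P.FG → ∃ (S J : Type) (f : P →* Mdl k S J),
      Function.Injective f) → InC k G
  | loc (G : Type) [Group G] : (∀ P : Subgroup G, P.FG → InC k P) → InC k G
  | ext (G : Type) [Group G] (χ : G →* Zm) : InC k (Hat χ) → InC k G

/-- visibility of a finite set -/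
inductive Vis : (K : Type) → [Group K] → Set K → Prop
  | nil (K : Type) [Group K] : Vis K ∅
  | loc (K : Type) [Group K] (Y : Set K) : Y.Finite →
      (∀ P : Subgroup K, P.FG → Y ⊆ P → Vis P (Subtype.val ⁻¹' Y)) → Vis K Y
  | ext (K : Type) [Group K] (Y : Set K) (χ : K →* Zm) : Y.Finite →
      (∀ Y' : Set (Hat χ), Y'.Finite → (∀ z ∈ Y', ∃ y ∈ Y, χ y = 1 ∧ ∃ h, z = hat χ y h) →
        Vis (Hat χ) Y') → Vis K Y

/-- the groups `A` which may be used as targets for visibility -/
def Zed (A : Type) [Group A] : Prop := ∀ (G : Type) [Group G] (Ψ : G →* A) (Y : Set G),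
  Y.Finite → (∀ Y' : Set (Hat Ψ), Y'.Finite →
    (∀ z ∈ Y', ∃ y ∈ Y, Ψ y = 1 ∧ ∃ a, z = hat Ψ y a) → Vis (Hat Ψ) Y') → Vis G Y

/-- a group in which the nonzero powers of `c` are conjugate to `c` -/
structure EGrp (E : Type) [Group E] where
  /-- the element `c` -/
  c : E
  /-- the conjugating elements -/
  e : ℤ → E
  conj : ∀ p : ℤ, p ≠ 0 → e p * c * (e p)⁻¹ = c ^ p
  inf : ∀ n : ℤ, c ^ n = 1 → n = 0
  zed : Zed E

section gy

variable {E : Type} [Group E] (e : EGrp E)

/-- all elements of `Y` become conjugate to `c` -/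
abbrev GY (K : Type) [Group K] (Y : Set K) : Type :=
  HN (fun i : Y => (inl (i : K) : Cop K E)) (fun _ => inr e.c)

/-- the element `c` of `GY` -/
def GYc (K : Type) [Group K] (Y : Set K) : GY e K Y := HN.of _ _ (inr e.c)

open Classical in
/-- the second elements of the pairs of the group `G_R` of Lemma S -/
def gsy {K R : Type} [Group K] [Group R] (χ : K →* Zm) (cR : R) (Y : Set K) (i : Y) :
    Cop (Cop K E) R := if χ i = 1 then inr cR else inl (inr e.c)

/-- the group `G_R` of Lemma S -/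
abbrev GS {K R : Type} [Group K] [Group R] (χ : K →* Zm) (cR : R) (Y : Set K) : Type :=
  HN (fun i : Y => (inl (inl (i : K)) : Cop (Cop K E) R)) (gsy e χ cR Y)

open Classical in
/-- the second elements of the pairs of the windows -/
def wny {K : Type} [Group K] (χ : K →* Zm) (Y : Set K) (J : Set (Y × ℤ)) (i : J) :
    CopI ℤ (Cop K E) :=
  Monoid.CoprodI.of (M := fun _ : ℤ => Cop K E)
    (i := if χ i.1.1 = 1 then i.1.2 + 1 else i.1.2) (inr e.c)

/-- the group with the levels `K * E` and the pairs with indices in `J` -/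
abbrev WN {K : Type} [Group K] (χ : K →* Zm) (Y : Set K) (J : Set (Y × ℤ)) : Type :=
  HN (fun i : J => (Monoid.CoprodI.of (M := fun _ : ℤ => Cop K E) (i := i.1.2)
    (inl (i.1.1 : K)) : CopI ℤ (Cop K E))) (wny e χ Y J)

/-- the element `c` at the level `h` -/
def WNc {K : Type} [Group K] (χ : K →* Zm) (Y : Set K) (J : Set (Y × ℤ)) (h : ℤ) :
    WN e χ Y J :=
  HN.of _ _ (Monoid.CoprodI.of (M := fun _ : ℤ => Cop K E) (i := h) (inr e.c))

/-- the induction hypothesis in the proof of Theorem V -/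
def VIH {K : Type} [Group K] (χ : K →* Zm) (Y : Set K) : Prop :=
  ∀ Y' : Set (Hat χ), Y'.Finite → (∀ z ∈ Y', ∃ y ∈ Y, χ y = 1 ∧ ∃ h, z = hat χ y h) →
    Vis (GY e (Hat χ) Y') {GYc e (Hat χ) Y'}

end gy

section gs3

variable {E : Type} [Group E]

/-- the index set of the pairs of the group `Gamma3` of Lemma S -/
def G3I (E : Type) {K : Type} [Group K] (χ : K →* Zm) (Y : Set K) : Type :=
  {p : Y × E // χ p.1 = 1}

/-- the first elements of the pairs -/
def g3x {K : Type} (R : Type) [Group K] [Group R] (χ : K →* Zm) (Y : Set K) (ζ : E → ℤ)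
    (p : G3I E χ Y) : Cop (Hat χ) (CopI E R) :=
  inl (hat χ (p.1.1 : K) (Multiplicative.ofAdd (ζ p.1.2)))

/-- the second elements of the pairs -/
def g3y {K R : Type} [Group K] [Group R] (χ : K →* Zm) (cR : R) (Y : Set K)
    (p : G3I E χ Y) : Cop (Hat χ) (CopI E R) :=
  inr (Monoid.CoprodI.of (M := fun _ : E => R) (i := p.1.2) cR)

/-- the group `Gamma3` of Lemma S -/
abbrev G3 {K R : Type} [Group K] [Group R] (χ : K →* Zm) (cR : R) (Y : Set K) (ζ : E → ℤ) :
    Type := HN (g3x R χ Y ζ) (g3y χ cR Y)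

end gs3

/-! ## Words in free groups -/

section fw

variable {S : Type}

/-- the leveled word of a word in a free group, starting at the height `h` -/
def lft (χ : S → ℤ) : ℤ → List (S × Bool) → List ((S × ℤ) × Bool)
  | _, [] => []
  | h, (s, true) :: L => ((s, h), true) :: lft χ (h + χ s) L
  | h, (s, false) :: L => ((s, h - χ s), false) :: lft χ (h - χ s) L

/-- the value of the character on a word -/
def csum (χ : S → ℤ) (L : List (S × Bool)) : ℤ :=
  (L.map fun p => if p.2 then χ p.1 else -χ p.1).sum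

open Classical in
/-- the exponent sum of the letter `s` -/
def esum (s : S) (L : List (S × Bool)) : ℤ :=
  (L.map fun p => if p.1 = s then (if p.2 then (1 : ℤ) else -1) else 0).sum

/-- the set of the letters of a word -/
def lset {T : Type} (L : List (T × Bool)) : Set T := {s | ∃ p ∈ L, p.1 = s}

end fw

/-! ## Lists and relators -/

section lists

variable {G G' : Type} [Group G] [Group G']

/-- the word of a list, with `φ` on the coefficients and `ν` for the letter; `true` is the sign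
plus -/
def wd {P : Type} [Group P] (φ : G →* P) (ν : P) (r : List (Bool × G)) : P :=
  (r.map fun p => (if p.1 then ν else ν⁻¹) * φ p.2).prod

/-- cyclically reduced: coefficients between letters of different signs are not trivial -/
def CR (r : List (Bool × G)) : Prop :=
  (r ++ r).IsChain fun p q => p.1 ≠ q.1 → p.2 ≠ 1

/-- not a repetition, and not empty -/
def Pr {α : Type} (r : List α) : Prop :=
  ∀ (q : ℕ) (s : List α), r = (List.replicate q s).flatten → q = 1

/-- the exponent sum -/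
def sg (r : List (Bool × G)) : ℤ := (r.map fun p => if p.1 then (1 : ℤ) else -1).sum

/-- the image of a list -/
def mp (π : G →* G') (r : List (Bool × G)) : List (Bool × G') := r.map (Prod.map id π)

/-- `(G * ⟨ν⟩) / w ^ k` -/
abbrev Gam (k : ℕ) (r : List (Bool × G)) : Type :=
  Quo ({wd inl (inr (Multiplicative.ofAdd 1)) r ^ k} : Set (Cop G Zm))

/-- the group `G` in `Gam k r` -/
def Gam.of (k : ℕ) (r : List (Bool × G)) : G →* Gam k r := (Quo.mk _).comp inl

/-- `(B * F(ν_i)) / (w_i ^ k)` -/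
abbrev GamF (k : ℕ) {I : Type} (r : I → List (Bool × G)) : Type :=
  Quo (Set.range fun i : I => (wd inl (inr (FreeGroup.of i)) (r i) ^ k : Cop G (FreeGroup I)))

/-- the group `G` in `GamF k r` -/
def GamF.of (k : ℕ) {I : Type} (r : I → List (Bool × G)) : G →* GamF k r := (Quo.mk _).comp inl

/-- the product `x_1 y_1 ... x_n y_n` -/
def ow {A B : Type} [Group A] [Group B] (s : List (A × B)) : Cop A B :=
  (s.map fun p => (inl p.1 * inr p.2 : Cop A B)).prod

/-- `(A * B) / (x_1 y_1 ... x_n y_n) ^ k` -/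
abbrev Oq (k : ℕ) {A B : Type} [Group A] [Group B] (s : List (A × B)) : Type :=
  Quo ({ow s ^ k} : Set (Cop A B))

/-- adjoining a letter with a relator of length `m` -/
def EEm (m : ℕ) : Prop := ∀ (k : ℕ), 1 ≤ k → ∀ (G G' : Type) [Group G] [Group G'] (π : G →* G')
  (r : List (Bool × G)), InC k G → InC 1 G' → r.length = m → CR (mp π r) → Pr (mp π r) →
  Function.Injective (Gam.of k r) ∧ InC k (Gam k r)

/-- one relator products with a relator of length `2 n` -/
def OOn (n : ℕ) : Prop := ∀ (k : ℕ), 1 ≤ k → ∀ (A B A' B' : Type) [Group A] [Group B] [Group A']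
  [Group B'] (α : A →* A') (β : B →* B') (s : List (A × B)), InC k A → InC k B → InC 1 A' →
  InC 1 B' → s.length = n → (∀ p ∈ s, α p.1 ≠ 1 ∧ β p.2 ≠ 1) → Pr (s.map (Prod.map α β)) →
  Function.Injective ((Quo.mk _).comp inl : A →* Oq k s) ∧
  Function.Injective ((Quo.mk _).comp inr : B →* Oq k s) ∧ InC k (Oq k s)

/-- the product of the coefficients behind the letters of sign `b` -/
def Xs (b : Bool) (r : List (Bool × G)) : G := ((r.filter fun p => p.1 == b).map Prod.snd).prod

/-- the conditions on a list in the family theorem -/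
structure FCond {K : Type} [Group K] (π : G →* G') (F : G' →* K) (Y : Set K) (m : ℕ)
    (r : List (Bool × G)) : Prop where
  len : r.length ≤ m
  cr : CR (mp π r)
  pr : Pr (mp π r)
  ext : (sg r ≠ 0 ∧ ∃ (b : Bool) (g g' : G) (r' : List (Bool × G)),
      r = (b, g) :: (b, g') :: r' ∧ F (π g) = 1) ∨
    (sg r = 0 ∧ F (π (Xs false r)) * F (π (Xs true r)) = 1)
  vis : ∃ p ∈ r, F (π p.2) ∈ Y

/-- the family theorem for lists of length at most `m` -/
def FEm (m : ℕ) : Prop := ∀ (K : Type) [Group K] (Y : Set K), Vis K Y →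
  ∀ (k : ℕ), 1 ≤ k → ∀ (B B' : Type) [Group B] [Group B'] (π : B →* B') (F : B' →* K)
  (I : Type) [Finite I] (r : I → List (Bool × B)), InC k B → InC 1 B' →
  (∀ i, FCond π F Y m (r i)) → Function.Injective (GamF.of k r) ∧ InC k (GamF k r)

end lists

/-! ## Windows -/

section win

/-- `D * (copies of L indexed by the integers)` -/
abbrev PP (D L : Type) [Group D] [Group L] : Type := Cop D (CopI ℤ L)

variable {D L D' L' : Type} [Group D] [Group L] [Group D'] [Group L']

/-- the copy of `L` at the level `h` -/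
def lev (D : Type) [Group D] (h : ℤ) : L →* PP D L :=
  (inr : CopI ℤ L →* PP D L).comp (Monoid.CoprodI.of (M := fun _ : ℤ => L) (i := h))

/-- homomorphisms from `PP D L` -/
def PPlift {H : Type} [Group H] (f : D →* H) (g : ℤ → L →* H) : PP D L →* H :=
  Monoid.Coprod.lift f (Monoid.CoprodI.lift g)

@[simp] lemma PPlift_inl {H : Type} [Group H] (f : D →* H) (g : ℤ → L →* H) (d : D) :
    PPlift f g (inl d) = f d := by simp [PPlift]

@[simp] lemma PPlift_lev {H : Type} [Group H] (f : D →* H) (g : ℤ → L →* H) (h : ℤ) (l : L) :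
    PPlift f g (lev D h l) = g h l := by simp [PPlift, lev]

lemma PP_hom_ext {H : Type} [Group H] {f f' : PP D L →* H} (h1 : ∀ d, f (inl d) = f' (inl d))
    (h2 : ∀ h l, f (lev D h l) = f' (lev D h l)) : f = f' := by
  apply Monoid.Coprod.hom_ext
  · ext d
    exact h1 d
  · apply Monoid.CoprodI.ext_hom
    intro h
    ext l
    exact h2 h l

/-- functoriality -/
def PPmap (δ : D →* D') (l : L →* L') : PP D L →* PP D' L' :=
  PPlift (inl.comp δ) fun h => (lev D' h).comp l

/-- the subgroup generated by `D` and the levels between `a` and `b` -/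
def seg (D L : Type) [Group D] [Group L] (a b : ℤ) : Subgroup (PP D L) :=
  Subgroup.closure (Set.range (inl : D →* PP D L) ∪ {x | ∃ h : ℤ, a ≤ h ∧ h ≤ b ∧ ∃ l : L,
    x = lev D h l})

/-- `f` outside the level `t`, a new copy of `L` at the level `t` -/
def newl {G : Type} [Group G] (f : PP D L →* G) (t : ℤ) : PP D L →* Cop G L :=
  PPlift (inl.comp (f.comp inl)) fun h => if h = t then inr else inl.comp (f.comp (lev D h))

/-- the relator `ρ` may be used to adjoin the level `t` -/
def AddOk (k : ℕ) (δ : D →* D') (l : L →* L') (ρ : PP D L) (S : Subgroup (PP D' L')) (t : ℤ) :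
    Prop :=
  ∀ (G G' : Type) [Group G] [Group G'] (θ : G →* G') (f : PP D L →* G) (f' : PP D' L' →* G'),
    InC k G → InC 1 G' → (∀ p, θ (f p) = f' (PPmap δ l p)) → Set.InjOn f' S →
    Function.Injective ((Quo.mk _).comp inl : G →* Quo ({newl f t ρ ^ k} : Set (Cop G L))) ∧
    InC k (Quo ({newl f t ρ ^ k} : Set (Cop G L)))

/-- the word of a list with many letters (levels), with `φ` on the coefficients and the letters
`ν h` -/
def wg {H : Type} [Group H] (φ : D →* H) (ν : ℤ → H) (r : List (ℤ × Bool × D)) : H :=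
  (r.map fun p => (if p.2.1 then ν p.1 else (ν p.1)⁻¹) * φ p.2.2).prod

/-- the word of a list with many letters (levels) in `PP D Zm` -/
def wm (r : List (ℤ × Bool × D)) : PP D Zm :=
  wg (inl : D →* PP D Zm) (fun h => lev D h (Multiplicative.ofAdd 1)) r

/-- cyclically reduced lists with many letters -/
def CRM (r : List (ℤ × Bool × D)) : Prop :=
  (r ++ r).IsChain fun p q => p.1 = q.1 → p.2.1 ≠ q.2.1 → p.2.2 ≠ 1

/-- reduced lists with many letters -/
def RM (r : List (ℤ × Bool × D)) : Prop :=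
  r.IsChain fun p q => p.1 = q.1 → p.2.1 ≠ q.2.1 → p.2.2 ≠ 1

/-- the leveled list of a list over `B` starting at the height `h`; `t` is the shift of the
letter -/
def lml {B : Type} [Group B] (χ : B →* Zm) (ι : Hat χ →* D) (t : ℤ) :
    ℤ → List (Bool × B) → List (ℤ × Bool × D)
  | _, [] => []
  | h, (true, g) :: r => (h, true, ι (hat χ g (Multiplicative.ofAdd (h + t)))) ::
      lml χ ι t (h + t + Multiplicative.toAdd (χ g)) r
  | h, (false, g) :: r => (h - t, false, ι (hat χ g (Multiplicative.ofAdd (h - t)))) ::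
      lml χ ι t (h - t + Multiplicative.toAdd (χ g)) r

/-- the relators of the family of leveled lists, with the letters indexed by `J × ℤ` -/
def DArel (k : ℕ) {B : Type} [Group B] (χ : B →* Zm) (ι : Hat χ →* D) {J : Type} (t : J → ℤ)
    (r : J → List (Bool × B)) : Set (Cop D (FreeGroup (J × ℤ))) :=
  Set.range fun p : J × ℤ => wg (inl : D →* Cop D (FreeGroup (J × ℤ)))
    (fun h => inr (FreeGroup.of (p.1, h))) (lml χ ι (t p.1) p.2 (r p.1)) ^ k

/-- the group with all leveled relators over `D` -/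
abbrev DA (k : ℕ) {B : Type} [Group B] (χ : B →* Zm) (ι : Hat χ →* D) {J : Type} (t : J → ℤ)
    (r : J → List (Bool × B)) : Type := Quo (DArel k χ ι t r)

/-- the group `D` in `DA` -/
def DA.of (k : ℕ) {B : Type} [Group B] (χ : B →* Zm) (ι : Hat χ →* D) {J : Type} (t : J → ℤ)
    (r : J → List (Bool × B)) : D →* DA k χ ι t r := (Quo.mk _).comp inl

/-- the endomorphism killing the levels outside `[a, b]` -/
def kap (D L : Type) [Group D] [Group L] (a b : ℤ) : PP D L →* PP D L :=
  PPlift inl fun h => if a ≤ h ∧ h ≤ b then lev D h else 1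

/-- the relators of the window `[a, b]` -/
def WR (k : ℕ) (w : ℤ) (ρ : ℤ → PP D L) (a b : ℤ) : Set (PP D L) :=
  {x | ∃ y : ℤ, a ≤ y ∧ y + w ≤ b ∧ x = ρ y ^ k} ∪
    {x | ∃ (h : ℤ) (l : L), ¬ (a ≤ h ∧ h ≤ b) ∧ x = lev D h l}

/-- the group of the window `[a, b]` -/
abbrev Wab (k : ℕ) (w : ℤ) (ρ : ℤ → PP D L) (a b : ℤ) : Type := Quo (WR k w ρ a b)

/-- the group with all relators -/
abbrev Winf (k : ℕ) (ρ : ℤ → PP D L) : Type := Quo (Set.range fun y : ℤ => ρ y ^ k)

/-- the path word of a list of exponent sum zero, starting at the height `s` -/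
def pw {G : Type} [Group G] : ℤ → List (Bool × G) → PP Unit G
  | _, [] => 1
  | s, (b, g) :: r => lev Unit (s + if b then 1 else -1) g * pw (s + if b then 1 else -1) r

end win

end

end ORG
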