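import Pool.Agent.ORG.Defs

/-!
# ORG: definitions for part 2 (relators)
-/

set_option autoImplicit false

open Monoid.Coprod

namespace ORG

noncomputable section

/-! ## Blocks -/

section blocks

variable {D : Type} [Group D]

/-- the leveled list of a list of blocks: each block is a letter of level `t`, with its coefficient,
followed by a list -/
def ub (t : ℤ) (bl : List (Bool × D × List (ℤ × Bool × D))) : List (ℤ × Bool × D) :=
  bl.flatMap fun b => (t, b.1, b.2.1) :: b.2.2

/-- the list in the letter of the level `t` of a list of blocks -/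
def tb (bl : List (Bool × D × List (ℤ × Bool × D))) : List (Bool × PP D Zm) :=
  bl.map fun b => (b.1, inl b.2.1 * wm b.2.2)

/-- the image of a leveled list -/
def mpm {D' : Type} [Group D'] (δ : D →* D') (r : List (ℤ × Bool × D)) : List (ℤ × Bool × D') :=
  r.map (Prod.map id (Prod.map id δ))

end blocks

/-! ## Paths -/

/-- the heights after the letters of a list, starting at `s` -/
def hts {G : Type} : ℤ → List (Bool × G) → List ℤ
  | _, [] => []
  | s, (b, _) :: r => (s + if b then 1 else -1) :: hts (s + if b then 1 else -1) r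

/-! ## Active lists -/

/-- the conditions on an active list -/
structure ACond {B B' : Type} [Group B] [Group B'] (π : B →* B') (χ' : B' →* Zm) (m : ℕ) (t : ℤ)
    (r : List (Bool × B)) : Prop where
  len : r.length ≤ m
  cr : CR (mp π r)
  pr : Pr (mp π r)
  tot : t * sg r + (r.map fun p => Multiplicative.toAdd (χ' (π p.2))).sum = 0
  act : ∃ p ∈ r, χ' (π p.2) ≠ 1
  two : t ≠ 0 → ∃ (b : Bool) (g g' : B) (r' : List (Bool × B)),
    r = (b, g) :: (b, g') :: r' ∧ χ' (π g) = 1

/-- the copy at the height `h` of a list whose coefficients are unseen -/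
def hl {B : Type} [Group B] (χ : B →* Zm) (h : ℤ) (r : List (Bool × B)) :
    List (Bool × Hat χ) :=
  r.map (Prod.map id fun g => hat χ g (Multiplicative.ofAdd h))

/-- the conclusion of the family theorem for the data `K`, `Y` -/
def FConcl (m : ℕ) (K : Type) [Group K] (Y : Set K) : Prop :=
  ∀ (k : ℕ), 1 ≤ k → ∀ (B B' : Type) [Group B] [Group B'] (π : B →* B') (F : B' →* K)
  (I : Type) [Finite I] (r : I → List (Bool × B)), InC k B → InC 1 B' →
  (∀ i, FCond π F Y m (r i)) → Function.Injective (GamF.of k r) ∧ InC k (GamF k r)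

/-- the letter of `GamF` -/
def GamF.t {G : Type} [Group G] (k : ℕ) {I : Type} (r : I → List (Bool × G)) (i : I) :
    GamF k r := Quo.mk _ (inr (FreeGroup.of i))

/-- injectivity of a window in a larger one, for the elements of the window -/
def WInj {D L : Type} [Group D] [Group L] (k : ℕ) (w : ℤ) (ρ : ℤ → PP D L) (a b a' b' : ℤ) :
    Prop := ∀ x ∈ seg D L a b, Quo.mk (WR k w ρ a' b') x = 1 → Quo.mk (WR k w ρ a b) x = 1

end

end ORG
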