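import Pool.Agent.ORG.Targets2

/-!
# ORG: target `T_ACF` (finitely many active lists)
-/

set_option autoImplicit false

open Monoid.Coprod

namespace ORG

noncomputable section

private lemma ACF_hatmap_id {B : Type} [Group B] (χ : B →* Zm)
    (h : ∀ g, χ ((MonoidHom.id B) g) = χ g) (z : Hat χ) :
    Hat.map χ χ (MonoidHom.id B) h z = z := by
  have : Hat.map χ χ (MonoidHom.id B) h = MonoidHom.id (Hat χ) := by
    apply Hat.hom_ext
    intro g a
    simp
  rw [this]
  rfl

private lemma ACF_mp_id {B : Type} [Group B] (r : List (Bool × B)) :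
    mp (MonoidHom.id B) r = r := by
  unfold mp
  have : (Prod.map id (MonoidHom.id B) : Bool × B → Bool × B) = id := by
    funext p
    rfl
  rw [this, List.map_id]

private lemma ACF_acond {B B' : Type} [Group B] [Group B'] {π : B →* B'} {χ' : B' →* Zm} {m : ℕ}
    {t : ℤ} {r : List (Bool × B)} (h : ACond π χ' m t r) :
    ACond (MonoidHom.id B') χ' m t (mp π r) where
  len := by
    rw [mp, List.length_map]
    exact h.len
  cr := by
    rw [ACF_mp_id]
    exact h.cr
  pr := by
    rw [ACF_mp_id]
    exact h.pr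
  tot := by
    have h1 : sg (mp π r) = sg r := by
      simp only [sg, mp, List.map_map]
      rfl
    have h2 : ((mp π r).map fun p => Multiplicative.toAdd (χ' ((MonoidHom.id B') p.2))).sum =
        (r.map fun p => Multiplicative.toAdd (χ' (π p.2))).sum := by
      simp only [mp, List.map_map]
      rfl
    rw [h1, h2]
    exact h.tot
  act := by
    obtain ⟨p, hp, hp2⟩ := h.act
    exact ⟨Prod.map id π p, List.mem_map_of_mem hp, hp2⟩
  two := by
    intro ht
    obtain ⟨b, g, g', r', hr, hg⟩ := h.two ht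
    refine ⟨b, π g, π g', mp π r', ?_, hg⟩
    rw [hr]
    rfl

private lemma ACF_empty (hC1 : T_C1) (k : ℕ) {B D : Type} [Group B] [Group D] (χ : B →* Zm)
    (ι : Hat χ →* D) (J : Type) [IsEmpty J] (t : J → ℤ) (r : J → List (Bool × B))
    (hD : InC k D) :
    Function.Injective (DA.of k χ ι t r) ∧ InC k (DA k χ ι t r) := by
  have : IsEmpty (J × ℤ) := inferInstance
  let L : DA k χ ι t r →* D := Quo.lift _
    (Monoid.Coprod.lift (MonoidHom.id D) (1 : FreeGroup (J × ℤ) →* D)) (by
      rintro x ⟨p, rfl⟩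
      exact isEmptyElim p)
  have h1 : ∀ d, L (DA.of k χ ι t r d) = d := by
    intro d
    change Quo.lift _ _ _ (Quo.mk _ (inl d)) = d
    rw [Quo.lift_mk]
    simp
  have h2 : (DA.of k χ ι t r).comp L = MonoidHom.id _ := by
    apply Quo.hom_ext
    intro x
    have : (((DA.of k χ ι t r).comp L).comp (Quo.mk _)) =
        (MonoidHom.id _).comp (Quo.mk (DArel k χ ι t r)) := by
      apply Monoid.Coprod.hom_ext
      · ext d
        change DA.of k χ ι t r (L (DA.of k χ ι t r d)) = DA.of k χ ι t r d
        rw [h1]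
      · apply FreeGroup.ext_hom
        intro p
        exact isEmptyElim p
    exact DFunLike.congr_fun this x
  refine ⟨Function.LeftInverse.injective h1, hC1 k D hD _ L ?_⟩
  exact Function.LeftInverse.injective (g := DA.of k χ ι t r) fun z => DFunLike.congr_fun h2 z

theorem p_ACF (hACT : T_ACT) (hDAS : T_DAS) (hDAF : T_DAF) (hC1 : T_C1) : T_ACF := by
  intro m hE
  have key : ∀ n : ℕ, ∀ k : ℕ, 1 ≤ k → ∀ (B B' D D' : Type) [Group B]
      [Group B'] [Group D] [Group D'] (π : B →* B') (χ : B →* Zm) (χ' : B' →* Zm)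
      (hχ : ∀ b, χ' (π b) = χ b) (δ : D →* D') (ι : Hat χ →* D) (ι' : Hat χ' →* D'),
      (∀ z, δ (ι z) = ι' (Hat.map χ χ' π hχ z)) → Function.Injective ι' → InC k D → InC 1 D' →
      ∀ (J : Type) [Finite J] (t : J → ℤ) (r : J → List (Bool × B)), Nat.card J = n →
      (∀ j, ACond π χ' m (t j) (r j)) →
      Function.Injective (DA.of k χ ι t r) ∧ InC k (DA k χ ι t r) := by
    intro n
    induction n with
    | zero =>
      intro k hk B B' D D' _ _ _ _ π χ χ' hχ δ ι ι' hδ hι' hD hD' J _ t r hJ hA
      have : IsEmpty J := by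
        rcases Nat.card_eq_zero.1 hJ with h | h
        · exact h
        · exact absurd (inferInstance : Finite J) (not_finite_iff_infinite.2 h)
      exact ACF_empty hC1 k χ ι J t r hD
    | succ n ih =>
      intro k hk B B' D D' _ _ _ _ π χ χ' hχ δ ι ι' hδ hι' hD hD' J _ t r hJ hA
      classical
      have : Nonempty J := by
        by_contra h
        rw [not_nonempty_iff] at h
        rw [Nat.card_of_isEmpty] at hJ
        omega
      obtain ⟨j₀⟩ := (inferInstance : Nonempty J)
      let S : Set J := {j₀}ᶜ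
      have hS : Nat.card S = n := by
        have h1 : Nat.card ({j₀} : Set J) = 1 := by simp
        have h2 := Nat.card_congr (Equiv.Set.sumCompl ({j₀} : Set J))
        rw [Nat.card_sum, h1, hJ] at h2
        change Nat.card (({j₀}ᶜ : Set J) : Type) = n
        omega
      have : Unique ((Sᶜ : Set J) : Type) := by
        have : (Sᶜ : Set J) = {j₀} := compl_compl _
        rw [this]
        infer_instance
      -- the group for `S`
      obtain ⟨hi1, hc1⟩ := ih k hk B B' D D' π χ χ' hχ δ ι ι' hδ hι' hD hD' S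
        (fun j : S => t j) (fun j : S => r j) hS (fun j => hA j)
      obtain ⟨hi1', hc1'⟩ := ih 1 le_rfl B' B' D' D' (MonoidHom.id B') χ' χ' (fun _ => rfl)
        (MonoidHom.id D') ι' ι' (fun z => by rw [ACF_hatmap_id]; rfl) hι' hD' hD' S
        (fun j : S => t j) (fun j : S => mp π (r j)) hS (fun j => ACF_acond (hA j))
      obtain ⟨Δ, hΔ⟩ := hDAF k B B' D D' π χ χ' hχ δ ι ι' hδ S (fun j : S => t j)
        (fun j : S => r j)
      obtain ⟨Θ, hΘ, hΘof⟩ := hDAS k B D χ ι J t r S
      obtain ⟨hi2, hc2⟩ := hACT m hE k hk B B' (DA k χ ι (fun j : S => t j) (fun j : S => r j))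
        (DA 1 χ' ι' (fun j : S => t j) (fun j : S => mp π (r j))) π χ χ' hχ Δ
        ((DA.of k χ ι (fun j : S => t j) (fun j : S => r j)).comp ι)
        ((DA.of 1 χ' ι' (fun j : S => t j) (fun j : S => mp π (r j))).comp ι')
        (fun z => by
          rw [MonoidHom.comp_apply, hΔ, hδ]
          rfl) (hi1'.comp hι') hc1 hc1' ((Sᶜ : Set J) : Type) (fun j => t j) (fun j => r j)
        (fun j => hA j)
      refine ⟨?_, hC1 k _ hc2 _ Θ hΘ⟩
      intro d d' hdd
      apply hi1
      apply hi2
      rw [← hΘof, ← hΘof, hdd]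
  intro k hk B B' D D' _ _ _ _ π χ χ' hχ δ ι ι' hδ hι' hD hD' J _ t r hA
  exact key (Nat.card J) k hk B B' D D' π χ χ' hχ δ ι ι' hδ hι' hD hD' J t r rfl hA

end

end ORG
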