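import Pool.Agent.ORG.Targets2

/-!
# ORG: one active list (helper84)
-/

set_option autoImplicit false

open Monoid.Coprod

namespace ORG

noncomputable section

namespace ACT_

section words

variable {D D' H H' : Type} [Group D] [Group D'] [Group H] [Group H']

theorem wg_nil (φ : D →* H) (ν : ℤ → H) : wg φ ν [] = 1 := by simp [wg]

theorem wg_cons (φ : D →* H) (ν : ℤ → H) (p : ℤ × Bool × D) (r : List (ℤ × Bool × D)) :
    wg φ ν (p :: r) = (if p.2.1 then ν p.1 else (ν p.1)⁻¹) * φ p.2.2 * wg φ ν r := by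
  simp [wg]

theorem map_wg (f : H →* H') (φ : D →* H) (ν : ℤ → H) (r : List (ℤ × Bool × D)) :
    f (wg φ ν r) = wg (f.comp φ) (fun h => f (ν h)) r := by
  induction r with
  | nil => rw [wg_nil, wg_nil, map_one]
  | cons p r ih =>
    rw [wg_cons, wg_cons, map_mul, map_mul, ih]
    split_ifs
    · rfl
    · rw [map_inv]
      rfl

theorem wg_mpm (δ : D →* D') (φ : D' →* H) (ν : ℤ → H) (r : List (ℤ × Bool × D)) :
    wg φ ν (mpm δ r) = wg (φ.comp δ) ν r := by
  induction r with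
  | nil => simp [wg, mpm]
  | cons p r ih =>
    have h : mpm δ (p :: r) = (p.1, p.2.1, δ p.2.2) :: mpm δ r := rfl
    rw [h, wg_cons, wg_cons, ih]
    rfl

theorem pp_wm (δ : D →* D') (r : List (ℤ × Bool × D)) :
    PPmap δ (MonoidHom.id Zm) (wm r) = wm (mpm δ r) := by
  unfold wm
  rw [map_wg, wg_mpm]
  have h1 : (PPmap δ (MonoidHom.id Zm)).comp inl = inl.comp δ := by
    ext d
    simp [PPmap]
  have h2 : (fun h => PPmap δ (MonoidHom.id Zm) (lev D h (Multiplicative.ofAdd 1))) =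
      fun h => lev D' h (Multiplicative.ofAdd 1) := by
    funext h
    simp [PPmap]
  rw [h1, h2]

theorem wm_mem (a b : ℤ) (r : List (ℤ × Bool × D)) (h : ∀ p ∈ r, a ≤ p.1 ∧ p.1 ≤ b) :
    wm r ∈ seg D Zm a b := by
  induction r with
  | nil =>
    have : (wm ([] : List (ℤ × Bool × D))) = 1 := wg_nil _ _
    rw [this]
    exact one_mem _
  | cons p r ih =>
    have h1 : wm (p :: r) = _ := wg_cons _ _ p r
    rw [h1]
    refine mul_mem (mul_mem ?_ ?_) (ih fun q hq => h q (List.mem_cons_of_mem _ hq))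
    · have h2 : lev D p.1 (Multiplicative.ofAdd 1 : Zm) ∈ seg D Zm a b :=
        Subgroup.subset_closure (Or.inr ⟨p.1, (h p List.mem_cons_self).1,
          (h p List.mem_cons_self).2, _, rfl⟩)
      split_ifs
      · exact h2
      · exact inv_mem h2
    · exact Subgroup.subset_closure (Or.inl ⟨p.2.2, rfl⟩)

end words

section emb

variable {B D : Type} [Group B] [Group D]

theorem da_emb (k : ℕ) (χ : B →* Zm) (ι : Hat χ →* D) {J : Type} [Unique J] (t : J → ℤ)
    (r : J → List (Bool × B)) (lo : ℤ) :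
    ∃ Θ : DA k χ ι t r →* Winf k (fun y : ℤ => wm (lml χ ι (t default) (y - lo) (r default))),
      Function.Injective Θ ∧ ∀ d, Θ (DA.of k χ ι t r d) = Quo.mk _ (inl d) := by
  let Φ : Cop D (FreeGroup (J × ℤ)) →* PP D Zm := Monoid.Coprod.lift inl
    (FreeGroup.lift fun p => lev D p.2 (Multiplicative.ofAdd 1))
  let Ψ : PP D Zm →* Cop D (FreeGroup (J × ℤ)) := PPlift inl
    fun h => zpowersHom _ (inr (FreeGroup.of ((default : J), h)))
  have hΦ1 : Φ.comp inl = inl := by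
    ext d
    simp [Φ]
  have hΦ2 : ∀ p : J × ℤ, Φ (inr (FreeGroup.of p)) = lev D p.2 (Multiplicative.ofAdd 1) := by
    intro p
    simp [Φ]
  have hΨ1 : Ψ.comp inl = inl := by
    ext d
    simp [Ψ]
  have hΨ2 : ∀ h : ℤ, Ψ (lev D h (Multiplicative.ofAdd 1)) =
      inr (FreeGroup.of ((default : J), h)) := by
    intro h
    simp [Ψ]
  have hΨΦ : ∀ x, Ψ (Φ x) = x := by
    intro x
    have : Ψ.comp Φ = MonoidHom.id _ := by
      apply Monoid.Coprod.hom_ext
      · ext d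
        have h1 := DFunLike.congr_fun hΦ1 d
        have h2 := DFunLike.congr_fun hΨ1 d
        simp only [MonoidHom.comp_apply] at h1 h2
        simp only [MonoidHom.comp_apply, MonoidHom.id_apply]
        rw [h1, h2]
      · ext p
        simp only [MonoidHom.comp_apply, MonoidHom.id_apply]
        rw [hΦ2, hΨ2]
        rw [show ((default : J), p.2) = p from Prod.ext (Subsingleton.elim _ _) rfl]
    exact DFunLike.congr_fun this x
  let R1 := DArel k χ ι t r
  let R2 : Set (PP D Zm) :=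
    Set.range fun y : ℤ => wm (lml χ ι (t default) (y - lo) (r default)) ^ k
  let Θ : Quo R1 →* Quo R2 := Quo.lift R1 ((Quo.mk R2).comp Φ) (by
    rintro _ ⟨p, rfl⟩
    rw [MonoidHom.comp_apply, map_pow, map_wg, hΦ1]
    simp only [hΦ2]
    apply Quo.mk_rel
    refine ⟨p.2 + lo, ?_⟩
    have hp : p.1 = default := Subsingleton.elim _ _
    simp only [add_sub_cancel_right, hp]
    rfl)
  let Ξ : Quo R2 →* Quo R1 := Quo.lift R2 ((Quo.mk R1).comp Ψ) (by
    rintro _ ⟨y, rfl⟩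
    simp only [MonoidHom.comp_apply, map_pow]
    have h1 : Ψ (wm (lml χ ι (t default) (y - lo) (r default))) =
        wg inl (fun h => inr (FreeGroup.of ((default : J), h)))
          (lml χ ι (t default) (y - lo) (r default)) := by
      unfold wm
      rw [map_wg, hΨ1]
      simp only [hΨ2]
    rw [h1, ← map_pow]
    apply Quo.mk_rel
    exact ⟨(default, y - lo), rfl⟩)
  have hΞΘ : ∀ x, Ξ (Θ x) = x := by
    intro x
    obtain ⟨z, rfl⟩ := Quo.mk_surj R1 x
    show Ξ (Quo.lift R1 ((Quo.mk R2).comp Φ) _ (Quo.mk R1 z)) = _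
    rw [Quo.lift_mk]
    show Quo.lift R2 ((Quo.mk R1).comp Ψ) _ (Quo.mk R2 (Φ z)) = _
    rw [Quo.lift_mk, MonoidHom.comp_apply, hΨΦ]
  refine ⟨Θ, Function.LeftInverse.injective hΞΘ, fun d => ?_⟩
  have h1 := DFunLike.congr_fun hΦ1 d
  rw [MonoidHom.comp_apply] at h1
  show Quo.lift R1 ((Quo.mk R2).comp Φ) _ (Quo.mk R1 (inl d)) = _
  rw [Quo.lift_mk, MonoidHom.comp_apply, h1]

end emb

end ACT_

open ACT_ in
theorem p_ACT (hLM : T_LM) (hLMF : T_LMF) (hLA : T_LA) (hML : T_ML) (hWIN : T_WIN)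
    (hCF : T_CF) (hC1 : T_C1) : T_ACT := by
  intro m hEE k hk B B' D D' _ _ _ _ π χ χ' hχ δ ι ι' hι hinj hD hD' J _ t r hr
  obtain ⟨len, cr, pr, tot, act, two⟩ := hr default
  set t0 := t default with ht0
  set r0 := r default with hr0
  have htot : t0 * sg r0 + (r0.map fun p => Multiplicative.toAdd (χ p.2)).sum = 0 := by
    simpa only [hχ] using tot
  obtain ⟨-, hsh, hlen, -, -⟩ := hLM B D χ ι t0
  obtain ⟨-, -, hlen', hcr', hpr'⟩ := hLM B' D' χ' ι' t0
  have hla := hLA B D χ ι t0 r0 htot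
    (by obtain ⟨p, hp, h⟩ := act; exact ⟨p, hp, by rwa [← hχ]⟩)
    (by
      intro h
      obtain ⟨b, g, g', r', h1, h2⟩ := two h
      exact ⟨b, g, g', r', h1, by rwa [← hχ]⟩)
  -- extreme levels
  obtain ⟨p1, hp1, q1, hq1, hpq⟩ := hla 0
  set L0 : List ℤ := (lml χ ι t0 0 r0).map Prod.fst with hL0
  have hmem1 : p1.1 ∈ L0 := List.mem_map_of_mem hp1
  have hmem2 : q1.1 ∈ L0 := List.mem_map_of_mem hq1
  obtain ⟨lo, hlo, hlo'⟩ := Finset.exists_min_image L0.toFinset id ⟨_, List.mem_toFinset.2 hmem1⟩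
  obtain ⟨hi, hhi, hhi'⟩ := Finset.exists_max_image L0.toFinset id ⟨_, List.mem_toFinset.2 hmem1⟩
  rw [List.mem_toFinset] at hlo hhi
  have hb : ∀ x ∈ L0, lo ≤ x ∧ x ≤ hi := fun x hx =>
    ⟨hlo' x (List.mem_toFinset.2 hx), hhi' x (List.mem_toFinset.2 hx)⟩
  have hlohi : 1 ≤ hi - lo := by
    have h1 := hb _ hmem1
    have h2 := hb _ hmem2
    rcases lt_or_gt_of_ne hpq with h | h <;> omega
  -- the levels of the shifted lists
  have hlev : ∀ y : ℤ, (lml χ ι t0 (y - lo) r0).map Prod.fst = L0.map fun x => x + (y - lo) := by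
    intro y
    have := hsh r0 0 (y - lo)
    rw [zero_add] at this
    rw [this, hL0, List.map_map]
    rfl
  have hin : ∀ y : ℤ, ∀ p ∈ lml χ ι t0 (y - lo) r0, y ≤ p.1 ∧ p.1 ≤ y + (hi - lo) := by
    intro y p hp
    have h1 : p.1 ∈ (lml χ ι t0 (y - lo) r0).map Prod.fst := List.mem_map_of_mem hp
    rw [hlev] at h1
    obtain ⟨x, hx, h2⟩ := List.mem_map.1 h1
    have := hb x hx
    omega
  have hbot : ∀ y : ℤ, ∃ p ∈ lml χ ι t0 (y - lo) r0, p.1 = y := by
    intro y
    have h1 : y ∈ (lml χ ι t0 (y - lo) r0).map Prod.fst := by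
      rw [hlev]
      exact List.mem_map.2 ⟨lo, hlo, by ring⟩
    obtain ⟨p, hp, h2⟩ := List.mem_map.1 h1
    exact ⟨p, hp, h2⟩
  have htop : ∀ y : ℤ, ∃ p ∈ lml χ ι t0 (y - lo) r0, p.1 = y + (hi - lo) := by
    intro y
    have h1 : y + (hi - lo) ∈ (lml χ ι t0 (y - lo) r0).map Prod.fst := by
      rw [hlev]
      exact List.mem_map.2 ⟨hi, hhi, by ring⟩
    obtain ⟨p, hp, h2⟩ := List.mem_map.1 h1
    exact ⟨p, hp, h2⟩
  have hmap : ∀ y : ℤ, mpm δ (lml χ ι t0 (y - lo) r0) = lml χ' ι' t0 (y - lo) (mp π r0) :=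
    fun y => hLMF B B' D D' π χ χ' hχ δ ι ι' hι t0 (y - lo) r0
  have htot' : t0 * sg (mp π r0) +
      ((mp π r0).map fun p => Multiplicative.toAdd (χ' p.2)).sum = 0 := by
    have h1 : sg (mp π r0) = sg r0 := by
      simp only [sg, mp, List.map_map]
      rfl
    have h2 : (mp π r0).map (fun p => Multiplicative.toAdd (χ' p.2)) =
        r0.map fun p => Multiplicative.toAdd (χ' (π p.2)) := by
      simp only [mp, List.map_map]
      rfl
    rw [h1, h2]
    exact tot
  have hCRM : ∀ y : ℤ, CRM (mpm δ (lml χ ι t0 (y - lo) r0)) := fun y => by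
    rw [hmap]
    exact hcr' hinj (mp π r0) (y - lo) htot' cr
  have hPr : ∀ y : ℤ, Pr (mpm δ (lml χ ι t0 (y - lo) r0)) := fun y => by
    rw [hmap]
    exact hpr' hinj (mp π r0) (y - lo) pr
  have hlenm : ∀ y : ℤ, (lml χ ι t0 (y - lo) r0).length ≤ m := fun y => by
    rw [hlen]
    exact len
  -- the levels of the images
  have hmm : ∀ (y : ℤ) (P : ℤ → Prop), (∀ p ∈ lml χ ι t0 (y - lo) r0, P p.1) →
      ∀ p ∈ mpm δ (lml χ ι t0 (y - lo) r0), P p.1 := by
    intro y P h p hp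
    obtain ⟨q, hq, rfl⟩ := List.mem_map.1 hp
    exact h q hq
  have hme : ∀ (y : ℤ) (P : ℤ → Prop), (∃ p ∈ lml χ ι t0 (y - lo) r0, P p.1) →
      ∃ p ∈ mpm δ (lml χ ι t0 (y - lo) r0), P p.1 := by
    rintro y P ⟨p, hp, h⟩
    exact ⟨_, List.mem_map_of_mem hp, h⟩
  have hid : ∀ s : List (ℤ × Bool × D'), mpm (MonoidHom.id D') s = s := by
    intro s
    have : (Prod.map id (Prod.map id ⇑(MonoidHom.id D')) : ℤ × Bool × D' → ℤ × Bool × D') = id := by
      funext p
      rfl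
    rw [mpm, this, List.map_id]
  have hW := hWIN k hk D Zm D' Zm δ (MonoidHom.id Zm) (hi - lo)
    (fun y => wm (lml χ ι t0 (y - lo) r0)) hlohi
    (fun y => wm_mem _ _ _ (hin y)) hD (hCF k).2.2.2.1 hD' (hCF 1).2.2.2.1
    (fun y => hML m hEE k hk D D' δ _ (hlenm y) (hCRM y) (hPr y) (y + (hi - lo)) y
      (y + (hi - lo) - 1) (by omega) (fun p hp => by have := hin y p hp; omega) (htop y)
      (by obtain ⟨p, hp, h⟩ := hbot y; exact ⟨p, hp, by omega⟩))
    (fun y => hML m hEE k hk D D' δ _ (hlenm y) (hCRM y) (hPr y) y (y + 1)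
      (y + (hi - lo)) (by omega) (fun p hp => by have := hin y p hp; omega) (hbot y)
      (by obtain ⟨p, hp, h⟩ := htop y; exact ⟨p, hp, by omega⟩))
    (fun y => by
      rw [pp_wm]
      refine hML m hEE 1 le_rfl D' D' (MonoidHom.id D') _ ?_ ?_ ?_ (y + (hi - lo)) y
        (y + (hi - lo) - 1) (by omega)
        (hmm y (fun x => x = y + (hi - lo) ∨ (y ≤ x ∧ x ≤ y + (hi - lo) - 1))
          fun p hp => by have := hin y p hp; omega)
        (hme y (fun x => x = y + (hi - lo)) (htop y))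
        (hme y (fun x => x ≠ y + (hi - lo))
          (by obtain ⟨p, hp, h⟩ := hbot y; exact ⟨p, hp, by omega⟩))
      · rw [mpm, List.length_map]
        exact hlenm y
      · rw [hid]
        exact hCRM y
      · rw [hid]
        exact hPr y)
    (fun y => by
      rw [pp_wm]
      refine hML m hEE 1 le_rfl D' D' (MonoidHom.id D') _ ?_ ?_ ?_ y (y + 1)
        (y + (hi - lo)) (by omega)
        (hmm y (fun x => x = y ∨ (y + 1 ≤ x ∧ x ≤ y + (hi - lo)))
          fun p hp => by have := hin y p hp; omega)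
        (hme y (fun x => x = y) (hbot y))
        (hme y (fun x => x ≠ y)
          (by obtain ⟨p, hp, h⟩ := htop y; exact ⟨p, hp, by omega⟩))
      · rw [mpm, List.length_map]
        exact hlenm y
      · rw [hid]
        exact hCRM y
      · rw [hid]
        exact hPr y)
  obtain ⟨Θ, hΘ1, hΘ2⟩ := da_emb k χ ι t r lo
  refine ⟨?_, hC1 k _ hW.1 _ Θ hΘ1⟩
  rw [injective_iff_map_eq_one]
  intro d hd
  have h1 := hΘ2 d
  rw [hd, map_one] at h1
  have h2 := hW.2 0 (inl d) (Subgroup.subset_closure (Or.inl ⟨d, rfl⟩)) h1.symm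
  exact (map_eq_one_iff _ Monoid.Coprod.inl_injective).1 h2

end

end ORG
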