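import Pool.Agent.ORG.Targets2

/-!
# ORG: `T_BC`

The list in the top letter is cyclically reduced and primitive.
-/

set_option autoImplicit false

open Monoid.Coprod

namespace ORG

noncomputable section

namespace BC_

lemma map_inj {α β : Type*} (f : α → β) (S : Set α) (hf : Set.InjOn f S) :
    ∀ l l' : List α, (∀ x ∈ l, x ∈ S) → (∀ x ∈ l', x ∈ S) → l.map f = l'.map f → l = l' := by
  intro l
  induction l with
  | nil =>
    intro l' _ _ h
    cases l' with
    | nil => rfl
    | cons a l' => simp at h
  | cons a l ih =>
    intro l' h1 h2 h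
    cases l' with
    | nil => simp at h
    | cons b l' =>
      simp only [List.map_cons, List.cons.injEq] at h
      obtain ⟨ha, hl⟩ := h
      have e : a = b := hf (h1 a (by simp)) (h2 b (by simp)) ha
      subst e
      rw [ih l' (fun x hx => h1 x (by simp [hx])) (fun x hx => h2 x (by simp [hx])) hl]

variable {D : Type} [Group D]

lemma ub_cons (t : ℤ) (b : Bool × D × List (ℤ × Bool × D))
    (bl : List (Bool × D × List (ℤ × Bool × D))) :
    ub t (b :: bl) = ((t, b.1, b.2.1) :: b.2.2) ++ ub t bl := by
  simp [ub]

lemma ub_append (t : ℤ) (bl bl' : List (Bool × D × List (ℤ × Bool × D))) :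
    ub t (bl ++ bl') = ub t bl ++ ub t bl' := by
  simp [ub]

lemma ub_rep (t : ℤ) (q : ℕ) (s : List (Bool × D × List (ℤ × Bool × D))) :
    ub t (List.replicate q s).flatten = (List.replicate q (ub t s)).flatten := by
  induction q with
  | zero => simp [ub]
  | succ q ih => rw [List.replicate_succ, List.replicate_succ, List.flatten_cons,
      List.flatten_cons, ub_append, ih]

lemma RM_tails (t : ℤ) : ∀ bl : List (Bool × D × List (ℤ × Bool × D)), RM (ub t bl) →
    ∀ b ∈ bl, RM b.2.2 := by
  intro bl
  induction bl with
  | nil => intro _ b hb; simp at hb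
  | cons c bl ih =>
    intro h b hb
    rw [ub_cons] at h
    unfold RM at h
    rw [List.isChain_append] at h
    rcases List.mem_cons.1 hb with rfl | hb
    · exact h.1.tail
    · exact ih h.2.1 b hb

lemma chain_tb (h1 : T_NF1) (t : ℤ) : ∀ bl : List (Bool × D × List (ℤ × Bool × D)),
    RM (ub t bl) → (tb bl).IsChain fun p q => p.1 ≠ q.1 → p.2 ≠ 1 := by
  intro bl
  induction bl with
  | nil => intro _; simp [tb]
  | cons b bl ih =>
    intro h
    cases bl with
    | nil => simp [tb]
    | cons c bl =>
      have hb : RM b.2.2 := RM_tails t _ h b (by simp)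
      rw [ub_cons] at h
      unfold RM at h
      rw [List.isChain_append] at h
      obtain ⟨_, h', h''⟩ := h
      have ih' := ih h'
      have e : tb (b :: c :: bl) = (b.1, inl b.2.1 * wm b.2.2) :: tb (c :: bl) := rfl
      have e' : tb (c :: bl) = (c.1, inl c.2.1 * wm c.2.2) :: tb bl := rfl
      rw [e, e', List.isChain_cons_cons, ← e']
      refine ⟨?_, ih'⟩
      intro hne
      change b.1 ≠ c.1 at hne
      change (inl b.2.1 : PP D Zm) * wm b.2.2 ≠ 1
      by_cases h0 : b.2.2 = []
      · rw [h0]
        have hx := h'' (t, b.1, b.2.1) (by simp [h0]) (t, c.1, c.2.1) (by simp [ub_cons]) rfl hne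
        intro hh
        apply hx
        have : (inl b.2.1 : PP D Zm) = inl 1 := by
          simpa [wm, wg] using hh
        exact Monoid.Coprod.inl_injective this
      · exact h1 D b.2.1 b.2.2 hb h0

end BC_

open BC_ in
/-- the list in the top letter is cyclically reduced and primitive -/
theorem p_BC (h1 : T_NF1) (h2 : T_NF2) : T_BC := by
  intro D _ t bl hc _
  have hc' : RM (ub t (bl ++ bl)) := by
    rw [ub_append]
    exact hc
  have hr : RM (ub t bl) := by
    have := hc'
    rw [ub_append] at this
    unfold RM at this
    rw [List.isChain_append] at this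
    exact this.1
  constructor
  · have := chain_tb h1 t (bl ++ bl) hc'
    unfold CR
    have e : tb (bl ++ bl) = tb bl ++ tb bl := by simp [tb]
    rw [← e]
    exact this
  · intro hp q s hs
    let φ : Bool × D × List (ℤ × Bool × D) → Bool × PP D Zm :=
      fun b => (b.1, inl b.2.1 * wm b.2.2)
    have hinj : Set.InjOn φ {b | RM b.2.2} := by
      rintro ⟨e, d, r⟩ hb ⟨e', d', r'⟩ hb' h
      have he : e = e' := congrArg Prod.fst h
      have hw : (inl d : PP D Zm) * wm r = inl d' * wm r' := congrArg Prod.snd h
      obtain ⟨rfl, rfl⟩ := h2 D d d' r r' hb hb' hw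
      rw [he]
    have htl := RM_tails t bl hr
    -- the list of blocks is a repetition
    have key : ∃ s' : List (Bool × D × List (ℤ × Bool × D)),
        bl = (List.replicate q s').flatten := by
      rcases Nat.eq_zero_or_pos q with rfl | hq
      · refine ⟨[], ?_⟩
        have : tb bl = [] := by simpa using hs
        have : bl = [] := by simpa [tb] using this
        simp [this]
      · refine ⟨bl.take s.length, ?_⟩
        have hs1 : (bl.take s.length).map φ = s := by
          rw [List.map_take]
          change (tb bl).take s.length = s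
          rw [hs]
          obtain ⟨q', rfl⟩ : ∃ q', q = q' + 1 := ⟨q - 1, by omega⟩
          rw [List.replicate_succ, List.flatten_cons, List.take_left']
          rfl
        apply map_inj φ {b | RM b.2.2} hinj
        · exact htl
        · intro x hx
          rw [List.mem_flatten] at hx
          obtain ⟨l, hl, hx⟩ := hx
          rw [List.mem_replicate] at hl
          rw [hl.2] at hx
          exact htl x (List.mem_of_mem_take hx)
        · rw [List.map_flatten, List.map_replicate, hs1]
          exact hs
    obtain ⟨s', hs'⟩ := key
    apply hp q (ub t s')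
    rw [← ub_rep, ← hs']

end

end ORG
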