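import Pool.Agent.ORG.Targets2

/-!
# ORG: BL, blocks
-/

set_option autoImplicit false
set_option linter.unusedSectionVars false

open Monoid.Coprod

namespace ORG

noncomputable section

namespace BL_

variable {D : Type} [Group D]

lemma ub_cons (t : ℤ) (b : Bool × D × List (ℤ × Bool × D))
    (bl : List (Bool × D × List (ℤ × Bool × D))) :
    ub t (b :: bl) = (t, b.1, b.2.1) :: (b.2.2 ++ ub t bl) := by
  simp [ub]

lemma tb_cons (b : Bool × D × List (ℤ × Bool × D))
    (bl : List (Bool × D × List (ℤ × Bool × D))) :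
    tb (b :: bl) = (b.1, inl b.2.1 * wm b.2.2) :: tb bl := by
  simp [tb]

lemma wm_nil : wm ([] : List (ℤ × Bool × D)) = 1 := by simp [wm, wg]

lemma wm_cons (p : ℤ × Bool × D) (r : List (ℤ × Bool × D)) :
    wm (p :: r) = ((if p.2.1 then lev D p.1 (Multiplicative.ofAdd (1 : ℤ)) else
      (lev D p.1 (Multiplicative.ofAdd (1 : ℤ)))⁻¹) * inl p.2.2) * wm r := by
  simp [wm, wg]

lemma wm_append (r r' : List (ℤ × Bool × D)) : wm (r ++ r') = wm r * wm r' := by
  simp [wm, wg]

lemma wd_nil {G P : Type} [Group G] [Group P] (φ : G →* P) (ν : P) :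
    wd φ ν [] = 1 := by simp [wd]

lemma wd_cons {G P : Type} [Group G] [Group P] (φ : G →* P) (ν : P) (p : Bool × G)
    (r : List (Bool × G)) :
    wd φ ν (p :: r) = ((if p.1 then ν else ν⁻¹) * φ p.2) * wd φ ν r := by
  simp [wd]

lemma part1 (t : ℤ) (r : List (ℤ × Bool × D)) : ∀ p : ℤ × Bool × D, p.1 = t → ∃ bl,
    p :: r = ub t bl ∧ ∀ b ∈ bl, ∀ q ∈ b.2.2, q ∈ r ∧ q.1 ≠ t := by
  induction r with
  | nil =>
    intro p hp
    refine ⟨[(p.2.1, p.2.2, [])], ?_, ?_⟩
    · rw [ub_cons, ← hp]
      simp [ub]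
    · intro b hb q hq
      rw [List.mem_singleton] at hb
      subst hb
      simp at hq
  | cons q r ih =>
    intro p hp
    by_cases hq : q.1 = t
    · obtain ⟨bl, h1, h2⟩ := ih q hq
      refine ⟨(p.2.1, p.2.2, []) :: bl, ?_, ?_⟩
      · rw [ub_cons, ← h1, ← hp]
        rfl
      · intro b hb q' hq'
        rcases List.mem_cons.1 hb with hb | hb
        · subst hb
          simp at hq'
        · exact ⟨List.mem_cons_of_mem _ (h2 b hb q' hq').1, (h2 b hb q' hq').2⟩
    · obtain ⟨bl, h1, h2⟩ := ih p hp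
      cases bl with
      | nil => simp [ub] at h1
      | cons b0 bl =>
        rw [ub_cons] at h1
        have h3 : p = (t, b0.1, b0.2.1) := (List.cons.inj h1).1
        have h4 : r = b0.2.2 ++ ub t bl := (List.cons.inj h1).2
        refine ⟨(b0.1, b0.2.1, q :: b0.2.2) :: bl, ?_, ?_⟩
        · rw [ub_cons, ← h3]
          show p :: q :: r = p :: (q :: b0.2.2 ++ ub t bl)
          rw [h4]
          rfl
        · intro b hb q' hq'
          rcases List.mem_cons.1 hb with hb | hb
          · subst hb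
            rcases List.mem_cons.1 hq' with h5 | h5
            · subst h5
              exact ⟨List.mem_cons_self, hq⟩
            · have h6 := h2 b0 List.mem_cons_self q' h5
              exact ⟨List.mem_cons_of_mem _ h6.1, h6.2⟩
          · have h6 := h2 b (List.mem_cons_of_mem _ hb) q' hq'
            exact ⟨List.mem_cons_of_mem _ h6.1, h6.2⟩

lemma part2 (t : ℤ) (bl : List (Bool × D × List (ℤ × Bool × D))) :
    wm (ub t bl) = wd (MonoidHom.id (PP D Zm)) (lev D t (Multiplicative.ofAdd 1)) (tb bl) := by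
  induction bl with
  | nil => simp [ub, tb, wm, wg, wd]
  | cons b bl ih =>
    rw [ub_cons, wm_cons, wm_append, ih, tb_cons, wd_cons]
    simp only [MonoidHom.id_apply]
    group

lemma newl_lev {G : Type} [Group G] (f : PP D Zm →* G) (t h : ℤ) (x : Zm) :
    newl f t (lev D h x) = if h = t then inr x else inl (f (lev D h x)) := by
  unfold newl
  rw [PPlift_lev]
  split_ifs
  · rfl
  · rfl

lemma newl_inl {G : Type} [Group G] (f : PP D Zm →* G) (t : ℤ) (d : D) :
    newl f t (inl d) = inl (f (inl d)) := by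
  unfold newl
  rw [PPlift_inl]
  rfl

lemma newl_wm {G : Type} [Group G] (f : PP D Zm →* G) (t : ℤ) (r : List (ℤ × Bool × D))
    (h : ∀ q ∈ r, q.1 ≠ t) : newl f t (wm r) = inl (f (wm r)) := by
  induction r with
  | nil => rw [wm_nil]; simp
  | cons p r ih =>
    have hp : p.1 ≠ t := h p List.mem_cons_self
    rw [wm_cons, map_mul, map_mul, ih fun q hq => h q (List.mem_cons_of_mem _ hq), map_mul,
      map_mul, map_mul, map_mul, newl_inl]
    congr 2
    split_ifs
    · rw [newl_lev, if_neg hp]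
    · rw [map_inv, map_inv, map_inv, newl_lev, if_neg hp]

lemma part3 (t : ℤ) {G : Type} [Group G] (f : PP D Zm →* G)
    (bl : List (Bool × D × List (ℤ × Bool × D))) (h : ∀ b ∈ bl, ∀ q ∈ b.2.2, q.1 ≠ t) :
    newl f t (wm (ub t bl)) = wd inl (inr (Multiplicative.ofAdd 1)) (mp f (tb bl)) := by
  induction bl with
  | nil => simp [ub, tb, wm, wg, wd, mp]
  | cons b bl ih =>
    have hm : mp f (tb (b :: bl)) = (b.1, f (inl b.2.1 * wm b.2.2)) :: mp f (tb bl) := by
      rw [tb_cons]
      simp [mp]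
    rw [hm, wd_cons, ub_cons, wm_cons, wm_append, map_mul, map_mul, map_mul,
      newl_wm f t b.2.2 (h b List.mem_cons_self),
      ih fun b' hb' => h b' (List.mem_cons_of_mem _ hb'), newl_inl, map_mul, map_mul]
    have h1 : newl f t (if b.1 then lev D t (Multiplicative.ofAdd (1 : ℤ)) else
        (lev D t (Multiplicative.ofAdd (1 : ℤ)))⁻¹) =
        if b.1 then (inr (Multiplicative.ofAdd (1 : ℤ)) : Cop G Zm) else
          (inr (Multiplicative.ofAdd (1 : ℤ)))⁻¹ := by
      split_ifs
      · rw [newl_lev, if_pos rfl]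
      · rw [map_inv, newl_lev, if_pos rfl]
    show newl f t (if b.1 then lev D t (Multiplicative.ofAdd (1 : ℤ)) else
        (lev D t (Multiplicative.ofAdd (1 : ℤ)))⁻¹) * _ * _ = _
    rw [h1]
    simp only [mul_assoc]

lemma PPmap_lev {D' : Type} [Group D'] (δ : D →* D') (h : ℤ) (x : Zm) :
    PPmap δ (MonoidHom.id Zm) (lev D h x) = lev D' h x := by
  unfold PPmap
  rw [PPlift_lev]
  rfl

lemma PPmap_inl {D' : Type} [Group D'] (δ : D →* D') (d : D) :
    PPmap δ (MonoidHom.id Zm) (inl d) = inl (δ d) := by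
  unfold PPmap
  rw [PPlift_inl]
  rfl

lemma PPmap_wm {D' : Type} [Group D'] (δ : D →* D') (r : List (ℤ × Bool × D)) :
    PPmap δ (MonoidHom.id Zm) (wm r) = wm (mpm δ r) := by
  induction r with
  | nil => simp [mpm, wm, wg]
  | cons p r ih =>
    have hm : mpm δ (p :: r) = (p.1, p.2.1, δ p.2.2) :: mpm δ r := rfl
    rw [hm, wm_cons, wm_cons, map_mul, map_mul, ih, PPmap_inl]
    congr 2
    show PPmap δ (MonoidHom.id Zm) (if p.2.1 then _ else _) = if p.2.1 then _ else _
    split_ifs
    · rw [PPmap_lev]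
    · rw [map_inv, PPmap_lev]

lemma part4 (t : ℤ) {D' : Type} [Group D'] (δ : D →* D')
    (bl : List (Bool × D × List (ℤ × Bool × D))) :
    mpm δ (ub t bl) = ub t (bl.map (Prod.map id (Prod.map δ (mpm δ)))) ∧
    mp (PPmap δ (MonoidHom.id Zm)) (tb bl) = tb (bl.map (Prod.map id (Prod.map δ (mpm δ)))) := by
  induction bl with
  | nil => exact ⟨by simp [ub, mpm], by simp [tb, mp]⟩
  | cons b bl ih =>
    constructor
    · rw [ub_cons, List.map_cons, ub_cons, ← ih.1]
      simp [mpm]
    · rw [tb_cons, List.map_cons, tb_cons, ← ih.2]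
      show (b.1, PPmap δ (MonoidHom.id Zm) (inl b.2.1 * wm b.2.2)) :: _ = _
      rw [map_mul, PPmap_inl, PPmap_wm]
      rfl

lemma len_le (t : ℤ) (bl : List (Bool × D × List (ℤ × Bool × D))) :
    (tb bl).length ≤ (ub t bl).length := by
  induction bl with
  | nil => simp [tb]
  | cons b bl ih =>
    rw [tb_cons, ub_cons]
    simp only [List.length_cons, List.length_append]
    omega

lemma part5 (t : ℤ) (bl : List (Bool × D × List (ℤ × Bool × D)))
    (h : ∃ q ∈ ub t bl, q.1 ≠ t) : (tb bl).length < (ub t bl).length := by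
  induction bl with
  | nil => simp [ub] at h
  | cons b bl ih =>
    obtain ⟨q, hq, hqt⟩ := h
    rw [ub_cons] at hq
    rw [tb_cons, ub_cons]
    simp only [List.length_cons, List.length_append]
    have h0 := len_le t bl
    rcases List.mem_cons.1 hq with h1 | h1
    · exact absurd (by rw [h1]) hqt
    · rcases List.mem_append.1 h1 with h2 | h2
      · have := List.length_pos_of_mem h2
        omega
      · have := ih ⟨q, h2, hqt⟩
        omega

end BL_

open BL_ in
theorem p_BL : T_BL := by
  intro D _ t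
  exact ⟨fun r p hp => part1 t r p hp, part2 t, fun G _ f bl h => part3 t f bl h,
    fun D' _ δ bl => part4 t δ bl, part5 t⟩

end

end ORG
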