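import Pool.Agent.ORG.Targets1

/-!
# ORG: the class `C_k` is closed under subgroups (T_C1, helper5)
-/

set_option autoImplicit false

namespace ORG

namespace C1_

theorem subgroupMap_inj {G H : Type} [Group G] [Group H] (f : H →* G)
    (hf : Function.Injective f) (P : Subgroup H) : Function.Injective (f.subgroupMap P) := by
  intro x y hxy
  apply Subtype.ext
  apply hf
  exact congrArg Subtype.val hxy

theorem fg_map {G H : Type} [Group G] [Group H] (f : H →* G) {P : Subgroup H} (hP : P.FG) :
    (P.map f).FG := by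
  classical
  obtain ⟨S, rfl⟩ := hP
  exact ⟨S.image f, by rw [Finset.coe_image, MonoidHom.map_closure]⟩

end C1_

theorem p_C1 (h_HMI : T_HMI) : T_C1 := by
  intro k G _ hG
  induction hG with
  | base G hG =>
    intro H _ f hf
    refine InC.base H fun P hP => ?_
    obtain ⟨S, J, g, hg⟩ := hG (P.map f) (C1_.fg_map f hP)
    exact ⟨S, J, g.comp (f.subgroupMap P), hg.comp (C1_.subgroupMap_inj f hf P)⟩
  | loc G hG ih =>
    intro H _ f hf
    refine InC.loc H fun P hP => ?_
    exact ih (P.map f) (C1_.fg_map f hP) P (f.subgroupMap P) (C1_.subgroupMap_inj f hf P)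
  | ext G χ hG ih =>
    intro H _ f hf
    refine InC.ext H (χ.comp f) ?_
    exact ih (Hat (χ.comp f)) (Hat.map (χ.comp f) χ f fun _ => rfl)
      (h_HMI H G Zm (χ.comp f) χ f (fun _ => rfl) hf)

end ORG
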