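import Pool.Agent.ORG.Targets1

/-!
# ORG-C2: free products of a free group and copies of a group in `C_k`
-/

set_option autoImplicit false

open Monoid.Coprod

namespace ORG

noncomputable section

namespace C2_

/-! ### injectivity of homomorphisms on `Hat` -/

/-- functoriality of `Wr` in the first argument -/
def wmap {H H' A : Type} [Group H] [Group H'] [Group A] (Λ : H →* H') : Wr H A →* Wr H' A where
  toFun x := ⟨fun a => Λ (x.f a), x.a⟩
  map_one' := by
    ext b
    · simp
    · simp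
  map_mul' x y := by
    ext b
    · simp
    · simp

@[simp] lemma wmap_f {H H' A : Type} [Group H] [Group H'] [Group A] (Λ : H →* H') (x : Wr H A)
    (a : A) : (wmap Λ x).f a = Λ (x.f a) := rfl

@[simp] lemma wmap_a {H H' A : Type} [Group H] [Group H'] [Group A] (Λ : H →* H') (x : Wr H A) :
    (wmap Λ x).a = x.a := rfl

/-- the tautological homomorphism to `Wr (Hat Ψ) A` -/
def taut {G A : Type} [Group G] [Group A] (Ψ : G →* A) : G →* Wr (Hat Ψ) A :=
  Wr.mk' Ψ (fun g a => hat Ψ g a) fun g h a => hat_mul Ψ g h a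

/-- a criterion for injectivity -/
lemma lift_inj {G H A : Type} [Group G] [Group H] [Group A] (Ψ : G →* A) (θ : G →* Wr H A)
    (hθ : ∀ g, (θ g).a = Ψ g) (Λ : H →* Hat Ψ) (h : (wmap Λ).comp θ = taut Ψ) :
    Function.Injective (Hat.lift Ψ θ hθ) := by
  refine inj_of_left _ Λ (Hat.hom_ext fun g a => ?_)
  have h1 := congrArg (fun x : Wr (Hat Ψ) A => x.f a) (DFunLike.congr_fun h g)
  simpa [taut] using h1

/-! ### the model groups -/

/-- the homomorphism to a model group -/
def emb (k : ℕ) (X I S J : Type) :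
    Cop (FreeGroup X) (CopI I (Mdl k S J)) →* Mdl k (X ⊕ I × S) (I × J) :=
  Monoid.Coprod.lift ((inl : FreeGroup (X ⊕ I × S) →* Mdl k (X ⊕ I × S) (I × J)).comp
      (FreeGroup.map Sum.inl))
    (Monoid.CoprodI.lift fun i => Monoid.Coprod.lift
      ((inl : FreeGroup (X ⊕ I × S) →* Mdl k (X ⊕ I × S) (I × J)).comp
        (FreeGroup.map fun s => Sum.inr (i, s)))
      ((inr : CopI (I × J) (Multiplicative (ZMod k)) →* Mdl k (X ⊕ I × S) (I × J)).comp
        (Monoid.CoprodI.lift fun j => Monoid.CoprodI.of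
          (M := fun _ : I × J => Multiplicative (ZMod k)) (i := (i, j)))))

/-- the left inverse -/
def emb' (k : ℕ) (X I S J : Type) :
    Mdl k (X ⊕ I × S) (I × J) →* Cop (FreeGroup X) (CopI I (Mdl k S J)) :=
  Monoid.Coprod.lift
    (FreeGroup.lift (Sum.elim (fun x => inl (FreeGroup.of x))
      (fun p => inr (Monoid.CoprodI.of (M := fun _ : I => Mdl k S J) (i := p.1)
        (inl (FreeGroup.of p.2))))))
    (Monoid.CoprodI.lift fun p => (inr : CopI I (Mdl k S J) →* _).comp
      ((Monoid.CoprodI.of (M := fun _ : I => Mdl k S J) (i := p.1)).comp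
        ((inr : CopI J (Multiplicative (ZMod k)) →* Mdl k S J).comp
          (Monoid.CoprodI.of (M := fun _ : J => Multiplicative (ZMod k)) (i := p.2)))))

lemma emb_inj (k : ℕ) (X I S J : Type) : Function.Injective (emb k X I S J) := by
  refine inj_of_left _ (emb' k X I S J) ?_
  apply Monoid.Coprod.hom_ext
  · ext x
    simp [emb, emb']
  · apply Monoid.CoprodI.ext_hom
    intro i
    apply Monoid.Coprod.hom_ext
    · ext s
      simp [emb, emb']
    · apply Monoid.CoprodI.ext_hom
      intro j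
      ext z
      simp [emb, emb']

/-! ### finitely generated subgroups -/

lemma fg (h1 : T_CMI) (h2 : T_CIJ) (h3 : T_CFG) (h4 : T_CIG) (X I B : Type) [Group B]
    (P : Subgroup (Cop (FreeGroup X) (CopI I B))) (hP : P.FG) :
    ∃ (I₀ : Type) (L₀ : Subgroup B), L₀.FG ∧
      ∃ g : P →* Cop (FreeGroup X) (CopI I₀ L₀), Function.Injective g := by
  obtain ⟨G₀, H₀, -, hH₀, hle⟩ := h3 _ _ P hP
  obtain ⟨I₀, L₀, hL₀, hle'⟩ := h4 _ _ H₀ hH₀
  let Φ : Cop (FreeGroup X) (CopI I₀ L₀) →* Cop (FreeGroup X) (CopI I B) :=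
    Monoid.Coprod.map (MonoidHom.id _) (CImap (Subtype.val : I₀ → I) L₀.subtype)
  have hΦ : Function.Injective Φ :=
    h1 _ _ _ _ _ _ (fun _ _ h => h) (h2 _ _ _ _ _ _ Subtype.val_injective L₀.subtype_injective)
  have hr : (Monoid.Coprod.map G₀.subtype H₀.subtype).range ≤ Φ.range := by
    rintro _ ⟨w, rfl⟩
    induction w using Monoid.Coprod.induction_on with
    | inl g => exact ⟨inl (g : FreeGroup X), by simp [Φ]⟩
    | inr h =>
      obtain ⟨y, hy⟩ := hle' h.2
      refine ⟨inr y, ?_⟩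
      simp only [Φ, Monoid.Coprod.map_apply_inr, Subgroup.subtype_apply]
      rw [hy]
    | mul x y hx hy =>
      rw [map_mul]
      exact Φ.range.mul_mem hx hy
  obtain ⟨g, hg, -⟩ := exists_hom_of_le_range Φ hΦ P (hle.trans hr)
  exact ⟨I₀, L₀, hL₀, g, hg⟩

/-! ### the extension step -/

section step

variable {B : Type} [Group B] (χ : B →* Zm) (X I : Type)

/-- the character -/
def chr : Cop (FreeGroup X) (CopI I B) →* Zm :=
  Monoid.Coprod.lift 1 (Monoid.CoprodI.lift fun _ => χ)

/-- the homomorphism to `Wr` -/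
def th : Cop (FreeGroup X) (CopI I B) →*
    Wr (Cop (FreeGroup (X × Zm)) (CopI I (Hat χ))) Zm :=
  Monoid.Coprod.lift (FreeGroup.lift fun x => ⟨fun a => inl (FreeGroup.of (x, a)), 1⟩)
    (Monoid.CoprodI.lift fun i => Wr.mk' χ
      (fun b a => inr (Monoid.CoprodI.of (M := fun _ : I => Hat χ) (i := i) (hat χ b a)))
      fun b c a => by rw [hat_mul, map_mul, map_mul])

lemma th_a (g : Cop (FreeGroup X) (CopI I B)) : (th χ X I g).a = chr χ X I g := by
  have h : Wr.pr.comp (th χ X I) = chr χ X I := by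
    apply Monoid.Coprod.hom_ext
    · ext x
      simp [th, chr]
    · apply Monoid.CoprodI.ext_hom
      intro i
      ext b
      simp [th, chr]
  exact DFunLike.congr_fun h g

/-- the left inverse -/
def lam : Cop (FreeGroup (X × Zm)) (CopI I (Hat χ)) →* Hat (chr χ X I) :=
  Monoid.Coprod.lift (FreeGroup.lift fun p => hat (chr χ X I) (inl (FreeGroup.of p.1)) p.2)
    (Monoid.CoprodI.lift fun i => Hat.map χ (chr χ X I)
      ((inr : CopI I B →* Cop (FreeGroup X) (CopI I B)).comp
        (Monoid.CoprodI.of (M := fun _ : I => B) (i := i)))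
      fun b => by simp [chr])

lemma lam_th : (wmap (lam χ X I)).comp (th χ X I) = taut (chr χ X I) := by
  apply Monoid.Coprod.hom_ext
  · ext x a
    · simp [th, lam, taut]
    · exact th_a χ X I _
  · apply Monoid.CoprodI.ext_hom
    intro i
    ext b a
    · simp [th, lam, taut]
    · exact th_a χ X I _

end step

end C2_

open C2_ in
/-- `T_C2` -/
theorem p_C2 (h1 : T_CMI) (h2 : T_CIJ) (h3 : T_CFG) (h4 : T_CIG) (h5 : T_C1) : T_C2 := by
  intro k B _ hB
  induction hB with
  | base B hB =>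
    intro X I
    refine InC.base _ fun P hP => ?_
    obtain ⟨I₀, L₀, hL₀, g, hg⟩ := fg h1 h2 h3 h4 X I B P hP
    obtain ⟨S, J, f, hf⟩ := hB L₀ hL₀
    have h6 : Function.Injective (Monoid.Coprod.map (MonoidHom.id (FreeGroup X))
        (CImap (id : I₀ → I₀) f)) :=
      h1 _ _ _ _ _ _ (fun _ _ h => h) (h2 _ _ _ _ _ _ Function.injective_id hf)
    exact ⟨X ⊕ I₀ × S, I₀ × J, (emb k X I₀ S J).comp
      ((Monoid.Coprod.map (MonoidHom.id (FreeGroup X)) (CImap (id : I₀ → I₀) f)).comp g),
      (emb_inj k X I₀ S J).comp (h6.comp hg)⟩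
  | loc B hB ih =>
    intro X I
    refine InC.loc _ fun P hP => ?_
    obtain ⟨I₀, L₀, hL₀, g, hg⟩ := fg h1 h2 h3 h4 X I B P hP
    exact h5 k _ (ih L₀ hL₀ X I₀) P g hg
  | ext B χ hB ih =>
    intro X I
    refine InC.ext _ (chr χ X I) ?_
    exact h5 k _ (ih (X × Zm) I) _ (Hat.lift (chr χ X I) (th χ X I) (th_a χ X I))
      (lift_inj _ _ _ (lam χ X I) (lam_th χ X I))

end

end ORG
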