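import Pool.Agent.ORG.Targets1

/-!
# ORG-C3: `C_k` is closed under free products
-/

set_option autoImplicit false

open Monoid.Coprod

namespace ORG

noncomputable section

namespace C3_

/-- the hypothesis of `InC.base` -/
def Bs (k : ℕ) (G : Type) [Group G] : Prop :=
  ∀ P : Subgroup G, P.FG → ∃ (S J : Type) (f : P →* Mdl k S J), Function.Injective f

/-- the homomorphism from a free product of model groups to a model group -/
def emb (k : ℕ) (S J S' J' : Type) :
    Cop (Mdl k S J) (Mdl k S' J') →* Mdl k (S ⊕ S') (J ⊕ J') :=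
  Monoid.Coprod.lift
    (Monoid.Coprod.map (FreeGroup.map Sum.inl)
      (CImap (Sum.inl : J → J ⊕ J') (MonoidHom.id (Multiplicative (ZMod k)))))
    (Monoid.Coprod.map (FreeGroup.map Sum.inr)
      (CImap (Sum.inr : J' → J ⊕ J') (MonoidHom.id (Multiplicative (ZMod k)))))

/-- the left inverse on the second factor -/
def embi (k : ℕ) (S J S' J' : Type) (p : J ⊕ J') :
    Multiplicative (ZMod k) →* Cop (Mdl k S J) (Mdl k S' J') :=
  match p with
  | Sum.inl j => (inl : Mdl k S J →* _).comp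
      ((inr : CopI J (Multiplicative (ZMod k)) →* Mdl k S J).comp
        (Monoid.CoprodI.of (M := fun _ : J => Multiplicative (ZMod k)) (i := j)))
  | Sum.inr j => (inr : Mdl k S' J' →* _).comp
      ((inr : CopI J' (Multiplicative (ZMod k)) →* Mdl k S' J').comp
        (Monoid.CoprodI.of (M := fun _ : J' => Multiplicative (ZMod k)) (i := j)))

/-- the left inverse -/
def emb' (k : ℕ) (S J S' J' : Type) :
    Mdl k (S ⊕ S') (J ⊕ J') →* Cop (Mdl k S J) (Mdl k S' J') :=
  Monoid.Coprod.lift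
    (FreeGroup.lift (Sum.elim (fun s => inl (inl (FreeGroup.of s)))
      (fun s => inr (inl (FreeGroup.of s)))))
    (Monoid.CoprodI.lift (embi k S J S' J'))

lemma emb_inj (k : ℕ) (S J S' J' : Type) : Function.Injective (emb k S J S' J') := by
  refine inj_of_left _ (emb' k S J S' J') ?_
  apply Monoid.Coprod.hom_ext
  · apply Monoid.Coprod.hom_ext
    · ext s
      simp [emb, emb']
    · apply Monoid.CoprodI.ext_hom
      intro j
      ext z
      simp [emb, emb', embi, CImap]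
  · apply Monoid.Coprod.hom_ext
    · ext s
      simp [emb, emb']
    · apply Monoid.CoprodI.ext_hom
      intro j
      ext z
      simp [emb, emb', embi, CImap]

/-- the homomorphism from a free product of copies of a model group to a model group -/
def embc (k : ℕ) (I S J : Type) : CopI I (Mdl k S J) →* Mdl k (I × S) (I × J) :=
  Monoid.CoprodI.lift fun i => Monoid.Coprod.map (FreeGroup.map fun s => (i, s))
    (CImap (fun j => (i, j)) (MonoidHom.id (Multiplicative (ZMod k))))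

/-- the left inverse -/
def embc' (k : ℕ) (I S J : Type) : Mdl k (I × S) (I × J) →* CopI I (Mdl k S J) :=
  Monoid.Coprod.lift
    (FreeGroup.lift fun p => Monoid.CoprodI.of (M := fun _ : I => Mdl k S J) (i := p.1)
      (inl (FreeGroup.of p.2)))
    (Monoid.CoprodI.lift fun p =>
      (Monoid.CoprodI.of (M := fun _ : I => Mdl k S J) (i := p.1)).comp
        ((inr : CopI J (Multiplicative (ZMod k)) →* Mdl k S J).comp
          (Monoid.CoprodI.of (M := fun _ : J => Multiplicative (ZMod k)) (i := p.2))))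

lemma embc_inj (k : ℕ) (I S J : Type) : Function.Injective (embc k I S J) := by
  refine inj_of_left _ (embc' k I S J) ?_
  apply Monoid.CoprodI.ext_hom
  intro i
  apply Monoid.Coprod.hom_ext
  · ext s
    simp [embc, embc']
  · apply Monoid.CoprodI.ext_hom
    intro j
    ext z
    simp [embc, embc', CImap]

/-- finitely generated subgroups of free products -/
lemma fg (h1 : T_CMI) (h3 : T_CFG) (A B : Type) [Group A] [Group B]
    (P : Subgroup (Cop A B)) (hP : P.FG) :
    ∃ (A₀ : Subgroup A) (B₀ : Subgroup B), A₀.FG ∧ B₀.FG ∧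
      ∃ g : P →* Cop A₀ B₀, Function.Injective g := by
  obtain ⟨A₀, B₀, hA₀, hB₀, hle⟩ := h3 _ _ P hP
  obtain ⟨g, hg, -⟩ := exists_hom_of_le_range (Monoid.Coprod.map A₀.subtype B₀.subtype)
    (h1 _ _ _ _ _ _ A₀.subtype_injective B₀.subtype_injective) P hle
  exact ⟨A₀, B₀, hA₀, hB₀, g, hg⟩

lemma bs_cop (h1 : T_CMI) (h3 : T_CFG) {k : ℕ} {A B : Type} [Group A] [Group B]
    (hA : Bs k A) (hB : Bs k B) : Bs k (Cop A B) := by
  intro P hP
  obtain ⟨A₀, B₀, hA₀, hB₀, g, hg⟩ := fg h1 h3 A B P hP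
  obtain ⟨S, J, f, hf⟩ := hA A₀ hA₀
  obtain ⟨S', J', f', hf'⟩ := hB B₀ hB₀
  exact ⟨S ⊕ S', J ⊕ J', (emb k S J S' J').comp ((Monoid.Coprod.map f f').comp g),
    (emb_inj k S J S' J').comp ((h1 _ _ _ _ _ _ hf hf').comp hg)⟩

lemma bs_copi (h2 : T_CIJ) (h4 : T_CIG) {k : ℕ} {A : Type} [Group A] (hA : Bs k A) (I : Type) :
    Bs k (CopI I A) := by
  intro P hP
  obtain ⟨I₀, L₀, hL₀, hle⟩ := h4 _ _ P hP
  obtain ⟨g, hg, -⟩ := exists_hom_of_le_range (CImap (Subtype.val : I₀ → I) L₀.subtype)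
    (h2 _ _ _ _ _ _ Subtype.val_injective L₀.subtype_injective) P hle
  obtain ⟨S, J, f, hf⟩ := hA L₀ hL₀
  exact ⟨I₀ × S, I₀ × J, (embc k I₀ S J).comp ((CImap (id : I₀ → I₀) f).comp g),
    (embc_inj k I₀ S J).comp ((h2 _ _ _ _ _ _ Function.injective_id hf).comp hg)⟩

/-- the first factor satisfies the hypothesis of `InC.base` -/
lemma base_case (h1 : T_CMI) (h2 : T_CIJ) (h3 : T_CFG) (h4 : T_CIG) (h5 : T_C1)
    (h7 : T_HFP) (h8 : T_HTR) (k : ℕ) (B : Type) [Group B] (hB : InC k B) :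
    ∀ (A : Type) [Group A], Bs k A → InC k (Cop A B) := by
  induction hB with
  | base B hB =>
    intro A _ hA
    exact InC.base _ (bs_cop h1 h3 hA hB)
  | loc B hB ih =>
    intro A _ hA
    refine InC.loc _ fun P hP => ?_
    obtain ⟨A₀, B₀, hA₀, hB₀, g, hg⟩ := fg h1 h3 A B P hP
    have h9 : Function.Injective (Monoid.Coprod.map A₀.subtype (MonoidHom.id B₀)) :=
      h1 _ _ _ _ _ _ A₀.subtype_injective fun _ _ h => h
    exact h5 k _ (ih B₀ hB₀ A hA) P ((Monoid.Coprod.map A₀.subtype (MonoidHom.id B₀)).comp g)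
      (h9.comp hg)
  | ext B χ hB ih =>
    intro A _ hA
    refine InC.ext _ (Monoid.Coprod.lift (1 : A →* Zm) χ) ?_
    obtain ⟨Θ, hΘ, -⟩ := h7 A B Zm 1 χ
    obtain ⟨Θ', hΘ', -⟩ := h8 A Zm
    have h9 : Function.Injective (Monoid.Coprod.map Θ' (MonoidHom.id (Hat χ))) :=
      h1 _ _ _ _ _ _ hΘ' fun _ _ h => h
    exact h5 k _ (ih (CopI Zm A) (bs_copi h2 h4 hA Zm)) _
      ((Monoid.Coprod.map Θ' (MonoidHom.id (Hat χ))).comp Θ) (h9.comp hΘ)

end C3_

open C3_ in
/-- `T_C3` -/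
theorem p_C3 (h1 : T_CMI) (h2 : T_CIJ) (h3 : T_CFG) (h4 : T_CIG) (h5 : T_C1) (h6 : T_C2)
    (h7 : T_HFP) (h8 : T_HTR) : T_C3 := by
  intro k A B _ _ hA
  revert B
  induction hA with
  | base A hA =>
    intro B _ hB
    exact base_case h1 h2 h3 h4 h5 h7 h8 k B hB A hA
  | loc A hA ih =>
    intro B _ hB
    refine InC.loc _ fun P hP => ?_
    obtain ⟨A₀, B₀, hA₀, hB₀, g, hg⟩ := fg h1 h3 A B P hP
    have h9 : Function.Injective (Monoid.Coprod.map (MonoidHom.id A₀) B₀.subtype) :=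
      h1 _ _ _ _ _ _ (fun _ _ h => h) B₀.subtype_injective
    exact h5 k _ (ih A₀ hA₀ B hB) P ((Monoid.Coprod.map (MonoidHom.id A₀) B₀.subtype).comp g)
      (h9.comp hg)
  | ext A χ hA ih =>
    intro B _ hB
    refine InC.ext _ (Monoid.Coprod.lift χ (1 : B →* Zm)) ?_
    obtain ⟨Θ, hΘ, -⟩ := h7 A B Zm χ 1
    obtain ⟨Θ', hΘ', -⟩ := h8 B Zm
    have h9 : Function.Injective (Monoid.Coprod.map (MonoidHom.id (Hat χ)) Θ') :=
      h1 _ _ _ _ _ _ (fun _ _ h => h) hΘ'
    have h10 : InC k (CopI Zm B) :=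
      h5 k _ (h6 k B hB Empty Zm) _ (inr : CopI Zm B →* Cop (FreeGroup Empty) (CopI Zm B))
        (inj_of_left _ Monoid.Coprod.snd (by ext; simp))
    exact h5 k _ (ih (CopI Zm B) h10) _
      ((Monoid.Coprod.map (MonoidHom.id (Hat χ)) Θ').comp Θ) (h9.comp hΘ)

end

end ORG
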