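import Pool.Agent.ORG.Targets1

/-!
# ORG: free products of copies
-/

set_option autoImplicit false

open Monoid.Coprod

namespace ORG

theorem p_C3I (h1 : T_C1) (h2 : T_C2) : T_C3I := by
  intro k I B _ hB
  exact h1 k (Cop (FreeGroup Empty) (CopI I B)) (h2 k B hB Empty I) (CopI I B)
    (inr : CopI I B →* Cop (FreeGroup Empty) (CopI I B)) Monoid.Coprod.inr_injective

end ORG
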