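import Pool.Agent.ORG.Targets1

/-!
# ORG: C4, `Hat` is in the class
-/

set_option autoImplicit false

namespace ORG

theorem p_C4 (h1 : T_C1) (h3 : T_C3) (hF : T_CF) : T_C4 := by
  intro k G _ hG χ
  exact h1 k (Cop G Zm) (h3 k G Zm hG (hF k).2.2.2.1) (Hat χ)
    (Subgroup.subtype _) (Subgroup.subtype_injective _)

end ORG
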