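import Pool.Agent.ORG.Targets1

/-!
# ORG: C5, extensions by `ℤ` are in the class (helper95)
-/

set_option autoImplicit false

open Monoid.Coprod

namespace ORG

noncomputable section

namespace C5_

variable {N : Type} [Group N] (φ : Zm →* MulAut N)

/-- the cocycle with values in `N * F(Zm)` -/
def c (g : N ⋊[φ] Zm) (a : Zm) : Cop N (FreeGroup Zm) :=
  (inr (FreeGroup.of a))⁻¹ * inl (φ a g.left) *
    inr (FreeGroup.of (a * (SemidirectProduct.rightHom : N ⋊[φ] Zm →* Zm) g))

theorem c_mul (g h : N ⋊[φ] Zm) (a : Zm) : c φ (g * h) a = c φ g a *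
    c φ h (a * (SemidirectProduct.rightHom : N ⋊[φ] Zm →* Zm) g) := by
  simp only [c, SemidirectProduct.mul_left, SemidirectProduct.rightHom_eq_right,
    map_mul, MulAut.mul_apply, mul_assoc]
  group

/-- the embedding of `Hat` -/
def Th : Hat (SemidirectProduct.rightHom : N ⋊[φ] Zm →* Zm) →* Cop N (FreeGroup Zm) :=
  Hat.coc _ (c φ) (c_mul φ)

/-- the left inverse -/
def Ps : Cop N (FreeGroup Zm) →* Hat (SemidirectProduct.rightHom : N ⋊[φ] Zm →* Zm) :=
  Monoid.Coprod.lift
    (MonoidHom.mk' (fun n => hat (SemidirectProduct.rightHom : N ⋊[φ] Zm →* Zm)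
      (SemidirectProduct.inl n) 1) (by
        intro m n
        rw [map_mul, hat_mul, SemidirectProduct.rightHom_inl, mul_one]))
    (FreeGroup.lift fun a => hat (SemidirectProduct.rightHom : N ⋊[φ] Zm →* Zm)
      (SemidirectProduct.inr a) 1)

theorem Ps_inl (n : N) : Ps φ (inl n) = hat (SemidirectProduct.rightHom : N ⋊[φ] Zm →* Zm)
    (SemidirectProduct.inl n) 1 := by
  simp [Ps]

theorem Ps_inr (a : Zm) : Ps φ (inr (FreeGroup.of a)) =
    hat (SemidirectProduct.rightHom : N ⋊[φ] Zm →* Zm) (SemidirectProduct.inr a) 1 := by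
  simp [Ps]

theorem eq1 (g : N ⋊[φ] Zm) (a : Zm) :
    SemidirectProduct.inl (φ a g.left) * SemidirectProduct.inr
      (a * (SemidirectProduct.rightHom : N ⋊[φ] Zm →* Zm) g) = SemidirectProduct.inr a * g := by
  apply SemidirectProduct.ext
  · simp
  · simp

theorem Th_inj : Function.Injective (Th φ) := by
  apply inj_of_left (Th φ) (Ps φ)
  apply Hat.hom_ext
  intro g a
  rw [MonoidHom.comp_apply, MonoidHom.id_apply, Th, Hat.coc_hat, c, map_mul, map_mul, map_inv,
    Ps_inl, Ps_inr, Ps_inr, mul_assoc, inv_mul_eq_iff_eq_mul]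
  have h1 := hat_mul (SemidirectProduct.rightHom : N ⋊[φ] Zm →* Zm)
    (SemidirectProduct.inl (φ a g.left)) (SemidirectProduct.inr
      (a * (SemidirectProduct.rightHom : N ⋊[φ] Zm →* Zm) g)) 1
  rw [eq1 φ g a, hat_mul, SemidirectProduct.rightHom_inl, SemidirectProduct.rightHom_inr,
    one_mul, one_mul] at h1
  exact h1.symm

end C5_

theorem p_C5 (h1 : T_C1) (h3 : T_C3) (hF : T_CF) : T_C5 := by
  intro k N _ φ hN
  refine InC.ext _ (SemidirectProduct.rightHom : N ⋊[φ] Zm →* Zm) ?_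
  exact h1 k (Cop N (FreeGroup Zm)) (h3 k N (FreeGroup Zm) hN ((hF k).2.1 Zm)) _
    (C5_.Th φ) (C5_.Th_inj φ)

end

end ORG
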