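import Pool.Agent.ORG.Targets1

/-!
# ORG: target CF, free groups and cyclic groups of order `k` are in `C_k` (helper53)
-/

set_option autoImplicit false

open Monoid.Coprod

namespace ORG

theorem CF_of_inj (k : ℕ) (S J G : Type) [Group G] (f : G →* Mdl k S J)
    (hf : Function.Injective f) : InC k G := by
  refine InC.base G fun P _ => ⟨S, J, f.comp P.subtype, ?_⟩
  rw [MonoidHom.coe_comp]
  exact hf.comp P.subtype_injective

theorem p_CF : T_CF := by
  intro k
  have hF : ∀ S : Type, InC k (FreeGroup S) := fun S =>
    CF_of_inj k S Unit (FreeGroup S) inl inl_injective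
  refine ⟨fun S J => CF_of_inj k S J _ (MonoidHom.id _) Function.injective_id, hF, ?_, ?_, ?_⟩
  · refine CF_of_inj k Unit Unit _ (inr.comp
      (Monoid.CoprodI.of (M := fun _ : Unit => Multiplicative (ZMod k)) (i := ()))) ?_
    rw [MonoidHom.coe_comp]
    exact inr_injective.comp (Monoid.CoprodI.of_injective _)
  · refine CF_of_inj k Unit Unit _ (inl.comp (zpowersHom (FreeGroup Unit) (FreeGroup.of ()))) ?_
    rw [MonoidHom.coe_comp]
    refine inl_injective.comp (inj_of_left _
      (FreeGroup.lift fun _ : Unit => (Multiplicative.ofAdd (1 : ℤ) : Zm)) ?_)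
    ext
    simp
  · exact CF_of_inj k Unit Unit _ 1 fun a b _ => Subsingleton.elim a b

end ORG
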