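import Pool.Agent.ORG.Targets1

/-!
# CFG: f.g. subgroups of free products
-/

set_option autoImplicit false

namespace ORG

namespace CFG_

variable {G H : Type} [Group G] [Group H]

/-- the subgroup generated by two subgroups -/
def rg (G₀ : Subgroup G) (H₀ : Subgroup H) : Subgroup (Cop G H) :=
  (Monoid.Coprod.map G₀.subtype H₀.subtype).range

theorem rg_mono {G₀ G₁ : Subgroup G} {H₀ H₁ : Subgroup H} (hG : G₀ ≤ G₁) (hH : H₀ ≤ H₁) :
    rg G₀ H₀ ≤ rg G₁ H₁ := by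
  rintro _ ⟨x, rfl⟩
  refine ⟨Monoid.Coprod.map (Subgroup.inclusion hG) (Subgroup.inclusion hH) x, ?_⟩
  rw [← MonoidHom.comp_apply, Monoid.Coprod.map_comp_map]
  rfl

theorem fgb (K : Type) [Group K] : (⊥ : Subgroup K).FG := ⟨∅, by simp⟩

theorem exists_rg (x : Cop G H) :
    ∃ (G₀ : Subgroup G) (H₀ : Subgroup H), G₀.FG ∧ H₀.FG ∧ x ∈ rg G₀ H₀ := by
  induction x using Monoid.Coprod.induction_on with
  | inl g =>
    refine ⟨Subgroup.closure {g}, ⊥, ⟨{g}, by simp⟩, (fgb _), ?_⟩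
    exact ⟨Monoid.Coprod.inl ⟨g, Subgroup.subset_closure rfl⟩, by
      rw [Monoid.Coprod.map_apply_inl]; rfl⟩
  | inr h =>
    refine ⟨⊥, Subgroup.closure {h}, (fgb _), ⟨{h}, by simp⟩, ?_⟩
    exact ⟨Monoid.Coprod.inr ⟨h, Subgroup.subset_closure rfl⟩, by
      rw [Monoid.Coprod.map_apply_inr]; rfl⟩
  | mul x y hx hy =>
    obtain ⟨G₁, H₁, hG₁, hH₁, h1⟩ := hx
    obtain ⟨G₂, H₂, hG₂, hH₂, h2⟩ := hy
    exact ⟨G₁ ⊔ G₂, H₁ ⊔ H₂, hG₁.sup hG₂, hH₁.sup hH₂,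
      mul_mem (rg_mono le_sup_left le_sup_left h1) (rg_mono le_sup_right le_sup_right h2)⟩

end CFG_

open CFG_ in
theorem p_CFG : T_CFG := by
  classical
  intro G H _ _ P hP
  obtain ⟨S, rfl⟩ := hP
  have key : ∀ S : Finset (Cop G H), ∃ (G₀ : Subgroup G) (H₀ : Subgroup H), G₀.FG ∧ H₀.FG ∧
      ∀ x ∈ S, x ∈ rg G₀ H₀ := by
    intro S
    induction S using Finset.induction_on with
    | empty => exact ⟨⊥, ⊥, (fgb _), (fgb _), by simp⟩
    | insert a s _ ih =>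
      obtain ⟨G₁, H₁, hG₁, hH₁, h1⟩ := ih
      obtain ⟨G₂, H₂, hG₂, hH₂, h2⟩ := exists_rg a
      refine ⟨G₁ ⊔ G₂, H₁ ⊔ H₂, hG₁.sup hG₂, hH₁.sup hH₂, fun x hx => ?_⟩
      rcases Finset.mem_insert.1 hx with rfl | hx
      · exact rg_mono le_sup_right le_sup_right h2
      · exact rg_mono le_sup_left le_sup_left (h1 x hx)
  obtain ⟨G₀, H₀, hG, hH, h⟩ := key S
  exact ⟨G₀, H₀, hG, hH, (Subgroup.closure_le _).2 h⟩

end ORG
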