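import Pool.Agent.ORG.Targets1

/-!
# ORG: Corollary H
-/

set_option autoImplicit false

open Monoid.Coprod

namespace ORG

namespace CH_

/-- the relation in `GY` -/
private lemma rel {E : Type} [Group E] (e : EGrp E) (K : Type) [Group K] (Y : Set K) (i : Y) :
    (HN.t (fun i : Y => (inl (i : K) : Cop K E)) (fun _ => inr e.c) i) *
      HN.of (fun i : Y => (inl (i : K) : Cop K E)) (fun _ => inr e.c) (inl (i : K)) =
    GYc e K Y * HN.t (fun i : Y => (inl (i : K) : Cop K E)) (fun _ => inr e.c) i :=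
  HN.rel (fun i : Y => (inl (i : K) : Cop K E)) (fun _ => inr e.c) i

end CH_

/-- Corollary H -/
theorem p_CH (hVC : T_VC) (hVCP : T_VCP) (hV : T_V) (hEE : T_EE) (hLR : T_LR) : T_CH := by
  intro B I _ _ x y hB hxy
  obtain ⟨E, _, ⟨e⟩⟩ := hEE
  -- the visible set
  let Y : Set B := Set.range x ∪ Set.range y
  have hYf : Y.Finite := (Set.finite_range x).union (Set.finite_range y)
  have hY1 : (1 : B) ∉ Y := by
    rintro (⟨i, hi⟩ | ⟨i, hi⟩)
    · exact (hxy i).1 hi
    · exact (hxy i).2 hi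
  have hYv : Vis B Y := hVC B hB Y hYf hY1
  have hG : Vis (GY e B Y) {GYc e B Y} := hV E e B Y hYv
  -- the homomorphism
  let X : Y → Cop B E := fun i => inl (i : B)
  let Z : Y → Cop B E := fun _ => inr e.c
  let px : I → Y := fun i => ⟨x i, Or.inl ⟨i, rfl⟩⟩
  let py : I → Y := fun i => ⟨y i, Or.inr ⟨i, rfl⟩⟩
  have hpx : ∀ i, HN.t X Z (px i) * HN.of X Z (inl (x i)) = GYc e B Y * HN.t X Z (px i) :=
    fun i => CH_.rel e B Y (px i)
  have hpy : ∀ i, HN.t X Z (py i) * HN.of X Z (inl (y i)) = GYc e B Y * HN.t X Z (py i) :=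
    fun i => CH_.rel e B Y (py i)
  have hpy' : ∀ i, HN.of X Z (inl (y i)) =
      (HN.t X Z (py i))⁻¹ * GYc e B Y * HN.t X Z (py i) := by
    intro i
    rw [mul_assoc, ← hpy i, inv_mul_cancel_left]
  let F : HN x y →* GY e B Y := HN.lift x y ((HN.of X Z).comp inl)
    (fun i => (HN.t X Z (py i))⁻¹ * HN.t X Z (px i)) (by
      intro i
      simp only [MonoidHom.comp_apply]
      rw [mul_assoc, hpx i, hpy' i]
      group)
  have hF : ∀ i, F (HN.of x y (y i)) =
      (HN.t X Z (py i))⁻¹ * GYc e B Y * HN.t X Z (py i) := by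
    intro i
    rw [← hpy' i]
    simp [F]
  have hY2 : Vis (GY e B Y) (Set.range fun i => F (HN.of x y (y i))) := by
    apply hVCP _ _ hG _ (Set.finite_range _)
    rintro _ ⟨i, rfl⟩
    refine ⟨GYc e B Y, rfl, (HN.t X Z (py i))⁻¹, 1, one_ne_zero, ?_⟩
    rw [zpow_one, inv_inv]
    exact hF i
  exact hLR _ _ hY2 1 B I x y F hB fun i => ⟨i, rfl⟩

end ORG
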