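import Pool.Agent.ORG.Targets1

/-!
# ORG: finitely generated subgroups of free products of copies
-/

set_option autoImplicit false

open Monoid.Coprod

namespace ORG

noncomputable section

namespace CIG_

variable {I L : Type} [Group L]

/-- the free product of the copies of `L₀` with indices in `I₀` -/
def RR (I₀ : Finset I) (L₀ : Subgroup L) : Subgroup (CopI I L) :=
  (CImap (Subtype.val : I₀ → I) L₀.subtype).range

lemma of_mem {I₀ : Finset I} {L₀ : Subgroup L} {i : I} {l : L} (hi : i ∈ I₀) (hl : l ∈ L₀) :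
    Monoid.CoprodI.of (M := fun _ : I => L) (i := i) l ∈ RR I₀ L₀ := by
  refine ⟨Monoid.CoprodI.of (M := fun _ : I₀ => L₀) (i := ⟨i, hi⟩) ⟨l, hl⟩, ?_⟩
  unfold CImap
  rw [Monoid.CoprodI.lift_of]
  rfl

lemma mono {I₀ I₁ : Finset I} {L₀ L₁ : Subgroup L} (hI : I₀ ⊆ I₁) (hL : L₀ ≤ L₁) :
    RR I₀ L₀ ≤ RR I₁ L₁ := by
  unfold RR
  refine Monoid.CoprodI.lift_range_le (G := fun _ : I₀ => L₀) _ fun i => ?_
  rintro _ ⟨l, rfl⟩
  exact of_mem (hI i.2) (hL l.2)

lemma bot : (⊥ : Subgroup L).FG := ⟨∅, by simp⟩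

lemma elt (x : CopI I L) : ∃ (I₀ : Finset I) (L₀ : Subgroup L), L₀.FG ∧ x ∈ RR I₀ L₀ := by
  classical
  induction x using Monoid.CoprodI.induction_on with
  | one => exact ⟨∅, ⊥, bot, one_mem _⟩
  | of i l =>
    refine ⟨{i}, Subgroup.closure {l}, ⟨{l}, by simp⟩, ?_⟩
    exact of_mem (Finset.mem_singleton_self i) (Subgroup.subset_closure rfl)
  | mul x y hx hy =>
    obtain ⟨I₀, L₀, h0, hx⟩ := hx
    obtain ⟨I₁, L₁, h1, hy⟩ := hy
    exact ⟨I₀ ∪ I₁, L₀ ⊔ L₁, h0.sup h1, mul_mem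
      (mono Finset.subset_union_left le_sup_left hx)
      (mono Finset.subset_union_right le_sup_right hy)⟩

lemma fin (F : Finset (CopI I L)) : ∃ (I₀ : Finset I) (L₀ : Subgroup L), L₀.FG ∧
    ∀ x ∈ F, x ∈ RR I₀ L₀ := by
  classical
  induction F using Finset.induction_on with
  | empty => exact ⟨∅, ⊥, bot, by simp⟩
  | insert x F _ ih =>
    obtain ⟨I₀, L₀, h0, hx⟩ := elt x
    obtain ⟨I₁, L₁, h1, hF⟩ := ih
    refine ⟨I₀ ∪ I₁, L₀ ⊔ L₁, h0.sup h1, fun y hy => ?_⟩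
    rcases Finset.mem_insert.1 hy with rfl | hy
    · exact mono Finset.subset_union_left le_sup_left hx
    · exact mono Finset.subset_union_right le_sup_right (hF y hy)

end CIG_

/-- CIG -/
theorem p_CIG : T_CIG := by
  intro I L _ P hP
  obtain ⟨F, hF⟩ := hP
  obtain ⟨I₀, L₀, h0, h⟩ := CIG_.fin F
  refine ⟨I₀, L₀, h0, ?_⟩
  rw [← hF, Subgroup.closure_le]
  exact h

end

end ORG
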