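import Pool.Agent.ORG.Targets1

/-!
# ORG: maps between free products of copies are injective
-/

set_option autoImplicit false

open Monoid.Coprod

namespace ORG

noncomputable section

namespace CIJ_

open Monoid.CoprodI

variable {I I' L L' : Type} [Group L] [Group L']

/-- nonempty reduced words go to nonempty reduced words -/
lemma word (j : I → I') (f : L →* L') (hj : Function.Injective j) (hf : Function.Injective f)
    {a b : I} (w : NeWord (fun _ : I => L) a b) :
    ∃ w' : NeWord (fun _ : I' => L') (j a) (j b), w'.prod = CImap j f w.prod := by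
  induction w with
  | singleton x hx =>
    refine ⟨NeWord.singleton (M := fun _ : I' => L') (f x) ?_, ?_⟩
    · intro h
      exact hx (hf (by rw [h, map_one]))
    · rw [NeWord.prod_singleton, NeWord.prod_singleton, CImap, Monoid.CoprodI.lift_of]
      rfl
  | append w₁ hne w₂ h₁ h₂ =>
    obtain ⟨u₁, hu₁⟩ := h₁
    obtain ⟨u₂, hu₂⟩ := h₂
    refine ⟨NeWord.append u₁ (hj.ne hne) u₂, ?_⟩
    rw [NeWord.append_prod, NeWord.append_prod, map_mul, hu₁, hu₂]

/-- nonempty reduced words are not trivial -/
lemma ne_one {a b : I} (w : NeWord (fun _ : I => L) a b) : w.prod ≠ 1 := by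
  classical
  intro h
  have h1 : Word.prod w.toWord = Word.prod (Word.empty : Word (fun _ : I => L)) := by
    rw [Word.prod_empty]
    exact h
  have h2 : w.toWord = Word.empty := by
    have := congrArg (Word.equiv (M := fun _ : I => L)) h1
    have e : ∀ v : Word (fun _ : I => L), Word.equiv (Word.prod v) = v :=
      fun v => Word.equiv.right_inv v
    rw [e, e] at this
    exact this
  exact NeWord.toList_ne_nil w (congrArg Word.toList h2)

end CIJ_

theorem p_CIJ : T_CIJ := by
  intro I I' L L' _ _ j f hj hf
  classical
  rw [injective_iff_map_eq_one]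
  intro x hx
  by_contra hne
  set v := Monoid.CoprodI.Word.equiv x with hv
  have hvx : Monoid.CoprodI.Word.prod v = x := Monoid.CoprodI.Word.equiv.left_inv x
  have hv0 : v ≠ Monoid.CoprodI.Word.empty := by
    intro h
    rw [h, Monoid.CoprodI.Word.prod_empty] at hvx
    exact hne hvx.symm
  obtain ⟨a, b, w, hw⟩ := Monoid.CoprodI.NeWord.of_word v hv0
  obtain ⟨w', hw'⟩ := CIJ_.word j f hj hf w
  have hwx : w.prod = x := by
    rw [← hvx, ← hw]
    rfl
  rw [hwx, hx] at hw'
  exact CIJ_.ne_one w' hw'

end

end ORG
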