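import Pool.Agent.ORG.Targets2

/-! CJ : conjugates of elements of `G * ℤ`. -/

set_option autoImplicit false

open Monoid.Coprod

namespace ORG

namespace CJ_

variable {G : Type} [Group G]

/-- the word of a list -/
noncomputable abbrev W (r : List (Bool × G)) : Cop G Zm :=
  wd inl (inr (Multiplicative.ofAdd 1)) r

theorem W_nil : W ([] : List (Bool × G)) = 1 := by
  simp [W, wd]

theorem W_append (r s : List (Bool × G)) : W (r ++ s) = W r * W s := by
  simp [W, wd]

theorem W_cons (p : Bool × G) (s : List (Bool × G)) :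
    W (p :: s) = (if p.1 then (inr (Multiplicative.ofAdd (1 : ℤ)) : Cop G Zm)
      else (inr (Multiplicative.ofAdd (1 : ℤ)))⁻¹) * inl p.2 * W s := by
  simp [W, wd]

/-- a word times an element of `G` is a word -/
theorem W_mul_inl (r : List (Bool × G)) (hr : r ≠ []) (g : G) :
    ∃ r' : List (Bool × G), r' ≠ [] ∧ r'.length = r.length ∧ W r * inl g = W r' := by
  obtain ⟨t, p, rfl⟩ : ∃ t p, r = t ++ [p] :=
    ⟨r.dropLast, r.getLast hr, (List.dropLast_append_getLast hr).symm⟩
  refine ⟨t ++ [(p.1, p.2 * g)], by simp, by simp, ?_⟩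
  rw [W_append, W_append, W_cons, W_cons, W_nil]
  simp only [mul_one, map_mul, mul_assoc]

/-- adjacent letters which cancel -/
theorem W_cancel (p q : Bool × G) (s : List (Bool × G)) (h1 : p.1 ≠ q.1) (h2 : p.2 = 1) :
    W (p :: q :: s) = inl q.2 * W s := by
  rw [W_cons, W_cons, h2]
  obtain ⟨a, x⟩ := p
  obtain ⟨b, y⟩ := q
  simp only at h1 h2 ⊢
  have h3 : (inl (1 : G) : Cop G Zm) = 1 := map_one _
  rw [h3, mul_one]
  cases a <;> cases b
  · exact absurd rfl h1
  · simp only [Bool.false_eq_true, if_false, if_true]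
    group
  · simp only [Bool.false_eq_true, if_false, if_true]
    group
  · exact absurd rfl h1

/-- the property to be proved -/
def P (w : Cop G Zm) : Prop := ∃ v : Cop G Zm,
  (∃ g : G, w = v * inl g * v⁻¹) ∨ ∃ r : List (Bool × G), r ≠ [] ∧ CR r ∧
    w = v * wd inl (inr (Multiplicative.ofAdd 1)) r * v⁻¹

theorem P.conj {w : Cop G Zm} (h : P w) (u : Cop G Zm) : P (u * w * u⁻¹) := by
  obtain ⟨v, h | h⟩ := h
  · obtain ⟨g, rfl⟩ := h
    exact ⟨u * v, Or.inl ⟨g, by group⟩⟩
  · obtain ⟨r, h1, h2, rfl⟩ := h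
    exact ⟨u * v, Or.inr ⟨r, h1, h2, by group⟩⟩

/-- cyclic permutations -/
theorem P.swap {a b : Cop G Zm} (h : P (b * a)) : P (a * b) := by
  have h1 : a * b = a * (b * a) * a⁻¹ := by group
  rw [h1]
  exact h.conj a

/-- a list which is not cyclically reduced can be shortened -/
theorem stepA (n : ℕ) (ih : ∀ m < n, ∀ (r : List (Bool × G)) (g : G), r.length = m →
    P (inl g * W r)) (r : List (Bool × G)) (hr : r.length = n) : P (W r) := by
  by_cases h0 : r = []
  · subst h0
    exact ⟨1, Or.inl ⟨1, by rw [W_nil]; simp⟩⟩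
  by_cases h1 : CR r
  · exact ⟨1, Or.inr ⟨r, h0, h1, by simp⟩⟩
  -- an adjacent pair which cancels
  have key : ∃ (l : List (Bool × G)) (p q : Bool × G) (s : List (Bool × G)),
      (W r = W l * W (p :: q :: s)) ∧ r.length = l.length + (s.length + 2) ∧
        p.1 ≠ q.1 ∧ p.2 = 1 ∨ (r = q :: (s ++ [p])) ∧ p.1 ≠ q.1 ∧ p.2 = 1 := by
    unfold CR at h1
    by_cases h2 : r.IsChain fun p q => p.1 ≠ q.1 → p.2 ≠ 1
    · -- the junction
      rw [List.isChain_append] at h1
      push Not at h1
      obtain ⟨x, hx, y, hy, hne, hx1⟩ := h1 h2 h2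
      obtain ⟨t, ht⟩ : ∃ t, r = t ++ [x] := by
        rw [Option.mem_def, List.getLast?_eq_some_iff] at hx
        exact hx
      obtain ⟨s', hs'⟩ : ∃ s', r = y :: s' := by
        rw [Option.mem_def, List.head?_eq_some_iff] at hy
        exact hy
      cases t with
      | nil =>
        exfalso
        rw [ht] at hs'
        simp only [List.nil_append, List.cons.injEq] at hs'
        exact hne (by rw [hs'.1])
      | cons a s =>
        have h3 : a = y := by
          rw [hs'] at ht
          simp only [List.cons_append, List.cons.injEq] at ht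
          exact ht.1.symm
        subst h3
        exact ⟨[], x, a, s, Or.inr ⟨ht, hne, hx1⟩⟩
    · rw [List.isChain_iff_forall_rel_of_append_cons_cons] at h2
      push Not at h2
      obtain ⟨p, q, l, s, h3, h4, h5⟩ := h2
      refine ⟨l, p, q, s, Or.inl ⟨?_, ?_, h4, h5⟩⟩
      · rw [h3, W_append]
      · rw [h3]
        simp
  obtain ⟨l, p, q, s, h | h⟩ := key
  · obtain ⟨h2, h3, h4, h5⟩ := h
    rw [h2]
    apply P.swap
    rw [W_cancel p q s h4 h5, mul_assoc, ← W_append]
    exact ih (s.length + l.length) (by omega) (s ++ l) q.2 (by simp)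
  · obtain ⟨h2, h4, h5⟩ := h
    have h6 : W r = W (q :: s) * W [p] := by
      rw [← W_append, h2]
      simp
    have h7 : r.length = s.length + 2 := by
      rw [h2]
      simp
    rw [h6]
    apply P.swap
    rw [← W_append, List.singleton_append, W_cancel p q s h4 h5]
    exact ih s.length (by omega) s q.2 rfl

theorem stepB (n : ℕ) : ∀ (r : List (Bool × G)) (g : G), r.length = n → P (inl g * W r) := by
  induction n using Nat.strong_induction_on with
  | _ n ih =>
    intro r g hr
    by_cases h0 : r = []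
    · subst h0
      exact ⟨1, Or.inl ⟨g, by rw [W_nil]; simp⟩⟩
    · apply P.swap
      obtain ⟨r', _, h2, h3⟩ := W_mul_inl r h0 g
      rw [h3]
      exact stepA n ih r' (by rw [h2, hr])

/-- products of elements of `G` and letters -/
def F (w : Cop G Zm) : Prop := ∃ (g : G) (r : List (Bool × G)), w = inl g * W r

theorem F.mul_inl {w : Cop G Zm} (h : F w) (g' : G) : F (w * inl g') := by
  obtain ⟨g, r, rfl⟩ := h
  by_cases h0 : r = []
  · subst h0
    refine ⟨g * g', [], ?_⟩
    rw [W_nil, mul_one, mul_one, map_mul]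
  · obtain ⟨r', _, _, h3⟩ := W_mul_inl r h0 g'
    exact ⟨g, r', by rw [mul_assoc, h3]⟩

theorem F.mul_nu {w : Cop G Zm} (h : F w) : F (w * inr (Multiplicative.ofAdd 1)) := by
  obtain ⟨g, r, rfl⟩ := h
  refine ⟨g, r ++ [(true, 1)], ?_⟩
  rw [W_append, W_cons, W_nil]
  simp [mul_assoc]

theorem F.mul_nu_inv {w : Cop G Zm} (h : F w) : F (w * (inr (Multiplicative.ofAdd 1))⁻¹) := by
  obtain ⟨g, r, rfl⟩ := h
  refine ⟨g, r ++ [(false, 1)], ?_⟩
  rw [W_append, W_cons, W_nil]
  simp [mul_assoc]

theorem F.mul_inr {w : Cop G Zm} (h : F w) (z : ℤ) : F (w * inr (Multiplicative.ofAdd z)) := by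
  induction z using Int.induction_on with
  | zero =>
    rw [ofAdd_zero, map_one, mul_one]
    exact h
  | succ i ih =>
    rw [ofAdd_add, map_mul, ← mul_assoc]
    exact ih.mul_nu
  | pred i ih =>
    rw [sub_eq_add_neg, ofAdd_add, map_mul, ← mul_assoc, ofAdd_neg, map_inv]
    exact ih.mul_nu_inv

theorem F.all (w : Cop G Zm) : F w := by
  have key : ∀ w v : Cop G Zm, F v → F (v * w) := by
    intro w
    induction w using Monoid.Coprod.induction_on with
    | inl g => exact fun v hv => hv.mul_inl g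
    | inr z =>
      intro v hv
      exact hv.mul_inr (Multiplicative.toAdd z)
    | mul x y hx hy =>
      intro v hv
      rw [← mul_assoc]
      exact hy _ (hx _ hv)
  have h := key w 1 ⟨1, [], by rw [W_nil]; simp⟩
  rwa [one_mul] at h

end CJ_

theorem p_CJ : T_CJ := by
  intro G _ w
  obtain ⟨g, r, rfl⟩ := CJ_.F.all w
  exact CJ_.stepB r.length r g rfl

end ORG
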