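import Pool.Agent.ORG.Targets1

/-!
# ORG-CMI: maps of free products with injective components are injective (helper62)
-/

set_option autoImplicit false

open Monoid

namespace ORG

namespace CMI_

noncomputable section

section words

variable {ι : Type} {M N : ι → Type} [∀ i, Group (M i)] [∀ i, Group (N i)]

/-- the image of a reduced word -/
def wmap (f : ∀ i, M i →* N i) (hf : ∀ i, Function.Injective (f i)) (w : CoprodI.Word M) :
    CoprodI.Word N where
  toList := w.toList.map fun l => ⟨l.1, f l.1 l.2⟩
  ne_one := by
    intro l hl
    obtain ⟨l', hl', rfl⟩ := List.mem_map.1 hl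
    exact fun h => w.ne_one l' hl' ((map_eq_one_iff (f l'.1) (hf l'.1)).1 h)
  chain_ne := by
    rw [List.isChain_map]
    exact w.chain_ne

/-- the map of free products -/
def imap (f : ∀ i, M i →* N i) : CoprodI M →* CoprodI N :=
  CoprodI.lift fun i => (CoprodI.of (M := N) (i := i)).comp (f i)

theorem wmap_prod (f : ∀ i, M i →* N i) (hf : ∀ i, Function.Injective (f i))
    (w : CoprodI.Word M) : (wmap f hf w).prod = imap f w.prod := by
  unfold CoprodI.Word.prod
  rw [map_list_prod, List.map_map]
  simp only [wmap, List.map_map]
  congr 1

theorem imap_injective (f : ∀ i, M i →* N i) (hf : ∀ i, Function.Injective (f i)) :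
    Function.Injective (imap f) := by
  classical
  rw [injective_iff_map_eq_one]
  intro x hx
  obtain ⟨w, rfl⟩ := (CoprodI.Word.equiv (M := M)).symm.surjective x
  have hx' : imap f w.prod = 1 := hx
  rw [← wmap_prod f hf w] at hx'
  have h2 : (wmap f hf w).prod = (CoprodI.Word.empty : CoprodI.Word N).prod := by
    rw [hx', CoprodI.Word.prod_empty]
  have h3 : wmap f hf w = CoprodI.Word.empty :=
    (CoprodI.Word.equiv (M := N)).symm.injective h2
  have h4 : w.toList = [] := by
    have := congrArg CoprodI.Word.toList h3
    simpa [wmap] using this
  show w.prod = 1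
  unfold CoprodI.Word.prod
  rw [h4]
  rfl

end words

section bool

/-- the family of two groups -/
def Fam (G H : Type) : Bool → Type
  | true => G
  | false => H

instance famGroup (G H : Type) [Group G] [Group H] : ∀ b, Group (Fam G H b)
  | true => inferInstanceAs (Group G)
  | false => inferInstanceAs (Group H)

variable (G H : Type) [Group G] [Group H]

/-- from the binary free product to the indexed one -/
def toI : Coprod G H →* CoprodI (Fam G H) :=
  Coprod.lift (CoprodI.of (M := Fam G H) (i := true)) (CoprodI.of (M := Fam G H) (i := false))

/-- the components of `fromI` -/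
def fromC : ∀ b, Fam G H b →* Coprod G H
  | true => (Coprod.inl : G →* Coprod G H)
  | false => (Coprod.inr : H →* Coprod G H)

/-- from the indexed free product to the binary one -/
def fromI : CoprodI (Fam G H) →* Coprod G H := CoprodI.lift (fromC G H)

theorem toI_injective : Function.Injective (toI G H) := by
  apply inj_of_left (toI G H) (fromI G H)
  apply Coprod.hom_ext
  · ext x
    simp only [MonoidHom.comp_apply, toI, Coprod.lift_apply_inl, MonoidHom.id_apply]
    exact CoprodI.lift_of (fromC G H) (i := true) x
  · ext x
    simp only [MonoidHom.comp_apply, toI, Coprod.lift_apply_inr, MonoidHom.id_apply]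
    exact CoprodI.lift_of (fromC G H) (i := false) x

variable {G H} {G' H' : Type} [Group G'] [Group H']

/-- the family of two homomorphisms -/
def fam (f : G →* G') (g : H →* H') : ∀ b, Fam G H b →* Fam G' H' b
  | true => f
  | false => g

theorem toI_map (f : G →* G') (g : H →* H') :
    (toI G' H').comp (Coprod.map f g) = (imap (fam f g)).comp (toI G H) := by
  apply Coprod.hom_ext
  · ext x
    simp only [MonoidHom.comp_apply, Coprod.map_apply_inl, toI, Coprod.lift_apply_inl]
    exact (CoprodI.lift_of (fun i => (CoprodI.of (M := Fam G' H') (i := i)).comp (fam f g i))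
      (i := true) x).symm
  · ext x
    simp only [MonoidHom.comp_apply, Coprod.map_apply_inr, toI, Coprod.lift_apply_inr]
    exact (CoprodI.lift_of (fun i => (CoprodI.of (M := Fam G' H') (i := i)).comp (fam f g i))
      (i := false) x).symm

end bool

end

end CMI_

open CMI_ in
/-- maps of free products with injective components are injective -/
theorem p_CMI : T_CMI := by
  intro G H G' H' _ _ _ _ f g hf hg
  have h1 : Function.Injective ((imap (fam f g)).comp (toI G H)) := by
    rw [MonoidHom.coe_comp]
    refine (imap_injective (fam f g) ?_).comp (toI_injective G H)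
    intro b
    cases b
    · exact hg
    · exact hf
  rw [← toI_map f g, MonoidHom.coe_comp] at h1
  exact h1.of_comp

end ORG
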