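import Pool.Agent.ORG.Targets2

/-!
# ORG-CRI: `CR` and `Pr` under injective maps
-/

set_option autoImplicit false

open Monoid.Coprod

namespace ORG

noncomputable section

namespace CRI_

/-- chains and implications on the elements of the list -/
lemma chain_imp {α : Type} {R R' : α → α → Prop} : ∀ {l : List α},
    (∀ a ∈ l, ∀ b ∈ l, R a b → R' a b) → l.IsChain R → l.IsChain R'
  | [], _, _ => List.IsChain.nil
  | [a], _, _ => List.IsChain.singleton a
  | a :: b :: l, h, h' => by
    rw [List.isChain_cons_cons] at h' ⊢
    exact ⟨h a (by simp) b (by simp) h'.1,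
      chain_imp (fun x hx y hy => h x (List.mem_cons_of_mem _ hx) y (List.mem_cons_of_mem _ hy))
        h'.2⟩

end CRI_

open CRI_ in
/-- `T_CRI` -/
theorem p_CRI : T_CRI := by
  intro G G' _ _ f S r hf hr
  refine ⟨fun h => ?_, fun h q s hq => ?_⟩
  · unfold CR mp at *
    rw [← List.map_append, List.isChain_map]
    refine chain_imp (fun a ha b _ hab hne => ?_) h
    have ha' : a ∈ r := by simpa using ha
    intro h1
    refine hab hne (hf (hr a ha') S.one_mem ?_)
    rw [map_one]
    exact h1
  · refine h q (s.map (Prod.map id (Function.invFunOn f S))) ?_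
    have h1 : (mp f r).map (Prod.map id (Function.invFunOn f S)) = r := by
      unfold mp
      rw [List.map_map]
      conv_rhs => rw [← List.map_id r]
      refine List.map_congr_left fun p hp => ?_
      have h2 := hf.leftInvOn_invFunOn (hr p hp)
      exact Prod.ext rfl h2
    rw [← h1, hq, List.map_flatten, List.map_replicate]

end

end ORG
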