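import Pool.Agent.ORG.Targets1

/-!
# ORG: Corollary T
-/

set_option autoImplicit false

open Monoid.Coprod

namespace ORG

noncomputable section

namespace CT_

variable {A B : Type} [Group A] [Group B]

/-- the first elements -/
def xx (B : Type) [Group B] (a : A) : Unit → Cop A B := fun _ => inl a

/-- the second elements -/
def yy (A : Type) [Group A] (b : B) : Unit → Cop A B := fun _ => inr b⁻¹

/-- the HNN extension -/
abbrev GamT (a : A) (b : B) : Type := HN (xx B a) (yy A b)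

/-- the stable letter -/
def ff (a : A) (b : B) : GamT a b := HN.t (xx B a) (yy A b) ()

lemma ff_rel (a : A) (b : B) :
    ff a b * HN.of (xx B a) (yy A b) (inl a) * (ff a b)⁻¹ =
      (HN.of (xx B a) (yy A b) (inr b))⁻¹ := by
  have h := HN.rel (xx B a) (yy A b) ()
  rw [mul_inv_eq_iff_eq_mul, ← map_inv, ← map_inv]
  exact h

/-- the homomorphism on `A` -/
def uA (a : A) (b : B) : A →* GamT a b :=
  (MulAut.conj (ff a b)).toMonoidHom.comp ((HN.of (xx B a) (yy A b)).comp inl)

/-- the homomorphism on `B` -/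
def uB (a : A) (b : B) : B →* GamT a b := (HN.of (xx B a) (yy A b)).comp inr

lemma uA_apply (a : A) (b : B) (a' : A) :
    uA a b a' = ff a b * HN.of (xx B a) (yy A b) (inl a') * (ff a b)⁻¹ := rfl

lemma uB_apply (a : A) (b : B) (b' : B) :
    uB a b b' = HN.of (xx B a) (yy A b) (inr b') := rfl

/-- the set of the relator -/
abbrev rel (a : A) (b : B) : Set (Cop A B) := {inl a * inr b}

lemma rel_ok (a : A) (b : B) : ∀ w ∈ rel a b, Monoid.Coprod.lift (uA a b) (uB a b) w = 1 := by
  intro w hw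
  rw [Set.mem_singleton_iff.1 hw, map_mul, Monoid.Coprod.lift_apply_inl,
    Monoid.Coprod.lift_apply_inr, uA_apply, uB_apply, ff_rel, inv_mul_cancel]

/-- the homomorphism from the quotient -/
def qu (a : A) (b : B) : Quo (rel a b) →* GamT a b :=
  Quo.lift (rel a b) (Monoid.Coprod.lift (uA a b) (uB a b)) (rel_ok a b)

lemma qu_inl (a : A) (b : B) (a' : A) : qu a b (Quo.mk (rel a b) (inl a')) =
    ff a b * HN.of (xx B a) (yy A b) (inl a') * (ff a b)⁻¹ := by
  rw [qu, Quo.lift_mk, Monoid.Coprod.lift_apply_inl, uA_apply]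

lemma qu_inr (a : A) (b : B) (b' : B) : qu a b (Quo.mk (rel a b) (inr b')) =
    HN.of (xx B a) (yy A b) (inr b') := by
  rw [qu, Quo.lift_mk, Monoid.Coprod.lift_apply_inr, uB_apply]

/-- the generator of the second factor -/
def zz (a : A) (b : B) : Cop (Quo (rel a b)) Zm := inr (Multiplicative.ofAdd 1)

/-- the homomorphism on the base group -/
def vv (a : A) (b : B) : Cop A B →* Cop (Quo (rel a b)) Zm :=
  Monoid.Coprod.lift
    ((MulAut.conj (zz a b)⁻¹).toMonoidHom.comp (inl.comp ((Quo.mk (rel a b)).comp inl)))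
    (inl.comp ((Quo.mk (rel a b)).comp inr))

lemma vv_inl (a : A) (b : B) (a' : A) :
    vv a b (inl a') = (zz a b)⁻¹ * inl (Quo.mk (rel a b) (inl a')) * zz a b := by
  rw [vv, Monoid.Coprod.lift_apply_inl]
  change (zz a b)⁻¹ * inl (Quo.mk (rel a b) (inl a')) * (zz a b)⁻¹⁻¹ = _
  rw [inv_inv]

lemma vv_inr (a : A) (b : B) (b' : B) :
    vv a b (inr b') = inl (Quo.mk (rel a b) (inr b')) := by
  rw [vv, Monoid.Coprod.lift_apply_inr]
  rfl

lemma mk_inv (a : A) (b : B) :
    Quo.mk (rel a b) (inl a) = Quo.mk (rel a b) (inr b⁻¹) := by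
  have h : Quo.mk (rel a b) (inl a * inr b) = 1 := Quo.mk_rel (Set.mem_singleton _)
  rw [map_mul, mul_eq_one_iff_eq_inv, ← map_inv, ← map_inv] at h
  exact h

lemma vv_rel (a : A) (b : B) (i : Unit) :
    zz a b * vv a b (xx B a i) = vv a b (yy A b i) * zz a b := by
  change zz a b * vv a b (inl a) = vv a b (inr b⁻¹) * zz a b
  rw [vv_inl, vv_inr, ← mk_inv]
  group

/-- the homomorphism to the free product -/
def ww (a : A) (b : B) : GamT a b →* Cop (Quo (rel a b)) Zm :=
  HN.lift (xx B a) (yy A b) (vv a b) (fun _ => zz a b) (vv_rel a b)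

lemma ww_ff (a : A) (b : B) : ww a b (ff a b) = zz a b := by
  rw [ww, ff, HN.lift_t]

lemma ww_of (a : A) (b : B) (w : Cop A B) :
    ww a b (HN.of (xx B a) (yy A b) w) = vv a b w := by
  rw [ww, HN.lift_of]

lemma ww_qu_inl (a : A) (b : B) (a' : A) :
    ww a b (qu a b (Quo.mk (rel a b) (inl a'))) = inl (Quo.mk (rel a b) (inl a')) := by
  rw [qu_inl, map_mul, map_mul, map_inv, ww_ff, ww_of, vv_inl]
  group

lemma ww_qu_inr (a : A) (b : B) (b' : B) :
    ww a b (qu a b (Quo.mk (rel a b) (inr b'))) = inl (Quo.mk (rel a b) (inr b')) := by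
  rw [qu_inr, ww_of, vv_inr]

lemma ww_qu_mk (a : A) (b : B) (w : Cop A B) :
    ww a b (qu a b (Quo.mk (rel a b) w)) = inl (Quo.mk (rel a b) w) := by
  have h : (ww a b).comp ((qu a b).comp (Quo.mk (rel a b))) =
      (inl : Quo (rel a b) →* Cop (Quo (rel a b)) Zm).comp (Quo.mk (rel a b)) := by
    apply Monoid.Coprod.hom_ext
    · ext a'
      exact ww_qu_inl a b a'
    · ext b'
      exact ww_qu_inr a b b'
  exact DFunLike.congr_fun h w

lemma ww_qu (a : A) (b : B) (q : Quo (rel a b)) :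
    ww a b (qu a b q) = inl q := by
  obtain ⟨w, rfl⟩ := Quo.mk_surj (rel a b) q
  exact ww_qu_mk a b w

lemma qu_inj (a : A) (b : B) : Function.Injective (qu a b) := by
  intro p q h
  have h1 := congrArg (ww a b) h
  rw [ww_qu, ww_qu] at h1
  exact Monoid.Coprod.inl_injective h1

lemma inl_ne {a : A} (ha : a ≠ 1) : (inl a : Cop A B) ≠ 1 := by
  intro h
  exact ha (Monoid.Coprod.inl_injective (h.trans (map_one _).symm))

lemma inr_ne {b : B} (hb : b ≠ 1) : (inr b⁻¹ : Cop A B) ≠ 1 := by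
  intro h
  have : b⁻¹ = 1 := Monoid.Coprod.inr_injective (h.trans (map_one _).symm)
  exact hb (inv_eq_one.1 this)

/-- elements different from `1` have infinite order -/
lemma iord (h5 : T_VC) (h6 : T_VN) (K : Type) [Group K] (hK : InC 1 K) (g : K) (hg : g ≠ 1) :
    IOrd g := by
  have h := h5 K hK {g} (Set.finite_singleton g) (fun h => hg (Set.mem_singleton_iff.1 h).symm)
  exact (h6 K {g} h).2 g (Set.mem_singleton g)

end CT_

open CT_ in
theorem p_CT (h1 : T_C1) (h3 : T_C3) (hH : T_CH) (hI : T_HNI) (h5 : T_VC) (h6 : T_VN) :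
    T_CT := by
  intro A B _ _ a b hA hB ha hb
  have hAB : InC 1 (Cop A B) := h3 1 A B hA hB
  have hG : InC 1 (GamT a b) :=
    hH (Cop A B) Unit (xx B a) (yy A b) hAB (fun _ => ⟨inl_ne ha, inr_ne hb⟩)
  have hof : Function.Injective (HN.of (xx B a) (yy A b)) :=
    hI (Cop A B) Unit (xx B a) (yy A b) (fun _ =>
      ⟨iord h5 h6 (Cop A B) hAB _ (inl_ne ha), iord h5 h6 (Cop A B) hAB _ (inr_ne hb)⟩)
  refine ⟨?_, ?_, h1 1 (GamT a b) hG (Quo (rel a b)) (qu a b) (qu_inj a b)⟩
  · intro p q h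
    have h2 : qu a b (Quo.mk (rel a b) (inl p)) = qu a b (Quo.mk (rel a b) (inl q)) :=
      congrArg (qu a b) h
    rw [qu_inl, qu_inl] at h2
    have h4 := mul_left_cancel (mul_right_cancel h2)
    exact Monoid.Coprod.inl_injective (hof h4)
  · intro p q h
    have h2 : qu a b (Quo.mk (rel a b) (inr p)) = qu a b (Quo.mk (rel a b) (inr q)) :=
      congrArg (qu a b) h
    rw [qu_inr, qu_inr] at h2
    exact Monoid.Coprod.inr_injective (hof h2)

end

end ORG
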