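import Pool.Agent.ORG.Targets3

set_option autoImplicit false

open Monoid.Coprod

namespace ORG

namespace CYC_

/-- closed under injective homomorphisms -/
lemma inj {G G' : Type} [Group G] [Group G'] (f : G →* G') (hf : Function.Injective f)
    (h : HGQ.Cyc G') : HGQ.Cyc G := by
  refine HGQ.Cyc.pull G G' f ?_ h
  rw [(MonoidHom.ker_eq_bot_iff f).2 hf]
  infer_instance

/-- closed under retracts -/
lemma left {G G' : Type} [Group G] [Group G'] (f : G →* G') (g : G' →* G)
    (h : g.comp f = MonoidHom.id G) (hc : HGQ.Cyc G') : HGQ.Cyc G := inj f (inj_of_left f g h) hc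

/-- the trivial group -/
lemma unit : HGQ.Cyc Unit := by
  refine HGQ.Cyc.axial Unit ⟨Unit, inferInstance, (), fun _ _ => 0, fun _ => rfl, fun _ _ => rfl,
    fun _ _ _ => rfl, fun n x c hc => by simp, fun R => Set.toFinite _, fun c hc => ?_⟩
  exact absurd (isOfFinOrder_of_finite c) hc

/-- trivial groups -/
lemma sub (G : Type) [Group G] (h : ∀ g : G, g = 1) : HGQ.Cyc G :=
  inj (1 : G →* Unit) (fun x y _ => (h x).trans (h y).symm) unit

/-- free products with the integers -/
lemma zm (A : Type) [Group A] (h : HGQ.Cyc A) : HGQ.Cyc (Cop A Zm) := by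
  let e : (⊥ : Subgroup A) ≃* (⊥ : Subgroup A) := MulEquiv.refl _
  let f : Cop A Zm →* HNNExtension A ⊥ ⊥ e :=
    Monoid.Coprod.lift HNNExtension.of (zpowersHom _ HNNExtension.t)
  let g : HNNExtension A ⊥ ⊥ e →* Cop A Zm :=
    HNNExtension.lift inl (inr (Multiplicative.ofAdd 1)) (by
      rintro ⟨a, ha⟩
      have ha' : a = 1 := ha
      subst ha'
      have h1 : e ⟨1, ha⟩ = 1 := Subsingleton.elim _ _
      rw [h1]
      simp)
  refine left f g ?_ (HGQ.Cyc.hnn A ⊥ ⊥ e (Or.inl inferInstance) h)
  apply Monoid.Coprod.hom_ext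
  · ext a
    simp [f, g]
  · apply MonoidHom.ext_mint
    simp [f, g]

/-- free products with a finite group -/
lemma fin (A K : Type) [Group A] [Group K] [Finite K] (h : HGQ.Cyc A) :
    HGQ.Cyc (Cop A K) := by
  classical
  have h1 : HGQ.Cyc (A × K) := by
    refine HGQ.Cyc.pull (A × K) A (MonoidHom.fst A K) ?_ h
    refine Finite.of_injective (β := K) (fun x : (MonoidHom.fst A K).ker => x.1.2) ?_
    rintro ⟨⟨a, z⟩, hx⟩ ⟨⟨a', z'⟩, hx'⟩ hh
    have e1 : a = 1 := hx
    have e2 : a' = 1 := hx'
    have e3 : z = z' := hh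
    subst e1
    subst e2
    subst e3
    rfl
  let t : Zm := Multiplicative.ofAdd 1
  have ht : t ≠ 1 := by decide
  let j : Cop A K →* Cop (A × K) Zm := Monoid.Coprod.lift
    (inl.comp (MonoidHom.inl A K))
    ((MulAut.conj (inr t : Cop (A × K) Zm)).toMonoidHom.comp (inl.comp (MonoidHom.inr A K)))
  let b : A × K →* Wr (Cop A K) Zm := MonoidHom.mk'
    (fun p => ⟨fun c => if c = 1 then inl p.1 else if c = t then inr p.2 else 1, 1⟩) (by
      intro p q
      ext c
      · by_cases hc : c = 1
        · simp [hc]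
        · by_cases hc' : c = t
          · simp [hc', ht]
          · simp [hc, hc']
      · simp)
  let θ : Cop (A × K) Zm →* Wr (Cop A K) Zm := Monoid.Coprod.lift b Wr.tr
  have key : ∀ w : Cop A K, (θ (j w)).a = 1 ∧ (θ (j w)).f 1 = w := by
    intro w
    induction w using Monoid.Coprod.induction_on with
    | inl a => simp [θ, j, b]
    | inr z => simp [θ, j, b, ht]
    | mul x y hx hy =>
      rw [map_mul, map_mul]
      refine ⟨by rw [Wr.mul_a, hx.1, hy.1, mul_one], ?_⟩
      rw [Wr.mul_f, hx.1, hx.2, mul_one, hy.2]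
  refine inj j (fun x y hxy => ?_) (zm _ h1)
  rw [← (key x).2, hxy, (key y).2]

/-- free products of copies of a finite group, finite index set -/
lemma cop (K : Type) [Group K] [Finite K] (J : Type) [Finite J] : HGQ.Cyc (CopI J K) := by
  induction J using Finite.induction_empty_option with
  | @of_equiv α β e ih =>
    refine left (CImap e.symm (MonoidHom.id K)) (CImap e (MonoidHom.id K)) ?_ ih
    apply Monoid.CoprodI.ext_hom
    intro i
    ext z
    simp [CImap]
  | h_empty =>
    apply sub
    intro g
    induction g using Monoid.CoprodI.induction_on with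
    | one => rfl
    | of i m => exact i.elim
    | mul x y hx hy => rw [hx, hy, one_mul]
  | @h_option α _ ih =>
    let f : CopI (Option α) K →* Cop (CopI α K) K :=
      Monoid.CoprodI.lift fun o => match o with
        | none => inr
        | some i => inl.comp (Monoid.CoprodI.of (M := fun _ : α => K) (i := i))
    let g : Cop (CopI α K) K →* CopI (Option α) K :=
      Monoid.Coprod.lift (CImap some (MonoidHom.id K))
        (Monoid.CoprodI.of (M := fun _ : Option α => K) (i := none))
    refine left f g ?_ (fin (CopI α K) K ih)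
    apply Monoid.CoprodI.ext_hom
    intro o
    cases o with
    | none =>
      ext z
      simp [f, g]
    | some i =>
      ext z
      simp [f, g, CImap]

/-- free products with a free group, finite index set -/
lemma fre (A : Type) [Group A] (h : HGQ.Cyc A) (S : Type) [Finite S] :
    HGQ.Cyc (Cop (FreeGroup S) A) := by
  induction S using Finite.induction_empty_option with
  | @of_equiv α β e ih =>
    refine left (Monoid.Coprod.map (FreeGroup.map e.symm) (MonoidHom.id A))
      (Monoid.Coprod.map (FreeGroup.map e) (MonoidHom.id A)) ?_ ih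
    apply Monoid.Coprod.hom_ext
    · ext s
      simp
    · ext a
      simp
  | h_empty =>
    refine left (Monoid.Coprod.lift (1 : FreeGroup PEmpty →* A) (MonoidHom.id A)) inr ?_ h
    apply Monoid.Coprod.hom_ext
    · ext s
      exact s.elim
    · ext a
      simp
  | @h_option α _ ih =>
    let f : Cop (FreeGroup (Option α)) A →* Cop (Cop (FreeGroup α) A) Zm :=
      Monoid.Coprod.lift (FreeGroup.lift fun o => match o with
        | none => inr (Multiplicative.ofAdd 1)
        | some s => inl (inl (FreeGroup.of s))) (inl.comp inr)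
    let g : Cop (Cop (FreeGroup α) A) Zm →* Cop (FreeGroup (Option α)) A :=
      Monoid.Coprod.lift (Monoid.Coprod.map (FreeGroup.map some) (MonoidHom.id A))
        (zpowersHom _ (inl (FreeGroup.of none)))
    refine left f g ?_ (zm _ ih)
    apply Monoid.Coprod.hom_ext
    · ext o
      cases o with
      | none => simp [f, g]
      | some s => simp [f, g]
    · ext a
      simp [f, g]

open Classical in
/-- the endomorphism killing the letters outside two finite sets -/
noncomputable def ke (K : Type) [Group K] {S J : Type} (S0 : Finset S) (J0 : Finset J) :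
    Cop (FreeGroup S) (CopI J K) →* Cop (FreeGroup S) (CopI J K) :=
  Monoid.Coprod.lift
    (inl.comp (FreeGroup.lift fun s => if s ∈ S0 then FreeGroup.of s else 1))
    (inr.comp (Monoid.CoprodI.lift fun j =>
      if j ∈ J0 then Monoid.CoprodI.of (M := fun _ : J => K) (i := j) else 1))

lemma ke_mono (K : Type) [Group K] {S J : Type} {S0 S1 : Finset S} {J0 J1 : Finset J}
    (hS : S0 ⊆ S1) (hJ : J0 ⊆ J1) : (ke K S1 J1).comp (ke K S0 J0) = ke K S0 J0 := by
  apply Monoid.Coprod.hom_ext
  · ext s
    by_cases h : s ∈ S0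
    · simp [ke, h, hS h]
    · simp [ke, h]
  · apply MonoidHom.ext
    intro y
    induction y using Monoid.CoprodI.induction_on with
    | one => simp
    | of j z =>
      by_cases h : j ∈ J0
      · simp [ke, h, hJ h]
      · simp [ke, h]
    | mul x y hx hy => rw [map_mul, hx, hy, map_mul]

lemma ke_fix (K : Type) [Group K] {S J : Type} {S0 S1 : Finset S} {J0 J1 : Finset J}
    (hS : S0 ⊆ S1) (hJ : J0 ⊆ J1) {w : Cop (FreeGroup S) (CopI J K)} (h : ke K S0 J0 w = w) :
    ke K S1 J1 w = w := by
  have := DFunLike.congr_fun (ke_mono K hS hJ) w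
  rw [MonoidHom.comp_apply, h] at this
  exact this

open Classical in
lemma ke_mul (K : Type) [Group K] {S J : Type} {w v : Cop (FreeGroup S) (CopI J K)}
    (h : ∃ (S0 : Finset S) (J0 : Finset J), ke K S0 J0 w = w)
    (h' : ∃ (S0 : Finset S) (J0 : Finset J), ke K S0 J0 v = v) :
    ∃ (S0 : Finset S) (J0 : Finset J), ke K S0 J0 (w * v) = w * v := by
  obtain ⟨S0, J0, h0⟩ := h
  obtain ⟨S1, J1, h1⟩ := h'
  refine ⟨S0 ∪ S1, J0 ∪ J1, ?_⟩
  rw [map_mul, ke_fix K Finset.subset_union_left Finset.subset_union_left h0,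
    ke_fix K Finset.subset_union_right Finset.subset_union_right h1]

lemma ke_ex (K : Type) [Group K] {S J : Type} (w : Cop (FreeGroup S) (CopI J K)) :
    ∃ (S0 : Finset S) (J0 : Finset J), ke K S0 J0 w = w := by
  induction w using Monoid.Coprod.induction_on with
  | inl x =>
    induction x using FreeGroup.induction_on with
    | C1 => exact ⟨∅, ∅, by simp⟩
    | of s => exact ⟨{s}, ∅, by simp [ke]⟩
    | inv_of s _ => exact ⟨{s}, ∅, by simp [ke]⟩
    | mul x y hx hy =>
      rw [map_mul]
      exact ke_mul K hx hy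
  | inr y =>
    induction y using Monoid.CoprodI.induction_on with
    | one => exact ⟨∅, ∅, by simp⟩
    | of j z => exact ⟨∅, {j}, by simp [ke]⟩
    | mul x y hx hy =>
      rw [map_mul]
      exact ke_mul K hx hy
  | mul x y hx hy => exact ke_mul K hx hy

open Classical in
/-- the projection to the group with finitely many letters -/
noncomputable def kr (K : Type) [Group K] {S J : Type} (S0 : Finset S) (J0 : Finset J) :
    Cop (FreeGroup S) (CopI J K) →* Cop (FreeGroup S0) (CopI J0 K) :=
  Monoid.Coprod.lift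
    (inl.comp (FreeGroup.lift fun s => if h : s ∈ S0 then FreeGroup.of ⟨s, h⟩ else 1))
    (inr.comp (Monoid.CoprodI.lift fun j =>
      if h : j ∈ J0 then Monoid.CoprodI.of (M := fun _ : J0 => K) (i := ⟨j, h⟩) else 1))

lemma kr_ke (K : Type) [Group K] {S J : Type} (S0 : Finset S) (J0 : Finset J) :
    (Monoid.Coprod.map (FreeGroup.map Subtype.val) (CImap Subtype.val (MonoidHom.id K))).comp
      (kr K S0 J0) = ke K S0 J0 := by
  apply Monoid.Coprod.hom_ext
  · ext s
    by_cases h : s ∈ S0
    · simp [ke, kr, h]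
    · simp [ke, kr, h]
  · apply MonoidHom.ext
    intro y
    induction y using Monoid.CoprodI.induction_on with
    | one => simp
    | of j z =>
      by_cases h : j ∈ J0
      · simp [ke, kr, h, CImap]
      · simp [ke, kr, h]
    | mul x y hx hy => rw [map_mul, hx, hy, map_mul]

/-- free products of a free group and copies of a finite group -/
lemma mdl (K : Type) [Group K] [Finite K] (S J : Type) :
    HGQ.Cyc (Cop (FreeGroup S) (CopI J K)) := by
  classical
  choose s j h using fun w : Cop (FreeGroup S) (CopI J K) => ke_ex K w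
  refine HGQ.Cyc.union _
    (fun F => ↥((ke K (F.biUnion s) (F.biUnion j)).eqLocus (MonoidHom.id _)))
    (fun F => Subgroup.subtype _) (fun F => Subtype.val_injective) (fun F w hw => ?_)
    (fun F => ?_)
  · refine ⟨⟨w, ?_⟩, rfl⟩
    exact ke_fix K (Finset.subset_biUnion_of_mem s hw) (Finset.subset_biUnion_of_mem j hw) (h w)
  · refine inj ((kr K (F.biUnion s) (F.biUnion j)).comp (Subgroup.subtype _)) ?_
      (fre _ (cop K _) _)
    rintro ⟨x, hx⟩ ⟨y, hy⟩ hxy
    have hx' : ke K (F.biUnion s) (F.biUnion j) x = x := hx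
    have hy' : ke K (F.biUnion s) (F.biUnion j) y = y := hy
    have e : kr K (F.biUnion s) (F.biUnion j) x = kr K (F.biUnion s) (F.biUnion j) y := hxy
    apply Subtype.ext
    change x = y
    rw [← hx', ← hy', ← kr_ke, MonoidHom.comp_apply, MonoidHom.comp_apply, e]

/-- directed unions of finitely generated subgroups -/
lemma loc (G : Type) [Group G] (h : ∀ P : Subgroup G, P.FG → HGQ.Cyc P) : HGQ.Cyc G :=
  HGQ.Cyc.union G (fun S => ↥(Subgroup.closure (S : Set G))) (fun _ => Subgroup.subtype _)
    (fun _ => Subtype.val_injective) (fun _ s hs => ⟨⟨s, Subgroup.subset_closure hs⟩, rfl⟩)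
    fun S => h _ ⟨S, rfl⟩

/-- `G` embeds in the semidirect product of `Hat χ` and the integers -/
lemma ext (G : Type) [Group G] (χ : G →* Zm) (h : HGQ.Cyc (Hat χ)) : HGQ.Cyc G := by
  let φ : Zm →* MulAut (Hat χ) :=
    (MulAut.conjNormal (H := (lift χ (MonoidHom.id Zm)).ker)).comp inr
  have hφ : ∀ (a : Zm) (g : G), φ a (hat χ g 1) = hat χ g a := by
    intro a g
    apply Subtype.ext
    simp only [φ, MonoidHom.comp_apply, MulAut.conjNormal_apply, hat_coe, map_one, one_mul,
      inv_one, mul_one]
    group
  let f : G →* Hat χ ⋊[φ] Zm := MonoidHom.mk' (fun g => ⟨hat χ g 1, χ g⟩) (by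
    intro g g'
    ext
    · rw [SemidirectProduct.mul_left, hφ, map_mul, hat_mul, one_mul]
    · simp)
  refine inj f (fun g g' hg => ?_) (HGQ.Cyc.ext (Hat χ) φ h)
  exact hat_inj (congrArg SemidirectProduct.left hg)

end CYC_

/-- the classes `C_k` are contained in the class `Cyc` -/
theorem p_CYC : T_CYC := by
  intro k hk G _ h
  have : NeZero k := ⟨by omega⟩
  induction h with
  | base G h =>
    refine CYC_.loc G fun P hP => ?_
    obtain ⟨S, J, f, hf⟩ := h P hP
    exact CYC_.inj f hf (CYC_.mdl _ S J)
  | loc G _ ih => exact CYC_.loc G ih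
  | ext G χ _ ih => exact CYC_.ext G χ ih

end ORG
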