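import Pool.Agent.ORG.Targets2

/-!
# ORG: target DAF, functoriality of `DA`
-/

set_option autoImplicit false

open Monoid.Coprod

namespace ORG

namespace DAF_

/-- the image of a word with many letters -/
lemma wg_map {D D' : Type} [Group D] [Group D'] {H H' : Type} [Group H] [Group H'] (F : H →* H')
    (φ : D →* H) (φ' : D' →* H') (δ : D →* D') (ν : ℤ → H) (ν' : ℤ → H')
    (h1 : ∀ d, F (φ d) = φ' (δ d)) (h2 : ∀ h, F (ν h) = ν' h) (r : List (ℤ × Bool × D)) :
    F (wg φ ν r) = wg φ' ν' (mpm δ r) := by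
  induction r with
  | nil => simp [wg, mpm]
  | cons p r ih =>
    obtain ⟨h, b, d⟩ := p
    have e1 : wg φ ν ((h, b, d) :: r) = ((if b then ν h else (ν h)⁻¹) * φ d) * wg φ ν r := by
      simp [wg]
    have e2 : wg φ' ν' (mpm δ ((h, b, d) :: r)) =
        ((if b then ν' h else (ν' h)⁻¹) * φ' (δ d)) * wg φ' ν' (mpm δ r) := by
      simp [wg, mpm]
    rw [e1, e2, map_mul, ih, map_mul, h1]
    congr 2
    cases b
    · simp [h2]
    · simp [h2]

end DAF_

theorem p_DAF (hLMF : T_LMF) : T_DAF := by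
  intro k B B' D D' _ _ _ _ π χ χ' hχ δ ι ι' hι J t r
  refine ⟨Quo.lift _ ((Quo.mk _).comp (Monoid.Coprod.map δ (MonoidHom.id (FreeGroup (J × ℤ)))))
    ?_, ?_⟩
  · rintro _ ⟨⟨j, y⟩, rfl⟩
    rw [map_pow]
    have h1 : (Quo.mk (DArel 1 χ' ι' t (fun j => mp π (r j))))
        (wg (inl : D' →* Cop D' (FreeGroup (J × ℤ))) (fun h => inr (FreeGroup.of (j, h)))
          (lml χ' ι' (t j) y (mp π (r j))) ^ 1) = 1 := Quo.mk_rel ⟨(j, y), rfl⟩
    rw [pow_one, ← hLMF B B' D D' π χ χ' hχ δ ι ι' hι] at h1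
    have h2 := DAF_.wg_map (Monoid.Coprod.map δ (MonoidHom.id (FreeGroup (J × ℤ))))
      (inl : D →* Cop D (FreeGroup (J × ℤ))) (inl : D' →* Cop D' (FreeGroup (J × ℤ))) δ
      (fun h => inr (FreeGroup.of (j, h))) (fun h => inr (FreeGroup.of (j, h)))
      (fun d => by simp) (fun h => by simp) (lml χ ι (t j) y (r j))
    rw [MonoidHom.comp_apply, h2, h1, one_pow]
  · intro d
    change Quo.mk _ (Monoid.Coprod.map δ (MonoidHom.id (FreeGroup (J × ℤ))) (inl d)) = _
    rw [Monoid.Coprod.map_apply_inl]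
    rfl

end ORG
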