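import Pool.Agent.ORG.Targets2

set_option autoImplicit false

open Monoid.Coprod

namespace ORG

noncomputable section

namespace DAI_

lemma word_eq {B H : Type} [Group B] [Group H] (χ : B →* Zm) (φ : Hat χ →* H) (ν : ℤ → H)
    (r : List (Bool × B)) : (∀ p ∈ r, χ p.2 = 1) → ∀ y : ℤ,
      wg φ ν (lml χ (MonoidHom.id (Hat χ)) 0 y r) = wd φ (ν y) (hl χ y r) := by
  induction r with
  | nil => intro _ y; rfl
  | cons p r ih =>
    intro hr y
    have h1 : χ p.2 = 1 := hr p (List.mem_cons_self ..)
    have h2 : ∀ q ∈ r, χ q.2 = 1 := fun q hq => hr q (List.mem_cons_of_mem _ hq)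
    obtain ⟨b, g⟩ := p
    have h3 : χ g = 1 := h1
    have ih' := ih h2 y
    unfold wg wd hl at ih' ⊢
    cases b with
    | true =>
      simp only [lml, List.map_cons, List.prod_cons, h3, toAdd_one, add_zero, Prod.map_apply,
        id, if_true, ih', MonoidHom.id_apply]
    | false =>
      simp only [lml, List.map_cons, List.prod_cons, h3, toAdd_one, add_zero, sub_zero,
        Prod.map_apply, id, ih', MonoidHom.id_apply]

/-- the identity between quotients by equal sets of relators -/
lemma quo_eq {P : Type} [Group P] {R R' : Set P} (h : R = R') :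
    ∃ Θ : Quo R →* Quo R', Function.Injective Θ ∧ ∀ x, Θ (Quo.mk R x) = Quo.mk R' x := by
  subst h
  exact ⟨MonoidHom.id _, fun _ _ h => h, fun _ => rfl⟩

end DAI_

open DAI_ in
theorem p_DAI : T_DAI := by
  intro k B I _ χ t r ht hr
  have hR : DArel k χ (MonoidHom.id (Hat χ)) t r =
      Set.range fun i : I × ℤ => (wd inl (inr (FreeGroup.of i)) (hl χ i.2 (r i.1)) ^ k :
        Cop (Hat χ) (FreeGroup (I × ℤ))) := by
    unfold DArel
    congr 1
    funext p
    rw [ht p.1, word_eq χ _ _ (r p.1) (hr p.1) p.2]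
  obtain ⟨Θ, h1, h2⟩ := quo_eq hR
  exact ⟨Θ, h1, fun z => h2 _⟩

end

end ORG
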