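import Pool.Agent.ORG.Targets2

/-!
# ORG-DAS: splitting a family of leveled relators
-/

set_option autoImplicit false

open Monoid.Coprod

namespace ORG

namespace DAS_

noncomputable section

variable {B D : Type} [Group B] [Group D]

/-- homomorphisms and words -/
theorem map_wg {H H' : Type} [Group H] [Group H'] (f : H →* H') (φ : D →* H) (ν : ℤ → H)
    (r : List (ℤ × Bool × D)) : f (wg φ ν r) = wg (f.comp φ) (fun h => f (ν h)) r := by
  unfold wg
  rw [map_list_prod, List.map_map]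
  congr 1
  apply List.map_congr_left
  intro p _
  simp only [Function.comp_apply, map_mul, MonoidHom.comp_apply]
  split_ifs
  · rfl
  · rw [map_inv]

/-- words of image lists -/
theorem wg_mpm {D' H : Type} [Group D'] [Group H] (δ : D →* D') (φ : D' →* H) (ν : ℤ → H)
    (r : List (ℤ × Bool × D)) : wg φ ν (mpm δ r) = wg (φ.comp δ) ν r := by
  unfold wg mpm
  rw [List.map_map]
  rfl

/-- leveled lists and homomorphisms -/
theorem lml_comp {D' : Type} [Group D'] (χ : B →* Zm) (ι : Hat χ →* D) (δ : D →* D') (t : ℤ) :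
    ∀ (r : List (Bool × B)) (h : ℤ), lml χ (δ.comp ι) t h r = mpm δ (lml χ ι t h r)
  | [], _ => rfl
  | (true, g) :: r, h => by
    simp only [lml, mpm, List.map_cons]
    rw [lml_comp χ ι δ t r]
    rfl
  | (false, g) :: r, h => by
    simp only [lml, mpm, List.map_cons]
    rw [lml_comp χ ι δ t r]
    rfl

variable {J : Type}

/-- the letters -/
def tt (k : ℕ) (χ : B →* Zm) (ι : Hat χ →* D) (t : J → ℤ) (r : J → List (Bool × B))
    (p : J × ℤ) : DA k χ ι t r := Quo.mk _ (inr (FreeGroup.of p))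

theorem rel (k : ℕ) (χ : B →* Zm) (ι : Hat χ →* D) (t : J → ℤ) (r : J → List (Bool × B))
    (j : J) (y : ℤ) : wg (DA.of k χ ι t r) (fun h => tt k χ ι t r (j, h))
      (lml χ ι (t j) y (r j)) ^ k = 1 := by
  have h : Quo.mk (DArel k χ ι t r) (wg (inl : D →* Cop D (FreeGroup (J × ℤ)))
    (fun h => inr (FreeGroup.of (j, h))) (lml χ ι (t j) y (r j)) ^ k) = 1 :=
    Quo.mk_rel ⟨(j, y), rfl⟩
  rw [map_pow, map_wg] at h
  exact h

/-- the universal property -/
def lft' {H : Type} [Group H] (k : ℕ) (χ : B →* Zm) (ι : Hat χ →* D) (t : J → ℤ)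
    (r : J → List (Bool × B)) (f : D →* H) (s : J × ℤ → H)
    (h : ∀ j y, wg f (fun h => s (j, h)) (lml χ ι (t j) y (r j)) ^ k = 1) :
    DA k χ ι t r →* H :=
  Quo.lift (DArel k χ ι t r) (Monoid.Coprod.lift f (FreeGroup.lift s)) (by
    rintro _ ⟨p, rfl⟩
    rw [map_pow, map_wg]
    have h1 : (Monoid.Coprod.lift f (FreeGroup.lift s)).comp inl = f := by
      ext d
      simp
    have h2 : (fun h : ℤ => (Monoid.Coprod.lift f (FreeGroup.lift s))
        (inr (FreeGroup.of (p.1, h)))) = fun h => s (p.1, h) := by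
      funext z
      simp
    rw [h1, h2]
    exact h p.1 p.2)

theorem lft'_of {H : Type} [Group H] (k : ℕ) (χ : B →* Zm) (ι : Hat χ →* D) (t : J → ℤ)
    (r : J → List (Bool × B)) (f : D →* H) (s : J × ℤ → H)
    (h : ∀ j y, wg f (fun h => s (j, h)) (lml χ ι (t j) y (r j)) ^ k = 1) (d : D) :
    lft' k χ ι t r f s h (DA.of k χ ι t r d) = f d := by
  change Quo.lift (DArel k χ ι t r) _ _ (Quo.mk (DArel k χ ι t r) (inl d)) = _
  rw [Quo.lift_mk]
  simp

theorem lft'_tt {H : Type} [Group H] (k : ℕ) (χ : B →* Zm) (ι : Hat χ →* D) (t : J → ℤ)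
    (r : J → List (Bool × B)) (f : D →* H) (s : J × ℤ → H)
    (h : ∀ j y, wg f (fun h => s (j, h)) (lml χ ι (t j) y (r j)) ^ k = 1) (p : J × ℤ) :
    lft' k χ ι t r f s h (tt k χ ι t r p) = s p := by
  change Quo.lift (DArel k χ ι t r) _ _ (Quo.mk (DArel k χ ι t r) (inr (FreeGroup.of p))) = _
  rw [Quo.lift_mk]
  simp

theorem ext' {H : Type} [Group H] {k : ℕ} {χ : B →* Zm} {ι : Hat χ →* D} {t : J → ℤ}
    {r : J → List (Bool × B)} {f f' : DA k χ ι t r →* H}
    (h1 : ∀ d, f (DA.of k χ ι t r d) = f' (DA.of k χ ι t r d))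
    (h2 : ∀ p, f (tt k χ ι t r p) = f' (tt k χ ι t r p)) : f = f' := by
  apply Quo.hom_ext
  intro w
  have : f.comp (Quo.mk (DArel k χ ι t r)) = f'.comp (Quo.mk (DArel k χ ι t r)) := by
    apply Monoid.Coprod.hom_ext
    · ext d
      exact h1 d
    · ext p
      exact h2 p
  exact DFunLike.congr_fun this w

end

end DAS_

open DAS_ Classical in
theorem p_DAS : T_DAS := by
  intro k B D _ _ χ ι J t r S
  set of1 : D →* DA k χ ι (fun j : S => t j) (fun j : S => r j) :=
    DA.of k χ ι (fun j : S => t j) (fun j : S => r j) with hof1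
  set of2 := DA.of k χ (of1.comp ι) (fun j : (Sᶜ : Set J) => t j) (fun j : (Sᶜ : Set J) => r j)
    with hof2
  let s : J × ℤ → DA k χ (of1.comp ι) (fun j : (Sᶜ : Set J) => t j)
      (fun j : (Sᶜ : Set J) => r j) := fun p =>
    if h : p.1 ∈ S then of2 (tt k χ ι (fun j : S => t j) (fun j : S => r j) (⟨p.1, h⟩, p.2))
    else tt k χ (of1.comp ι) (fun j : (Sᶜ : Set J) => t j) (fun j : (Sᶜ : Set J) => r j)
      (⟨p.1, h⟩, p.2)
  have hs1 : ∀ (j : J) (h : j ∈ S) (z : ℤ), s (j, z) =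
      of2 (tt k χ ι (fun j : S => t j) (fun j : S => r j) (⟨j, h⟩, z)) := by
    intro j h z
    simp only [s]
    rw [dif_pos h]
  have hs2 : ∀ (j : J) (h : j ∉ S) (z : ℤ), s (j, z) =
      tt k χ (of1.comp ι) (fun j : (Sᶜ : Set J) => t j) (fun j : (Sᶜ : Set J) => r j)
      (⟨j, h⟩, z) := by
    intro j h z
    simp only [s]
    rw [dif_neg h]
  have hrel : ∀ j y, wg (of2.comp of1) (fun h => s (j, h)) (lml χ ι (t j) y (r j)) ^ k = 1 := by
    intro j y
    by_cases h : j ∈ S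
    · have h1 := congrArg of2 (rel k χ ι (fun j : S => t j) (fun j : S => r j) ⟨j, h⟩ y)
      rw [map_pow, map_wg, map_one] at h1
      have h2 : (fun z : ℤ => s (j, z)) = fun z => of2 (tt k χ ι (fun j : S => t j)
          (fun j : S => r j) (⟨j, h⟩, z)) := by
        funext z
        exact hs1 j h z
      rw [h2]
      exact h1
    · have h1 := rel k χ (of1.comp ι) (fun j : (Sᶜ : Set J) => t j)
        (fun j : (Sᶜ : Set J) => r j) ⟨j, h⟩ y
      rw [lml_comp, wg_mpm] at h1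
      have h2 : (fun z : ℤ => s (j, z)) = fun z => tt k χ (of1.comp ι)
          (fun j : (Sᶜ : Set J) => t j) (fun j : (Sᶜ : Set J) => r j) (⟨j, h⟩, z) := by
        funext z
        exact hs2 j h z
      rw [h2]
      exact h1
  let Θ := lft' k χ ι t r (of2.comp of1) s hrel
  let Ξ1 := lft' k χ ι (fun j : S => t j) (fun j : S => r j) (DA.of k χ ι t r)
    (fun q => tt k χ ι t r ((q.1 : J), q.2)) (fun j y => rel k χ ι t r j y)
  have hΞ1 : Ξ1.comp of1 = DA.of k χ ι t r := by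
    ext d
    exact lft'_of k χ ι (fun j : S => t j) (fun j : S => r j) (DA.of k χ ι t r)
      (fun q => tt k χ ι t r ((q.1 : J), q.2)) (fun j y => rel k χ ι t r j y) d
  let Ξ := lft' k χ (of1.comp ι) (fun j : (Sᶜ : Set J) => t j) (fun j : (Sᶜ : Set J) => r j) Ξ1
    (fun q => tt k χ ι t r ((q.1 : J), q.2)) (fun j y => by
      rw [lml_comp, wg_mpm, hΞ1]
      exact rel k χ ι t r j y)
  refine ⟨Θ, ?_, ?_⟩
  · apply inj_of_left Θ Ξ
    apply ext' (k := k) (χ := χ) (ι := ι) (t := t) (r := r)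
    · intro d
      have h1 : Θ (DA.of k χ ι t r d) = of2 (of1 d) :=
        lft'_of k χ ι t r (of2.comp of1) s hrel d
      have h2 : Ξ (of2 (of1 d)) = Ξ1 (of1 d) :=
        lft'_of k χ (of1.comp ι) (fun j : (Sᶜ : Set J) => t j) (fun j : (Sᶜ : Set J) => r j)
          Ξ1 _ _ (of1 d)
      rw [MonoidHom.comp_apply, h1, h2, MonoidHom.id_apply]
      exact DFunLike.congr_fun hΞ1 d
    · rintro ⟨j, z⟩
      have h1 : Θ (tt k χ ι t r (j, z)) = s (j, z) :=
        lft'_tt k χ ι t r (of2.comp of1) s hrel (j, z)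
      rw [MonoidHom.comp_apply, h1, MonoidHom.id_apply]
      by_cases h : j ∈ S
      · rw [hs1 j h z]
        have h2 : Ξ (of2 (tt k χ ι (fun j : S => t j) (fun j : S => r j) (⟨j, h⟩, z))) =
          Ξ1 (tt k χ ι (fun j : S => t j) (fun j : S => r j) (⟨j, h⟩, z)) :=
          lft'_of k χ (of1.comp ι) (fun j : (Sᶜ : Set J) => t j)
            (fun j : (Sᶜ : Set J) => r j) Ξ1 _ _ _
        rw [h2]
        exact lft'_tt k χ ι (fun j : S => t j) (fun j : S => r j) (DA.of k χ ι t r) _ _ _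
      · rw [hs2 j h z]
        exact lft'_tt k χ (of1.comp ι) (fun j : (Sᶜ : Set J) => t j)
          (fun j : (Sᶜ : Set J) => r j) Ξ1 _ _ _
  · intro d
    exact lft'_of k χ ι t r (of2.comp of1) s hrel d

end ORG
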