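import Pool.Agent.ORG.Targets2

/-!
# ORG: `E(1)`
-/

set_option autoImplicit false

open Monoid.Coprod

namespace ORG

noncomputable section

namespace E1_

/-- homomorphisms from the cyclic group of order `k` -/
lemma exists_hom {H : Type} [Group H] (k : ℕ) (w : H) (hw : w ^ k = 1) :
    ∃ f : Multiplicative (ZMod k) →* H, f (Multiplicative.ofAdd 1) = w := by
  refine ⟨AddMonoidHom.toMultiplicativeLeft (ZMod.lift k
    ⟨zmultiplesHom (Additive H) (Additive.ofMul w), ?_⟩), ?_⟩
  · rw [zmultiplesHom_apply, ← ofMul_zpow, zpow_natCast, hw, ofMul_one]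
  · rw [AddMonoidHom.coe_toMultiplicativeLeft]
    have h := ZMod.lift_coe k (⟨zmultiplesHom (Additive H) (Additive.ofMul w), by
      rw [zmultiplesHom_apply, ← ofMul_zpow, zpow_natCast, hw, ofMul_one]⟩ :
      {f : ℤ →+ Additive H // f k = 0}) 1
    simp only [Function.comp_apply, toAdd_ofAdd]
    rw [Int.cast_one] at h
    rw [h]
    simp

variable {G : Type} [Group G] (k : ℕ) (e : Bool) (g : G)

/-- the generator of `ℤ/k` in the free product -/
def z : Cop G (Multiplicative (ZMod k)) := inr (Multiplicative.ofAdd 1)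

lemma z_pow : z (G := G) k ^ k = 1 := by
  rw [z, ← map_pow, ← ofAdd_nsmul]
  simp

/-- the image of the letter -/
def nu : Cop G (Multiplicative (ZMod k)) :=
  if e then z k * inl g⁻¹ else inl g * (z k)⁻¹

/-- the map before the quotient -/
def pre : Cop G Zm →* Cop G (Multiplicative (ZMod k)) :=
  Monoid.Coprod.lift inl (zpowersHom _ (nu k e g))

lemma pre_nu : pre k e g (inr (Multiplicative.ofAdd 1)) = nu k e g := by
  simp [pre]

lemma pre_inl (x : G) : pre k e g (inl x) = inl x := by
  simp [pre]

lemma pre_wd : pre k e g (wd inl (inr (Multiplicative.ofAdd 1)) [(e, g)]) = z k := by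
  cases e
  · simp only [wd, List.map_cons, List.map_nil, List.prod_cons, List.prod_nil, mul_one, map_mul,
      map_inv, pre_nu, pre_inl, nu, Bool.false_eq_true, if_false]
    group
  · simp only [wd, List.map_cons, List.map_nil, List.prod_cons, List.prod_nil, mul_one, map_mul,
      pre_nu, pre_inl, nu, if_true, map_inv]
    group

lemma w_true {P : Type} [Group P] (q : Cop G Zm →* P) :
    q (wd inl (inr (Multiplicative.ofAdd 1)) [(true, g)]) =
      q (inr (Multiplicative.ofAdd 1)) * q (inl g) := by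
  simp [wd]

lemma w_false {P : Type} [Group P] (q : Cop G Zm →* P) :
    q (wd inl (inr (Multiplicative.ofAdd 1)) [(false, g)]) =
      (q (inr (Multiplicative.ofAdd 1)))⁻¹ * q (inl g) := by
  simp [wd]

/-- the homomorphism to the free product -/
def Phi : Gam k [(e, g)] →* Cop G (Multiplicative (ZMod k)) :=
  Quo.lift _ (pre k e g) (by
    intro x hx
    rw [Set.mem_singleton_iff] at hx
    rw [hx, map_pow, pre_wd, z_pow])

lemma Phi_of (x : G) : Phi k e g (Gam.of k _ x) = inl x := by
  change Quo.lift _ _ _ (Quo.mk _ (inl x)) = _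
  rw [Quo.lift_mk, pre_inl]

lemma Phi_inj : Function.Injective (Phi k e g) := by
  set w : Gam k [(e, g)] := Quo.mk _ (wd inl (inr (Multiplicative.ofAdd 1)) [(e, g)]) with hw
  have hwk : w ^ k = 1 := by
    rw [hw, ← map_pow]
    exact Quo.mk_rel rfl
  obtain ⟨f, hf⟩ := exists_hom k w hwk
  apply inj_of_left (Phi k e g) (Monoid.Coprod.lift (Gam.of k [(e, g)]) f)
  apply Quo.hom_ext
  intro x
  have h : ((Monoid.Coprod.lift (Gam.of k [(e, g)]) f).comp (Phi k e g)).comp (Quo.mk _) =
      Quo.mk _ := by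
    apply Monoid.Coprod.hom_ext
    · ext x
      change Monoid.Coprod.lift (Gam.of k [(e, g)]) f (Phi k e g (Gam.of k _ x)) = _
      rw [Phi_of, Monoid.Coprod.lift_apply_inl]
      rfl
    · apply MonoidHom.ext_mint
      change Monoid.Coprod.lift (Gam.of k [(e, g)]) f (pre k e g (inr (Multiplicative.ofAdd 1))) =
        Quo.mk _ (inr (Multiplicative.ofAdd 1))
      rw [pre_nu]
      cases e
      · simp only [nu, Bool.false_eq_true, if_false, map_mul, map_inv, z,
          Monoid.Coprod.lift_apply_inl, Monoid.Coprod.lift_apply_inr, hf]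
        rw [hw, w_false]
        change Quo.mk _ (inl g) * _ = _
        rw [mul_inv_rev, inv_inv, mul_inv_cancel_left]
      · simp only [nu, if_true, map_mul, map_inv, z,
          Monoid.Coprod.lift_apply_inl, Monoid.Coprod.lift_apply_inr, hf]
        rw [hw, w_true]
        change _ * (Quo.mk _ (inl g))⁻¹ = _
        rw [mul_inv_cancel_right]
  exact DFunLike.congr_fun h x

end E1_

open E1_ in
theorem p_E1 (h_C1 : T_C1) (h_C3 : T_C3) (h_CF : T_CF) : T_E1 := by
  intro k hk G G' _ _ π r hG hG' hr hcr hpr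
  obtain ⟨⟨e, g⟩, rfl⟩ := List.length_eq_one_iff.1 hr
  refine ⟨?_, h_C1 k _ (h_C3 k _ _ hG (h_CF k).2.2.1) _ (Phi k e g) (Phi_inj k e g)⟩
  intro x y hxy
  have := congrArg (Phi k e g) hxy
  rw [Phi_of, Phi_of] at this
  exact Monoid.Coprod.inl_injective this

end

end ORG
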