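import Pool.Agent.ORG.Targets2

/-!
# ORG: all `E(m)` (target `T_EA`)
-/

set_option autoImplicit false

open Monoid.Coprod

namespace ORG

noncomputable section

theorem p_EA (h_E1 : T_E1) (h_FE : T_FE) (h_OO : T_OO) (h_EP : T_EP) (h_EZ : T_EZ) : T_EA := by
  intro m
  induction m using Nat.strong_induction_on with
  | _ m ih =>
    rcases Nat.lt_or_ge m 2 with hm | hm
    · have hm' : m = 0 ∨ m = 1 := by omega
      rcases hm' with rfl | rfl
      · intro k _ G G' _ _ π r _ _ hlen _ hpr
        exfalso
        have hr : r = [] := List.length_eq_zero_iff.1 hlen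
        subst hr
        have := hpr 0 [] rfl
        omega
      · exact h_E1
    · have hF : FEm m := h_FE m ih
      have hO : ∀ n, 1 ≤ n → 2 * n ≤ m → OOn n := h_OO m hF
      intro k hk G G' _ _ π r h1 h2 hlen hcr hpr
      by_cases hs : sg r = 0
      · exact h_EZ m hm hO k hk G G' π r h1 h2 hlen hcr hpr hs
      · exact h_EP m hm hF k hk G G' π r h1 h2 hlen hcr hpr hs

end

end ORG
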