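import Pool.Agent.ORG.Targets1

/-!
# ORG: the group `E` (target `T_EE`)
-/

set_option autoImplicit false

namespace ORG

noncomputable section

open Multiplicative Additive

/-- the factors: `p` if `p ≠ 0` -/
def EE_u (p : ℤ) : ℚˣ := if h : p = 0 then 1 else Units.mk0 (p : ℚ) (by exact_mod_cast h)

/-- the group of the exponents -/
abbrev EE_W : Type := Multiplicative (ℤ →₀ ℤ)

/-- the product of the powers of the factors -/
def EE_val : EE_W →* ℚˣ :=
  AddMonoidHom.toMultiplicativeLeft
    (Finsupp.liftAddHom fun p : ℤ => (zmultiplesHom (Additive ℚˣ)) (Additive.ofMul (EE_u p)))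

lemma EE_val_single (p : ℤ) : EE_val (ofAdd (Finsupp.single p 1)) = EE_u p := by
  simp [EE_val]

/-- the action of the exponents on the rational numbers -/
def EE_act : EE_W →* MulAut (Multiplicative ℚ) :=
  ((MulAutMultiplicative ℚ).symm.toMonoidHom.comp
    (DistribMulAction.toAddAut ℚˣ ℚ)).comp EE_val

lemma EE_act_apply (w : EE_W) (q : ℚ) : EE_act w (ofAdd q) = ofAdd ((EE_val w : ℚ) * q) := rfl

/-- the group `E` -/
abbrev EE_E : Type := Multiplicative ℚ ⋊[EE_act] EE_W

/-- the coordinates -/
def EE_co (p : ℤ) : EE_E →* Zm :=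
  (AddMonoidHom.toMultiplicative (Finsupp.applyAddHom p)).comp SemidirectProduct.rightHom

lemma EE_co_apply (p : ℤ) (x : EE_E) : EE_co p x = ofAdd ((toAdd x.right) p) := rfl

/-- finitely generated subgroups of the rational numbers -/
lemma EE_fg (A : Type) [Group A] (j : A →* Multiplicative ℚ) (hj : Function.Injective j)
    (P : Subgroup A) (hP : P.FG) : ∃ f : P →* Zm, Function.Injective f := by
  obtain ⟨S, hS⟩ := hP
  classical
  set N : ℕ := ∏ s ∈ S, (toAdd (j s)).den with hN
  have hN0 : (N : ℚ) ≠ 0 := by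
    have : N ≠ 0 := Finset.prod_ne_zero_iff.2 fun s _ => (toAdd (j s)).den_nz
    exact_mod_cast this
  have key : ∀ a ∈ P, ∃ z : ℤ, (N : ℚ) * toAdd (j a) = z := by
    intro a ha
    rw [← hS] at ha
    induction ha using Subgroup.closure_induction with
    | mem s hs =>
      obtain ⟨M, hM⟩ := Finset.dvd_prod_of_mem (fun s => (toAdd (j s)).den) hs
      refine ⟨M * (toAdd (j s)).num, ?_⟩
      have h1 : (N : ℚ) = (toAdd (j s)).den * M := by exact_mod_cast hM
      have h2 : ((toAdd (j s)).den : ℚ) * toAdd (j s) = (toAdd (j s)).num :=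
        Rat.den_mul_eq_num _
      rw [h1]
      push_cast
      rw [← h2]
      ring
    | one => exact ⟨0, by simp⟩
    | mul x y _ _ hx hy =>
      obtain ⟨a, ha⟩ := hx
      obtain ⟨b, hb⟩ := hy
      exact ⟨a + b, by rw [map_mul, toAdd_mul, mul_add, ha, hb]; push_cast; rfl⟩
    | inv x _ hx =>
      obtain ⟨a, ha⟩ := hx
      exact ⟨-a, by rw [map_inv, toAdd_inv, mul_neg, ha]; push_cast; rfl⟩
  choose! z hz using key
  let f : P →* Zm := MonoidHom.mk' (fun a => ofAdd (z (a : A))) (by
    intro a b
    have h : (z ((a * b : P) : A) : ℚ) = ((z (a : A) + z (b : A) : ℤ) : ℚ) := by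
      rw [Int.cast_add, ← hz _ (a * b).2, ← hz _ a.2, ← hz _ b.2]
      simp only [Subgroup.coe_mul, map_mul, toAdd_mul]
      ring
    rw [← ofAdd_add]
    exact congrArg ofAdd (by exact_mod_cast h))
  refine ⟨f, ?_⟩
  intro a b hab
  have h1 : z (a : A) = z (b : A) := Multiplicative.ofAdd.injective hab
  have h2 : (N : ℚ) * toAdd (j (a : A)) = (N : ℚ) * toAdd (j (b : A)) := by
    rw [hz _ a.2, hz _ b.2, h1]
  have h3 : toAdd (j (a : A)) = toAdd (j (b : A)) := mul_left_cancel₀ hN0 h2
  exact Subtype.ext (hj (Multiplicative.toAdd.injective h3))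

/-- groups of rational numbers are good targets -/
lemma EE_rat (hZZ : T_ZZ) (hZL : T_ZL) (hZS : T_ZS) (A : Type) [Group A]
    (j : A →* Multiplicative ℚ) (hj : Function.Injective j) : Zed A := by
  refine hZL A fun P hP => ?_
  obtain ⟨f, hf⟩ := EE_fg A j hj P hP
  exact hZS P Zm f hf hZZ.1

/-- groups with finitely many coordinates are good targets -/
lemma EE_fin (hZZ : T_ZZ) (hZL : T_ZL) (hZS : T_ZS) (hZE : T_ZE) (T : Finset ℤ) :
    ∀ (A : Type) [Group A] (i : A →* EE_E), Function.Injective i →
      (∀ a : A, ∀ p ∉ T, EE_co p (i a) = 1) → Zed A := by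
  classical
  induction T using Finset.induction_on with
  | empty =>
    intro A _ i hi h
    have hr : ∀ a, (i a).right = 1 := by
      intro a
      apply Multiplicative.toAdd.injective
      apply Finsupp.ext
      intro p
      have := h a p (by simp)
      rw [EE_co_apply] at this
      exact Multiplicative.ofAdd.injective this
    let j : A →* Multiplicative ℚ := MonoidHom.mk' (fun a => (i a).left) (by
      intro a b
      rw [map_mul, SemidirectProduct.mul_left, hr, map_one]
      rfl)
    refine EE_rat hZZ hZL hZS A j ?_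
    intro a b hab
    apply hi
    apply SemidirectProduct.ext
    · exact hab
    · rw [hr, hr]
  | insert p T hp ih =>
    intro A _ i hi h
    refine hZE A ((EE_co p).comp i) ?_
    refine ih _ (i.comp (Subgroup.subtype _)) (hi.comp (Subgroup.subtype_injective _)) ?_
    intro a q hq
    by_cases hqp : q = p
    · rw [hqp]
      exact a.2
    · exact h _ q (by simp [hqp, hq])

/-- the group `E` is a good target -/
lemma EE_zed (hZZ : T_ZZ) (hZL : T_ZL) (hZS : T_ZS) (hZE : T_ZE) : Zed EE_E := by
  classical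
  refine hZL EE_E fun P hP => ?_
  obtain ⟨S, hS⟩ := hP
  refine EE_fin hZZ hZL hZS hZE (S.biUnion fun s => (toAdd s.right).support) P
    (Subgroup.subtype _) (Subgroup.subtype_injective _) ?_
  intro a q hq
  have ha : (a : EE_E) ∈ Subgroup.closure (S : Set EE_E) := by rw [hS]; exact a.2
  have : Subgroup.closure (S : Set EE_E) ≤ (EE_co q).ker := by
    rw [Subgroup.closure_le]
    intro s hs
    change EE_co q s = 1
    rw [EE_co_apply]
    have h0 : q ∉ (toAdd s.right).support := fun h => hq (Finset.mem_biUnion.2 ⟨s, hs, h⟩)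
    rw [Finsupp.notMem_support_iff.1 h0]
    rfl
  exact this ha

/-- (V7) existence of the group `E` -/
theorem p_EE (hZZ : T_ZZ) (hZL : T_ZL) (hZS : T_ZS) (hZE : T_ZE) : T_EE := by
  refine ⟨EE_E, inferInstance, ⟨⟨SemidirectProduct.inl (ofAdd 1),
    fun p => SemidirectProduct.inr (ofAdd (Finsupp.single p 1)), ?_, ?_,
    EE_zed hZZ hZL hZS hZE⟩⟩⟩
  · intro p hp
    rw [← map_inv, ← SemidirectProduct.inl_aut, EE_act_apply, EE_val_single, ← map_zpow,
      ← ofAdd_zsmul]
    congr 2
    simp [EE_u, hp]
  · intro n hn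
    rw [← map_zpow, ← ofAdd_zsmul] at hn
    have := SemidirectProduct.inl_injective (hn.trans (map_one _).symm)
    have h2 : n • (1 : ℚ) = 0 := Multiplicative.ofAdd.injective this
    simpa using h2

end

end ORG
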