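import Pool.Agent.ORG.Targets2

/-!
# ORG: `E(m)` for exponent sum not zero (T_EP, helper5)
-/

set_option autoImplicit false

open Monoid.Coprod

namespace ORG

namespace EP_

variable {G G' : Type} [Group G] [Group G']

theorem wd_append {P : Type} [Group P] (φ : G →* P) (ν : P) (l l' : List (Bool × G)) :
    wd φ ν (l ++ l') = wd φ ν l * wd φ ν l' := by
  simp [wd]

theorem map_wd {P Q : Type} [Group P] [Group Q] (f : P →* Q) (φ : G →* P) (ν : P)
    (r : List (Bool × G)) : f (wd φ ν r) = wd (f.comp φ) (f ν) r := by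
  induction r with
  | nil => simp [wd]
  | cons p r ih =>
    have h1 : wd φ ν (p :: r) = ((if p.1 then ν else ν⁻¹) * φ p.2) * wd φ ν r := by simp [wd]
    have h2 : wd (f.comp φ) (f ν) (p :: r) =
        ((if p.1 then f ν else (f ν)⁻¹) * (f.comp φ) p.2) * wd (f.comp φ) (f ν) r := by simp [wd]
    rw [h1, h2, map_mul, map_mul, ih]
    cases p.1 <;> simp

/-- from one letter to the family with one letter -/
noncomputable def toF : Cop G Zm →* Cop G (FreeGroup Unit) :=
  Monoid.Coprod.lift inl (inr.comp (zpowersHom (FreeGroup Unit) (FreeGroup.of ())))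

/-- from the family with one letter to one letter -/
noncomputable def ofF : Cop G (FreeGroup Unit) →* Cop G Zm :=
  Monoid.Coprod.lift inl (inr.comp (FreeGroup.lift fun _ => Multiplicative.ofAdd 1))

theorem toF_inl : (toF (G := G)).comp inl = inl := by
  ext g
  simp [toF]

theorem ofF_inl : (ofF (G := G)).comp inl = inl := by
  ext g
  simp [ofF]

theorem toF_inr : toF (G := G) (inr (Multiplicative.ofAdd 1)) = inr (FreeGroup.of ()) := by
  simp [toF]

theorem ofF_inr : ofF (G := G) (inr (FreeGroup.of ())) = inr (Multiplicative.ofAdd 1) := by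
  simp [ofF]

theorem ofF_toF (x : Cop G Zm) : ofF (toF x) = x := by
  have : (ofF (G := G)).comp toF = MonoidHom.id _ := by
    apply Monoid.Coprod.hom_ext
    · rw [MonoidHom.comp_assoc, toF_inl, ofF_inl]
      rfl
    · apply MonoidHom.ext_mint
      rw [MonoidHom.comp_apply, MonoidHom.comp_apply, toF_inr, ofF_inr]
      rfl
  exact DFunLike.congr_fun this x

/-- `Gam` embeds in `GamF` for the family with one letter -/
theorem exists_F (k : ℕ) (r : List (Bool × G)) :
    ∃ Θ : Gam k r →* GamF k (fun _ : Unit => r), Function.Injective Θ ∧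
      ∀ g, Θ (Gam.of k r g) = GamF.of k (fun _ : Unit => r) g := by
  let Θ : Gam k r →* GamF k (fun _ : Unit => r) :=
    Quo.lift _ ((Quo.mk _).comp toF) (by
      rintro x rfl
      rw [MonoidHom.comp_apply, map_pow, map_wd, toF_inl, toF_inr]
      exact Quo.mk_rel ⟨(), rfl⟩)
  let Φ : GamF k (fun _ : Unit => r) →* Gam k r :=
    Quo.lift _ ((Quo.mk _).comp ofF) (by
      rintro x ⟨⟨⟩, rfl⟩
      rw [MonoidHom.comp_apply, map_pow, map_wd, ofF_inl, ofF_inr]
      exact Quo.mk_rel rfl)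
  refine ⟨Θ, inj_of_left Θ Φ ?_, ?_⟩
  · apply Quo.hom_ext
    intro x
    rw [MonoidHom.comp_apply, MonoidHom.id_apply]
    change Φ (Quo.lift _ _ _ (Quo.mk _ x)) = _
    rw [Quo.lift_mk]
    change Quo.lift _ _ _ (Quo.mk _ (toF x)) = _
    rw [Quo.lift_mk, MonoidHom.comp_apply, ofF_toF]
  · intro g
    change Quo.lift _ _ _ (Quo.mk _ (inl g)) = Quo.mk _ (inl g)
    rw [Quo.lift_mk, MonoidHom.comp_apply]
    exact congrArg _ (DFunLike.congr_fun toF_inl g)

theorem mp_append (π : G →* G') (l l' : List (Bool × G)) :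
    mp π (l ++ l') = mp π l ++ mp π l' := by
  simp [mp]

omit [Group G] in
theorem sg_append (l l' : List (Bool × G)) : sg (l ++ l') = sg l + sg l' := by
  simp [sg]

end EP_

theorem p_EP (hTWO : T_TWO) (hROT : T_ROT) (hTRF : T_TRF) (hSUB : T_SUB) (hVC : T_VC)
    (hC1 : T_C1) : T_EP := by
  intro m hm hF k hk G G' _ _ π r hG hG' hlen hCR hPr hsg
  obtain ⟨l, l', r', b, g, g', hr, hr'⟩ := hTWO G inferInstance r hsg (by omega)
  obtain ⟨hR1, hR2⟩ :=
    hROT (Bool × G') (fun p q => p.1 ≠ q.1 → p.2 ≠ 1) (mp π l) (mp π l')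
  rw [← EP_.mp_append π l l', ← hr, ← EP_.mp_append π l' l] at hR1 hR2
  have hCR' : CR (mp π (l' ++ l)) := hR1 hCR
  have hPr' : Pr (mp π (l' ++ l)) := hR2 hPr
  obtain ⟨Θ₁, hΘ₁, hΘ₁'⟩ := hTRF k G r ((b, g) :: (b, g') :: r') (MonoidHom.id _)
    (MonoidHom.id _) (wd inl (inr (Multiplicative.ofAdd 1)) l) rfl rfl rfl rfl (by
      rw [← hr', hr, MonoidHom.id_apply, EP_.wd_append, EP_.wd_append]
      group)
  have hlen' : r'.length + 2 = m := by
    have h := congrArg List.length hr'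
    have h2 := congrArg List.length hr
    simp only [List.length_append, List.length_cons] at h h2
    omega
  have hsg' : sg (l' ++ l) = sg r := by
    rw [hr, EP_.sg_append, EP_.sg_append, add_comm]
  rw [hr'] at hCR' hPr' hsg'
  obtain ⟨g₁, r₁, a, c, ha, hc, hac, hca, hw, hl₁, hsg₁, hCR₁, hPr₁, p, hp, hp1⟩ :=
    hSUB G G' π b g g' r' hCR' hPr'
  obtain ⟨Θ₂, hΘ₂, hΘ₂'⟩ := hTRF k G ((b, g) :: (b, g') :: r') ((b, 1) :: (b, g₁) :: r₁) a c 1
    ha hc hac hca (by rw [hw]; group)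
  obtain ⟨Θ₃, hΘ₃, hΘ₃'⟩ := EP_.exists_F k ((b, (1 : G)) :: (b, g₁) :: r₁)
  have hvis : Vis G' {π p.2} := hVC G' hG' _ (Set.finite_singleton _) (by
    rw [Set.mem_singleton_iff]
    exact fun h => hp1 h.symm)
  obtain ⟨hinj, hInC⟩ := hF G' {π p.2} hvis k hk G G' π (MonoidHom.id G') Unit
    (fun _ => (b, (1 : G)) :: (b, g₁) :: r₁) hG hG' (fun _ => by
      refine ⟨?_, hCR₁, hPr₁, ?_, p, hp, ?_⟩
      · simp only [List.length_cons]
        omega
      · refine Or.inl ⟨?_, b, 1, g₁, r₁, rfl, ?_⟩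
        · rw [hsg₁, hsg']
          exact hsg
        · simp
      · simp)
  let Θ : Gam k r →* GamF k (fun _ : Unit => (b, (1 : G)) :: (b, g₁) :: r₁) :=
    Θ₃.comp (Θ₂.comp Θ₁)
  have hΘ : Function.Injective Θ := hΘ₃.comp (hΘ₂.comp hΘ₁)
  have hΘ' : ∀ x, Θ (Gam.of k r x) = GamF.of k _ x := by
    intro x
    change Θ₃ (Θ₂ (Θ₁ (Gam.of k r x))) = _
    rw [hΘ₁', hΘ₂', hΘ₃']
  refine ⟨?_, hC1 k _ hInC _ Θ hΘ⟩
  intro x y hxy
  apply hinj
  rw [← hΘ', ← hΘ', hxy]

end ORG
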