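import Pool.Agent.ORG.Targets2

/-!
# ORG: adjoining a letter with a relator of exponent sum zero
-/

set_option autoImplicit false

open Monoid.Coprod

namespace ORG

namespace EZ_

variable {G G' : Type} [Group G] [Group G']

lemma hts_mp (π : G →* G') (r : List (Bool × G)) : ∀ s : ℤ, hts s (mp π r) = hts s r := by
  induction r with
  | nil => intro s; rfl
  | cons p r ih =>
    intro s
    obtain ⟨b, g⟩ := p
    change (s + if b then 1 else -1) :: hts (s + if b then 1 else -1) (mp π r) =
      (s + if b then 1 else -1) :: hts (s + if b then 1 else -1) r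
    rw [ih]

omit [Group G] in
lemma hts_shift (r : List (Bool × G)) : ∀ s h : ℤ, h ∈ hts s r ↔ h - s ∈ hts 0 r := by
  have key : ∀ s c : ℤ, hts (s + c) r = (hts s r).map (fun x => x + c) := by
    induction r with
    | nil => intro s c; rfl
    | cons p r ih =>
      intro s c
      obtain ⟨b, g⟩ := p
      change (s + c + if b then 1 else -1) :: hts (s + c + if b then 1 else -1) r =
        ((s + if b then 1 else -1) + c) :: (hts (s + if b then 1 else -1) r).map (fun x => x + c)
      rw [← ih, add_right_comm]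
  intro s h
  have h1 := key 0 s
  rw [zero_add] at h1
  rw [h1, List.mem_map]
  constructor
  · rintro ⟨x, hx, rfl⟩
    simpa using hx
  · intro hx
    exact ⟨h - s, hx, by ring⟩

lemma pw_mem (r : List (Bool × G)) (a b : ℤ) : ∀ s : ℤ, (∀ h ∈ hts s r, a ≤ h ∧ h ≤ b) →
    pw s r ∈ seg Unit G a b := by
  induction r with
  | nil => intro s _; exact (seg Unit G a b).one_mem
  | cons p r ih =>
    intro s hs
    obtain ⟨c, g⟩ := p
    have h1 := hs (s + if c then 1 else -1) (List.mem_cons_self ..)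
    refine (seg Unit G a b).mul_mem (Subgroup.subset_closure (Or.inr ⟨_, h1.1, h1.2, g, rfl⟩)) ?_
    exact ih _ fun h hh => hs h (List.mem_cons_of_mem _ hh)

lemma pw_map (π : G →* G') (r : List (Bool × G)) : ∀ s : ℤ,
    PPmap (MonoidHom.id Unit) π (pw s r) = pw s (mp π r) := by
  induction r with
  | nil => intro s; exact map_one _
  | cons p r ih =>
    intro s
    obtain ⟨c, g⟩ := p
    change PPmap (MonoidHom.id Unit) π (lev Unit (s + if c then 1 else -1) g *
      pw (s + if c then 1 else -1) r) = lev Unit (s + if c then 1 else -1) (π g) *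
      pw (s + if c then 1 else -1) (mp π r)
    rw [map_mul, ih]
    congr 1

lemma mp_id (r : List (Bool × G)) : mp (MonoidHom.id G) r = r := by
  unfold mp
  have h : (Prod.map id ⇑(MonoidHom.id G) : Bool × G → Bool × G) = id := by
    funext p
    rfl
  rw [h, List.map_id]

lemma sg_mp (π : G →* G') (r : List (Bool × G)) : sg (mp π r) = sg r := by
  simp [sg, mp, List.map_map, Function.comp_def]

lemma lev_inj (h : ℤ) (g : G) (hg : lev Unit h g = 1) : g = 1 := by
  have h1 := congrArg (PPlift (1 : Unit →* G) (fun _ => MonoidHom.id G)) hg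
  rw [PPlift_lev, map_one] at h1
  exact h1

/-- extreme values of a nonempty list -/
lemma extr (H : List ℤ) (hne : H ≠ []) : ∃ lo ∈ H, ∃ hi ∈ H, ∀ h ∈ H, lo ≤ h ∧ h ≤ hi := by
  have hfin : {h : ℤ | h ∈ H}.Finite := List.finite_toSet H
  have hn : {h : ℤ | h ∈ H}.Nonempty := List.exists_mem_of_ne_nil H hne
  obtain ⟨lo, hlo, h1⟩ := Set.exists_min_image _ (fun x : ℤ => x) hfin hn
  obtain ⟨hi, hhi, h2⟩ := Set.exists_max_image _ (fun x : ℤ => x) hfin hn
  exact ⟨lo, hlo, hi, hhi, fun h hh => ⟨h1 h hh, h2 h hh⟩⟩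

lemma quo_congr {P : Type} [Group P] {k : ℕ} {R R' : Set P} (h : R = R')
    (h1 : InC k (Quo R)) : InC k (Quo R') := by
  subst h
  exact h1

lemma mk_congr {P : Type} [Group P] {R R' : Set P} (h : R = R') {x : P}
    (h1 : Quo.mk R' x = 1) : Quo.mk R x = 1 := by
  subst h
  exact h1

end EZ_

open EZ_ in
/-- E(m) for exponent sum zero -/
theorem p_EZ (h_PWT : T_PWT) (h_PWB : T_PWB) (h_WIN : T_WIN) (h_EZA : T_EZA) (h_C1 : T_C1)
    (h_C5 : T_C5) (h_CF : T_CF) : T_EZ := by
  intro m hm hOO k hk G G' _ _ π r hG hG' hlen hcr hpr hsg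
  have hne : hts 0 r ≠ [] := by
    match r, hlen with
    | [], hlen => simp at hlen; omega
    | (b, g) :: r, _ => exact List.cons_ne_nil _ _
  obtain ⟨lo, hlo, hi, hhi, hlh⟩ := extr (hts 0 r) hne
  have hlt : lo < hi := by
    rcases lt_or_ge lo hi with h | h
    · exact h
    · exfalso
      have hall : ∀ x ∈ hts 0 r, x = lo := fun x hx => le_antisymm ((hlh x hx).2.trans h) (hlh x hx).1
      match r, hlen, hall with
      | [], hlen, _ => simp at hlen; omega
      | [_], hlen, _ => simp at hlen; omega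
      | (b, g) :: (b', g') :: r, _, hall =>
        have h1 := hall (0 + if b then 1 else -1) (List.mem_cons_self ..)
        have h2 := hall ((0 + if b then 1 else -1) + if b' then 1 else -1)
          (List.mem_cons_of_mem _ (List.mem_cons_self ..))
        rw [h1] at h2
        cases b' <;> simp at h2
  -- heights of the shifted words
  have hmem : ∀ y h : ℤ, h ∈ hts (y - lo) r ↔ h - (y - lo) ∈ hts 0 r := fun y h =>
    hts_shift r (y - lo) h
  have hall : ∀ y : ℤ, ∀ h ∈ hts (y - lo) r, y ≤ h ∧ h ≤ y + (hi - lo) := by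
    intro y h hh
    have h1 := hlh _ ((hmem y h).1 hh)
    omega
  have htop : ∀ y : ℤ, y + (hi - lo) ∈ hts (y - lo) r := by
    intro y
    rw [hmem]
    have h1 : y + (hi - lo) - (y - lo) = hi := by ring
    rw [h1]
    exact hhi
  have hbot : ∀ y : ℤ, y ∈ hts (y - lo) r := by
    intro y
    rw [hmem]
    have h1 : y - (y - lo) = lo := by ring
    rw [h1]
    exact hlo
  obtain ⟨hW, hinj⟩ := h_WIN k hk Unit G Unit G' (MonoidHom.id Unit) π (hi - lo)
    (fun y => pw (y - lo) r) (by omega) (fun y => pw_mem r _ _ _ (hall y))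
    (h_CF k).2.2.2.2 hG (h_CF 1).2.2.2.2 hG'
    (fun y => h_PWT m hOO k hk G G' π r hG hG' hlen.le hcr hpr hsg (y - lo) (y + (hi - lo)) y
      (htop y) (hall y))
    (fun y => h_PWB m hOO k hk G G' π r hG hG' hlen.le hcr hpr hsg (y - lo) y (y + (hi - lo))
      (hbot y) (hall y))
    (fun y => by
      rw [pw_map]
      refine h_PWT m hOO 1 le_rfl G' G' (MonoidHom.id G') (mp π r) hG' hG'
        (by simp [mp, hlen]) ?_ ?_ (by rw [sg_mp, hsg]) (y - lo) (y + (hi - lo)) y ?_ ?_
      · rw [mp_id]; exact hcr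
      · rw [mp_id]; exact hpr
      · rw [hts_mp]; exact htop y
      · rw [hts_mp]; exact hall y)
    (fun y => by
      rw [pw_map]
      refine h_PWB m hOO 1 le_rfl G' G' (MonoidHom.id G') (mp π r) hG' hG'
        (by simp [mp, hlen]) ?_ ?_ (by rw [sg_mp, hsg]) (y - lo) y (y + (hi - lo)) ?_ ?_
      · rw [mp_id]; exact hcr
      · rw [mp_id]; exact hpr
      · rw [hts_mp]; exact hbot y
      · rw [hts_mp]; exact hall y)
  have hset : (Set.range fun y : ℤ => pw (y - lo) r ^ k) = Set.range fun y : ℤ => pw y r ^ k := by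
    ext x
    constructor
    · rintro ⟨y, rfl⟩
      exact ⟨y - lo, rfl⟩
    · rintro ⟨y, rfl⟩
      exact ⟨y + lo, by simp⟩
  have hW' : InC k (Winf k (fun y : ℤ => pw y r)) := quo_congr hset hW
  obtain ⟨φ, Θ, hΘ, hΘ1⟩ := h_EZA k G r hsg
  refine ⟨?_, h_C1 k _ (h_C5 k _ φ hW') _ Θ hΘ⟩
  rw [injective_iff_map_eq_one]
  intro g hg
  have h1 := hΘ1 g
  rw [hg, map_one] at h1
  have h2 : Quo.mk (Set.range fun y : ℤ => pw y r ^ k) (lev Unit 0 g) = 1 :=
    SemidirectProduct.inl_injective (h1.symm.trans (map_one SemidirectProduct.inl).symm)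
  refine lev_inj 0 g (hinj 0 _ ?_ (mk_congr hset h2))
  exact Subgroup.subset_closure (Or.inr ⟨0, le_rfl, by omega, g, rfl⟩)

end ORG
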