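import Pool.Agent.ORG.Targets2

/-!
# ORG, MP_34a894_al: EZA, `Gam` of a list of exponent sum zero embeds in a semidirect product
(helper14)
-/

set_option autoImplicit false

open Monoid.Coprod

namespace ORG

namespace EZA_

noncomputable section

variable {G : Type} [Group G]

/-- the shift of the levels -/
def sh (z : ℤ) : PP Unit G →* PP Unit G := PPlift inl fun h => lev Unit (h + z)

lemma sh_lev (z h : ℤ) (g : G) : sh z (lev Unit h g) = lev Unit (h + z) g := by
  simp [sh]

lemma sh_pw (z : ℤ) (r : List (Bool × G)) : ∀ s : ℤ, sh z (pw s r) = pw (s + z) r := by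
  induction r with
  | nil => intro s; simp [pw]
  | cons p r ih =>
    obtain ⟨b, g⟩ := p
    intro s
    rw [pw, map_mul, ih, sh_lev, pw]
    have h : (s + if b then 1 else -1) + z = (s + z) + if b then 1 else -1 := by ring
    rw [h]

lemma sh_zero (x : PP Unit G) : sh 0 x = x := by
  have h : sh (G := G) 0 = MonoidHom.id _ := by
    apply PP_hom_ext
    · intro d
      simp [sh]
    · intro h l
      rw [sh_lev, add_zero, MonoidHom.id_apply]
  rw [h, MonoidHom.id_apply]

lemma sh_sh (z z' : ℤ) (x : PP Unit G) : sh z (sh z' x) = sh (z' + z) x := by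
  have h : (sh (G := G) z).comp (sh z') = sh (z' + z) := by
    apply PP_hom_ext
    · intro d
      simp [sh]
    · intro h l
      rw [MonoidHom.comp_apply, sh_lev, sh_lev, sh_lev, add_assoc]
  exact DFunLike.congr_fun h x

/-- the group with all relators -/
abbrev Wi (k : ℕ) (r : List (Bool × G)) : Type := Winf k (fun y : ℤ => pw y r)

/-- the projection -/
abbrev mk (k : ℕ) (r : List (Bool × G)) : PP Unit G →* Wi k r := Quo.mk _

/-- the shift of the quotient -/
def shQ (k : ℕ) (r : List (Bool × G)) (z : ℤ) : Wi k r →* Wi k r :=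
  Quo.lift _ ((mk k r).comp (sh z)) (by
    rintro _ ⟨y, rfl⟩
    rw [MonoidHom.comp_apply, map_pow, sh_pw]
    exact Quo.mk_rel ⟨y + z, rfl⟩)

lemma shQ_mk (k : ℕ) (r : List (Bool × G)) (z : ℤ) (x : PP Unit G) :
    shQ k r z (mk k r x) = mk k r (sh z x) := rfl

lemma shQ_zero (k : ℕ) (r : List (Bool × G)) (x : Wi k r) : shQ k r 0 x = x := by
  obtain ⟨y, rfl⟩ := Quo.mk_surj _ x
  exact (shQ_mk k r 0 y).trans (by rw [sh_zero])

lemma shQ_shQ (k : ℕ) (r : List (Bool × G)) (z z' : ℤ) (x : Wi k r) :
    shQ k r z (shQ k r z' x) = shQ k r (z' + z) x := by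
  obtain ⟨y, rfl⟩ := Quo.mk_surj _ x
  change mk k r (sh z (sh z' y)) = mk k r (sh (z' + z) y)
  rw [sh_sh]

/-- the action -/
def ph (k : ℕ) (r : List (Bool × G)) : Zm →* MulAut (Wi k r) where
  toFun a :=
    { toFun := shQ k r (Multiplicative.toAdd a)
      invFun := shQ k r (-Multiplicative.toAdd a)
      left_inv := fun x => by rw [shQ_shQ, add_neg_cancel, shQ_zero]
      right_inv := fun x => by rw [shQ_shQ, neg_add_cancel, shQ_zero]
      map_mul' := fun x y => map_mul _ x y }
  map_one' := by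
    ext x
    exact shQ_zero k r x
  map_mul' a b := by
    ext x
    change shQ k r (Multiplicative.toAdd (a * b)) x =
      shQ k r (Multiplicative.toAdd a) (shQ k r (Multiplicative.toAdd b) x)
    rw [shQ_shQ, toAdd_mul, add_comm]

lemma ph_mk (k : ℕ) (r : List (Bool × G)) (a : Zm) (x : PP Unit G) :
    ph k r a (mk k r x) = mk k r (sh (Multiplicative.toAdd a) x) := rfl

/-- the semidirect product -/
abbrev SD (k : ℕ) (r : List (Bool × G)) : Type := Wi k r ⋊[ph k r] Zm

lemma sd_word (k : ℕ) (r₀ : List (Bool × G)) (r : List (Bool × G)) : ∀ s : ℤ,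
    (SemidirectProduct.inr (Multiplicative.ofAdd s) : SD k r₀) *
      wd ((SemidirectProduct.inl : Wi k r₀ →* SD k r₀).comp ((mk k r₀).comp (lev Unit 0)))
        (SemidirectProduct.inr (Multiplicative.ofAdd 1)) r =
    SemidirectProduct.inl (mk k r₀ (pw s r)) *
      SemidirectProduct.inr (Multiplicative.ofAdd (s + sg r)) := by
  induction r with
  | nil =>
    intro s
    simp [wd, pw, sg]
  | cons p r ih =>
    obtain ⟨b, g⟩ := p
    intro s
    have h1 : (SemidirectProduct.inr (Multiplicative.ofAdd s) : SD k r₀) *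
        (if b then SemidirectProduct.inr (Multiplicative.ofAdd 1)
          else (SemidirectProduct.inr (Multiplicative.ofAdd 1))⁻¹) =
        SemidirectProduct.inr (Multiplicative.ofAdd (s + if b then 1 else -1)) := by
      cases b
      · simp only [Bool.false_eq_true, if_false]
        rw [← map_inv, ← map_mul, ofAdd_add, ofAdd_neg]
      · simp only [if_true]
        rw [← map_mul, ofAdd_add]
    have h2 : ∀ t : ℤ, (SemidirectProduct.inr (Multiplicative.ofAdd t) : SD k r₀) *
        SemidirectProduct.inl (mk k r₀ (lev Unit 0 g)) =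
        SemidirectProduct.inl (mk k r₀ (lev Unit t g)) *
          SemidirectProduct.inr (Multiplicative.ofAdd t) := by
      intro t
      have h3 := SemidirectProduct.inl_aut (φ := ph k r₀) (Multiplicative.ofAdd t)
        (mk k r₀ (lev Unit 0 g))
      rw [ph_mk, sh_lev, toAdd_ofAdd, zero_add] at h3
      rw [h3, map_inv, inv_mul_cancel_right]
    have h4 : wd ((SemidirectProduct.inl : Wi k r₀ →* SD k r₀).comp
          ((mk k r₀).comp (lev Unit 0)))
        (SemidirectProduct.inr (Multiplicative.ofAdd 1)) ((b, g) :: r) =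
        (if b then SemidirectProduct.inr (Multiplicative.ofAdd 1)
          else (SemidirectProduct.inr (Multiplicative.ofAdd 1))⁻¹) *
          SemidirectProduct.inl (mk k r₀ (lev Unit 0 g)) *
        wd ((SemidirectProduct.inl : Wi k r₀ →* SD k r₀).comp ((mk k r₀).comp (lev Unit 0)))
          (SemidirectProduct.inr (Multiplicative.ofAdd 1)) r := by
      simp [wd]
    have h5 : s + sg ((b, g) :: r) = (s + if b then 1 else -1) + sg r := by
      simp [sg]
      ring
    rw [h4, ← mul_assoc, ← mul_assoc, h1, h2, mul_assoc, ih, pw, map_mul, map_mul, h5, mul_assoc]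

lemma wd_map {P Q : Type} [Group P] [Group Q] (f : P →* Q) (φ : G →* P) (ν : P)
    (r : List (Bool × G)) : f (wd φ ν r) = wd (f.comp φ) (f ν) r := by
  rw [wd, wd, map_list_prod, List.map_map]
  congr 1
  refine List.map_congr_left fun p _ => ?_
  rcases p with ⟨b, g⟩
  cases b <;> simp

/-- the embedding -/
def Th (k : ℕ) (r : List (Bool × G)) (hr : sg r = 0) : Gam k r →* SD k r :=
  Quo.lift _ (Monoid.Coprod.lift
    ((SemidirectProduct.inl : Wi k r →* SD k r).comp ((mk k r).comp (lev Unit 0)))
    SemidirectProduct.inr) (by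
    intro x hx
    rw [Set.mem_singleton_iff] at hx
    have h := sd_word k r r 0
    rw [hr, add_zero, ofAdd_zero, map_one, one_mul, mul_one] at h
    rw [hx, map_pow, wd_map, Monoid.Coprod.lift_comp_inl, Monoid.Coprod.lift_apply_inr, h,
      ← map_pow, ← map_pow]
    have h2 : mk k r (pw 0 r ^ k) = 1 := Quo.mk_rel ⟨0, rfl⟩
    rw [h2, map_one])

lemma Th_of (k : ℕ) (r : List (Bool × G)) (hr : sg r = 0) (g : G) :
    Th k r hr (Gam.of k r g) = SemidirectProduct.inl (mk k r (lev Unit 0 g)) := by
  exact (Monoid.Coprod.lift_apply_inl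
    ((SemidirectProduct.inl : Wi k r →* SD k r).comp ((mk k r).comp (lev Unit 0)))
    SemidirectProduct.inr g)

/-- the letter of `Gam` -/
def nu (k : ℕ) (r : List (Bool × G)) : Gam k r := Quo.mk _ (inr (Multiplicative.ofAdd 1))

lemma Th_nu (k : ℕ) (r : List (Bool × G)) (hr : sg r = 0) :
    Th k r hr (nu k r) = SemidirectProduct.inr (Multiplicative.ofAdd 1) := by
  exact (Monoid.Coprod.lift_apply_inr
    ((SemidirectProduct.inl : Wi k r →* SD k r).comp ((mk k r).comp (lev Unit 0)))
    SemidirectProduct.inr (Multiplicative.ofAdd 1))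

/-- the levels in `Gam` -/
def Fl (k : ℕ) (r : List (Bool × G)) : PP Unit G →* Gam k r :=
  PPlift 1 fun h => (MulAut.conj (nu k r ^ h)).toMonoidHom.comp (Gam.of k r)

lemma Fl_lev (k : ℕ) (r : List (Bool × G)) (h : ℤ) (g : G) :
    Fl k r (lev Unit h g) = nu k r ^ h * Gam.of k r g * (nu k r ^ h)⁻¹ := by
  rw [Fl, PPlift_lev]
  rfl

lemma Fl_pw (k : ℕ) (r₀ r : List (Bool × G)) : ∀ s : ℤ,
    Fl k r₀ (pw s r) = nu k r₀ ^ s * wd (Gam.of k r₀) (nu k r₀) r * (nu k r₀ ^ (s + sg r))⁻¹ := by
  induction r with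
  | nil =>
    intro s
    simp [pw, wd, sg]
  | cons p r ih =>
    obtain ⟨b, g⟩ := p
    intro s
    have h5 : s + sg ((b, g) :: r) = (s + if b then 1 else -1) + sg r := by
      simp [sg]
      ring
    have h4 : wd (Gam.of k r₀) (nu k r₀) ((b, g) :: r) =
        (if b then nu k r₀ else (nu k r₀)⁻¹) * Gam.of k r₀ g *
          wd (Gam.of k r₀) (nu k r₀) r := by
      simp [wd]
    have h1 : nu k r₀ ^ s * (if b then nu k r₀ else (nu k r₀)⁻¹) =
        nu k r₀ ^ (s + if b then 1 else -1) := by
      cases b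
      · simp only [Bool.false_eq_true, if_false]
        rw [zpow_add, zpow_neg_one]
      · simp only [if_true]
        rw [zpow_add_one]
    rw [pw, map_mul, ih, Fl_lev, h5, h4, ← h1]
    group

/-- the levels in `Gam`, on the quotient -/
def FQ (k : ℕ) (r : List (Bool × G)) (hr : sg r = 0) : Wi k r →* Gam k r :=
  Quo.lift _ (Fl k r) (by
    rintro _ ⟨y, rfl⟩
    have h : wd (Gam.of k r) (nu k r) r ^ k = 1 := by
      have h1 : wd (Gam.of k r) (nu k r) r =
          Quo.mk _ (wd inl (inr (Multiplicative.ofAdd 1)) r) := by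
        rw [wd_map]
        rfl
      rw [h1, ← map_pow]
      exact Quo.mk_rel rfl
    change Fl k r (pw y r ^ k) = 1
    rw [map_pow, Fl_pw, hr, add_zero, conj_pow, h, mul_one, mul_inv_cancel])

lemma FQ_mk (k : ℕ) (r : List (Bool × G)) (hr : sg r = 0) (x : PP Unit G) :
    FQ k r hr (mk k r x) = Fl k r x := rfl

/-- the letter and its powers -/
def FZ (k : ℕ) (r : List (Bool × G)) : Zm →* Gam k r := (Quo.mk _).comp inr

lemma FZ_eq (k : ℕ) (r : List (Bool × G)) (a : Zm) :
    FZ k r a = nu k r ^ (Multiplicative.toAdd a) := by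
  have h : a = (Multiplicative.ofAdd (1 : ℤ)) ^ (Multiplicative.toAdd a) := by
    apply Multiplicative.toAdd.injective
    rw [toAdd_zpow]
    simp
  conv_lhs => rw [h]
  rw [map_zpow]
  rfl

lemma Fl_sh (k : ℕ) (r : List (Bool × G)) (z : ℤ) (x : PP Unit G) :
    Fl k r (sh z x) = nu k r ^ z * Fl k r x * (nu k r ^ z)⁻¹ := by
  have h : (Fl k r).comp (sh z) = (MulAut.conj (nu k r ^ z)).toMonoidHom.comp (Fl k r) := by
    apply PP_hom_ext
    · intro d
      have : (inl d : PP Unit G) = 1 := by
        have : d = 1 := Subsingleton.elim _ _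
        rw [this, map_one]
      rw [this]
      exact (map_one _).trans (map_one _).symm
    · intro h l
      rw [MonoidHom.comp_apply, sh_lev, Fl_lev]
      change _ = nu k r ^ z * Fl k r (lev Unit h l) * (nu k r ^ z)⁻¹
      rw [Fl_lev, add_comm h z, zpow_add]
      group
  exact DFunLike.congr_fun h x

/-- the left inverse -/
def La (k : ℕ) (r : List (Bool × G)) (hr : sg r = 0) : SD k r →* Gam k r :=
  SemidirectProduct.lift (FQ k r hr) (FZ k r) (by
    intro a
    apply Quo.hom_ext
    intro x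
    change Fl k r (sh (Multiplicative.toAdd a) x) = FZ k r a * Fl k r x * (FZ k r a)⁻¹
    rw [FZ_eq, Fl_sh])

lemma La_Th (k : ℕ) (r : List (Bool × G)) (hr : sg r = 0) :
    (La k r hr).comp (Th k r hr) = MonoidHom.id _ := by
  apply Quo.hom_ext
  intro w
  have h : ((La k r hr).comp (Th k r hr)).comp (Quo.mk _) = Quo.mk _ := by
    apply Monoid.Coprod.hom_ext
    · ext g
      change La k r hr (Th k r hr (Gam.of k r g)) = Gam.of k r g
      rw [Th_of, La, SemidirectProduct.lift_inl, FQ_mk, Fl_lev]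
      simp
    · ext
      change La k r hr (Th k r hr (nu k r)) = nu k r
      rw [Th_nu, La, SemidirectProduct.lift_inr, FZ_eq]
      simp
  exact DFunLike.congr_fun h w

end

end EZA_

/-- EZA -/
theorem p_EZA : T_EZA := fun k _ _ r hr =>
  ⟨EZA_.ph k r, EZA_.Th k r hr, inj_of_left _ _ (EZA_.La_Th k r hr), EZA_.Th_of k r hr⟩

end ORG
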