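import Pool.Agent.ORG.Targets2

/-!
# ORG-FEH: `Hat` of `GamF`
-/

set_option autoImplicit false

open Monoid.Coprod

namespace ORG

noncomputable section

/-- images of words -/
lemma FEH_map_wd {G P Q : Type} [Group G] [Group P] [Group Q] (f : P →* Q) (φ : G →* P) (ν : P)
    (r : List (Bool × G)) : f (wd φ ν r) = wd (f.comp φ) (f ν) r := by
  unfold wd
  rw [map_list_prod, List.map_map]
  congr 1
  apply List.map_congr_left
  rintro ⟨b, g⟩ _
  cases b <;> simp

/-- the base elements and the letters generate -/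
lemma FEH_closure {B I : Type} [Group B] (k : ℕ) (r : I → List (Bool × B)) :
    Subgroup.closure (Set.range (GamF.of k r) ∪ Set.range (GamF.t k r)) = ⊤ := by
  set C := Subgroup.closure (Set.range (GamF.of k r) ∪ Set.range (GamF.t k r)) with hC
  rw [Subgroup.eq_top_iff']
  intro z
  obtain ⟨w, rfl⟩ := Quo.mk_surj _ z
  induction w using Monoid.Coprod.induction_on with
  | inl b => exact Subgroup.subset_closure (Or.inl ⟨b, rfl⟩)
  | inr x =>
    have h : ∀ y : FreeGroup I, ((Quo.mk (Set.range fun i : I =>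
        (wd inl (inr (FreeGroup.of i)) (r i) ^ k : Cop B (FreeGroup I)))).comp inr) y ∈ C := by
      intro y
      induction y using FreeGroup.induction_on with
      | C1 => rw [map_one]; exact C.one_mem
      | of i => exact Subgroup.subset_closure (Or.inr ⟨i, rfl⟩)
      | inv_of i hi => rw [map_inv]; exact C.inv_mem hi
      | mul x y hx hy => rw [map_mul]; exact C.mul_mem hx hy
    exact h x
  | mul x y hx hy => rw [map_mul]; exact C.mul_mem hx hy

/-- powers in `Wr` -/
lemma FEH_pow_f {H A : Type} [Group H] [Group A] (x : Wr H A) (hx : x.a = 1) (k : ℕ) (h : A) :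
    (x ^ k).f h = (x.f h) ^ k := by
  induction k with
  | zero => simp
  | succ k ih => rw [pow_succ', pow_succ', Wr.mul_f, hx, mul_one, ih]

/-- torsion in `Zm` -/
lemma FEH_tors (x : Zm) (k : ℕ) (hk : 1 ≤ k) (h : x ^ k = 1) : x = 1 := by
  have h1 : (k : ℤ) * Multiplicative.toAdd x = 0 := by
    have := congrArg Multiplicative.toAdd h
    rw [toAdd_pow, toAdd_one, nsmul_eq_mul] at this
    exact this
  have h2 : Multiplicative.toAdd x = 0 := by
    rcases mul_eq_zero.1 h1 with h3 | h3
    · exfalso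
      have : k = 0 := by exact_mod_cast h3
      omega
    · exact h3
  exact Multiplicative.toAdd.injective h2

/-- words in `Wr` and leveled lists -/
lemma FEH_wd_f {B H J : Type} [Group B] [Group H] (χ : B →* Zm) (M : Cop (Hat χ) (FreeGroup J) →* H)
    (ν : ℤ → FreeGroup J) (θB : B →* Wr H Zm) (hB : ∀ b h, (θB b).f h = M (inl (hat χ b h)))
    (hBa : ∀ b, (θB b).a = χ b) (t : ℤ) (x : Wr H Zm)
    (hx : ∀ h, x.f h = M (inr (ν (Multiplicative.toAdd h)))) (hxa : x.a = Multiplicative.ofAdd t)
    (L : List (Bool × B)) : ∀ h : Zm, (wd θB x L).f h =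
      M (wg inl (fun h => inr (ν h)) (lml χ (MonoidHom.id _) t (Multiplicative.toAdd h) L)) := by
  induction L with
  | nil =>
    intro h
    simp [wd, wg, lml]
  | cons p L ih =>
    obtain ⟨b, g⟩ := p
    intro h
    cases b with
    | true =>
      have e1 : wd θB x ((true, g) :: L) = x * θB g * wd θB x L := by simp [wd]
      have e2 : lml χ (MonoidHom.id _) t (Multiplicative.toAdd h) ((true, g) :: L) =
          (Multiplicative.toAdd h, true, hat χ g (Multiplicative.ofAdd
            (Multiplicative.toAdd h + t))) :: lml χ (MonoidHom.id _) t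
              (Multiplicative.toAdd h + t + Multiplicative.toAdd (χ g)) L := rfl
      have e3 : Multiplicative.ofAdd (Multiplicative.toAdd h + t) =
          h * Multiplicative.ofAdd t := rfl
      have e4 : Multiplicative.toAdd h + t + Multiplicative.toAdd (χ g) =
          Multiplicative.toAdd (h * (Multiplicative.ofAdd t * χ g)) := by
        rw [toAdd_mul, toAdd_mul, toAdd_ofAdd, add_assoc]
      rw [e1, e2, Wr.mul_f, Wr.mul_f, Wr.mul_a, hxa, hBa, ih, hx, hB, e3, e4]
      simp only [wg, List.map_cons, List.prod_cons, map_mul, if_true]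
    | false =>
      have e1 : wd θB x ((false, g) :: L) = x⁻¹ * θB g * wd θB x L := by simp [wd]
      have e2 : lml χ (MonoidHom.id _) t (Multiplicative.toAdd h) ((false, g) :: L) =
          (Multiplicative.toAdd h - t, false, hat χ g (Multiplicative.ofAdd
            (Multiplicative.toAdd h - t))) :: lml χ (MonoidHom.id _) t
              (Multiplicative.toAdd h - t + Multiplicative.toAdd (χ g)) L := rfl
      have e3 : Multiplicative.ofAdd (Multiplicative.toAdd h - t) =
          h * (Multiplicative.ofAdd t)⁻¹ := by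
        rw [sub_eq_add_neg]
        rfl
      have e4 : Multiplicative.toAdd h - t + Multiplicative.toAdd (χ g) =
          Multiplicative.toAdd (h * ((Multiplicative.ofAdd t)⁻¹ * χ g)) := by
        rw [toAdd_mul, toAdd_mul, toAdd_inv, toAdd_ofAdd]
        ring
      have e5 : Multiplicative.toAdd (h * (Multiplicative.ofAdd t)⁻¹) =
          Multiplicative.toAdd h - t := by
        rw [toAdd_mul, toAdd_inv, toAdd_ofAdd]
        ring
      rw [e1, e2, Wr.mul_f, Wr.mul_f, Wr.mul_a, Wr.inv_a, Wr.inv_f, hxa, hBa, ih, hx, hB, e3, e4,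
        e5]
      simp only [wg, List.map_cons, List.prod_cons, map_mul, map_inv, Bool.false_eq_true, if_false]

/-- words in the group and leveled lists -/
lemma FEH_hat_wd {B G J : Type} [Group B] [Group G] (χ : B →* Zm) (φ : B →* G) (ψ : G →* Zm)
    (hψ : ∀ b, ψ (φ b) = χ b) (Λ : Cop (Hat χ) (FreeGroup J) →* Hat ψ)
    (hΛ : ∀ z, Λ (inl z) = Hat.map χ ψ φ hψ z) (ν : ℤ → FreeGroup J) (t : ℤ) (x : G)
    (hν : ∀ y : ℤ, Λ (inr (ν y)) = hat ψ x (Multiplicative.ofAdd y))
    (hx : ψ x = Multiplicative.ofAdd t) (L : List (Bool × B)) : ∀ y : ℤ,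
      Λ (wg inl (fun h => inr (ν h)) (lml χ (MonoidHom.id _) t y L)) =
        hat ψ (wd φ x L) (Multiplicative.ofAdd y) := by
  induction L with
  | nil =>
    intro y
    simp [wd, wg, lml]
  | cons p L ih =>
    obtain ⟨b, g⟩ := p
    intro y
    cases b with
    | true =>
      have e1 : wd φ x ((true, g) :: L) = x * φ g * wd φ x L := by simp [wd]
      have e2 : lml χ (MonoidHom.id _) t y ((true, g) :: L) =
          (y, true, hat χ g (Multiplicative.ofAdd (y + t))) :: lml χ (MonoidHom.id _) t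
              (y + t + Multiplicative.toAdd (χ g)) L := rfl
      have e3 : wg (inl : Hat χ →* Cop (Hat χ) (FreeGroup J)) (fun h => inr (ν h))
          ((y, true, hat χ g (Multiplicative.ofAdd (y + t))) :: lml χ (MonoidHom.id _) t
              (y + t + Multiplicative.toAdd (χ g)) L) =
          inr (ν y) * inl (hat χ g (Multiplicative.ofAdd (y + t))) *
            wg inl (fun h => inr (ν h)) (lml χ (MonoidHom.id _) t
              (y + t + Multiplicative.toAdd (χ g)) L) := by
        simp [wg]
      have e4 : Multiplicative.ofAdd (y + t + Multiplicative.toAdd (χ g)) =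
          Multiplicative.ofAdd y * (Multiplicative.ofAdd t * χ g) := by
        rw [← mul_assoc]
        rfl
      rw [e1, e2, e3, map_mul, map_mul, ih, hν, hΛ, Hat.map_hat, hat_mul, hat_mul, map_mul, hx,
        hψ, e4]
      rfl
    | false =>
      have e1 : wd φ x ((false, g) :: L) = x⁻¹ * φ g * wd φ x L := by simp [wd]
      have e2 : lml χ (MonoidHom.id _) t y ((false, g) :: L) =
          (y - t, false, hat χ g (Multiplicative.ofAdd (y - t))) :: lml χ (MonoidHom.id _) t
              (y - t + Multiplicative.toAdd (χ g)) L := rfl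
      have e3 : wg (inl : Hat χ →* Cop (Hat χ) (FreeGroup J)) (fun h => inr (ν h))
          ((y - t, false, hat χ g (Multiplicative.ofAdd (y - t))) :: lml χ (MonoidHom.id _) t
              (y - t + Multiplicative.toAdd (χ g)) L) =
          (inr (ν (y - t)))⁻¹ * inl (hat χ g (Multiplicative.ofAdd (y - t))) *
            wg inl (fun h => inr (ν h)) (lml χ (MonoidHom.id _) t
              (y - t + Multiplicative.toAdd (χ g)) L) := by
        simp [wg]
      have e5 : Multiplicative.ofAdd (y - t) =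
          Multiplicative.ofAdd y * (Multiplicative.ofAdd t)⁻¹ := by
        rw [sub_eq_add_neg]
        rfl
      have e4 : Multiplicative.ofAdd (y - t + Multiplicative.toAdd (χ g)) =
          Multiplicative.ofAdd y * ((Multiplicative.ofAdd t)⁻¹ * χ g) := by
        rw [← mul_assoc, ← e5]
        rfl
      rw [e1, e2, e3, map_mul, map_mul, map_inv, ih, hν, hΛ, Hat.map_hat, hat_mul, hat_mul,
        hat_inv, map_mul, map_inv, hx, hψ, e4, e5]

/-- `Hat` of `GamF` -/
theorem p_FEH : T_FEH := by
  intro k hk B I _ r χΓ t ht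
  set χ : B →* Zm := χΓ.comp (GamF.of k r) with hχ
  let M : Cop (Hat χ) (FreeGroup (I × ℤ)) →* DA k χ (MonoidHom.id _) t r := Quo.mk _
  -- the homomorphism to `Wr`
  let θB : B →* Wr (DA k χ (MonoidHom.id _) t r) Zm :=
    Wr.mk' χ (fun b h => M (inl (hat χ b h))) fun g h a => by rw [hat_mul, map_mul, map_mul]
  let θI : I → Wr (DA k χ (MonoidHom.id _) t r) Zm := fun i =>
    ⟨fun h => M (inr (FreeGroup.of (i, Multiplicative.toAdd h))), Multiplicative.ofAdd (t i)⟩
  let θ' : Cop B (FreeGroup I) →* Wr (DA k χ (MonoidHom.id _) t r) Zm :=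
    Monoid.Coprod.lift θB (FreeGroup.lift θI)
  have hθB : ∀ b, θ' (inl b) = θB b := fun b => by simp [θ']
  have hθI : ∀ i, θ' (inr (FreeGroup.of i)) = θI i := fun i => by simp [θ']
  have ha : ∀ w, (θ' w).a = χΓ (Quo.mk _ w) := by
    intro w
    have : (Wr.pr.comp θ' : Cop B (FreeGroup I) →* Zm) = χΓ.comp (Quo.mk _) := by
      apply Monoid.Coprod.hom_ext
      · ext b
        change (θ' (inl b)).a = χΓ (GamF.of k r b)
        rw [hθB]
        rfl
      · ext i
        change (θ' (inr (FreeGroup.of i))).a = χΓ (GamF.t k r i)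
        rw [hθI, ht]
    exact DFunLike.congr_fun this w
  have hw1 : ∀ i, χΓ (Quo.mk _ (wd inl (inr (FreeGroup.of i)) (r i))) = 1 := by
    intro i
    apply FEH_tors _ k hk
    rw [← map_pow, ← map_pow, Quo.mk_rel (Set.mem_range_self i), map_one]
  have hrel : ∀ x ∈ Set.range (fun i : I =>
      (wd inl (inr (FreeGroup.of i)) (r i) ^ k : Cop B (FreeGroup I))), θ' x = 1 := by
    rintro _ ⟨i, rfl⟩
    set w : Cop B (FreeGroup I) := wd inl (inr (FreeGroup.of i)) (r i) with hw
    change θ' (w ^ k) = 1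
    have h1 : (θ' w).a = 1 := by rw [ha]; exact hw1 i
    rw [map_pow]
    apply Wr.ext
    · funext h
      rw [FEH_pow_f _ h1, hw, FEH_map_wd, hθI]
      have h2 : θ'.comp inl = θB := by
        ext b
        · exact congrFun (congrArg Wr.f (hθB b)) _
        · exact congrArg Wr.a (hθB b)
      rw [h2, FEH_wd_f χ M (fun y => FreeGroup.of (i, y)) θB (fun _ _ => rfl) (fun _ => rfl) (t i)
        (θI i) (fun _ => rfl) rfl, ← map_pow]
      exact Quo.mk_rel ⟨(i, Multiplicative.toAdd h), rfl⟩
    · rw [← map_pow, ha, map_pow, map_pow, hw1, one_pow]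
      rfl
  let θ : GamF k r →* Wr (DA k χ (MonoidHom.id _) t r) Zm := Quo.lift _ θ' hrel
  have hθa : ∀ g, (θ g).a = χΓ g := by
    intro g
    obtain ⟨w, rfl⟩ := Quo.mk_surj _ g
    exact ha w
  -- the left inverse
  let Λ' : Cop (Hat χ) (FreeGroup (I × ℤ)) →* Hat χΓ := Monoid.Coprod.lift
    (Hat.map χ χΓ (GamF.of k r) fun _ => rfl)
    (FreeGroup.lift fun p : I × ℤ => hat χΓ (GamF.t k r p.1) (Multiplicative.ofAdd p.2))
  have hΛl : ∀ z, Λ' (inl z) = Hat.map χ χΓ (GamF.of k r) (fun _ => rfl) z :=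
    fun z => by simp [Λ']
  have hΛr : ∀ p : I × ℤ, Λ' (inr (FreeGroup.of p)) =
      hat χΓ (GamF.t k r p.1) (Multiplicative.ofAdd p.2) := fun p => by simp [Λ']
  have hΛ : ∀ x ∈ DArel k χ (MonoidHom.id _) t r, Λ' x = 1 := by
    rintro _ ⟨⟨i, y⟩, rfl⟩
    change Λ' (wg inl (fun h => inr (FreeGroup.of (i, h))) (lml χ (MonoidHom.id _) (t i) y (r i)) ^
      k) = 1
    rw [map_pow, FEH_hat_wd χ (GamF.of k r) χΓ (fun _ => rfl) Λ' hΛl
      (fun h => FreeGroup.of (i, h)) (t i) (GamF.t k r i) (fun y => hΛr (i, y)) (ht i) (r i) y]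
    have h3 : wd (GamF.of k r) (GamF.t k r i) (r i) =
        Quo.mk _ (wd inl (inr (FreeGroup.of i)) (r i)) := by
      rw [FEH_map_wd]
      rfl
    rw [← hat_pow_of (by rw [h3]; exact hw1 i), h3, ← map_pow, Quo.mk_rel (Set.mem_range_self i),
      hat_one]
  let Λ : DA k χ (MonoidHom.id _) t r →* Hat χΓ := Quo.lift _ Λ' hΛ
  refine ⟨Hat.lift χΓ θ hθa, ?_, ?_⟩
  · apply inj_of_left _ Λ
    apply Hat.hom_ext_of _ (FEH_closure k r)
    rintro _ (⟨b, rfl⟩ | ⟨i, rfl⟩) a
    · change Λ (Hat.lift χΓ θ hθa (hat χΓ (GamF.of k r b) a)) = hat χΓ (GamF.of k r b) a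
      rw [Hat.lift_hat]
      change Λ' (inl (hat χ b a)) = _
      rw [hΛl, Hat.map_hat]
    · change Λ (Hat.lift χΓ θ hθa (hat χΓ (GamF.t k r i) a)) = hat χΓ (GamF.t k r i) a
      rw [Hat.lift_hat]
      have h4 : (θ (GamF.t k r i)).f a = M (inr (FreeGroup.of (i, Multiplicative.toAdd a))) := by
        change (θ' (inr (FreeGroup.of i))).f a = _
        rw [hθI]
      rw [h4]
      change Λ' (inr (FreeGroup.of (i, Multiplicative.toAdd a))) = _
      rw [hΛr]
      rfl
  · intro b h
    rw [Hat.lift_hat]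
    change (θ' (inl b)).f h = _
    rw [hθB]
    rfl

end

end ORG
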