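import Pool.Agent.ORG.Targets2

/-!
# ORG-FEL: reduction to finitely generated groups (helper62)
-/

set_option autoImplicit false

open Monoid.Coprod

namespace ORG

noncomputable section

namespace FEL_

lemma push' (hP : T_PUSH) {B₀ B I : Type} [Group B₀] [Group B] (φ : B₀ →* B)
    (R₀ : Set (Cop B₀ (FreeGroup I))) (R : Set (Cop B (FreeGroup I)))
    (hR : Monoid.Coprod.map φ (MonoidHom.id (FreeGroup I)) '' R₀ = R)
    (hφ : Function.Injective φ)
    (h : Function.Injective ((Quo.mk R₀).comp inl : B₀ →* Quo R₀)) :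
    Function.Injective ((Quo.mk R).comp inl : B →* Quo R) ∧
    ∃ Θ : Quo R₀ →* Quo R, Function.Injective Θ ∧
      ∀ x, Θ (Quo.mk R₀ x) = Quo.mk R (Monoid.Coprod.map φ (MonoidHom.id (FreeGroup I)) x) := by
  subst hR
  obtain ⟨h1, h2⟩ := hP B₀ B I φ R₀ hφ h
  exact ⟨h1, _, h2, fun x => rfl⟩

lemma map_wd {G P P' : Type} [Group G] [Group P] [Group P'] (f : P →* P') (φ : G →* P) (ν : P)
    (r : List (Bool × G)) : f (wd φ ν r) = wd (f.comp φ) (f ν) r := by
  unfold wd
  rw [map_list_prod, List.map_map]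
  congr 1
  apply List.map_congr_left
  intro p _
  simp only [Function.comp_apply, map_mul, MonoidHom.comp_apply]
  split_ifs <;> simp

lemma wd_mp {G G' P : Type} [Group G] [Group G'] [Group P] (π : G →* G') (φ : G' →* P) (ν : P)
    (r : List (Bool × G)) : wd φ ν (mp π r) = wd (φ.comp π) ν r := by
  unfold wd mp
  rw [List.map_map]
  rfl

lemma image_rel (k : ℕ) {B₀ B I : Type} [Group B₀] [Group B] (φ : B₀ →* B)
    (r₀ : I → List (Bool × B₀)) (r : I → List (Bool × B)) (h : ∀ i, mp φ (r₀ i) = r i) :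
    Monoid.Coprod.map φ (MonoidHom.id (FreeGroup I)) ''
      (Set.range fun i : I => (wd inl (inr (FreeGroup.of i)) (r₀ i) ^ k : Cop B₀ (FreeGroup I))) =
    Set.range fun i : I => (wd inl (inr (FreeGroup.of i)) (r i) ^ k : Cop B (FreeGroup I)) := by
  rw [← Set.range_comp]
  congr 1
  funext i
  simp only [Function.comp_apply, map_pow]
  congr 1
  rw [map_wd, ← h i, wd_mp]
  congr 1

/-- the lists with coefficients in a subgroup -/
lemma exists_lists {B I : Type} [Group B] (r : I → List (Bool × B)) (B₀ : Subgroup B)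
    (h : ∀ i, ∀ p ∈ r i, p.2 ∈ B₀) :
    ∃ r₀ : I → List (Bool × B₀), ∀ i, mp B₀.subtype (r₀ i) = r i := by
  refine ⟨fun i => (r i).pmap (fun p hp => (p.1, ⟨p.2, hp⟩)) (h i), fun i => ?_⟩
  unfold mp
  rw [List.map_pmap]
  simp only [Prod.map, id, Subgroup.subtype_apply]
  rw [List.pmap_eq_map]
  simp

end FEL_

open FEL_ in
/-- reduction to finitely generated groups -/
theorem p_FEL (hPUSH : T_PUSH) (hC1 : T_C1) (hCFG : T_CFG) : T_FEL := by
  classical
  intro k B I _ _ r H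
  -- the coefficients
  have hCfin : {g : B | ∃ i, ∃ p ∈ r i, p.2 = g}.Finite := by
    have : {g : B | ∃ i, ∃ p ∈ r i, p.2 = g} = ⋃ i, (Prod.snd '' {p | p ∈ r i}) := by
      ext g
      simp
    rw [this]
    exact Set.finite_iUnion fun i => (List.finite_toSet (r i)).image _
  set C : Set B := {g : B | ∃ i, ∃ p ∈ r i, p.2 = g} with hC
  -- the statement for one subgroup
  have key : ∀ B₀ : Subgroup B, B₀.FG → C ⊆ B₀ →
      Function.Injective (GamF.of k r) ∧ ∃ (r₀ : I → List (Bool × B₀))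
        (Θ : GamF k r₀ →* GamF k r), InC k (GamF k r₀) ∧ Function.Injective Θ ∧
        ∀ x, Θ (Quo.mk _ x) = Quo.mk _ (Monoid.Coprod.map B₀.subtype
          (MonoidHom.id (FreeGroup I)) x) := by
    intro B₀ hB₀ hCB
    obtain ⟨r₀, hr₀⟩ := exists_lists r B₀ fun i p hp => hCB ⟨i, p, hp, rfl⟩
    obtain ⟨h1, h2⟩ := H B₀ hB₀ r₀ hr₀
    obtain ⟨h3, Θ, h4, h5⟩ := push' hPUSH B₀.subtype _ _ (image_rel k B₀.subtype r₀ r hr₀)
      B₀.subtype_injective h1
    exact ⟨h3, r₀, Θ, h2, h4, h5⟩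
  have hCFG' : (Subgroup.closure C).FG := (Subgroup.fg_iff _).2 ⟨C, rfl, hCfin⟩
  refine ⟨(key (Subgroup.closure C) hCFG' Subgroup.subset_closure).1, ?_⟩
  apply InC.loc
  intro P hP
  -- a finitely generated group of preimages
  obtain ⟨S, hS, hSfin⟩ := (Subgroup.fg_iff _).1 hP
  choose pre hpre using Quo.mk_surj (Set.range fun i : I =>
    (wd inl (inr (FreeGroup.of i)) (r i) ^ k : Cop B (FreeGroup I)))
  obtain ⟨G₀, H₀, hG₀, -, hle⟩ := hCFG B (FreeGroup I) (Subgroup.closure (pre '' S))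
    ((Subgroup.fg_iff _).2 ⟨_, rfl, hSfin.image _⟩)
  obtain ⟨-, r₀, Θ, h2, h3, h4⟩ := key (G₀ ⊔ Subgroup.closure C) (hG₀.sup hCFG')
    (fun x hx => (le_sup_right : Subgroup.closure C ≤ G₀ ⊔ Subgroup.closure C)
      (Subgroup.subset_closure hx))
  have hPr : P ≤ Θ.range := by
    rw [← hS, Subgroup.closure_le]
    intro s hs
    obtain ⟨y, hy⟩ := hle (Subgroup.subset_closure ⟨s, hs, rfl⟩)
    refine ⟨Quo.mk _ (Monoid.Coprod.map (Subgroup.inclusion
      (le_sup_left : G₀ ≤ G₀ ⊔ Subgroup.closure C)) H₀.subtype y), ?_⟩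
    have e1 : (G₀ ⊔ Subgroup.closure C).subtype.comp (Subgroup.inclusion
      (le_sup_left : G₀ ≤ G₀ ⊔ Subgroup.closure C)) = G₀.subtype := rfl
    have e2 : Monoid.Coprod.map (G₀ ⊔ Subgroup.closure C).subtype (MonoidHom.id (FreeGroup I))
        (Monoid.Coprod.map (Subgroup.inclusion
          (le_sup_left : G₀ ≤ G₀ ⊔ Subgroup.closure C)) H₀.subtype y) =
        Monoid.Coprod.map G₀.subtype H₀.subtype y := by
      rw [← MonoidHom.comp_apply, Monoid.Coprod.map_comp_map, e1, MonoidHom.id_comp]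
    rw [h4, e2, hy, hpre]
  obtain ⟨g, hg, -⟩ := exists_hom_of_le_range Θ h3 P hPr
  exact hC1 k _ h2 P g hg

end

end ORG
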