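import Pool.Agent.ORG.Targets2

/-!
# ORG-FX1: the inactive part in the step `ext`
-/

set_option autoImplicit false

open Monoid.Coprod

namespace ORG

noncomputable section

namespace FX1_

lemma pow_one_of {c : Zm} {M : ℕ} (hM : 1 ≤ M) (h : c ^ M = 1) : c = 1 := by
  have h1 : (M : ℤ) * Multiplicative.toAdd c = 0 := by
    have := congrArg Multiplicative.toAdd h
    simpa using this
  have h2 : Multiplicative.toAdd c = 0 := by
    rcases mul_eq_zero.1 h1 with h3 | h3
    · exact absurd h3 (by exact_mod_cast (by omega : M ≠ 0))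
    · exact h3
  exact h2

/-- division of the height -/
def fl (M : ℕ) (a : Zm) : Zm := Multiplicative.ofAdd (Multiplicative.toAdd a / (M : ℤ))

lemma fl_mul {M : ℕ} (hM : 1 ≤ M) (a c : Zm) : fl M (a * c ^ M) = fl M a * c := by
  have hM' : (M : ℤ) ≠ 0 := by exact_mod_cast (by omega : M ≠ 0)
  change Multiplicative.ofAdd ((Multiplicative.toAdd a + (M : ℕ) • Multiplicative.toAdd c) / (M : ℤ))
    = Multiplicative.ofAdd (Multiplicative.toAdd a / (M : ℤ) + Multiplicative.toAdd c)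
  rw [nsmul_eq_mul, Int.add_mul_ediv_left _ _ hM']

section

variable {B : Type} [Group B] (χ : B →* Zm)

lemma hl_length (h : ℤ) (r : List (Bool × B)) : (hl χ h r).length = r.length := by
  simp [hl]

lemma hl_sg (h : ℤ) (r : List (Bool × B)) : sg (hl χ h r) = sg r := by
  unfold sg hl
  rw [List.map_map]
  rfl

lemma hl_Xs (h : ℤ) (b : Bool) (r : List (Bool × B)) (hr : ∀ p ∈ r, χ p.2 = 1) :
    Xs b (hl χ h r) = hat χ (Xs b r) (Multiplicative.ofAdd h) ∧ χ (Xs b r) = 1 := by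
  induction r with
  | nil =>
    constructor
    · simp [Xs, hl]
    · simp [Xs]
  | cons p r ih =>
    obtain ⟨h1, h2⟩ := ih fun q hq => hr q (List.mem_cons_of_mem _ hq)
    have hp : χ p.2 = 1 := hr p (by simp)
    by_cases hb : p.1 = b
    · have e1 : Xs b (p :: r) = p.2 * Xs b r := by
        simp [Xs, hb]
      have e2 : Xs b (hl χ h (p :: r)) = hat χ p.2 (Multiplicative.ofAdd h) * Xs b (hl χ h r) := by
        simp [Xs, hl, hb]
      rw [e1, e2, h1]
      constructor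
      · rw [hat_mul, hp, mul_one]
      · rw [map_mul, hp, h2, one_mul]
    · have e1 : Xs b (p :: r) = Xs b r := by
        simp [Xs, hb]
      have e2 : Xs b (hl χ h (p :: r)) = Xs b (hl χ h r) := by
        simp [Xs, hl, hb]
      rw [e1, e2]
      exact ⟨h1, h2⟩

lemma hl_CR (h : ℤ) (r : List (Bool × B)) (hr : CR r) : CR (hl χ h r) := by
  unfold CR hl at *
  rw [← List.map_append, List.isChain_map]
  refine List.IsChain.imp (fun a b hab hne => ?_) hr
  intro h1
  exact hab hne (hat_eq_one.1 h1)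

lemma hl_Pr (h : ℤ) (r : List (Bool × B)) (hr : Pr r) : Pr (hl χ h r) := by
  intro q s hq
  refine hr q (s.map (Prod.map id (Hat.fst χ))) ?_
  have h1 : (hl χ h r).map (Prod.map id (Hat.fst χ)) = r := by
    unfold hl
    rw [List.map_map]
    conv_rhs => rw [← List.map_id r]
    refine List.map_congr_left fun p _ => ?_
    exact Prod.ext rfl (Hat.fst_hat χ p.2 _)
  rw [← h1, hq, List.map_flatten, List.map_replicate]

end

lemma mp_hl {B B' : Type} [Group B] [Group B'] (χ : B →* Zm) (χ' : B' →* Zm) (π : B →* B')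
    (hπ : ∀ g, χ' (π g) = χ g) (h : ℤ) (r : List (Bool × B)) :
    mp (Hat.map χ χ' π hπ) (hl χ h r) = hl χ' h (mp π r) := by
  unfold mp hl
  rw [List.map_map, List.map_map]
  refine List.map_congr_left fun p _ => ?_
  exact Prod.ext rfl (Hat.map_hat χ χ' π hπ p.2 _)

end FX1_

open FX1_ in
/-- `T_FX1` -/
theorem p_FX1 (hGUN : T_GUN) (hC4 : T_C4) : T_FX1 := by
  intro m K _ Y χ hY hIH k hk B B' _ _ π F M hM χB' χB hB' hB I _ r hkB hkB' hc hu
  have hπ : ∀ g, χB' (π g) = χB g := fun g => (hB g).symm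
  have hun : ∀ b, χB b = 1 → χ (F (π b)) = 1 := by
    intro b hb
    rw [hB, hB'] at hb
    exact pow_one_of hM hb
  have hcoc : ∀ (g g' : B') (a : Zm), hat χ (F (g * g')) (fl M a) =
      hat χ (F g) (fl M a) * hat χ (F g') (fl M (a * χB' g)) := by
    intro g g' a
    rw [map_mul, hat_mul, hB', fl_mul hM]
  let Fh : Hat χB' →* Hat χ := Hat.coc χB' (fun g a => hat χ (F g) (fl M a)) hcoc
  have hFh : ∀ g a, Fh (hat χB' g a) = hat χ (F g) (fl M a) := fun g a => Hat.coc_hat _ _ _ _ _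
  refine hGUN k (Hat χB) (I × ℤ) (fun p => hl χB p.2 (r p.1)) fun T => ?_
  let Y' : Set (Hat χ) := {z | ∃ j ∈ T, ∃ p ∈ r j.1, F (π p.2) ∈ Y ∧
    z = hat χ (F (π p.2)) (fl M (Multiplicative.ofAdd j.2))}
  have hfin : Y'.Finite := by
    have h1 : (⋃ j ∈ (T : Set (I × ℤ)), (fun p : Bool × B =>
        hat χ (F (π p.2)) (fl M (Multiplicative.ofAdd j.2))) '' {p | p ∈ r j.1}).Finite := by
      refine Set.Finite.biUnion T.finite_toSet fun j _ => Set.Finite.image _ ?_
      exact List.finite_toSet (r j.1)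
    refine h1.subset ?_
    rintro z ⟨j, hj, p, hp, -, rfl⟩
    exact Set.mem_biUnion (x := j) hj ⟨p, hp, rfl⟩
  have hsub : ∀ z ∈ Y', ∃ y ∈ Y, χ y = 1 ∧ ∃ h, z = hat χ y h := by
    rintro z ⟨j, hj, p, hp, hpY, rfl⟩
    exact ⟨_, hpY, hun _ (hu j.1 p hp), _, rfl⟩
  refine hIH Y' hfin hsub k hk (Hat χB) (Hat χB') (Hat.map χB χB' π hπ) Fh T
    (fun j => hl χB (j : I × ℤ).2 (r (j : I × ℤ).1)) (hC4 k B hkB χB) (hC4 1 B' hkB' χB') ?_
  rintro ⟨⟨i, h⟩, hj⟩
  change FCond (Hat.map χB χB' π hπ) Fh Y' m (hl χB h (r i))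
  have hci := hc i
  refine ⟨?_, ?_, ?_, ?_, ?_⟩
  · rw [hl_length]
    exact hci.len
  · rw [mp_hl]
    exact hl_CR χB' h _ hci.cr
  · rw [mp_hl]
    exact hl_Pr χB' h _ hci.pr
  · rcases hci.ext with ⟨h1, b, g, g', r', h2, h3⟩ | ⟨h1, h2⟩
    · left
      refine ⟨by rw [hl_sg]; exact h1, b, hat χB g (Multiplicative.ofAdd h),
        hat χB g' (Multiplicative.ofAdd h), hl χB h r', ?_, ?_⟩
      · rw [h2]
        rfl
      · rw [Hat.map_hat, hFh, h3, hat_one]
    · right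
      refine ⟨by rw [hl_sg]; exact h1, ?_⟩
      obtain ⟨e1, e2⟩ := hl_Xs χB h false (r i) (hu i)
      obtain ⟨e3, _⟩ := hl_Xs χB h true (r i) (hu i)
      rw [e1, e3, Hat.map_hat, Hat.map_hat, hFh, hFh]
      have h3 := hat_mul χ (F (π (Xs false (r i)))) (F (π (Xs true (r i))))
        (fl M (Multiplicative.ofAdd h))
      rw [hun _ e2, mul_one] at h3
      rw [← h3, h2, hat_one]
  · obtain ⟨p, hp, hpY⟩ := hci.vis
    refine ⟨(p.1, hat χB p.2 (Multiplicative.ofAdd h)), ?_, ?_⟩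
    · unfold hl
      exact List.mem_map.2 ⟨p, hp, rfl⟩
    · change Fh (Hat.map χB χB' π hπ (hat χB p.2 (Multiplicative.ofAdd h))) ∈ Y'
      rw [Hat.map_hat, hFh]
      exact ⟨(i, h), hj, p, hp, hpY, rfl⟩

end

end ORG
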