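import Pool.Agent.ORG.Targets2

/-!
# ORG: the step ext of the family theorem
-/

set_option autoImplicit false

open Monoid.Coprod

namespace ORG

noncomputable section

section fx2

variable {G G' : Type} [Group G] [Group G']

lemma FX2_mp_id (r : List (Bool × G)) : mp (MonoidHom.id G) r = r := by
  induction r with
  | nil => rfl
  | cons a r ih =>
    rw [mp, List.map_cons]
    rw [mp] at ih
    rw [ih]
    rfl

lemma FX2_sg_mp (π : G →* G') (r : List (Bool × G)) : sg (mp π r) = sg r := by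
  rw [sg, sg, mp, List.map_map]
  rfl

lemma FX2_Xs_mp (π : G →* G') (b : Bool) (r : List (Bool × G)) :
    Xs b (mp π r) = π (Xs b r) := by
  induction r with
  | nil => simp [Xs, mp]
  | cons a r ih =>
    rw [Xs, mp] at ih ⊢
    rw [Xs] at ih ⊢
    rw [List.map_cons, List.filter_cons, List.filter_cons]
    by_cases h : a.1 = b
    · simp only [Prod.map_fst, id_eq, h, beq_self_eq_true, if_true, List.map_cons,
        List.prod_cons, Prod.map_snd, map_mul]
      rw [ih]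
    · have h1 : (a.1 == b) = false := by simpa using h
      simp only [Prod.map_fst, id_eq, h1]
      exact ih

lemma FX2_cond {K : Type} [Group K] (π : G →* G') (F : G' →* K) (Y : Set K) (m : ℕ)
    (r : List (Bool × G)) (h : FCond π F Y m r) :
    FCond (MonoidHom.id G') F Y m (mp π r) where
  len := by
    rw [mp, List.length_map]
    exact h.len
  cr := by
    rw [FX2_mp_id]
    exact h.cr
  pr := by
    rw [FX2_mp_id]
    exact h.pr
  ext := by
    rcases h.ext with ⟨h1, b, g, g', r', h2, h3⟩ | ⟨h1, h2⟩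
    · left
      refine ⟨by rw [FX2_sg_mp]; exact h1, b, π g, π g', mp π r', ?_, h3⟩
      rw [h2]
      rfl
    · right
      refine ⟨by rw [FX2_sg_mp]; exact h1, ?_⟩
      rw [FX2_Xs_mp, FX2_Xs_mp]
      exact h2
  vis := by
    obtain ⟨p, hp, h1⟩ := h.vis
    exact ⟨Prod.map id π p, List.mem_map_of_mem hp, h1⟩

end fx2

theorem p_FX2 (hFXC : T_FXC) (hFEH : T_FEH) (hDAS : T_DAS) (hDAI : T_DAI) (hFX1 : T_FX1)
    (hDAF : T_DAF) (hACF : T_ACF) (hC1 : T_C1) : T_FX2 := by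
  intro m hm K _ Y χ hY hIH k hk B B' _ _ π F I _ r hB hB' hr
  obtain ⟨M, t, χB', χΓ, hM, hχB', hχΓ, hχt, hin, hact⟩ := hFXC m K Y χ k B B' π F I r hr
  obtain ⟨Θ, hΘi, hΘ⟩ := hFEH k hk B I r χΓ t hχt
  have hχ : ∀ b, χB' (π b) = (χΓ.comp (GamF.of k r)) b := fun b => (hχΓ b).symm
  generalize χΓ.comp (GamF.of k r) = χB at Θ hΘi hΘ hχ
  let S : Set I := {i | ∀ p ∈ r i, χB' (π p.2) = 1}
  have hS1 : ∀ i : S, ∀ p ∈ r i, χB p.2 = 1 := by
    intro i p hp
    rw [← hχ]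
    exact i.2 p hp
  have hS2 : ∀ i : S, ∀ p ∈ mp π (r i), χB' p.2 = 1 := by
    intro i p hp
    obtain ⟨q, hq, rfl⟩ := List.mem_map.1 hp
    exact i.2 q hq
  have hS0 : ∀ i : S, t i = 0 := fun i => hin i i.2
  -- the inactive part
  obtain ⟨Θ₁, hΘ₁i, hΘ₁⟩ := hDAI k B S χB (fun i : S => t i) (fun i : S => r i) hS0 hS1
  have h1 := hFX1 m K Y χ hY hIH k hk B B' π F M hM χB' χB hχB' (fun b => (hχ b).symm) S
    (fun i : S => r i) hB hB' (fun i => hr i) hS1
  have hD₁i : Function.Injective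
      (DA.of k χB (MonoidHom.id (Hat χB)) (fun i : S => t i) (fun i : S => r i)) := by
    intro x y hxy
    apply h1.1
    rw [← hΘ₁, ← hΘ₁, hxy]
  have hD₁ : InC k (DA k χB (MonoidHom.id (Hat χB)) (fun i : S => t i) (fun i : S => r i)) :=
    hC1 k _ h1.2 _ Θ₁ hΘ₁i
  obtain ⟨Θ₂, hΘ₂i, hΘ₂⟩ := hDAI 1 B' S χB' (fun i : S => t i) (fun i : S => mp π (r i)) hS0 hS2
  have h2 := hFX1 m K Y χ hY hIH 1 le_rfl B' B' (MonoidHom.id B') F M hM χB' χB' hχB'
    (fun _ => rfl) S (fun i : S => mp π (r i)) hB' hB' (fun i => FX2_cond π F Y m _ (hr i)) hS2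
  have hD₂i : Function.Injective
      (DA.of 1 χB' (MonoidHom.id (Hat χB')) (fun i : S => t i) (fun i : S => mp π (r i))) := by
    intro x y hxy
    apply h2.1
    rw [← hΘ₂, ← hΘ₂, hxy]
  have hD₂ : InC 1 (DA 1 χB' (MonoidHom.id (Hat χB')) (fun i : S => t i)
      (fun i : S => mp π (r i))) := hC1 1 _ h2.2 _ Θ₂ hΘ₂i
  obtain ⟨Δ, hΔ⟩ := hDAF k B B' (Hat χB) (Hat χB') π χB χB' hχ (Hat.map χB χB' π hχ)
    (MonoidHom.id _) (MonoidHom.id _) (fun z => rfl) S (fun i : S => t i) (fun i : S => r i)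
  -- the active part
  have h3 := hACF m hm k hk B B'
    (DA k χB (MonoidHom.id (Hat χB)) (fun i : S => t i) (fun i : S => r i))
    (DA 1 χB' (MonoidHom.id (Hat χB')) (fun i : S => t i) (fun i : S => mp π (r i)))
    π χB χB' hχ Δ
    ((DA.of k χB (MonoidHom.id (Hat χB)) (fun i : S => t i) (fun i : S => r i)).comp
      (MonoidHom.id _))
    ((DA.of 1 χB' (MonoidHom.id (Hat χB')) (fun i : S => t i) (fun i : S => mp π (r i))).comp
      (MonoidHom.id _))
    (fun z => hΔ z) hD₂i hD₁ hD₂ (Sᶜ : Set I) (fun j => t j) (fun j => r j) (fun j => by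
      have hj : ¬ ∀ p ∈ r j, χB' (π p.2) = 1 := j.2
      push Not at hj
      exact hact j hj)
  obtain ⟨Θ₃, hΘ₃i, hΘ₃⟩ := hDAS k B (Hat χB) χB (MonoidHom.id _) I t r S
  have hDA : InC k (DA k χB (MonoidHom.id (Hat χB)) t r) := hC1 k _ h3.2 _ Θ₃ hΘ₃i
  have hDAi : Function.Injective (DA.of k χB (MonoidHom.id (Hat χB)) t r) := by
    intro x y hxy
    apply hD₁i
    apply h3.1
    rw [← hΘ₃, ← hΘ₃, hxy]
  refine ⟨?_, InC.ext _ χΓ (hC1 k _ hDA _ Θ hΘi)⟩
  rw [injective_iff_map_eq_one]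
  intro b hb
  have h4 : DA.of k χB (MonoidHom.id (Hat χB)) t r (hat χB b 1) = 1 := by
    rw [← hΘ, hb, hat_one, map_one]
  have h5 : hat χB b 1 = 1 := hDAi (by rw [h4, map_one])
  exact hat_eq_one.1 h5

end

end ORG
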