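import Pool.Agent.ORG.Targets2

/-!
# ORG: existence of the character on `GamF`
-/

set_option autoImplicit false

open Monoid.Coprod

namespace ORG

noncomputable section

namespace FXC_

/-- the sum of the values of a character at the coefficients -/
def ss {G : Type} [Group G] (φ : G →* Zm) (r : List (Bool × G)) : ℤ :=
  (r.map fun p => Multiplicative.toAdd (φ p.2)).sum

lemma ss_nil {G : Type} [Group G] (φ : G →* Zm) : ss φ [] = 0 := rfl

lemma ss_cons {G : Type} [Group G] (φ : G →* Zm) (p : Bool × G) (r : List (Bool × G)) :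
    ss φ (p :: r) = Multiplicative.toAdd (φ p.2) + ss φ r := by
  simp [ss]

lemma sg_nil {G : Type} : sg ([] : List (Bool × G)) = 0 := rfl

lemma sg_cons {G : Type} (p : Bool × G) (r : List (Bool × G)) :
    sg (p :: r) = (if p.1 then (1 : ℤ) else -1) + sg r := by
  simp [sg]

lemma wd_map {G P Q : Type} [Group G] [Group P] [Group Q] (f : P →* Q) (φ : G →* P) (ν : P)
    (r : List (Bool × G)) : f (wd φ ν r) = wd (f.comp φ) (f ν) r := by
  induction r with
  | nil => simp [wd]
  | cons p r ih =>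
    rw [wd, List.map_cons, List.prod_cons, map_mul, map_mul]
    rw [wd, List.map_cons, List.prod_cons]
    rw [wd, wd] at ih
    rw [ih]
    cases p.1 with
    | true => simp
    | false => simp

lemma wd_val {G : Type} [Group G] (φ : G →* Zm) (ν : Zm) (r : List (Bool × G)) :
    Multiplicative.toAdd (wd φ ν r) = Multiplicative.toAdd ν * sg r + ss φ r := by
  induction r with
  | nil => simp [wd, sg_nil, ss_nil]
  | cons p r ih =>
    have h : wd φ ν (p :: r) = ((if p.1 then ν else ν⁻¹) * φ p.2) * wd φ ν r := by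
      rw [wd, List.map_cons, List.prod_cons]
      rfl
    rw [h, toAdd_mul, toAdd_mul, ih, sg_cons, ss_cons]
    cases p.1 with
    | true =>
      simp only [if_true]
      ring
    | false =>
      simp only [Bool.false_eq_true, if_false, toAdd_inv]
      ring

lemma Xs_val {G : Type} [Group G] (φ : G →* Zm) (r : List (Bool × G)) :
    ss φ r = Multiplicative.toAdd (φ (Xs false r)) + Multiplicative.toAdd (φ (Xs true r)) := by
  induction r with
  | nil => simp [ss_nil, Xs]
  | cons p r ih =>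
    obtain ⟨b, g⟩ := p
    rw [ss_cons, ih]
    cases b with
    | true =>
      have h1 : Xs false ((true, g) :: r) = Xs false r := by simp [Xs]
      have h2 : Xs true ((true, g) :: r) = g * Xs true r := by simp [Xs]
      rw [h1, h2, map_mul, toAdd_mul]
      ring
    | false =>
      have h1 : Xs false ((false, g) :: r) = g * Xs false r := by simp [Xs]
      have h2 : Xs true ((false, g) :: r) = Xs true r := by simp [Xs]
      rw [h1, h2, map_mul, toAdd_mul]
      ring

lemma ss_pow {G : Type} [Group G] (φ φ' : G →* Zm) (M : ℕ) (h : ∀ g, φ' g = φ g ^ M)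
    (r : List (Bool × G)) : ss φ' r = M * ss φ r := by
  induction r with
  | nil => simp [ss_nil]
  | cons p r ih =>
    rw [ss_cons, ss_cons, ih, h, toAdd_pow, mul_add, nsmul_eq_mul]

lemma ss_one {G : Type} [Group G] (φ : G →* Zm) (r : List (Bool × G))
    (h : ∀ p ∈ r, φ p.2 = 1) : ss φ r = 0 := by
  induction r with
  | nil => exact ss_nil φ
  | cons p r ih =>
    rw [ss_cons, ih (fun q hq => h q (List.mem_cons_of_mem p hq)), h p List.mem_cons_self]
    rfl

/-- one exponent -/
def mm {G : Type} (r : List (Bool × G)) : ℕ := if sg r = 0 then 1 else (sg r).natAbs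

lemma mm_pos {G : Type} (r : List (Bool × G)) : 1 ≤ mm r := by
  rw [mm]
  split_ifs with h
  · exact le_refl 1
  · exact Int.natAbs_pos.2 h

lemma mm_dvd {G : Type} (r : List (Bool × G)) (h : sg r ≠ 0) : sg r ∣ (mm r : ℤ) := by
  rw [mm, if_neg h]
  exact Int.dvd_natAbs.2 (dvd_refl _)

/-- the value of the letter -/
def tt {G : Type} [Group G] (φ : G →* Zm) (r : List (Bool × G)) : ℤ :=
  if sg r = 0 then 0 else -ss φ r / sg r

lemma tt_tot {G : Type} [Group G] (φ : G →* Zm) (r : List (Bool × G))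
    (h0 : sg r = 0 → ss φ r = 0) (h1 : sg r ≠ 0 → sg r ∣ ss φ r) :
    tt φ r * sg r + ss φ r = 0 := by
  rw [tt]
  split_ifs with h
  · rw [h0 h]
    ring
  · rw [Int.ediv_mul_cancel (dvd_neg.2 (h1 h))]
    ring

lemma tt_zero {G : Type} [Group G] (φ : G →* Zm) (r : List (Bool × G))
    (h : ∀ p ∈ r, φ p.2 = 1) : tt φ r = 0 := by
  rw [tt, ss_one φ r h]
  split_ifs with h
  · rfl
  · simp

end FXC_

open FXC_ in
theorem p_FXC : T_FXC := by
  intro m K _ Y χ k B B' _ _ π F I _ r hr
  classical
  obtain ⟨_⟩ := nonempty_fintype I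
  let M : ℕ := ∏ i, mm (r i)
  have hM : 1 ≤ M := Nat.one_le_iff_ne_zero.2
    (Finset.prod_ne_zero_iff.2 fun i _ => Nat.one_le_iff_ne_zero.1 (mm_pos (r i)))
  have hMd : ∀ i, sg (r i) ≠ 0 → sg (r i) ∣ (M : ℤ) := by
    intro i hi
    refine (mm_dvd (r i) hi).trans ?_
    exact Int.natCast_dvd_natCast.2 (Finset.dvd_prod_of_mem _ (Finset.mem_univ i))
  let χB' : B' →* Zm := (powMonoidHom M).comp (χ.comp F)
  have hχ : ∀ g, χB' g = χ (F g) ^ M := fun g => rfl
  let ψ : B →* Zm := (χ.comp F).comp π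
  let φ : B →* Zm := χB'.comp π
  have hφ : ∀ g, φ g = ψ g ^ M := fun g => rfl
  have hss : ∀ i, ss φ (r i) = M * ss ψ (r i) := fun i => ss_pow ψ φ M hφ (r i)
  have h0 : ∀ i, sg (r i) = 0 → ss φ (r i) = 0 := by
    intro i hi
    rcases (hr i).ext with ⟨h1, -⟩ | ⟨-, h2⟩
    · exact absurd hi h1
    · have h3 : Multiplicative.toAdd (ψ (Xs false (r i))) +
          Multiplicative.toAdd (ψ (Xs true (r i))) = 0 := by
        rw [← toAdd_mul]
        have h4 : ψ (Xs false (r i)) * ψ (Xs true (r i)) = 1 := by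
          change χ (F (π (Xs false (r i)))) * χ (F (π (Xs true (r i)))) = 1
          rw [← map_mul, h2, map_one]
        rw [h4]
        rfl
      rw [hss, Xs_val, h3, mul_zero]
  have h1 : ∀ i, sg (r i) ≠ 0 → sg (r i) ∣ ss φ (r i) := by
    intro i hi
    rw [hss]
    exact (hMd i hi).mul_right _
  have htot : ∀ i, tt φ (r i) * sg (r i) + ss φ (r i) = 0 := fun i =>
    tt_tot φ (r i) (h0 i) (h1 i)
  let t : I → ℤ := fun i => tt φ (r i)
  let f : Cop B (FreeGroup I) →* Zm :=
    Monoid.Coprod.lift φ (FreeGroup.lift fun i => Multiplicative.ofAdd (t i))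
  have hf1 : f.comp inl = φ := by
    ext b
    simp [f]
  have hf2 : ∀ i, f (inr (FreeGroup.of i)) = Multiplicative.ofAdd (t i) := by
    intro i
    simp [f]
  have hf : ∀ x ∈ (Set.range fun i : I =>
      (wd inl (inr (FreeGroup.of i)) (r i) ^ k : Cop B (FreeGroup I))), f x = 1 := by
    rintro _ ⟨i, rfl⟩
    have h : f (wd inl (inr (FreeGroup.of i)) (r i)) = 1 := by
      rw [wd_map, hf1, hf2]
      apply Multiplicative.toAdd.injective
      rw [wd_val]
      exact htot i
    change f (wd inl (inr (FreeGroup.of i)) (r i) ^ k) = 1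
    rw [map_pow, h, one_pow]
  refine ⟨M, t, χB', Quo.lift _ f hf, hM, hχ, ?_, ?_, ?_, ?_⟩
  · intro b
    change Quo.lift _ f hf (Quo.mk _ (inl b)) = _
    rw [Quo.lift_mk]
    exact DFunLike.congr_fun hf1 b
  · intro i
    change Quo.lift _ f hf (Quo.mk _ (inr (FreeGroup.of i))) = _
    rw [Quo.lift_mk]
    exact hf2 i
  · intro i hi
    exact tt_zero φ (r i) hi
  · intro i hi
    refine ⟨(hr i).len, (hr i).cr, (hr i).pr, htot i, hi, ?_⟩
    intro hti
    rcases (hr i).ext with ⟨-, b, g, g', r', h2, h3⟩ | ⟨h2, -⟩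
    · refine ⟨b, g, g', r', h2, ?_⟩
      rw [hχ, h3, map_one, one_pow]
    · exfalso
      apply hti
      change tt φ (r i) = 0
      rw [tt, if_pos h2]

end

end ORG
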