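import Pool.Agent.ORG.Targets2

/-!
# ORG: `T_GUN`, infinite families of relators
-/

set_option autoImplicit false

open Monoid.Coprod

namespace ORG

noncomputable section

namespace GUN_

variable {B : Type} [Group B]

lemma wd_map {G P Q : Type} [Group G] [Group P] [Group Q] (f : P →* Q) (φ : G →* P) (ν : P)
    (r : List (Bool × G)) : f (wd φ ν r) = wd (f.comp φ) (f ν) r := by
  unfold wd
  rw [map_list_prod, List.map_map]
  congr 1
  apply List.map_congr_left
  intro p _
  simp only [Function.comp_apply, map_mul, MonoidHom.comp_apply]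
  split_ifs
  · rfl
  · rw [map_inv]

/-- the relator -/
def rel (k : ℕ) {I : Type} (r : I → List (Bool × B)) (i : I) : Cop B (FreeGroup I) :=
  wd inl (inr (FreeGroup.of i)) (r i) ^ k

lemma rel_one (k : ℕ) {I : Type} (r : I → List (Bool × B)) (i : I) :
    wd (GamF.of k r) (GamF.t k r i) (r i) ^ k = 1 := by
  have h : (Quo.mk (Set.range (rel k r))) (rel k r i) = 1 := Quo.mk_rel ⟨i, rfl⟩
  rw [rel, map_pow, wd_map] at h
  exact h

/-- the universal property -/
def lft {I : Type} (k : ℕ) (r : I → List (Bool × B)) {H : Type} [Group H] (f : B →* H)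
    (s : I → H) (h : ∀ i, wd f (s i) (r i) ^ k = 1) : GamF k r →* H :=
  Quo.lift _ (Monoid.Coprod.lift f (FreeGroup.lift s)) (by
    rintro _ ⟨i, rfl⟩
    rw [map_pow, wd_map]
    have h1 : (Monoid.Coprod.lift f (FreeGroup.lift s)).comp inl = f := by
      ext b
      simp
    have h2 : (Monoid.Coprod.lift f (FreeGroup.lift s)) (inr (FreeGroup.of i)) = s i := by
      simp
    rw [h1, h2]
    exact h i)

@[simp] lemma lft_of {I : Type} (k : ℕ) (r : I → List (Bool × B)) {H : Type} [Group H]
    (f : B →* H) (s : I → H) (h : ∀ i, wd f (s i) (r i) ^ k = 1) (b : B) :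
    lft k r f s h (GamF.of k r b) = f b := by
  change Quo.lift _ _ _ (Quo.mk _ (inl b)) = _
  rw [Quo.lift_mk]
  simp

@[simp] lemma lft_t {I : Type} (k : ℕ) (r : I → List (Bool × B)) {H : Type} [Group H]
    (f : B →* H) (s : I → H) (h : ∀ i, wd f (s i) (r i) ^ k = 1) (i : I) :
    lft k r f s h (GamF.t k r i) = s i := by
  change Quo.lift _ _ _ (Quo.mk _ (inr (FreeGroup.of i))) = _
  rw [Quo.lift_mk]
  simp

lemma hom_ext {I : Type} (k : ℕ) (r : I → List (Bool × B)) {H : Type} [Group H]
    {f f' : GamF k r →* H} (h1 : ∀ b, f (GamF.of k r b) = f' (GamF.of k r b))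
    (h2 : ∀ i, f (GamF.t k r i) = f' (GamF.t k r i)) : f = f' := by
  apply Quo.hom_ext
  intro w
  have : f.comp (Quo.mk (Set.range (rel k r))) = f'.comp (Quo.mk (Set.range (rel k r))) := by
    apply Monoid.Coprod.hom_ext
    · ext b
      exact h1 b
    · ext i
      exact h2 i
  exact DFunLike.congr_fun this w

/-- the map of a subfamily -/
def io {I J : Type} (k : ℕ) (r : J → List (Bool × B)) (j : I → J) :
    GamF k (fun i : I => r (j i)) →* GamF k r :=
  lft k _ (GamF.of k r) (fun i => GamF.t k r (j i)) fun i => rel_one k r (j i)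

@[simp] lemma io_of {I J : Type} (k : ℕ) (r : J → List (Bool × B)) (j : I → J) (b : B) :
    io k r j (GamF.of k _ b) = GamF.of k r b := lft_of _ _ _ _ _ _

@[simp] lemma io_t {I J : Type} (k : ℕ) (r : J → List (Bool × B)) (j : I → J) (i : I) :
    io k r j (GamF.t k _ i) = GamF.t k r (j i) := lft_t _ _ _ _ _ _

/-- only finitely many relators are needed -/
lemma finite_support {P J : Type} [Group P] (R : J → P) (x : P)
    (hx : x ∈ Subgroup.normalClosure (Set.range R)) :
    ∃ T : Finset J, x ∈ Subgroup.normalClosure (R '' T) := by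
  classical
  have hmono : ∀ T T' : Finset J, T ⊆ T' →
      Subgroup.normalClosure (R '' T) ≤ Subgroup.normalClosure (R '' T') := by
    intro T T' h
    exact Subgroup.normalClosure_mono (Set.image_mono (by exact_mod_cast h))
  unfold Subgroup.normalClosure at hx
  induction hx using Subgroup.closure_induction with
  | mem y hy =>
    obtain ⟨z, ⟨j, rfl⟩, hz⟩ := Group.mem_conjugatesOfSet_iff.1 hy
    refine ⟨{j}, ?_⟩
    apply Subgroup.conjugatesOfSet_subset_normalClosure
    refine Group.mem_conjugatesOfSet_iff.2 ⟨R j, ⟨j, by simp, rfl⟩, hz⟩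
  | one => exact ⟨∅, Subgroup.one_mem _⟩
  | mul y z _ _ hy hz =>
    obtain ⟨T, hT⟩ := hy
    obtain ⟨T', hT'⟩ := hz
    exact ⟨T ∪ T', Subgroup.mul_mem _ (hmono _ _ Finset.subset_union_left hT)
      (hmono _ _ Finset.subset_union_right hT')⟩
  | inv y _ hy =>
    obtain ⟨T, hT⟩ := hy
    exact ⟨T, Subgroup.inv_mem _ hT⟩

/-- finite families in larger finite families -/
lemma io_inj_fin (hP : T_PUSH) {J : Type} (k : ℕ) (r : J → List (Bool × B)) (T T' : Finset J)
    (hT : T ⊆ T') (h1 : Function.Injective (GamF.of k (fun j : T => r j)))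
    (h2 : ∀ U : Finset J, Function.Injective (GamF.of k (fun j : U => r j))) :
    Function.Injective (io k (fun j : T' => r j) (fun j : T => ⟨j, hT j.2⟩) :
      GamF k (fun j : T => r j) →* GamF k (fun j : T' => r j)) := by
  classical
  set U := T' \ T with hU
  set φ : B →* GamF k (fun j : U => r j) := GamF.of k (fun j : U => r j) with hφ
  set R₀ : Set (Cop B (FreeGroup T)) := Set.range (rel k (fun j : T => r j)) with hR₀
  have hp := (hP B (GamF k (fun j : U => r j)) T φ R₀ (h2 U) h1).2
  set m : Cop B (FreeGroup T) →* Cop (GamF k (fun j : U => r j)) (FreeGroup T) :=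
    Monoid.Coprod.map φ (MonoidHom.id (FreeGroup T)) with hm
  -- the map back
  let s : T' → Quo (m '' R₀) := fun j =>
    if h : (j : J) ∈ T then Quo.mk _ (inr (FreeGroup.of ⟨j, h⟩))
    else Quo.mk _ (inl (GamF.t k (fun j : U => r j) ⟨j, Finset.mem_sdiff.2 ⟨j.2, h⟩⟩))
  have hs : ∀ j : T', wd (((Quo.mk (m '' R₀)).comp inl).comp φ) (s j) (r j) ^ k = 1 := by
    intro j
    by_cases h : (j : J) ∈ T
    · have e1 : s j = Quo.mk (m '' R₀) (m (inr (FreeGroup.of ⟨j, h⟩))) := by
        simp only [s, dif_pos h, hm]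
        simp
      have e2 : ((Quo.mk (m '' R₀)).comp inl).comp φ = ((Quo.mk (m '' R₀)).comp m).comp inl := by
        ext b
        simp [hm]
      rw [e1, e2, ← MonoidHom.comp_apply (Quo.mk (m '' R₀)) m, ← wd_map, ← map_pow,
        MonoidHom.comp_apply]
      exact Quo.mk_rel ⟨_, ⟨⟨j, h⟩, rfl⟩, rfl⟩
    · have e1 : s j = ((Quo.mk (m '' R₀)).comp inl)
          (GamF.t k (fun j : U => r j) ⟨j, Finset.mem_sdiff.2 ⟨j.2, h⟩⟩) := by
        simp only [s, dif_neg h]
        rfl
      rw [e1, ← wd_map, ← map_pow]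
      have := rel_one k (fun j : U => r j) ⟨j, Finset.mem_sdiff.2 ⟨j.2, h⟩⟩
      rw [hφ, this, map_one]
  let ψ : GamF k (fun j : T' => r j) →* Quo (m '' R₀) :=
    lft k _ (((Quo.mk (m '' R₀)).comp inl).comp φ) s hs
  refine Function.Injective.of_comp (f := ψ) ?_
  have : (⇑ψ ∘ ⇑(io k (fun j : T' => r j) (fun j : T => ⟨j, hT j.2⟩) :
      GamF k (fun j : T => r j) →* GamF k (fun j : T' => r j))) =
      ⇑(Quo.lift R₀ ((Quo.mk (m '' R₀)).comp m)
        (fun r hr => Quo.mk_rel ⟨r, hr, rfl⟩)) := by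
    have e : ψ.comp (io k (fun j : T' => r j) (fun j : T => ⟨j, hT j.2⟩) :
      GamF k (fun j : T => r j) →* GamF k (fun j : T' => r j)) =
      (Quo.lift R₀ ((Quo.mk (m '' R₀)).comp m) (fun r hr => Quo.mk_rel ⟨r, hr, rfl⟩)) := by
      apply hom_ext
      · intro b
        rw [MonoidHom.comp_apply, io_of]
        change lft _ _ _ _ _ _ = Quo.lift R₀ _ _ (Quo.mk _ (inl b))
        rw [lft_of, Quo.lift_mk]
        simp [hm]
      · intro i
        rw [MonoidHom.comp_apply, io_t]
        change lft _ _ _ _ _ _ = Quo.lift R₀ _ _ (Quo.mk _ (inr (FreeGroup.of i)))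
        rw [lft_t, Quo.lift_mk]
        simp [hm, s]
    rw [← e]
    rfl
  rw [this]
  exact hp

/-- finite families in the whole family -/
lemma io_inj (hP : T_PUSH) {J : Type} (k : ℕ) (r : J → List (Bool × B)) (T : Finset J)
    (h2 : ∀ U : Finset J, Function.Injective (GamF.of k (fun j : U => r j))) :
    Function.Injective (io k r (fun j : T => (j : J)) : GamF k (fun j : T => r j) →* GamF k r) := by
  classical
  rw [injective_iff_map_eq_one]
  intro y hy
  obtain ⟨x, rfl⟩ := Quo.mk_surj _ y
  set M : Cop B (FreeGroup T) →* Cop B (FreeGroup J) :=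
    Monoid.Coprod.map (MonoidHom.id B) (FreeGroup.map (fun j : T => (j : J))) with hM
  have e1 : io k r (fun j : T => (j : J)) (Quo.mk _ x) = Quo.mk _ (M x) := by
    have : (io k r (fun j : T => (j : J))).comp
        (Quo.mk (Set.range (rel k (fun j : T => r j)))) =
        (Quo.mk (Set.range (rel k r))).comp M := by
      apply Monoid.Coprod.hom_ext
      · ext b
        change io k r _ (GamF.of k _ b) = _
        rw [io_of]
        simp [hM]
        rfl
      · ext i
        change io k r _ (GamF.t k _ i) = _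
        rw [io_t]
        simp [hM]
        rfl
    exact DFunLike.congr_fun this x
  rw [e1] at hy
  obtain ⟨T₀, hT₀⟩ := finite_support (rel k r) (M x) (Quo.mk_eq_one.1 hy)
  have hTT : T ⊆ T ∪ T₀ := Finset.subset_union_left
  let s : J → GamF k (fun j : (T ∪ T₀ : Finset J) => r j) := fun j =>
    if h : j ∈ T ∪ T₀ then GamF.t k _ ⟨j, h⟩ else 1
  let κ : Cop B (FreeGroup J) →* GamF k (fun j : (T ∪ T₀ : Finset J) => r j) :=
    Monoid.Coprod.lift (GamF.of k _) (FreeGroup.lift s)
  have hκ : κ (M x) = 1 := by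
    have hle : Subgroup.normalClosure (rel k r '' T₀) ≤ κ.ker := by
      apply Subgroup.normalClosure_le_normal
      rintro _ ⟨j, hj, rfl⟩
      have hj' : j ∈ T ∪ T₀ := Finset.mem_union_right _ (by exact_mod_cast hj)
      change κ _ = 1
      rw [rel, map_pow, wd_map]
      have h1 : κ.comp inl = GamF.of k (fun j : (T ∪ T₀ : Finset J) => r j) := by
        ext b
        simp [κ]
      have h2 : κ (inr (FreeGroup.of j)) = GamF.t k _ ⟨j, hj'⟩ := by
        simp only [κ, Monoid.Coprod.lift_apply_inr, FreeGroup.lift_apply_of, s]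
        rw [dif_pos hj']
      rw [h1, h2]
      exact rel_one k (fun j : (T ∪ T₀ : Finset J) => r j) ⟨j, hj'⟩
    exact hle hT₀
  have e2 : κ (M x) = io k (fun j : (T ∪ T₀ : Finset J) => r j) (fun j : T => ⟨j, hTT j.2⟩)
      (Quo.mk _ x) := by
    have : κ.comp M = (io k (fun j : (T ∪ T₀ : Finset J) => r j)
        (fun j : T => ⟨j, hTT j.2⟩)).comp (Quo.mk (Set.range (rel k (fun j : T => r j)))) := by
      apply Monoid.Coprod.hom_ext
      · ext b
        change _ = io k _ _ (GamF.of k _ b)
        rw [io_of]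
        simp [κ, hM]
      · ext i
        change _ = io k _ _ (GamF.t k _ i)
        rw [io_t]
        simp [κ, hM, s]
    exact DFunLike.congr_fun this x
  rw [e2] at hκ
  have := io_inj_fin hP k r T (T ∪ T₀) hTT (h2 T) h2
  rw [injective_iff_map_eq_one] at this
  exact this _ hκ

/-- the ranges are directed -/
lemma range_mono {J : Type} (k : ℕ) (r : J → List (Bool × B)) (T T' : Finset J) (h : T ⊆ T') :
    (io k r (fun j : T => (j : J))).range ≤ (io k r (fun j : T' => (j : J))).range := by
  rintro _ ⟨y, rfl⟩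
  refine ⟨io k (fun j : T' => r j) (fun j : T => ⟨j, h j.2⟩) y, ?_⟩
  have : (io k r (fun j : T' => (j : J))).comp
      (io k (fun j : T' => r j) (fun j : T => ⟨j, h j.2⟩)) = io k r (fun j : T => (j : J)) := by
    apply hom_ext
    · intro b
      simp
    · intro i
      simp
  exact DFunLike.congr_fun this y

lemma mem_range {J : Type} (k : ℕ) (r : J → List (Bool × B)) (g : GamF k r) :
    ∃ T : Finset J, g ∈ (io k r (fun j : T => (j : J))).range := by
  classical
  obtain ⟨x, rfl⟩ := Quo.mk_surj _ g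
  induction x using Monoid.Coprod.induction_on with
  | inl b => exact ⟨∅, GamF.of k _ b, by rw [io_of]; rfl⟩
  | inr w =>
    induction w using FreeGroup.induction_on with
    | C1 => exact ⟨∅, 1, by simp⟩
    | of j =>
      refine ⟨{j}, GamF.t k _ ⟨j, by simp⟩, ?_⟩
      rw [io_t]
      rfl
    | inv_of j ih =>
      obtain ⟨T, hT⟩ := ih
      refine ⟨T, ?_⟩
      rw [map_inv, map_inv]
      exact Subgroup.inv_mem _ hT
    | mul v w hv hw =>
      obtain ⟨T, hT⟩ := hv
      obtain ⟨T', hT'⟩ := hw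
      refine ⟨T ∪ T', ?_⟩
      rw [map_mul, map_mul]
      exact Subgroup.mul_mem _ (range_mono k r _ _ Finset.subset_union_left hT)
        (range_mono k r _ _ Finset.subset_union_right hT')
  | mul v w hv hw =>
    obtain ⟨T, hT⟩ := hv
    obtain ⟨T', hT'⟩ := hw
    refine ⟨T ∪ T', ?_⟩
    rw [map_mul]
    exact Subgroup.mul_mem _ (range_mono k r _ _ Finset.subset_union_left hT)
      (range_mono k r _ _ Finset.subset_union_right hT')

lemma fg_range {J : Type} (k : ℕ) (r : J → List (Bool × B)) (P : Subgroup (GamF k r))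
    (hP : P.FG) : ∃ T : Finset J, P ≤ (io k r (fun j : T => (j : J))).range := by
  classical
  obtain ⟨S, rfl⟩ := hP
  choose T hT using mem_range k r
  refine ⟨S.biUnion T, ?_⟩
  rw [Subgroup.closure_le]
  intro g hg
  exact range_mono k r _ _ (Finset.subset_biUnion_of_mem T (by exact_mod_cast hg)) (hT g)

end GUN_

/-- infinite families -/
theorem p_GUN (hP : T_PUSH) (hC1 : T_C1) : T_GUN := by
  intro k B J _ r h
  classical
  have h2 : ∀ U : Finset J, Function.Injective (GamF.of k (fun j : U => r j)) := fun U => (h U).1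
  constructor
  · have h0 := GUN_.io_inj hP k r ∅ h2
    have : (⇑(GamF.of k r)) = ⇑(GUN_.io k r (fun j : (∅ : Finset J) => (j : J))) ∘
        ⇑(GamF.of k (fun j : (∅ : Finset J) => r j)) := by
      funext b
      simp
    rw [this]
    exact h0.comp (h2 ∅)
  · apply InC.loc
    intro P hPf
    obtain ⟨T, hT⟩ := GUN_.fg_range k r P hPf
    obtain ⟨g, hg, -⟩ := exists_hom_of_le_range _ (GUN_.io_inj hP k r T h2) P hT
    exact hC1 k _ (h T).2 P g hg

end

end ORG
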