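import Pool.Agent.ORG.Targets1

/-! ORG-HFP: the `Hat` of a free product (helper12). -/

set_option autoImplicit false

open Monoid.Coprod

namespace ORG

namespace HFP_

variable {G H A : Type} [Group G] [Group H] [Group A] (α : G →* A) (β : H →* A)

/-- the homomorphism to `Wr` -/
noncomputable def th : Cop G H →* Wr (Cop (Hat α) (Hat β)) A :=
  Monoid.Coprod.lift
    (Wr.mk' α (fun g a => inl (hat α g a)) fun g h a => by rw [hat_mul, map_mul])
    (Wr.mk' β (fun g a => inr (hat β g a)) fun g h a => by rw [hat_mul, map_mul])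

theorem th_a (z : Cop G H) : (th α β z).a = Monoid.Coprod.lift α β z := by
  have : (Wr.pr.comp (th α β) : Cop G H →* A) = Monoid.Coprod.lift α β := by
    apply Monoid.Coprod.hom_ext
    · ext g
      simp [th]
    · ext g
      simp [th]
  exact DFunLike.congr_fun this z

theorem gen_top :
    Subgroup.closure (Set.range (inl : G →* Cop G H) ∪ Set.range (inr : H →* Cop G H)) = ⊤ := by
  rw [Subgroup.eq_top_iff']
  intro w
  induction w using Monoid.Coprod.induction_on with
  | inl g => exact Subgroup.subset_closure (Or.inl ⟨g, rfl⟩)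
  | inr h => exact Subgroup.subset_closure (Or.inr ⟨h, rfl⟩)
  | mul x y hx hy => exact Subgroup.mul_mem _ hx hy

/-- the left inverse -/
noncomputable def ph : Cop (Hat α) (Hat β) →* Hat (Monoid.Coprod.lift α β) :=
  Monoid.Coprod.lift (Hat.map α _ inl fun g => by simp) (Hat.map β _ inr fun g => by simp)

end HFP_

theorem p_HFP : T_HFP := by
  intro G H A _ _ _ α β
  have h1 : ∀ g a, Hat.lift (Monoid.Coprod.lift α β) (HFP_.th α β) (HFP_.th_a α β)
      (hat _ (inl g) a) = inl (hat α g a) := by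
    intro g a
    rw [Hat.lift_hat]
    simp [HFP_.th]
  have h2 : ∀ g a, Hat.lift (Monoid.Coprod.lift α β) (HFP_.th α β) (HFP_.th_a α β)
      (hat _ (inr g) a) = inr (hat β g a) := by
    intro g a
    rw [Hat.lift_hat]
    simp [HFP_.th]
  refine ⟨Hat.lift (Monoid.Coprod.lift α β) (HFP_.th α β) (HFP_.th_a α β), ?_, h1, h2⟩
  apply inj_of_left _ (HFP_.ph α β)
  apply Hat.hom_ext_of _ HFP_.gen_top
  rintro _ (⟨g, rfl⟩ | ⟨g, rfl⟩) a
  · rw [MonoidHom.comp_apply, h1, HFP_.ph, Monoid.Coprod.lift_apply_inl, MonoidHom.id_apply]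
    exact Hat.map_hat _ _ _ _ g a
  · rw [MonoidHom.comp_apply, h2, HFP_.ph, Monoid.Coprod.lift_apply_inr, MonoidHom.id_apply]
    exact Hat.map_hat _ _ _ _ g a

end ORG
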