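import Pool.Agent.ORG.Targets1

/-!
# ORG: `T_HMI`

`Hat.map` is injective if `F` is, since it is the restriction of `Monoid.Coprod.map F id`.
-/

set_option autoImplicit false

namespace ORG

theorem p_HMI (h0 : T_CMI) : T_HMI := by
  intro G G' A _ _ _ Ψ Ψ' F h hF x y hxy
  apply Subtype.ext
  have h1 := h0 G A G' A F (MonoidHom.id A) hF Function.injective_id
  apply h1
  rw [← Hat.map_coe Ψ Ψ' F h x, ← Hat.map_coe Ψ Ψ' F h y, hxy]

end ORG
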