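import Pool.Agent.ORG.Targets1

/-!
# ORG: target `T_HND`
-/

set_option autoImplicit false

open Monoid.Coprod

namespace ORG

noncomputable section

theorem p_HND : T_HND := by
  intro B I D _ _ x y F χ
  refine ⟨HN.lift _ _ (Monoid.Coprod.lift (Hat.map (hnc x y (χ.comp F)) χ (F.comp (HN.of x y))
    (fun _ => rfl)) 1) (fun p => hat χ (F (HN.t x y p.1.1)) p.1.2) ?_, ?_⟩
  · intro p
    have hp : χ (F (HN.of x y (y p.1.1))) = 1 := p.2
    have h2 : hat χ (F (HN.of x y (y p.1.1))) p.1.2 * hat χ (F (HN.t x y p.1.1)) p.1.2 =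
        hat χ (F (HN.of x y (y p.1.1)) * F (HN.t x y p.1.1)) p.1.2 := by
      rw [hat_mul, hp, mul_one]
    rw [hnx, hny, Monoid.Coprod.lift_apply_inl, Monoid.Coprod.lift_apply_inl, Hat.map_hat,
      Hat.map_hat, MonoidHom.comp_apply, MonoidHom.comp_apply, MonoidHom.comp_apply,
      ← hat_mul, h2, ← map_mul, ← map_mul, HN.rel]
  · intro b h
    rw [HN.lift_of, Monoid.Coprod.lift_apply_inl, Hat.map_hat, MonoidHom.comp_apply]

end

end ORG
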