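import Pool.Agent.ORG.Targets1

/-!
# ORG: `Hat` of an HNN family embeds in an HNN family (G4)
-/

set_option autoImplicit false

open Monoid.Coprod

namespace ORG

noncomputable section

namespace HNH_

variable {B I : Type} [Group B] (x y : I → B) (χ : HN x y →* Zm)

lemma chi_xy (i : I) : χ (HN.of x y (x i)) = χ (HN.of x y (y i)) := by
  have h := congrArg χ (HN.rel x y i)
  rw [map_mul, map_mul, mul_comm] at h
  exact mul_right_cancel h

/-- the remainder -/
def rr (a h : Zm) : Zm := Multiplicative.ofAdd (Multiplicative.toAdd h % Multiplicative.toAdd a)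

/-- the quotient -/
def jj (a h : Zm) : ℤ := Multiplicative.toAdd h / Multiplicative.toAdd a

lemma rr_mul (a h : Zm) : rr a h * a ^ jj a h = h := by
  apply Multiplicative.toAdd.injective
  rw [toAdd_mul, toAdd_zpow, rr, jj, toAdd_ofAdd, smul_eq_mul, mul_comm]
  exact Int.emod_add_mul_ediv _ _

lemma rr_step (a h : Zm) : rr a (h * a) = rr a h := by
  rw [rr, rr, toAdd_mul, Int.add_emod_right]

lemma jj_step (a h : Zm) (ha : a ≠ 1) : jj a (h * a) = jj a h + 1 := by
  have : Multiplicative.toAdd a ≠ 0 := fun h0 => ha (by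
    apply Multiplicative.toAdd.injective
    rw [h0, toAdd_one])
  rw [jj, jj, toAdd_mul, Int.add_ediv_of_dvd_right (dvd_refl _), Int.ediv_self this]

/-- the image of the stable letter in the seen case -/
def sv (i : I) (h : Zm) : HNB x y χ :=
  (inl (hat (hnc x y χ) (y i ^ jj (χ (HN.of x y (y i))) h) (rr (χ (HN.of x y (y i))) h)))⁻¹ *
    inr (FreeGroup.of (i, rr (χ (HN.of x y (y i))) h)) *
    inl (hat (hnc x y χ) (x i ^ jj (χ (HN.of x y (y i))) h)
      (rr (χ (HN.of x y (y i))) h * χ (HN.t x y i)))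

open Classical in
/-- the image of the stable letter -/
def st (i : I) (h : Zm) : HN (hnx x y χ) (hny x y χ) :=
  if hi : χ (HN.of x y (y i)) = 1 then HN.t (hnx x y χ) (hny x y χ) ⟨(i, h), hi⟩
  else HN.of (hnx x y χ) (hny x y χ) (sv x y χ i h)

/-- the homomorphism on the base group -/
def tb : B →* Wr (HN (hnx x y χ) (hny x y χ)) Zm :=
  Wr.mk' (hnc x y χ) (fun b h => HN.of (hnx x y χ) (hny x y χ) (inl (hat (hnc x y χ) b h)))
    fun g h a => by rw [hat_mul, map_mul, map_mul]

lemma st_rel (i : I) (h : Zm) :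
    st x y χ i h * HN.of (hnx x y χ) (hny x y χ)
        (inl (hat (hnc x y χ) (x i) (h * χ (HN.t x y i)))) =
      HN.of (hnx x y χ) (hny x y χ) (inl (hat (hnc x y χ) (y i) h)) *
        st x y χ i (h * χ (HN.of x y (y i))) := by
  by_cases hi : χ (HN.of x y (y i)) = 1
  · rw [st, st, dif_pos hi, dif_pos hi]
    have h1 := HN.rel (hnx x y χ) (hny x y χ) ⟨(i, h), hi⟩
    have h2 : (⟨(i, h * χ (HN.of x y (y i))), hi⟩ : HNI x y χ) = ⟨(i, h), hi⟩ := by
      apply Subtype.ext
      simp only [hi, mul_one]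
    rw [h2]
    exact h1
  · rw [st, st, dif_neg hi, dif_neg hi, ← map_mul, ← map_mul]
    congr 1
    rw [sv, sv, rr_step, jj_step _ _ hi]
    set a := χ (HN.of x y (y i)) with ha
    set r := rr a h with hr
    set j := jj a h with hj
    have hrj : r * a ^ j = h := rr_mul a h
    have e1 : hat (hnc x y χ) (x i ^ (j + 1)) (r * χ (HN.t x y i)) =
        hat (hnc x y χ) (x i ^ j) (r * χ (HN.t x y i)) *
          hat (hnc x y χ) (x i) (h * χ (HN.t x y i)) := by
      rw [zpow_add_one, hat_mul]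
      congr 2
      rw [map_zpow]
      change _ * (χ (HN.of x y (x i))) ^ j = _
      rw [chi_xy, ← ha, mul_right_comm, hrj]
    have e2 : hat (hnc x y χ) (y i ^ (j + 1)) r =
        hat (hnc x y χ) (y i ^ j) r * hat (hnc x y χ) (y i) h := by
      rw [zpow_add_one, hat_mul]
      congr 2
      rw [map_zpow]
      exact hrj
    rw [e1, e2, map_mul, map_mul]
    group

/-- the homomorphism to the wreath type group -/
def th : HN x y →* Wr (HN (hnx x y χ) (hny x y χ)) Zm :=
  HN.lift x y (tb x y χ) (fun i => ⟨st x y χ i, χ (HN.t x y i)⟩) fun i => by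
    ext h
    · exact st_rel x y χ i h
    · change χ (HN.t x y i) * χ (HN.of x y (x i)) = χ (HN.of x y (y i)) * χ (HN.t x y i)
      rw [chi_xy, mul_comm]

lemma th_a (g : HN x y) : (th x y χ g).a = χ g := by
  have : (Wr.pr.comp (th x y χ)) = χ := by
    apply HN.hom_ext
    · intro b
      rw [MonoidHom.comp_apply, th, HN.lift_of]
      rfl
    · intro i
      rw [MonoidHom.comp_apply, th, HN.lift_t]
      rfl
  exact DFunLike.congr_fun this g

/-- the embedding -/
def The : Hat χ →* HN (hnx x y χ) (hny x y χ) := Hat.lift χ (th x y χ) (th_a x y χ)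

lemma The_of (b : B) (h : Zm) : The x y χ (hat χ (HN.of x y b) h) =
    HN.of (hnx x y χ) (hny x y χ) (inl (hat (hnc x y χ) b h)) := by
  rw [The, Hat.lift_hat, th, HN.lift_of]
  rfl

lemma The_t (i : I) (h : Zm) : The x y χ (hat χ (HN.t x y i) h) = st x y χ i h := by
  rw [The, Hat.lift_hat, th, HN.lift_t]

/-- the left inverse on the base group -/
def lb : HNB x y χ →* Hat χ :=
  Monoid.Coprod.lift (Hat.map (hnc x y χ) χ (HN.of x y) fun _ => rfl)
    (FreeGroup.lift fun p : I × Zm => hat χ (HN.t x y p.1) p.2)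

lemma lb_inl (b : B) (h : Zm) : lb x y χ (inl (hat (hnc x y χ) b h)) = hat χ (HN.of x y b) h := by
  rw [lb, Monoid.Coprod.lift_apply_inl, Hat.map_hat]

lemma lb_inr (i : I) (h : Zm) : lb x y χ (inr (FreeGroup.of (i, h))) = hat χ (HN.t x y i) h := by
  rw [lb, Monoid.Coprod.lift_apply_inr, FreeGroup.lift_apply_of]

/-- the left inverse -/
def La : HN (hnx x y χ) (hny x y χ) →* Hat χ :=
  HN.lift (hnx x y χ) (hny x y χ) (lb x y χ) (fun p => hat χ (HN.t x y p.1.1) p.1.2) fun p => by
    rw [hnx, hny, lb_inl, lb_inl, ← hat_mul, HN.rel, hat_mul, p.2, mul_one]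

lemma La_st (i : I) (h : Zm) : La x y χ (st x y χ i h) = hat χ (HN.t x y i) h := by
  by_cases hi : χ (HN.of x y (y i)) = 1
  · rw [st, dif_pos hi]
    exact HN.lift_t _ _ _ _ _ _
  · rw [st, dif_neg hi, La, HN.lift_of, sv, map_mul, map_mul, map_inv, lb_inl, lb_inr, lb_inl]
    set a := χ (HN.of x y (y i)) with ha
    set r := rr a h with hr
    set j := jj a h with hj
    have hrj : r * a ^ j = h := rr_mul a h
    have key : HN.t x y i * HN.of x y (x i ^ j) = HN.of x y (y i ^ j) * HN.t x y i := by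
      have h1 : SemiconjBy (HN.t x y i) (HN.of x y (x i)) (HN.of x y (y i)) := HN.rel x y i
      have h2 := h1.zpow_right j
      rw [← map_zpow, ← map_zpow] at h2
      exact h2
    rw [mul_assoc, ← hat_mul, key, hat_mul, ← mul_assoc, inv_mul_cancel, one_mul, map_zpow,
      map_zpow, ← ha, hrj]

lemma La_The (z : Hat χ) : La x y χ (The x y χ z) = z := by
  have : (La x y χ).comp (The x y χ) = MonoidHom.id _ := by
    apply Hat.hom_ext_of _ (HN.closure x y)
    rintro _ (⟨b, rfl⟩ | ⟨i, rfl⟩) a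
    · rw [MonoidHom.comp_apply, The_of, La, HN.lift_of, lb_inl, MonoidHom.id_apply]
    · rw [MonoidHom.comp_apply, The_t, La_st, MonoidHom.id_apply]
  exact DFunLike.congr_fun this z

end HNH_

/-- `Hat` of an HNN family embeds in an HNN family over `Hat * F` -/
theorem p_HNH : T_HNH := fun _ _ _ x y χ =>
  ⟨HNH_.The x y χ, Function.LeftInverse.injective (HNH_.La_The x y χ), HNH_.The_of x y χ⟩

end

end ORG

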