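import Pool.Agent.ORG.Targets1

/-!
# ORG: HNI, the base of an HNN family embeds
-/

set_option autoImplicit false

namespace ORG

namespace HNI_

variable {B : Type} [Group B]

/-- the set of right cosets of `⟨x⟩`, times `ℕ` -/
abbrev Q (x : B) : Type := Quotient (QuotientGroup.rightRel (Subgroup.zpowers x)) × ℕ

/-- the parametrisation of `B × ℕ` -/
noncomputable def mp (x : B) (p : ℤ × Q x) : B × ℕ := (x ^ p.1 * p.2.1.out, p.2.2)

theorem mp_inj {x : B} (hx : IOrd x) : Function.Injective (mp x) := by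
  rintro ⟨k, q, n⟩ ⟨l, q', n'⟩ h
  have h1 : x ^ k * q.out = x ^ l * q'.out := congrArg Prod.fst h
  have h2 : n = n' := congrArg Prod.snd h
  have h3 : q'.out = x ^ (k - l) * q.out := by
    have h4 : x ^ (-l) * (x ^ k * q.out) = q'.out := by
      rw [h1, ← mul_assoc, ← zpow_add]
      simp
    rw [← h4, ← mul_assoc, ← zpow_add]
    congr 2
    ring
  have h5 : q = q' := by
    rw [← Quotient.out_eq q, ← Quotient.out_eq q']
    apply Quotient.sound
    change (QuotientGroup.rightRel (Subgroup.zpowers x)) q.out q'.out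
    rw [QuotientGroup.rightRel_apply, h3, mul_inv_cancel_right]
    exact ⟨k - l, rfl⟩
  subst h5
  subst h2
  have h6 : x ^ (k - l) = 1 := by
    have h7 := h3
    nth_rewrite 1 [← one_mul q.out] at h7
    exact (mul_right_cancel h7).symm
  have h8 := hx _ h6
  have h9 : k = l := by omega
  rw [h9]

theorem mp_surj (x : B) : Function.Surjective (mp x) := by
  rintro ⟨b, n⟩
  have h1 : (QuotientGroup.rightRel (Subgroup.zpowers x))
      (Quotient.mk (QuotientGroup.rightRel (Subgroup.zpowers x)) b).out b :=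
    Quotient.mk_out b
  rw [QuotientGroup.rightRel_apply] at h1
  obtain ⟨k, hk⟩ := h1
  refine ⟨(k, Quotient.mk _ b, n), ?_⟩
  have hk' : x ^ k = b * (Quotient.mk (QuotientGroup.rightRel (Subgroup.zpowers x)) b).out⁻¹ := hk
  unfold mp
  change (x ^ k * (Quotient.mk (QuotientGroup.rightRel (Subgroup.zpowers x)) b).out, n) = (b, n)
  rw [hk', inv_mul_cancel_right]

/-- the equivalence -/
noncomputable def eq (x : B) (hx : IOrd x) : ℤ × Q x ≃ B × ℕ :=
  Equiv.ofBijective (mp x) ⟨mp_inj hx, mp_surj x⟩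

theorem card_Q (x : B) (hx : IOrd x) : Cardinal.mk (Q x) = Cardinal.mk (B × ℕ) := by
  have h1 : Cardinal.mk (ℤ × Q x) = Cardinal.mk (B × ℕ) := Cardinal.mk_congr (eq x hx)
  have h2 : Cardinal.aleph0 ≤ Cardinal.mk (Q x) := by
    have h3 : Nonempty (Quotient (QuotientGroup.rightRel (Subgroup.zpowers x))) :=
      ⟨Quotient.mk _ 1⟩
    have : Infinite (Q x) := inferInstance
    exact Cardinal.aleph0_le_mk _
  rw [← h1]
  have h4 : Cardinal.mk (ℤ × Q x) = Cardinal.aleph0 * Cardinal.mk (Q x) := by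
    rw [Cardinal.mk_prod, Cardinal.lift_id, Cardinal.lift_id, Cardinal.mk_int]
  rw [h4, Cardinal.aleph0_mul_eq h2]

theorem exists_perm (x y : B) (hx : IOrd x) (hy : IOrd y) :
    ∃ f : Equiv.Perm (B × ℕ), ∀ p : B × ℕ, f (x * p.1, p.2) = (y * (f p).1, (f p).2) := by
  have h1 : Nonempty (Q x ≃ Q y) := by
    rw [← Cardinal.eq, card_Q x hx, card_Q y hy]
  obtain ⟨σ⟩ := h1
  let f : Equiv.Perm (B × ℕ) :=
    (eq x hx).symm.trans (((Equiv.refl ℤ).prodCongr σ).trans (eq y hy))
  refine ⟨f, ?_⟩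
  intro p
  obtain ⟨⟨k, q⟩, rfl⟩ := (eq x hx).surjective p
  have e1 : (x * ((eq x hx) (k, q)).1, ((eq x hx) (k, q)).2) = (eq x hx) (k + 1, q) := by
    change (x * (x ^ k * q.1.out), q.2) = (x ^ (k + 1) * q.1.out, q.2)
    rw [← mul_assoc, ← zpow_one_add, add_comm]
  have e2 : ∀ j : ℤ, f ((eq x hx) (j, q)) = (eq y hy) (j, σ q) := by
    intro j
    simp [f]
  rw [e1, e2, e2]
  change (y ^ (k + 1) * (σ q).1.out, (σ q).2) = (y * (y ^ k * (σ q).1.out), (σ q).2)
  rw [← mul_assoc, ← zpow_one_add, add_comm]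

/-- left multiplication on the first coordinate -/
def act : B →* Equiv.Perm (B × ℕ) where
  toFun b := (Equiv.mulLeft b).prodCongr (Equiv.refl ℕ)
  map_one' := by
    ext p <;> simp
  map_mul' a b := by
    ext p <;> simp [mul_assoc]

theorem act_apply (b : B) (p : B × ℕ) : act b p = (b * p.1, p.2) := rfl

theorem act_inj : Function.Injective (act : B →* Equiv.Perm (B × ℕ)) := by
  intro a b h
  have h1 : act a (1, 0) = act b (1, 0) := by rw [h]
  rw [act_apply, act_apply] at h1
  simpa using congrArg Prod.fst h1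

end HNI_

open HNI_ in
theorem p_HNI : T_HNI := by
  intro B I _ x y h
  choose f hf using fun i => exists_perm (x i) (y i) (h i).1 (h i).2
  have hrel : ∀ i, f i * act (x i) = act (y i) * f i := by
    intro i
    apply Equiv.ext
    intro p
    rw [Equiv.Perm.mul_apply, Equiv.Perm.mul_apply, act_apply, act_apply]
    exact hf i p
  intro a b hab
  apply act_inj
  rw [← HN.lift_of x y act f hrel a, ← HN.lift_of x y act f hrel b, hab]

end ORG
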