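import Pool.Agent.ORG.Targets1

/-!
# ORG: finitely generated subgroups of HNN families
-/

set_option autoImplicit false

namespace ORG

namespace HNL_

/-- every element is a word in finitely many letters and elements of the base group -/
private lemma fin_supp {B I : Type} [Group B] (x y : I → B) (w : HN x y) :
    ∃ (A : Set B) (K : Set I), A.Finite ∧ K.Finite ∧
      w ∈ Subgroup.closure (HN.of x y '' A ∪ HN.t x y '' K) := by
  have hw : w ∈ Subgroup.closure (Set.range (HN.of x y) ∪ Set.range (HN.t x y)) := by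
    rw [HN.closure]
    trivial
  induction hw using Subgroup.closure_induction with
  | mem z hz =>
    rcases hz with ⟨b, rfl⟩ | ⟨i, rfl⟩
    · exact ⟨{b}, ∅, Set.finite_singleton b, Set.finite_empty,
        Subgroup.subset_closure (Or.inl ⟨b, rfl, rfl⟩)⟩
    · exact ⟨∅, {i}, Set.finite_empty, Set.finite_singleton i,
        Subgroup.subset_closure (Or.inr ⟨i, rfl, rfl⟩)⟩
  | one => exact ⟨∅, ∅, Set.finite_empty, Set.finite_empty, Subgroup.one_mem _⟩
  | mul u v _ _ hu hv =>
    obtain ⟨A, K, hA, hK, h1⟩ := hu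
    obtain ⟨A', K', hA', hK', h2⟩ := hv
    refine ⟨A ∪ A', K ∪ K', hA.union hA', hK.union hK', Subgroup.mul_mem _ ?_ ?_⟩
    · refine Subgroup.closure_mono ?_ h1
      exact Set.union_subset_union (Set.image_mono Set.subset_union_left)
        (Set.image_mono Set.subset_union_left)
    · refine Subgroup.closure_mono ?_ h2
      exact Set.union_subset_union (Set.image_mono Set.subset_union_right)
        (Set.image_mono Set.subset_union_right)
  | inv u _ hu =>
    obtain ⟨A, K, hA, hK, h1⟩ := hu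
    exact ⟨A, K, hA, hK, Subgroup.inv_mem _ h1⟩

/-- the same for a finitely generated subgroup -/
private lemma fin_supp_fg {B I : Type} [Group B] (x y : I → B) (P : Subgroup (HN x y))
    (hP : P.FG) : ∃ (A : Set B) (K : Set I), A.Finite ∧ K.Finite ∧
      P ≤ Subgroup.closure (HN.of x y '' A ∪ HN.t x y '' K) := by
  obtain ⟨S, hS⟩ := hP
  choose A K hA hK h using fin_supp x y
  refine ⟨⋃ s ∈ S, A s, ⋃ s ∈ S, K s, ?_, ?_, ?_⟩
  · exact S.finite_toSet.biUnion fun s _ => hA s
  · exact S.finite_toSet.biUnion fun s _ => hK s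
  · rw [← hS, Subgroup.closure_le]
    intro s hs
    refine Subgroup.closure_mono ?_ (h s)
    refine Set.union_subset_union (Set.image_mono ?_) (Set.image_mono ?_)
    · exact Set.subset_biUnion_of_mem (u := fun s => A s) hs
    · exact Set.subset_biUnion_of_mem (u := fun s => K s) hs

end HNL_

theorem p_HNL (hS : T_HNS) : T_HNL := by
  intro B I _ x y hord P hP F J hF hJ
  obtain ⟨A, K, hA, hK, hPle⟩ := HNL_.fin_supp_fg x y P hP
  set I₀ : Set I := K ∪ J with hI₀
  have hI₀f : I₀.Finite := hK.union hJ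
  set T : Set B := A ∪ F ∪ (x '' I₀ ∪ y '' I₀) with hT
  have hTf : T.Finite := (hA.union hF).union ((hI₀f.image x).union (hI₀f.image y))
  have hx : ∀ i ∈ I₀, x i ∈ Subgroup.closure T := fun i hi =>
    Subgroup.subset_closure (Or.inr (Or.inl ⟨i, hi, rfl⟩))
  have hy : ∀ i ∈ I₀, y i ∈ Subgroup.closure T := fun i hi =>
    Subgroup.subset_closure (Or.inr (Or.inr ⟨i, hi, rfl⟩))
  have hinj : Function.Injective (HN.map (rs x (Subgroup.closure T) I₀ hx)
      (rs y (Subgroup.closure T) I₀ hy) x y (Subgroup.closure T).subtype Subtype.val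
      (fun _ => rfl) (fun _ => rfl)) :=
    hS _ _ _ _ _ _ _ _ _ _ _ _ (Subgroup.subtype_injective _) Subtype.val_injective hord
  refine ⟨Subgroup.closure T, I₀, hx, hy, ?_, ?_, Set.subset_union_right, hI₀f, hinj, ?_⟩
  · exact ⟨hTf.toFinset, by rw [Set.Finite.coe_toFinset]⟩
  · exact fun f hf => Subgroup.subset_closure (Or.inl (Or.inr hf))
  · refine exists_hom_of_le_range _ hinj P (hPle.trans ?_)
    rw [Subgroup.closure_le]
    rintro _ (⟨b, hb, rfl⟩ | ⟨i, hi, rfl⟩)
    · exact ⟨HN.of _ _ ⟨b, Subgroup.subset_closure (Or.inl (Or.inl hb))⟩, HN.map_of _ _ _ _ _ _ _ _ _⟩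
    · exact ⟨HN.t _ _ ⟨i, Or.inl hi⟩, HN.map_t _ _ _ _ _ _ _ _ _⟩

end ORG
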