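import Pool.Agent.ORG.Targets1

/-!
# ORG-HNS: `HN.map` is injective
-/

set_option autoImplicit false

open Monoid.Coprod

namespace ORG

noncomputable section

/-- the relation in the pushed out quotient -/
lemma HNS_rel {B B' I : Type} [Group B] [Group B'] (x y : I → B) (φ : B →* B') (i : I) :
    Quo.mk (Monoid.Coprod.map φ (MonoidHom.id (FreeGroup I)) '' HNrel x y)
        (inr (FreeGroup.of i)) *
      Quo.mk (Monoid.Coprod.map φ (MonoidHom.id (FreeGroup I)) '' HNrel x y) (inl (φ (x i))) =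
    Quo.mk (Monoid.Coprod.map φ (MonoidHom.id (FreeGroup I)) '' HNrel x y) (inl (φ (y i))) *
      Quo.mk (Monoid.Coprod.map φ (MonoidHom.id (FreeGroup I)) '' HNrel x y)
        (inr (FreeGroup.of i)) := by
  have h : Quo.mk (Monoid.Coprod.map φ (MonoidHom.id (FreeGroup I)) '' HNrel x y)
      (Monoid.Coprod.map φ (MonoidHom.id (FreeGroup I))
        (inr (FreeGroup.of i) * inl (x i) * (inr (FreeGroup.of i))⁻¹ * (inl (y i))⁻¹)) = 1 :=
    Quo.mk_rel ⟨_, ⟨i, rfl⟩, rfl⟩
  simp only [map_mul, map_inv, map_apply_inr, map_apply_inl, MonoidHom.id_apply] at h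
  rw [mul_inv_eq_one, mul_inv_eq_iff_eq_mul] at h
  exact h

open Classical in
/-- (G2) `HN.map` is injective. -/
theorem p_HNS (hHNI : T_HNI) (hPUSH : T_PUSH) : T_HNS := by
  intro B B' I I' _ _ x y x' y' φ j hx hy hφ hj hord
  have hord0 : ∀ i, IOrd (x i) ∧ IOrd (y i) := by
    intro i
    refine ⟨fun n hn => (hord (j i)).1 n ?_, fun n hn => (hord (j i)).2 n ?_⟩
    · rw [← hx, ← map_zpow, hn, map_one]
    · rw [← hy, ← map_zpow, hn, map_one]
  have h0 : Function.Injective (HN.of x y) := hHNI B I x y hord0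
  obtain ⟨ha, hb⟩ := hPUSH B B' I φ (HNrel x y) hφ h0
  set R' : Set (Cop B' (FreeGroup I)) :=
    Monoid.Coprod.map φ (MonoidHom.id (FreeGroup I)) '' HNrel x y with hR'
  let ε : B' →* Quo R' := (Quo.mk R').comp inl
  let X : I' → Quo R' := fun i' => ε (x' i')
  let Y : I' → Quo R' := fun i' => ε (y' i')
  have hordQ : ∀ i', IOrd (X i') ∧ IOrd (Y i') := by
    intro i'
    refine ⟨fun n hn => (hord i').1 n ?_, fun n hn => (hord i').2 n ?_⟩
    · apply ha
      change ε _ = ε 1
      rw [map_zpow, map_one]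
      exact hn
    · apply ha
      change ε _ = ε 1
      rw [map_zpow, map_one]
      exact hn
  have h1 : Function.Injective (HN.of X Y) := hHNI (Quo R') I' X Y hordQ
  let s : I' → HN X Y := fun i' =>
    if h : ∃ i, j i = i' then HN.of X Y (Quo.mk R' (inr (FreeGroup.of h.choose)))
    else HN.t X Y i'
  have hs : ∀ i, s (j i) = HN.of X Y (Quo.mk R' (inr (FreeGroup.of i))) := by
    intro i
    have hex : ∃ i₀, j i₀ = j i := ⟨i, rfl⟩
    have hch : hex.choose = i := hj hex.choose_spec
    change (if h : ∃ i₀, j i₀ = j i then HN.of X Y (Quo.mk R' (inr (FreeGroup.of h.choose)))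
      else HN.t X Y (j i)) = _
    rw [dif_pos hex, hch]
  have hrel : ∀ i', s i' * ((HN.of X Y).comp ε) (x' i') =
      ((HN.of X Y).comp ε) (y' i') * s i' := by
    intro i'
    by_cases h : ∃ i, j i = i'
    · obtain ⟨i, rfl⟩ := h
      rw [hs i, ← hx i, ← hy i]
      have h2 := congrArg (HN.of X Y) (HNS_rel x y φ i)
      rw [map_mul (HN.of X Y), map_mul (HN.of X Y)] at h2
      exact h2
    · have : s i' = HN.t X Y i' := dif_neg h
      rw [this]
      exact HN.rel X Y i'
  let Ψ : HN x' y' →* HN X Y := HN.lift x' y' ((HN.of X Y).comp ε) s hrel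
  have hcomp : Ψ.comp (HN.map x y x' y' φ j hx hy) = (HN.of X Y).comp (Quo.lift (HNrel x y)
      ((Quo.mk R').comp (Monoid.Coprod.map φ (MonoidHom.id (FreeGroup I))))
      (fun r hr => Quo.mk_rel ⟨r, hr, rfl⟩)) := by
    apply HN.hom_ext
    · intro b
      change HN.lift x' y' ((HN.of X Y).comp ε) s hrel
        (HN.map x y x' y' φ j hx hy (HN.of x y b)) = HN.of X Y
        (Quo.mk R' (Monoid.Coprod.map φ (MonoidHom.id (FreeGroup I)) (inl b)))
      rw [HN.map_of, HN.lift_of, map_apply_inl]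
      rfl
    · intro i
      change HN.lift x' y' ((HN.of X Y).comp ε) s hrel
        (HN.map x y x' y' φ j hx hy (HN.t x y i)) = HN.of X Y
        (Quo.mk R' (Monoid.Coprod.map φ (MonoidHom.id (FreeGroup I)) (inr (FreeGroup.of i))))
      rw [HN.map_t, HN.lift_t, map_apply_inr, hs i]
      rfl
  have hinj : Function.Injective (Ψ.comp (HN.map x y x' y' φ j hx hy)) := by
    rw [hcomp]
    exact h1.comp hb
  exact Function.Injective.of_comp (f := Ψ) hinj

end

end ORG
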