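import Pool.Agent.ORG.Targets1

/-!
# ORG: the `Hat` of the trivial homomorphism embeds in the free product of copies
-/

set_option autoImplicit false

open Monoid.Coprod

namespace ORG

noncomputable section

namespace HTR_

variable {G A : Type} [Group G] [Group A]

/-- the homomorphism `g ↦ hat g a` -/
private def hh (a : A) : G →* Hat (1 : G →* A) :=
  MonoidHom.mk' (fun g => hat (1 : G →* A) g a) (by
    intro g h
    rw [hat_mul, MonoidHom.one_apply, mul_one])

private lemma hh_apply (a : A) (g : G) : hh a g = hat (1 : G →* A) g a := rfl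

end HTR_

open HTR_ in
theorem p_HTR : T_HTR := by
  intro G A _ _
  let Θ : Hat (1 : G →* A) →* CopI A G :=
    Hat.coc (1 : G →* A) (fun g a => Monoid.CoprodI.of (M := fun _ : A => G) (i := a) g) (by
      intro g h a
      rw [MonoidHom.one_apply, mul_one, map_mul])
  have hΘ : ∀ g a, Θ (hat _ g a) = Monoid.CoprodI.of (M := fun _ : A => G) (i := a) g :=
    fun g a => Hat.coc_hat _ _ _ _ _
  refine ⟨Θ, ?_, hΘ⟩
  refine inj_of_left Θ (Monoid.CoprodI.lift fun a => hh a) ?_
  apply Hat.hom_ext
  intro g a
  rw [MonoidHom.comp_apply, hΘ, Monoid.CoprodI.lift_of, MonoidHom.id_apply, hh_apply]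

end

end ORG
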