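import Pool.Agent.ORG.Targets2

/-!
# ORG: active lists have two levels
-/

set_option autoImplicit false

open Monoid.Coprod

namespace ORG

namespace LA_

variable {B D : Type} [Group B] [Group D] (χ : B →* Zm) (ι : Hat χ →* D)

theorem aux : ∀ (r : List (Bool × B)) (y : ℤ), (∀ p ∈ lml χ ι 0 y r, p.1 = y) →
    (r.map fun p => Multiplicative.toAdd (χ p.2)).sum = 0 →
    ∀ p ∈ r, Multiplicative.toAdd (χ p.2) = 0 := by
  intro r
  induction r with
  | nil => intro y _ _ p hp; cases hp
  | cons p r ih =>
    intro y h1 h2
    have hs : Multiplicative.toAdd (χ p.2) +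
        (r.map fun p => Multiplicative.toAdd (χ p.2)).sum = 0 := by
      simpa using h2
    have h3 : ∀ q ∈ lml χ ι 0 (y + Multiplicative.toAdd (χ p.2)) r, q.1 = y := by
      intro q hq
      apply h1 q
      obtain ⟨b, g⟩ := p
      cases b
      · simp only [lml, sub_zero, List.mem_cons]
        exact Or.inr hq
      · simp only [lml, add_zero, List.mem_cons]
        exact Or.inr hq
    have h4 : Multiplicative.toAdd (χ p.2) = 0 := by
      cases r with
      | nil => simpa using hs
      | cons p' r' =>
        obtain ⟨b', g'⟩ := p'
        cases b'
        · have := h3 _ (by simp only [lml]; exact List.mem_cons_self)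
          simp only [sub_zero] at this
          omega
        · have := h3 _ (by simp only [lml]; exact List.mem_cons_self)
          simp only [add_zero] at this
          omega
    rw [h4, add_zero] at h3
    rw [h4, zero_add] at hs
    intro q hq
    rcases List.mem_cons.mp hq with rfl | hq
    · exact h4
    · exact ih y h3 hs q hq

end LA_

open LA_ in
theorem p_LA : T_LA := by
  intro B D _ _ χ ι t r hsum hact htwo y
  by_contra hc
  push Not at hc
  have key : ∀ p ∈ lml χ ι t y r, ∀ q ∈ lml χ ι t y r, p.1 = q.1 := hc
  have ht : t = 0 := by
    by_contra ht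
    obtain ⟨b, g, g', r', rfl, hg⟩ := htwo ht
    cases b
    · have h := key _ (by simp only [lml]; exact List.mem_cons_self) _
        (by simp only [lml]; exact List.mem_cons_of_mem _ List.mem_cons_self)
      simp only [hg, toAdd_one] at h
      omega
    · have h := key _ (by simp only [lml]; exact List.mem_cons_self) _
        (by simp only [lml]; exact List.mem_cons_of_mem _ List.mem_cons_self)
      simp only [hg, toAdd_one] at h
      omega
  subst ht
  rw [zero_mul, zero_add] at hsum
  obtain ⟨p, hp, hpχ⟩ := hact
  cases r with
  | nil => cases hp
  | cons p0 r0 =>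
    have hall : ∀ q ∈ lml χ ι 0 y (p0 :: r0), q.1 = y := by
      intro q hq
      obtain ⟨b, g⟩ := p0
      cases b
      · have h := key q hq _ (by simp only [lml]; exact List.mem_cons_self)
        simpa using h
      · have h := key q hq _ (by simp only [lml]; exact List.mem_cons_self)
        simpa using h
    have h0 := aux χ ι (p0 :: r0) y hall hsum p hp
    exact hpχ (Multiplicative.toAdd.injective (by simpa using h0))

end ORG
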