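import Pool.Agent.ORG.Targets2

/-!
# ORG: properties of leveled lists
-/

set_option autoImplicit false

open Monoid.Coprod

namespace ORG

noncomputable section

namespace LM_

variable {B D : Type} [Group B] [Group D] (χ : B →* Zm) (ι : Hat χ →* D) (t : ℤ)

/-- the change of the height by the letter -/
def st (t : ℤ) (b : Bool) : ℤ := if b then t else -t

/-- the level of a letter -/
def lv (t y : ℤ) (b : Bool) : ℤ := if b then y else y - t

theorem lml_cons (y : ℤ) (b : Bool) (g : B) (r : List (Bool × B)) :
    lml χ ι t y ((b, g) :: r) =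
      (lv t y b, b, ι (hat χ g (Multiplicative.ofAdd (y + st t b)))) ::
        lml χ ι t (y + st t b + Multiplicative.toAdd (χ g)) r := by
  cases b with
  | true => simp [lml, lv, st]
  | false => simp [lml, lv, st, sub_eq_add_neg]

/-- the total -/
def tot (r : List (Bool × B)) : ℤ :=
  t * sg r + (r.map fun p => Multiplicative.toAdd (χ p.2)).sum

theorem tot_nil : tot χ t [] = 0 := by simp [tot, sg]

theorem tot_cons (b : Bool) (g : B) (r : List (Bool × B)) :
    tot χ t ((b, g) :: r) = st t b + Multiplicative.toAdd (χ g) + tot χ t r := by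
  unfold tot sg st
  rw [List.map_cons, List.sum_cons, List.map_cons, List.sum_cons]
  cases b with
  | true => simp only [if_true]; ring
  | false => simp only [Bool.false_eq_true, if_false]; ring

theorem lml_append (r' : List (Bool × B)) (r : List (Bool × B)) : ∀ y : ℤ,
    lml χ ι t y (r ++ r') = lml χ ι t y r ++ lml χ ι t (y + tot χ t r) r' := by
  induction r with
  | nil => intro y; rw [tot_nil, add_zero]; simp [lml]
  | cons p r ih =>
    obtain ⟨b, g⟩ := p
    intro y
    rw [List.cons_append, lml_cons, lml_cons, ih, tot_cons, List.cons_append]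
    have e : y + st t b + Multiplicative.toAdd (χ g) + tot χ t r =
        y + (st t b + Multiplicative.toAdd (χ g) + tot χ t r) := by ring
    rw [e]

theorem lml_shift (r : List (Bool × B)) : ∀ y z : ℤ,
    (lml χ ι t (y + z) r).map Prod.fst = (lml χ ι t y r).map fun p => p.1 + z := by
  induction r with
  | nil => intro y z; simp [lml]
  | cons p r ih =>
    obtain ⟨b, g⟩ := p
    intro y z
    rw [lml_cons, lml_cons, List.map_cons, List.map_cons]
    have e : y + z + st t b + Multiplicative.toAdd (χ g) =
        y + st t b + Multiplicative.toAdd (χ g) + z := by ring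
    rw [e, ih]
    congr 1
    unfold lv
    cases b with
    | true => simp
    | false => simp only [Bool.false_eq_true, if_false]; ring

theorem lml_length (r : List (Bool × B)) : ∀ y : ℤ, (lml χ ι t y r).length = r.length := by
  induction r with
  | nil => intro y; simp [lml]
  | cons p r ih =>
    obtain ⟨b, g⟩ := p
    intro y
    rw [lml_cons, List.length_cons, List.length_cons, ih]

theorem lml_chain (hι : Function.Injective ι) (r : List (Bool × B)) : ∀ y : ℤ,
    (r.IsChain fun p q => p.1 ≠ q.1 → p.2 ≠ 1) →
    (lml χ ι t y r).IsChain fun p q => p.1 = q.1 → p.2.1 ≠ q.2.1 → p.2.2 ≠ 1 := by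
  induction r with
  | nil => intro y _; rw [lml]; exact List.isChain_nil
  | cons p r ih =>
    obtain ⟨b, g⟩ := p
    intro y h
    cases r with
    | nil => rw [lml_cons, lml]; exact List.isChain_singleton _
    | cons q r =>
      obtain ⟨b', g'⟩ := q
      rw [List.isChain_cons_cons] at h
      rw [lml_cons]
      have h2 := ih (y + st t b + Multiplicative.toAdd (χ g)) h.2
      rw [lml_cons] at h2 ⊢
      rw [List.isChain_cons_cons]
      refine ⟨fun _ hbb hone => ?_, h2⟩
      have h1 : ι (hat χ g (Multiplicative.ofAdd (y + st t b))) = ι 1 := by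
        rw [map_one]; exact hone
      exact h.1 hbb (hat_eq_one.1 (hι h1))

open Classical in
/-- the entry of the list, from the entry of the leveled list -/
def back (p : ℤ × Bool × D) : Bool × B :=
  (p.2.1, if h : ∃ (g : B) (a : Zm), ι (hat χ g a) = p.2.2 then h.choose else 1)

theorem back_eq (hι : Function.Injective ι) (z : ℤ) (b : Bool) (g : B) (a : Zm) :
    back χ ι (z, b, ι (hat χ g a)) = (b, g) := by
  have h : ∃ (g' : B) (a' : Zm), ι (hat χ g' a') = ι (hat χ g a) := ⟨g, a, rfl⟩
  unfold back
  rw [dif_pos h]
  obtain ⟨a', ha'⟩ := h.choose_spec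
  rw [hat_inj (hι ha')]

theorem back_lml (hι : Function.Injective ι) (r : List (Bool × B)) : ∀ y : ℤ,
    (lml χ ι t y r).map (back χ ι) = r := by
  induction r with
  | nil => intro y; simp [lml]
  | cons p r ih =>
    obtain ⟨b, g⟩ := p
    intro y
    rw [lml_cons, List.map_cons, ih, back_eq χ ι hι]

end LM_

open LM_ in
theorem p_LM : T_LM := by
  intro B D _ _ χ ι t
  refine ⟨fun r r' y => lml_append χ ι t r' r y |>.trans ?_, fun r y z => lml_shift χ ι t r y z,
    fun r y => lml_length χ ι t r y, fun hι r y h0 hr => ?_, fun hι r y hr q s' hs => ?_⟩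
  · rw [tot, add_assoc]
  · have e : lml χ ι t y r ++ lml χ ι t y r = lml χ ι t y (r ++ r) := by
      rw [lml_append]
      have h1 : tot χ t r = 0 := h0
      rw [h1, add_zero]
    unfold CRM
    rw [e]
    exact lml_chain χ ι t hι (r ++ r) y hr
  · refine hr q (s'.map (back χ ι)) ?_
    rw [← back_lml χ ι t hι r y, hs, List.map_flatten, List.map_replicate]

end

end ORG
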