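import Pool.Agent.ORG.Targets1

/-!
# ORG-LR: Lemma R
-/

set_option autoImplicit false

open Monoid.Coprod

namespace ORG

noncomputable section

namespace LR_

/-- infinite order passes back along homomorphisms -/
lemma iord_of_map {G H : Type} [Group G] [Group H] (f : G →* H) (g : G) (h : IOrd (f g)) :
    IOrd g := by
  intro n hn
  apply h
  rw [← map_zpow, hn, map_one]

/-- the first elements are conjugate to the second ones -/
lemma conj_rel {B I : Type} [Group B] (x y : I → B) (i : I) :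
    HN.t x y i * HN.of x y (x i) * (HN.t x y i)⁻¹ = HN.of x y (y i) := by
  rw [HN.rel, mul_inv_cancel_right]

lemma iord {D : Type} [Group D] {B I : Type} [Group B] (x y : I → B) (F : HN x y →* D)
    (h : ∀ i, IOrd (F (HN.of x y (y i)))) (i : I) : IOrd (x i) ∧ IOrd (y i) := by
  have hy : IOrd (HN.of x y (y i)) := iord_of_map F _ (h i)
  refine ⟨?_, iord_of_map (HN.of x y) _ hy⟩
  apply iord_of_map (HN.of x y)
  intro n hn
  apply hy
  rw [← conj_rel, conj_zpow, hn]
  group

lemma range_fg {G H : Type} [Group G] [Group H] (f : G →* H) (h : Group.FG G) : f.range.FG :=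
  (Group.fg_iff_subgroup_fg _).1 (Group.fg_range f)

/-- the restriction `HN` is finitely generated -/
lemma hn_fg {B I : Type} [Group B] [Finite I] (x y : I → B) (hB : Group.FG B) :
    Group.FG (HN x y) := by
  rw [Group.fg_def]
  have h1 : (⊤ : Subgroup (HN x y)) =
      (HN.of x y).range ⊔ Subgroup.closure (Set.range (HN.t x y)) := by
    rw [← HN.closure x y, Subgroup.closure_union, ← MonoidHom.coe_range, Subgroup.closure_eq]
  rw [h1]
  apply Subgroup.FG.sup
  · exact range_fg _ hB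
  · exact ⟨(Set.finite_range (HN.t x y)).toFinset, by simp⟩

end LR_

open LR_

theorem p_LR (hVN : T_VN) (hC1 : T_C1) (hC3 : T_C3) (hC4 : T_C4) (hCF : T_CF) (hHNL : T_HNL)
    (hHNH : T_HNH) (hHND : T_HND) : T_LR := by
  intro D _ Y hV
  induction hV with
  | nil K =>
    intro k B I _ _ x y F hB hF
    have hI : IsEmpty I := ⟨fun i => hF i⟩
    let f : HN x y →* B := HN.lift x y (MonoidHom.id B) (fun i => (hI.false i).elim)
      (fun i => (hI.false i).elim)
    refine hC1 k B hB (HN x y) f (inj_of_left f (HN.of x y) ?_)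
    apply HN.hom_ext
    · intro b
      simp [f]
    · intro i
      exact (hI.false i).elim
  | loc K Y hfin h ih =>
    intro k B I _ _ x y F hB hF
    have hV : Vis K Y := Vis.loc K Y hfin h
    have hord : ∀ i, IOrd (x i) ∧ IOrd (y i) :=
      iord x y F fun i => (hVN K Y hV).2 _ (hF i)
    apply InC.loc
    intro P hP
    obtain ⟨B₀, I₀, hx, hy, hB₀, -, -, hI₀, hinj, g, hg, -⟩ :=
      hHNL B I x y hord P hP ∅ ∅ Set.finite_empty Set.finite_empty
    refine hC1 k _ ?_ P g hg
    have : Finite I₀ := hI₀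
    have hBC : InC k B₀ := hC1 k B hB B₀ B₀.subtype B₀.subtype_injective
    let M := HN.map (rs x B₀ I₀ hx) (rs y B₀ I₀ hy) x y B₀.subtype Subtype.val
      (fun _ => rfl) (fun _ => rfl)
    let D₀ : Subgroup K := (F.comp M).range ⊔ Subgroup.closure Y
    have hD₀ : D₀.FG := by
      apply Subgroup.FG.sup
      · exact range_fg _ (hn_fg _ _ ((Group.fg_iff_subgroup_fg B₀).2 hB₀))
      · exact ⟨hfin.toFinset, by simp⟩
    have hYD : Y ⊆ D₀ := fun z hz =>
      (le_sup_right : Subgroup.closure Y ≤ D₀) (Subgroup.subset_closure hz)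
    let F₀ : HN (rs x B₀ I₀ hx) (rs y B₀ I₀ hy) →* D₀ := (F.comp M).codRestrict D₀
      fun z => (le_sup_left : (F.comp M).range ≤ D₀) ⟨z, rfl⟩
    refine ih D₀ hD₀ hYD k B₀ I₀ (rs x B₀ I₀ hx) (rs y B₀ I₀ hy) F₀ hBC ?_
    intro i
    change F (M (HN.of _ _ (rs y B₀ I₀ hy i))) ∈ Y
    rw [show M (HN.of _ _ (rs y B₀ I₀ hy i)) = HN.of x y (y i) from HN.map_of _ _ _ _ _ _ _ _ _]
    exact hF i
  | ext K Y χ hfin h ih =>
    intro k B I _ _ x y F hB hF
    have hV : Vis K Y := Vis.ext K Y χ hfin h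
    have hord : ∀ i, IOrd (x i) ∧ IOrd (y i) :=
      iord x y F fun i => (hVN K Y hV).2 _ (hF i)
    apply InC.ext _ (χ.comp F)
    obtain ⟨Θ, hΘ, -⟩ := hHNH B I x y (χ.comp F)
    refine hC1 k _ ?_ _ Θ hΘ
    obtain ⟨F', hF'⟩ := hHND B I K x y F χ
    -- infinite orders
    have hordH : ∀ p : HNI x y (χ.comp F), IOrd (hnx x y (χ.comp F) p) ∧
        IOrd (hny x y (χ.comp F) p) := by
      intro p
      have hy1 : hnc x y (χ.comp F) (y p.1.1) = 1 := p.2
      have hx1 : hnc x y (χ.comp F) (x p.1.1) = 1 := by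
        have h2 := congrArg (χ.comp F) (HN.rel x y p.1.1)
        rw [map_mul, map_mul, mul_comm] at h2
        have h3 := mul_right_cancel h2
        change (χ.comp F) (HN.of x y (x p.1.1)) = 1
        rw [h3]
        exact p.2
      constructor
      · intro n hn
        apply (hord p.1.1).1
        have h4 : (inl (hat (hnc x y (χ.comp F)) (x p.1.1 ^ n)
            (p.1.2 * (χ.comp F) (HN.t x y p.1.1))) : HNB x y (χ.comp F)) = 1 := by
          rw [hat_zpow_of hx1, map_zpow]
          exact hn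
        rw [← map_one (inl : Hat (hnc x y (χ.comp F)) →* HNB x y (χ.comp F))] at h4
        exact hat_eq_one.1 (Monoid.Coprod.inl_injective h4)
      · intro n hn
        apply (hord p.1.1).2
        have h4 : (inl (hat (hnc x y (χ.comp F)) (y p.1.1 ^ n) p.1.2) :
            HNB x y (χ.comp F)) = 1 := by
          rw [hat_zpow_of hy1, map_zpow]
          exact hn
        rw [← map_one (inl : Hat (hnc x y (χ.comp F)) →* HNB x y (χ.comp F))] at h4
        exact hat_eq_one.1 (Monoid.Coprod.inl_injective h4)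
    have hHB : InC k (HNB x y (χ.comp F)) :=
      hC3 k _ _ (hC4 k B hB _) ((hCF k).2.1 _)
    apply InC.loc
    intro P hP
    obtain ⟨B₁, I₁, hx, hy, hB₁, -, -, hI₁, hinj, g, hg, -⟩ :=
      hHNL _ _ (hnx x y (χ.comp F)) (hny x y (χ.comp F)) hordH P hP ∅ ∅ Set.finite_empty
        Set.finite_empty
    refine hC1 k _ ?_ P g hg
    have : Finite I₁ := hI₁
    have hBC : InC k B₁ := hC1 k _ hHB B₁ B₁.subtype B₁.subtype_injective
    let M := HN.map (rs (hnx x y (χ.comp F)) B₁ I₁ hx) (rs (hny x y (χ.comp F)) B₁ I₁ hy)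
      (hnx x y (χ.comp F)) (hny x y (χ.comp F)) B₁.subtype Subtype.val
      (fun _ => rfl) (fun _ => rfl)
    have hval : ∀ i : I₁, (F'.comp M) (HN.of _ _ (rs (hny x y (χ.comp F)) B₁ I₁ hy i)) =
        hat χ (F (HN.of x y (y i.1.1.1))) i.1.1.2 := by
      intro i
      rw [MonoidHom.comp_apply,
        show M (HN.of _ _ (rs (hny x y (χ.comp F)) B₁ I₁ hy i)) =
          HN.of _ _ (hny x y (χ.comp F) i) from HN.map_of _ _ _ _ _ _ _ _ _]
      exact hF' (y i.1.1.1) i.1.1.2
    refine ih (Set.range fun i : I₁ => hat χ (F (HN.of x y (y i.1.1.1))) i.1.1.2)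
      (Set.finite_range _) ?_ k B₁ I₁ _ _ (F'.comp M) hBC ?_
    · rintro _ ⟨i, rfl⟩
      exact ⟨F (HN.of x y (y i.1.1.1)), hF _, i.1.2, i.1.1.2, rfl⟩
    · intro i
      exact ⟨i, (hval i).symm⟩

end

end ORG
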