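import Pool.Agent.ORG.Targets1

/-!
# ORG: Lemma R'
-/

set_option autoImplicit false

open Monoid.Coprod

namespace ORG

noncomputable section

namespace LRV_

/-- images of f.g. subgroups are f.g. -/
lemma fgmap {G H : Type} [Group G] [Group H] (f : G →* H) (P : Subgroup G) (hP : P.FG) :
    (P.map f).FG := by
  classical
  obtain ⟨S, hS⟩ := hP
  refine ⟨S.image f, ?_⟩
  rw [Finset.coe_image, ← MonoidHom.map_closure, hS]

/-- an HNN family over a f.g. group with finitely many letters is f.g. -/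
lemma fg {B I : Type} [Group B] [Finite I] (x y : I → B) (hB : Group.FG B) :
    Group.FG (HN x y) := by
  rw [Group.fg_def]
  have h : (⊤ : Subgroup (HN x y)) =
      (HN.of x y).range ⊔ Subgroup.closure (Set.range (HN.t x y)) := by
    rw [← HN.closure x y, Subgroup.closure_union]
    congr 1
    exact Subgroup.closure_eq (HN.of x y).range
  rw [h]
  refine Subgroup.FG.sup ?_ ?_
  · rw [MonoidHom.range_eq_map]
    exact fgmap _ _ (Group.fg_def.1 hB)
  · exact ⟨(Set.finite_range (HN.t x y)).toFinset, by simp⟩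

/-- infinite order is reflected -/
lemma iord_of {G H : Type} [Group G] [Group H] (f : G →* H) {g : G} (h : IOrd (f g)) : IOrd g := by
  intro n hn
  refine h n ?_
  rw [← map_zpow, hn, map_one]

/-- infinite orders of the pairs -/
lemma iord {D B I : Type} [Group D] [Group B] (x y : I → B) (F : HN x y →* D) (Y : Set D)
    (hY : ∀ z ∈ Y, IOrd z) (hF : ∀ i, F (HN.of x y (y i)) ∈ Y) (i : I) :
    IOrd (x i) ∧ IOrd (y i) := by
  have h1 : IOrd (F (HN.of x y (y i))) := hY _ (hF i)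
  refine ⟨?_, iord_of (F.comp (HN.of x y)) h1⟩
  intro n hn
  refine h1 n ?_
  have h2 : F (HN.of x y (y i)) =
      F (HN.t x y i) * F (HN.of x y (x i)) * (F (HN.t x y i))⁻¹ := by
    rw [← map_mul, HN.rel, map_mul, mul_inv_cancel_right]
  rw [h2, conj_zpow, ← map_zpow, ← map_zpow, hn]
  simp

end LRV_

open LRV_

theorem p_LRV (hVN : T_VN) (hVPB : T_VPB) (hHNL : T_HNL) (hHNH : T_HNH) (hHND : T_HND) :
    T_LRV := by
  intro D _ Y hY
  induction hY with
  | nil K =>
    intro B I _ _ x y F Z hZ hF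
    refine hVPB B Z hZ (HN x y) (HN.lift x y (MonoidHom.id B) (fun i => ((hF i).elim))
      (fun i => ((hF i).elim))) (HN.of x y '' Z) ((hVN B Z hZ).1.image _) ?_
    rintro _ ⟨z, hz, rfl⟩
    simpa using hz
  | loc K Y hfin hP ih =>
    intro B I _ _ x y F Z hZ hF
    have hVK : Vis K Y := Vis.loc K Y hfin hP
    have hord := iord x y F Y (hVN K Y hVK).2 hF
    have hZf : Z.Finite := (hVN B Z hZ).1
    refine Vis.loc _ _ (hZf.image _) ?_
    intro P hPfg hZP
    obtain ⟨B₀, I₀, hx, hy, hB₀, hZB, -, hI₀, hinj, g, -, hg⟩ :=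
      hHNL B I x y hord P hPfg Z Set.univ hZf Set.finite_univ
    have : Finite I₀ := hI₀
    set m := HN.map (rs x B₀ I₀ hx) (rs y B₀ I₀ hy) x y B₀.subtype Subtype.val
        (fun _ => rfl) (fun _ => rfl) with hm
    have hmof : ∀ b : B₀, m (HN.of _ _ b) = HN.of x y (b : B) := fun b => by
      rw [hm, HN.map_of]
      rfl
    set D₀ : Subgroup K := (F.comp m).range ⊔ Subgroup.closure Y with hD₀
    have hfgH : Group.FG (HN (rs x B₀ I₀ hx) (rs y B₀ I₀ hy)) :=
      fg _ _ ((Group.fg_iff_subgroup_fg _).2 hB₀)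
    have hD₀fg : D₀.FG := by
      refine Subgroup.FG.sup ?_ ⟨hfin.toFinset, by simp⟩
      rw [MonoidHom.range_eq_map]
      exact fgmap _ _ (Group.fg_def.1 hfgH)
    have hYD : Y ⊆ D₀ := fun z hz =>
      (le_sup_right : Subgroup.closure Y ≤ D₀) (Subgroup.subset_closure hz)
    have hmem : ∀ w, (F.comp m) w ∈ D₀ := fun w =>
      (le_sup_left : (F.comp m).range ≤ D₀) ⟨w, rfl⟩
    have hV0 : Vis B₀ (Subtype.val ⁻¹' Z : Set B₀) :=
      hVPB B Z hZ B₀ B₀.subtype _ (hZf.preimage Subtype.val_injective.injOn) fun z hz => hz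
    have key := ih D₀ hD₀fg hYD B₀ I₀ (rs x B₀ I₀ hx) (rs y B₀ I₀ hy)
      ((F.comp m).codRestrict D₀ hmem) (Subtype.val ⁻¹' Z : Set B₀) hV0 (by
        intro i
        change (F.comp m) (HN.of _ _ (rs y B₀ I₀ hy i)) ∈ Y
        rw [MonoidHom.comp_apply, hmof]
        exact hF i)
    refine hVPB _ _ key P g _ ((hZf.image _).preimage Subtype.val_injective.injOn) ?_
    rintro p ⟨z, hz, hzp⟩
    refine ⟨⟨z, hZB hz⟩, hz, ?_⟩
    apply hinj
    rw [hg p, ← hzp]
    exact hmof _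
  | ext K Y χ hfin hP ih =>
    intro B I _ _ x y F Z hZ hF
    have hVK : Vis K Y := Vis.ext K Y χ hfin hP
    have hord := iord x y F Y (hVN K Y hVK).2 hF
    have hZf : Z.Finite := (hVN B Z hZ).1
    refine Vis.ext _ _ (χ.comp F) (hZf.image _) ?_
    intro Z' hZ'f hZ'
    obtain ⟨Θ, -, hΘ⟩ := hHNH B I x y (χ.comp F)
    obtain ⟨F', hF'⟩ := hHND B I K x y F χ
    have hch : ∀ z : Z', ∃ p : B × Zm, p.1 ∈ Z ∧
        (z : Hat (χ.comp F)) = hat (χ.comp F) (HN.of x y p.1) p.2 := by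
      intro z
      obtain ⟨_, ⟨b, hb, rfl⟩, -, h, hz⟩ := hZ' z z.2
      exact ⟨(b, h), hb, hz⟩
    choose c hcZ hc using hch
    have : Finite Z' := hZ'f
    set Z2 : Set (HNB x y (χ.comp F)) :=
      Set.range fun z : Z' => inl (hat (hnc x y (χ.comp F)) (c z).1 (c z).2) with hZ2
    have hZ2f : Z2.Finite := Set.finite_range _
    have hfst : ∀ w ∈ Z2, Monoid.Coprod.lift (Hat.fst (hnc x y (χ.comp F))) 1 w ∈ Z := by
      rintro _ ⟨z, rfl⟩
      simpa using hcZ z
    have hV : Vis (HN (hnx x y (χ.comp F)) (hny x y (χ.comp F))) (HN.of _ _ '' Z2) := by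
      refine Vis.loc _ _ (hZ2f.image _) ?_
      intro P hPfg hZP
      have hord2 : ∀ i, IOrd (hnx x y (χ.comp F) i) ∧ IOrd (hny x y (χ.comp F) i) := by
        intro i
        constructor
        · refine iord_of (Monoid.Coprod.lift (Hat.fst (hnc x y (χ.comp F))) 1) ?_
          rw [hnx, Monoid.Coprod.lift_apply_inl, Hat.fst_hat]
          exact (hord i.1.1).1
        · refine iord_of (Monoid.Coprod.lift (Hat.fst (hnc x y (χ.comp F))) 1) ?_
          rw [hny, Monoid.Coprod.lift_apply_inl, Hat.fst_hat]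
          exact (hord i.1.1).2
      obtain ⟨B₁, I₁, hx, hy, hB₁, hZB, -, hI₁, hinj, g, -, hg⟩ :=
        hHNL _ _ _ _ hord2 P hPfg Z2 ∅ hZ2f Set.finite_empty
      have : Finite I₁ := hI₁
      set m := HN.map (rs (hnx x y (χ.comp F)) B₁ I₁ hx) (rs (hny x y (χ.comp F)) B₁ I₁ hy)
        (hnx x y (χ.comp F)) (hny x y (χ.comp F)) B₁.subtype Subtype.val
        (fun _ => rfl) (fun _ => rfl) with hm
      have hmof : ∀ b : B₁, m (HN.of _ _ b) = HN.of _ _ (b : HNB x y (χ.comp F)) := fun b => by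
        rw [hm, HN.map_of]
        rfl
      have hval : ∀ i : HNI x y (χ.comp F), F' (HN.of _ _ (hny x y (χ.comp F) i)) =
          hat χ (F (HN.of x y (y i.1.1))) i.1.2 := fun i => hF' _ _
      have hV0 : Vis B₁ (Subtype.val ⁻¹' Z2 : Set B₁) :=
        hVPB B Z hZ B₁ ((Monoid.Coprod.lift (Hat.fst (hnc x y (χ.comp F))) 1).comp B₁.subtype) _
          (hZ2f.preimage Subtype.val_injective.injOn) fun z hz => hfst _ hz
      have key := ih (Set.range fun i : I₁ => F' (HN.of _ _ (hny x y (χ.comp F) i)))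
        (Set.finite_range _) (by
          rintro _ ⟨i, rfl⟩
          exact ⟨F (HN.of x y (y (i : HNI x y (χ.comp F)).1.1)), hF _,
            (i : HNI x y (χ.comp F)).2, _, hval i⟩)
        B₁ I₁ (rs _ B₁ I₁ hx) (rs _ B₁ I₁ hy) (F'.comp m) (Subtype.val ⁻¹' Z2 : Set B₁) hV0 (by
          intro i
          refine ⟨i, ?_⟩
          rw [MonoidHom.comp_apply, hmof]
          rfl)
      refine hVPB _ _ key P g _ ((hZ2f.image _).preimage Subtype.val_injective.injOn) ?_
      rintro p ⟨z, hz, hzp⟩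
      refine ⟨⟨z, hZB hz⟩, hz, ?_⟩
      apply hinj
      rw [hg p, ← hzp]
      exact hmof _
    refine hVPB _ _ hV _ Θ Z' hZ'f ?_
    intro z hz
    refine ⟨_, ⟨⟨z, hz⟩, rfl⟩, ?_⟩
    have h := hc ⟨z, hz⟩
    change z = _ at h
    conv_rhs => rw [h]
    rw [hΘ]

end

end ORG
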