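import Pool.Agent.ORG.Targets1

/-!
# ORG: Lemma S
-/

set_option autoImplicit false

open Monoid.Coprod

namespace ORG

noncomputable section

namespace LS_

private lemma vis_finite {K : Type} [Group K] {Y : Set K} (h : Vis K Y) : Y.Finite := by
  cases h with
  | nil => exact Set.finite_empty
  | loc _ _ h _ => exact h
  | ext _ _ _ h _ => exact h

end LS_

open LS_ in
theorem p_LS (hVPB : T_VPB) (hLSH : T_LSH) (hLS3 : T_LS3) : T_LS := by
  intro E _ e K R _ _ χ cR Y ρ ZR hY hord hV hρ hR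
  obtain ⟨Ψ, ζ, -, hΨE, -, Θ, hΘ⟩ := hLSH E e K R χ cR Y
  refine e.zed _ Ψ _ ?_ ?_
  · exact ((Set.finite_singleton _).union ((vis_finite hR).image _)).image _
  · intro Y' hY' h'
    have hz : ∀ z ∈ Y', ∃ r ∈ ZR, ∃ m : E, Θ z =
        HN.of _ _ (inr (Monoid.CoprodI.of (M := fun _ : E => R) (i := m) r)) := by
      intro z hz
      obtain ⟨y, hy, h1, m, rfl⟩ := h' z hz
      obtain ⟨w, hw, rfl⟩ := hy
      rcases hw with hw | ⟨r, hr, rfl⟩
      · rw [Set.mem_singleton_iff] at hw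
        rw [hw, hΨE] at h1
        have := e.inf 1 (by rw [zpow_one]; exact h1)
        omega
      · exact ⟨r, hr, m, hΘ r m⟩
    refine hVPB _ (Θ '' Y') ?_ _ Θ Y' hY' fun y hy => ⟨y, hy, rfl⟩
    refine hLS3 E e K R χ cR Y ζ ρ ZR hY hord hV hρ hR _ (hY'.image _) ?_
    rintro _ ⟨z, hz', rfl⟩
    exact hz z hz'

end

end ORG
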