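import Pool.Agent.ORG.Targets1

/-!
# ORG: the algebra of Lemma S
-/

set_option autoImplicit false

open Monoid.Coprod

namespace ORG

noncomputable section

namespace LSH_

variable {E : Type} [Group E] (e : EGrp E)

lemma c_inj {a b : ℤ} (h : e.c ^ a = e.c ^ b) : a = b := by
  have h1 : e.c ^ (a - b) = 1 := by rw [zpow_sub, h, mul_inv_cancel]
  have := e.inf _ h1
  omega

lemma exists_zeta : ∃ ζ : E → ℤ, ∀ (m : E) (j : ℤ), ζ (m * e.c ^ j) = ζ m + j := by
  have h : ∀ m : E, ∃ j : ℤ, e.c ^ j =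
      (QuotientGroup.mk (s := Subgroup.zpowers e.c) m).out⁻¹ * m := by
    intro m
    have h1 : (QuotientGroup.mk (s := Subgroup.zpowers e.c)
        (QuotientGroup.mk (s := Subgroup.zpowers e.c) m).out) = QuotientGroup.mk m :=
      QuotientGroup.out_eq' _
    rw [QuotientGroup.eq] at h1
    exact Subgroup.mem_zpowers_iff.1 h1
  choose ζ hζ using h
  refine ⟨ζ, fun m j => ?_⟩
  have h1 : (QuotientGroup.mk (s := Subgroup.zpowers e.c) (m * e.c ^ j)) =
      QuotientGroup.mk m := by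
    rw [eq_comm, QuotientGroup.eq, inv_mul_cancel_left]
    exact Subgroup.zpow_mem _ (Subgroup.mem_zpowers _) _
  have h2 := hζ (m * e.c ^ j)
  rw [h1, ← mul_assoc, ← hζ m, ← zpow_add] at h2
  exact c_inj e h2

lemma conj1 {p : ℤ} (hp : p ≠ 0) : (e.e p)⁻¹ * e.c ^ p = e.c * (e.e p)⁻¹ := by
  rw [← e.conj p hp]
  group

lemma conj2 {p : ℤ} (hp : p ≠ 0) (j : ℤ) :
    e.c ^ j * (e.e p)⁻¹ = (e.e p)⁻¹ * e.c ^ (p * j) := by
  rw [zpow_mul, ← e.conj p hp, conj_zpow]
  group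

variable {K R : Type} [Group K] [Group R] (χ : K →* Zm) (cR : R) (Y : Set K)

/-- powers of `c` -/
def cp : K →* E := (zpowersHom E e.c).comp χ

lemma cp_apply (k : K) : cp e χ k = e.c ^ Multiplicative.toAdd (χ k) := rfl

/-- `Ψ` on the base group -/
def psiB : Cop (Cop K E) R →* E :=
  Monoid.Coprod.lift (Monoid.Coprod.lift (cp e χ) (MonoidHom.id E)) 1

lemma ne_of {k : K} (h : ¬ χ k = 1) : Multiplicative.toAdd (χ k) ≠ 0 := by
  intro h1
  exact h (by rw [← ofAdd_toAdd (χ k), h1]; rfl)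

open Classical in
/-- `Ψ` on the stable letters -/
def psiT (i : Y) : E :=
  if χ (i : K) = 1 then 1 else (e.e (Multiplicative.toAdd (χ (i : K))))⁻¹

/-- the homomorphism `Ψ` -/
def Psi : GS e χ cR Y →* E :=
  HN.lift _ _ (psiB e χ) (psiT e χ Y) (by
    intro i
    by_cases h : χ (i : K) = 1
    · simp [psiB, psiT, gsy, h, cp_apply]
    · simp only [psiB, psiT, gsy, h, if_false, Monoid.Coprod.lift_apply_inl,
        Monoid.Coprod.lift_apply_inr, cp_apply, MonoidHom.id_apply]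
      exact conj1 e (ne_of χ h))

variable (ζ : E → ℤ) (hζ : ∀ (m : E) (j : ℤ), ζ (m * e.c ^ j) = ζ m + j)

/-- the element `k` at `m` -/
def thK : K →* Wr (G3 χ cR Y ζ) E :=
  Wr.mk' (cp e χ) (fun k m => HN.of _ _ (inl (hat χ k (Multiplicative.ofAdd (ζ m))))) (by
    intro g h a
    rw [hat_mul, map_mul, map_mul, cp_apply, hζ]
    rfl)

/-- the element `r` at `m` -/
def thR : R →* Wr (G3 χ cR Y ζ) E :=
  Wr.mk' 1 (fun r m => HN.of _ _ (inr (Monoid.CoprodI.of (M := fun _ : E => R) (i := m) r))) (by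
    intro g h a
    rw [map_mul, map_mul, map_mul, MonoidHom.one_apply, mul_one])

open Classical in
/-- the stable letters -/
def thT (i : Y) : Wr (G3 χ cR Y ζ) E :=
  if h : χ (i : K) = 1 then ⟨fun m => HN.t _ _ (⟨(i, m), h⟩ : G3I E χ Y), 1⟩
  else ⟨fun m => HN.of _ _ (inl (hat χ ((i : K) ^ ζ m) (Multiplicative.ofAdd
    (ζ (m * e.c ^ (-ζ m) * (e.e (Multiplicative.toAdd (χ (i : K))))⁻¹))))),
    (e.e (Multiplicative.toAdd (χ (i : K))))⁻¹⟩

/-- the base group -/
def thB : Cop (Cop K E) R →* Wr (G3 χ cR Y ζ) E :=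
  Monoid.Coprod.lift (Monoid.Coprod.lift (thK e χ cR Y ζ hζ) Wr.tr) (thR χ cR Y ζ)

lemma th_rel (i : Y) : thT e χ cR Y ζ i * thB e χ cR Y ζ hζ (inl (inl (i : K))) =
    thB e χ cR Y ζ hζ (gsy e χ cR Y i) * thT e χ cR Y ζ i := by
  by_cases h : χ (i : K) = 1
  · have h1 : thB e χ cR Y ζ hζ (inl (inl (i : K))) = thK e χ cR Y ζ hζ i := by simp [thB]
    have h2 : thB e χ cR Y ζ hζ (gsy e χ cR Y i) = thR χ cR Y ζ cR := by simp [thB, gsy, h]
    have h3 : thT e χ cR Y ζ i = ⟨fun m => HN.t _ _ (⟨(i, m), h⟩ : G3I E χ Y), 1⟩ := by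
      simp [thT, h]
    rw [h1, h2, h3]
    apply Wr.ext
    · funext m
      simp only [Wr.mul_f, mul_one]
      have h4 : (thR χ cR Y ζ cR).a = (1 : E) := by simp [thR]
      rw [h4, mul_one]
      exact HN.rel _ _ (⟨(i, m), h⟩ : G3I E χ Y)
    · simp [thK, thR, cp_apply, h]
  · have h1 : thB e χ cR Y ζ hζ (inl (inl (i : K))) = thK e χ cR Y ζ hζ i := by simp [thB]
    have h2 : thB e χ cR Y ζ hζ (gsy e χ cR Y i) = Wr.tr e.c := by simp [thB, gsy, h]
    have h3 : thT e χ cR Y ζ i = ⟨fun m => HN.of _ _ (inl (hat χ ((i : K) ^ ζ m)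
        (Multiplicative.ofAdd
          (ζ (m * e.c ^ (-ζ m) * (e.e (Multiplicative.toAdd (χ (i : K))))⁻¹))))),
        (e.e (Multiplicative.toAdd (χ (i : K))))⁻¹⟩ := by
      simp [thT, h]
    rw [h1, h2, h3]
    have hp := ne_of χ h
    set p := Multiplicative.toAdd (χ (i : K)) with hpdef
    apply Wr.ext
    · funext m
      simp only [Wr.mul_f, Wr.tr_f, one_mul, Wr.tr_a]
      have h4 : ζ (m * e.c) = ζ m + 1 := by simpa using hζ m 1
      have h5 : m * e.c * e.c ^ (-(ζ m + 1)) = m * e.c ^ (-ζ m) := by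
        rw [mul_assoc, ← zpow_one_add]
        congr 2
        ring
      rw [h4, h5, zpow_add_one, hat_mul, map_mul, map_mul]
      congr 1
      have h6 : ζ (m * (e.e p)⁻¹) = ζ (m * e.c ^ (-ζ m) * (e.e p)⁻¹) + p * ζ m := by
        rw [← hζ]
        congr 1
        rw [mul_assoc, mul_assoc, ← mul_assoc (e.c ^ (-ζ m)), conj2 e hp, mul_assoc,
          ← zpow_add]
        congr 2
        rw [show p * -ζ m + p * ζ m = 0 by ring, zpow_zero, mul_one]
      simp only [thK, Wr.mk'_f]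
      rw [h6, map_zpow, ofAdd_add]
      congr 4
      rw [← ofAdd_toAdd (χ (i : K)), ← hpdef, ← ofAdd_zsmul, smul_eq_mul, mul_comm]
    · simp only [Wr.mul_a, Wr.tr_a, thK, Wr.mk'_a, cp_apply]
      exact conj1 e hp

/-- the homomorphism to the wreath type group -/
def th : GS e χ cR Y →* Wr (G3 χ cR Y ζ) E :=
  HN.lift _ _ (thB e χ cR Y ζ hζ) (thT e χ cR Y ζ) (th_rel e χ cR Y ζ hζ)

lemma th_a (g : GS e χ cR Y) : (th e χ cR Y ζ hζ g).a = Psi e χ cR Y g := by
  have : (Wr.pr (H := G3 χ cR Y ζ)).comp (th e χ cR Y ζ hζ) = Psi e χ cR Y := by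
    apply HN.hom_ext
    · intro b
      have h1 : ((Wr.pr (H := G3 χ cR Y ζ)).comp (thB e χ cR Y ζ hζ)) = psiB e χ := by
        apply Monoid.Coprod.hom_ext
        · apply Monoid.Coprod.hom_ext
          · ext k
            simp [thB, psiB, thK]
          · ext g
            simp [thB, psiB]
        · ext r
          simp [thB, psiB, thR]
      have h2 := DFunLike.congr_fun h1 b
      simp only [MonoidHom.comp_apply, th, Psi, HN.lift_of] at h2 ⊢
      exact h2
    · intro i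
      simp only [MonoidHom.comp_apply, th, Psi, HN.lift_t, Wr.pr_apply]
      by_cases h : χ (i : K) = 1
      · simp [thT, psiT, h]
      · simp [thT, psiT, h]
  exact DFunLike.congr_fun this g

end LSH_

open LSH_ in
theorem p_LSH : T_LSH := by
  intro E _ e K R _ _ χ cR Y
  obtain ⟨ζ, hζ⟩ := exists_zeta e
  refine ⟨Psi e χ cR Y, ζ, hζ, ?_, ?_, Hat.lift _ (th e χ cR Y ζ hζ) (th_a e χ cR Y ζ hζ), ?_⟩
  · intro g
    simp [Psi, psiB]
  · intro r
    simp [Psi, psiB]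
  · intro r m
    rw [Hat.lift_hat]
    simp [th, thB, thR]

end

end ORG
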