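import Pool.Agent.ORG.Targets2

/-!
# ORG: leveled lists may be used to adjoin a level
-/

set_option autoImplicit false

open Monoid.Coprod

namespace ORG

noncomputable section

namespace ML_

variable {D D' : Type} [Group D] [Group D']

lemma wm_append (l l' : List (ℤ × Bool × D)) : wm (l ++ l') = wm l * wm l' := by
  simp [wm, wg]

lemma mpm_append (δ : D →* D') (l l' : List (ℤ × Bool × D)) :
    mpm δ (l ++ l') = mpm δ l ++ mpm δ l' := by
  simp [mpm]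

lemma mpm_length (δ : D →* D') (l : List (ℤ × Bool × D)) : (mpm δ l).length = l.length := by
  simp [mpm]

lemma mp_length (δ : D →* D') (l : List (Bool × D)) : (mp δ l).length = l.length := by
  simp [mp]

lemma inl_mem_seg (d : D) (a b : ℤ) : (inl d : PP D Zm) ∈ seg D Zm a b :=
  Subgroup.subset_closure (Or.inl ⟨d, rfl⟩)

lemma lev_mem_seg (a b h : ℤ) (ha : a ≤ h) (hb : h ≤ b) (z : Zm) :
    lev D h z ∈ seg D Zm a b :=
  Subgroup.subset_closure (Or.inr ⟨h, ha, hb, z, rfl⟩)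

lemma wm_mem_seg (a b : ℤ) (r : List (ℤ × Bool × D)) (hr : ∀ q ∈ r, a ≤ q.1 ∧ q.1 ≤ b) :
    wm r ∈ seg D Zm a b := by
  unfold wm wg
  apply Subgroup.list_prod_mem
  intro x hx
  obtain ⟨q, hq, rfl⟩ := List.mem_map.1 hx
  obtain ⟨h1, h2⟩ := hr q hq
  refine Subgroup.mul_mem _ ?_ (inl_mem_seg _ a b)
  split_ifs
  · exact lev_mem_seg a b _ h1 h2 _
  · exact Subgroup.inv_mem _ (lev_mem_seg a b _ h1 h2 _)

lemma mp_mp_eq {G G' P P' : Type} [Group G] [Group G'] [Group P] [Group P'] (θ : G →* G')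
    (f : P →* G) (f' : P' →* G') (F : P →* P') (h : ∀ p, θ (f p) = f' (F p))
    (s : List (Bool × P)) : mp θ (mp f s) = mp f' (mp F s) := by
  unfold mp
  rw [List.map_map, List.map_map]
  apply List.map_congr_left
  rintro ⟨e, p⟩ _
  simp [h]

/-- the case of lists of blocks -/
lemma blocks (h_BL : T_BL) (h_BC : T_BC) (h_CRI : T_CRI) (m : ℕ) (hE : ∀ m' < m, EEm m')
    (k : ℕ) (hk : 1 ≤ k) (δ : D →* D') (t a b : ℤ) (bl : List (Bool × D × List (ℤ × Bool × D)))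
    (hm : (ub t bl).length ≤ m) (hC : CRM (mpm δ (ub t bl))) (hP : Pr (mpm δ (ub t bl)))
    (hq : ∀ c ∈ bl, ∀ q ∈ c.2.2, q.1 ≠ t ∧ a ≤ q.1 ∧ q.1 ≤ b) (hne : ∃ q ∈ ub t bl, q.1 ≠ t) :
    AddOk k δ (MonoidHom.id Zm) (wm (ub t bl)) (seg D' Zm a b) t := by
  obtain ⟨-, -, B3, B4, B5⟩ := h_BL D t
  intro G G' _ _ θ f f' hG hG' hθ hinj
  obtain ⟨hm1, hm2⟩ := B4 D' δ bl
  set bl' := bl.map (Prod.map id (Prod.map δ (mpm δ))) with hbl'
  rw [hm1] at hC hP
  have hbl : ∀ c ∈ bl', ∀ q ∈ c.2.2, q.1 ≠ t ∧ a ≤ q.1 ∧ q.1 ≤ b := by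
    intro c hc q hqc
    obtain ⟨c₀, hc₀, rfl⟩ := List.mem_map.1 hc
    have hqc' : q ∈ mpm δ c₀.2.2 := hqc
    obtain ⟨q₀, hq₀, rfl⟩ := List.mem_map.1 hqc'
    exact hq c₀ hc₀ q₀ hq₀
  obtain ⟨c1, c2⟩ := h_BC D' t bl' hC fun c hc q hqc => (hbl c hc q hqc).1
  have hseg : ∀ p ∈ tb bl', p.2 ∈ seg D' Zm a b := by
    intro p hp
    obtain ⟨c, hc, rfl⟩ := List.mem_map.1 hp
    exact Subgroup.mul_mem _ (inl_mem_seg _ a b)
      (wm_mem_seg a b _ fun q hqc => (hbl c hc q hqc).2)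
  obtain ⟨d1, d2⟩ := h_CRI (PP D' Zm) G' f' (seg D' Zm a b) (tb bl') hinj hseg
  have hmm : mp θ (mp f (tb bl)) = mp f' (tb bl') := by
    rw [mp_mp_eq θ f f' (PPmap δ (MonoidHom.id Zm)) hθ, hm2]
  have hlt : (tb bl).length < m := lt_of_lt_of_le (B5 bl hne) hm
  have key := hE (tb bl).length hlt k hk G G' θ (mp f (tb bl)) hG hG' (mp_length f (tb bl))
    (by rw [hmm]; exact d1 c1) (by rw [hmm]; exact d2 (c2 hP))
  rw [B3 G f bl fun c hc q hqc => (hq c hc q hqc).1]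
  exact key

end ML_

open ML_ in
theorem p_ML (h_ROT : T_ROT) (h_AOC : T_AOC) (h_BL : T_BL) (h_BC : T_BC) (h_CRI : T_CRI) :
    T_ML := by
  intro m hE k hk D D' _ _ δ r hm hC hP t a b ht hr ht1 ht2
  obtain ⟨p, hp, hpt⟩ := ht1
  obtain ⟨l, l', rfl⟩ := List.append_of_mem hp
  obtain ⟨bl, hbl, hq⟩ := (h_BL D t).1 (l' ++ l) p hpt
  have hrot : (p :: l') ++ l = ub t bl := by rw [List.cons_append, hbl]
  have hmem : ∀ q, q ∈ ub t bl ↔ q ∈ l ++ p :: l' := by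
    intro q
    rw [← hrot, List.mem_append, List.mem_append]
    exact or_comm
  have hw : wm (l ++ p :: l') = wm l * wm (ub t bl) * (wm l)⁻¹ := by
    rw [← hrot, wm_append, wm_append]
    group
  rw [hw]
  apply h_AOC
  apply blocks h_BL h_BC h_CRI m hE k hk δ t a b bl
  · rw [← hrot]
    simpa [add_comm, add_left_comm, add_assoc] using hm
  · rw [← hrot, mpm_append]
    rw [mpm_append] at hC
    exact (h_ROT _ _ (mpm δ l) (mpm δ (p :: l'))).1 hC
  · rw [← hrot, mpm_append]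
    rw [mpm_append] at hP
    exact (h_ROT _ (fun _ _ => True) (mpm δ l) (mpm δ (p :: l'))).2 hP
  · intro c hc q hqc
    obtain ⟨h1, h2⟩ := hq c hc q hqc
    refine ⟨h2, ?_⟩
    have h3 : q ∈ l ++ p :: l' := by
      rcases List.mem_append.1 h1 with h | h
      · exact List.mem_append.2 (Or.inr (List.mem_cons_of_mem _ h))
      · exact List.mem_append.2 (Or.inl h)
    rcases hr q h3 with h | h
    · exact absurd h h2
    · exact h
  · obtain ⟨q, hq1, hq2⟩ := ht2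
    exact ⟨q, (hmem q).2 hq1, hq2⟩

end

end ORG
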