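import Pool.Agent.ORG.Targets2

/-!
# ORG: normal forms, part 1
-/

set_option autoImplicit false

open Monoid.Coprod

namespace ORG

noncomputable section

namespace NF1_

variable {D : Type} [Group D]

/-- the letter -/
def gam (D : Type) [Group D] : Bool → D × Zm
  | true => (1, Multiplicative.ofAdd 1)
  | false => (1, (Multiplicative.ofAdd 1)⁻¹)

lemma gam_ne (b : Bool) : gam D b ≠ 1 := by
  cases b
  · intro h
    have h2 : (Multiplicative.ofAdd (1 : ℤ))⁻¹ = 1 := congrArg Prod.snd h
    exact absurd h2 (by decide)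
  · intro h
    have h2 : (Multiplicative.ofAdd (1 : ℤ)) = 1 := congrArg Prod.snd h
    exact absurd h2 (by decide)

/-- letters of the word -/
abbrev Sg (D : Type) : Type := Σ _ : Option (ℤ × Bool), D × Zm

open Classical in
/-- a coefficient in front of a word -/
def Dl (d : D) (l : List (Sg D)) : List (Sg D) :=
  if d = 1 then l else ⟨none, (d, 1)⟩ :: l

/-- the word of a list -/
def W : List (ℤ × Bool × D) → List (Sg D)
  | [] => []
  | (h, e, d) :: r => ⟨some (h, e), gam D e⟩ :: ⟨some (h, !e), gam D e⟩ :: Dl d (W r)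

lemma Dl_ne_one {d : D} {l : List (Sg D)} (hl : ∀ x ∈ l, x.2 ≠ 1) : ∀ x ∈ Dl d l, x.2 ≠ 1 := by
  unfold Dl
  split_ifs with h
  · exact hl
  · intro x hx
    rcases List.mem_cons.1 hx with rfl | hx
    · intro h2
      exact h (congrArg Prod.fst h2)
    · exact hl x hx

lemma W_ne_one (r : List (ℤ × Bool × D)) : ∀ x ∈ W r, x.2 ≠ 1 := by
  induction r with
  | nil => simp [W]
  | cons p r ih =>
    obtain ⟨h, e, d⟩ := p
    intro x hx
    rw [W] at hx
    rcases List.mem_cons.1 hx with rfl | hx
    · exact gam_ne e
    rcases List.mem_cons.1 hx with rfl | hx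
    · exact gam_ne e
    exact Dl_ne_one ih x hx

lemma W_head (r : List (ℤ × Bool × D)) : ∀ x ∈ (W r).head?, ∃ p ∈ r.head?,
    x.1 = some (p.1, p.2.1) := by
  cases r with
  | nil => simp [W]
  | cons p r =>
    obtain ⟨h, e, d⟩ := p
    intro x hx
    refine ⟨(h, e, d), by simp, ?_⟩
    simp only [W, List.head?_cons, Option.mem_def, Option.some.injEq] at hx
    rw [← hx]

lemma Dl_chain {d : D} {r : List (ℤ × Bool × D)}
    (hl : (W r).IsChain fun x y => x.1 ≠ y.1) : (Dl d (W r)).IsChain fun x y => x.1 ≠ y.1 := by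
  unfold Dl
  split_ifs with h
  · exact hl
  · rw [List.isChain_cons]
    refine ⟨fun y hy => ?_, hl⟩
    obtain ⟨p, -, hp⟩ := W_head r y hy
    rw [hp]
    simp

lemma W_chain (r : List (ℤ × Bool × D)) (hr : RM r) : (W r).IsChain fun x y => x.1 ≠ y.1 := by
  induction r with
  | nil => simp [W]
  | cons p r ih =>
    obtain ⟨h, e, d⟩ := p
    unfold RM at hr
    rw [List.isChain_cons] at hr
    obtain ⟨h1, h2⟩ := hr
    have h3 := ih h2
    rw [W, List.isChain_cons, List.isChain_cons]
    refine ⟨fun y hy => ?_, fun y hy => ?_, Dl_chain h3⟩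
    · simp only [List.head?_cons, Option.mem_def, Option.some.injEq] at hy
      rw [← hy]
      simp
    · unfold Dl at hy
      split_ifs at hy with hd
      · obtain ⟨p, hp, hp2⟩ := W_head r y hy
        rw [hp2]
        intro h4
        rw [Option.some.injEq, Prod.mk.injEq] at h4
        have := h1 p hp h4.1 (by
          change e ≠ p.2.1
          rw [← h4.2]
          simp)
        exact this hd
      · simp only [List.head?_cons, Option.mem_def, Option.some.injEq] at hy
        rw [← hy]
        simp

/-- the free product -/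
abbrev Tg (D : Type) [Group D] : Type := CopI (Option (ℤ × Bool)) (D × Zm)

/-- the copies -/
abbrev tof (D : Type) [Group D] (i : Option (ℤ × Bool)) : D × Zm →* Tg D :=
  Monoid.CoprodI.of (M := fun _ : Option (ℤ × Bool) => D × Zm) (i := i)

/-- the homomorphism -/
def Phi (D : Type) [Group D] : PP D Zm →* Tg D :=
  PPlift ((tof D none).comp (MonoidHom.inl D Zm)) fun h =>
    zpowersHom (Tg D) (tof D (some (h, true)) (gam D true) * tof D (some (h, false)) (gam D true))

lemma Dl_prod (d : D) (l : List (Sg D)) :
    ((Dl d l).map fun x => tof D x.1 x.2).prod =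
      tof D none (d, 1) * (l.map fun x => tof D x.1 x.2).prod := by
  unfold Dl
  split_ifs with h
  · subst h
    change _ = tof D none 1 * _
    rw [map_one, one_mul]
  · rw [List.map_cons, List.prod_cons]

lemma gam_false : gam D false = (gam D true)⁻¹ := by
  simp [gam]

lemma Phi_wm (r : List (ℤ × Bool × D)) :
    Phi D (wm r) = ((W r).map fun x => tof D x.1 x.2).prod := by
  induction r with
  | nil => simp [W, wm, wg]
  | cons p r ih =>
    obtain ⟨h, e, d⟩ := p
    have h1 : wm ((h, e, d) :: r) = (if e then lev D h (Multiplicative.ofAdd 1) else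
        (lev D h (Multiplicative.ofAdd 1))⁻¹) * inl d * wm r := by
      simp [wm, wg]
    rw [h1, map_mul, ih, map_mul, W, List.map_cons, List.prod_cons, List.map_cons,
      List.prod_cons, Dl_prod]
    have h2 : Phi D (inl d) = tof D none (d, 1) := by
      simp [Phi]
    have h3 : Phi D (lev D h (Multiplicative.ofAdd 1)) =
        tof D (some (h, true)) (gam D true) * tof D (some (h, false)) (gam D true) := by
      rw [Phi, PPlift_lev, zpowersHom_apply]
      simp
    rw [h2]
    cases e
    · rw [if_neg (by simp), map_inv, h3, gam_false]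
      simp only [map_inv, mul_inv_rev, Bool.not_false, mul_assoc]
    · rw [if_pos rfl, h3]
      simp only [Bool.not_true, mul_assoc]

end NF1_

open NF1_ in
/-- the target -/
theorem p_NF1 : T_NF1 := by
  intro D _ d r hr hne h
  classical
  let w : Monoid.CoprodI.Word (fun _ : Option (ℤ × Bool) => D × Zm) :=
    ⟨Dl d (W r), Dl_ne_one (W_ne_one r), Dl_chain (W_chain r hr)⟩
  have h1 : w.prod = 1 := by
    change ((Dl d (W r)).map fun x => tof D x.1 x.2).prod = 1
    rw [Dl_prod, ← Phi_wm, ← map_one (Phi D), ← h, map_mul]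
    simp [Phi]
  have h2 : w = Monoid.CoprodI.Word.empty := by
    apply Monoid.CoprodI.Word.equiv.symm.injective
    change w.prod = Monoid.CoprodI.Word.empty.prod
    rw [h1, Monoid.CoprodI.Word.prod_empty]
  have h3 : Dl d (W r) = [] := congrArg Monoid.CoprodI.Word.toList h2
  cases r with
  | nil => exact hne rfl
  | cons p r =>
    obtain ⟨a, e, b⟩ := p
    unfold Dl at h3
    split_ifs at h3
    · simp [W] at h3

end

end ORG
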