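import Pool.Agent.ORG.Targets2

/-!
# ORG: uniqueness of normal forms (target `T_NF2`)
-/

set_option autoImplicit false

open Monoid.Coprod

namespace ORG

noncomputable section

namespace NF2_

variable {D : Type} [Group D]

/-- the letter of level `h` with sign `e` -/
def lt (D : Type) [Group D] (h : ℤ) (e : Bool) : PP D Zm :=
  if e then lev D h (Multiplicative.ofAdd 1) else (lev D h (Multiplicative.ofAdd 1))⁻¹

theorem lt_inv (h : ℤ) (e : Bool) : (lt D h e)⁻¹ = lt D h (!e) := by
  cases e <;> simp [lt]

theorem wm_nil : wm ([] : List (ℤ × Bool × D)) = 1 := rfl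

theorem wm_cons (h : ℤ) (e : Bool) (d : D) (r : List (ℤ × Bool × D)) :
    wm ((h, e, d) :: r) = lt D h e * inl d * wm r := by
  unfold wm wg
  rw [List.map_cons, List.prod_cons]
  rfl

theorem wm_append (r r' : List (ℤ × Bool × D)) : wm (r ++ r') = wm r * wm r' := by
  unfold wm wg
  rw [List.map_append, List.prod_append]

/-- the inverse of a word -/
theorem inv_word (rr : List (ℤ × Bool × D)) : ∀ (h : ℤ) (e : Bool) (d1 : D),
    RM ((h, e, d1) :: rr) → ∃ (e0 : D) (s : List (ℤ × Bool × D)),
      ((inl d1 : PP D Zm) * wm rr)⁻¹ = inl e0 * wm s ∧ ∀ x : D, RM (s ++ [(h, !e, x)]) := by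
  induction rr with
  | nil =>
    intro h e d1 _
    refine ⟨d1⁻¹, [], ?_, fun x => ?_⟩
    · rw [wm_nil, mul_one, mul_one, map_inv]
    · exact List.isChain_singleton _
  | cons p rr ih =>
    obtain ⟨h2, e2, d2⟩ := p
    intro h e d1 hr
    have hr' := List.isChain_cons_cons.1 hr
    obtain ⟨e0, s, hw, hs⟩ := ih h2 e2 d2 hr'.2
    refine ⟨e0, s ++ [(h2, !e2, d1⁻¹)], ?_, fun x => ?_⟩
    · rw [wm_append, wm_cons h2 e2 d2 rr, wm_cons h2 (!e2) d1⁻¹ [], wm_nil, mul_one,
        ← mul_assoc (inl e0), ← hw, ← lt_inv, map_inv]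
      group
    · refine List.isChain_append.2 ⟨hs _, List.isChain_singleton _, ?_⟩
      intro p hp q hq
      rw [List.getLast?_append] at hp
      simp only [List.getLast?_singleton, Option.some_or, Option.mem_def,
        Option.some.injEq] at hp
      simp only [List.head?_cons, Option.mem_def, Option.some.injEq] at hq
      subst hp hq
      simp only
      intro h1 h3 h4
      refine hr'.1 h1.symm ?_ (inv_eq_one.1 h4)
      intro h5
      simp only at h5
      exact h3 (by rw [h5])

end NF2_

theorem p_NF2 (h_NF1 : T_NF1) : T_NF2 := by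
  intro D _ d d' r
  induction r generalizing d d' with
  | nil =>
    intro r' _ hr' h
    rw [NF2_.wm_nil, mul_one] at h
    cases r' with
    | nil =>
      rw [NF2_.wm_nil, mul_one] at h
      exact ⟨inl_injective h, rfl⟩
    | cons p r' =>
      exfalso
      refine h_NF1 D (d⁻¹ * d') (p :: r') hr' (by simp) ?_
      rw [map_mul, map_inv, mul_assoc, ← h, inv_mul_cancel]
  | cons p r ih =>
    intro r' hr hr' h
    cases r' with
    | nil =>
      exfalso
      rw [NF2_.wm_nil, mul_one] at h
      refine h_NF1 D (d'⁻¹ * d) (p :: r) hr (by simp) ?_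
      rw [map_mul, map_inv, mul_assoc, h, inv_mul_cancel]
    | cons p' r' =>
      obtain ⟨h1, e1, d1⟩ := p
      obtain ⟨h2, e2, d2⟩ := p'
      have key : h1 = h2 ∧ e1 = e2 ∧ d = d' := by
        by_contra hcon
        obtain ⟨e0, s, hw, hs⟩ := NF2_.inv_word r h1 e1 d1 hr
        refine h_NF1 D e0 ((s ++ [(h1, !e1, d⁻¹ * d')]) ++ (h2, e2, d2) :: r') ?_ (by simp) ?_
        · refine List.isChain_append.2 ⟨hs _, hr', ?_⟩
          intro p hp q hq
          rw [List.getLast?_append] at hp
          simp only [List.getLast?_singleton, Option.some_or, Option.mem_def,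
            Option.some.injEq] at hp
          simp only [List.head?_cons, Option.mem_def, Option.some.injEq] at hq
          subst hp hq
          simp only
          intro a1 a2 a3
          apply hcon
          refine ⟨a1, ?_, (inv_mul_eq_one.1 a3)⟩
          revert a2
          cases e1 <;> cases e2 <;> simp
        · rw [NF2_.wm_append, NF2_.wm_append, NF2_.wm_cons h1, NF2_.wm_nil, mul_one]
          rw [← mul_assoc, ← mul_assoc, ← hw, ← NF2_.lt_inv, map_mul, map_inv]
          have h' : (inl d : PP D Zm)⁻¹ * (inl d' * wm ((h2, e2, d2) :: r')) =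
              wm ((h1, e1, d1) :: r) := by
            rw [← h, inv_mul_cancel_left]
          rw [NF2_.wm_cons h1 e1 d1 r] at h'
          calc _ = ((inl d1 : PP D Zm) * wm r)⁻¹ * (NF2_.lt D h1 e1)⁻¹ *
              ((inl d : PP D Zm)⁻¹ * (inl d' * wm ((h2, e2, d2) :: r'))) := by
                simp only [mul_assoc]
            _ = 1 := by
                rw [h']
                group
      obtain ⟨rfl, rfl, rfl⟩ := key
      have h3 : (inl d1 : PP D Zm) * wm r = inl d2 * wm r' := by
        have h4 := mul_left_cancel h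
        rw [NF2_.wm_cons, NF2_.wm_cons, mul_assoc, mul_assoc] at h4
        exact mul_left_cancel h4
      obtain ⟨a1, a2⟩ := ih d1 d2 r' hr.tail hr'.tail h3
      exact ⟨rfl, by rw [a1, a2]⟩

end

end ORG
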