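import Pool.Agent.ORG.Targets2

/-!
# ORG: normal forms with one letter
-/

set_option autoImplicit false

open Monoid.Coprod

namespace ORG

theorem p_NFS (h2 : T_NF2) : T_NFS := by
  intro G _ g g' r r' hr hr' heq
  let em : Cop G Zm →* PP G Zm := Monoid.Coprod.lift inl (lev G 0)
  let up : Bool × G → ℤ × Bool × G := fun p => (0, p.1, p.2)
  have hup : Function.Injective up := by
    rintro ⟨a, b⟩ ⟨c, d⟩ h
    simp only [up, Prod.mk.injEq, true_and] at h
    exact Prod.ext h.1 h.2
  have hem : ∀ s : List (Bool × G),
      em (wd inl (inr (Multiplicative.ofAdd 1)) s) = wm (s.map up) := by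
    intro s
    unfold wd wm wg
    rw [map_list_prod, List.map_map, List.map_map]
    congr 1
    apply List.map_congr_left
    rintro ⟨b, x⟩ _
    cases b <;> simp [em, up]
  have hRM : ∀ s : List (Bool × G), s.IsChain (fun p q => p.1 ≠ q.1 → p.2 ≠ 1) →
      RM (s.map up) := by
    intro s hs
    unfold RM
    rw [List.isChain_map]
    exact hs.imp fun p q h _ => h
  have key := congrArg em heq
  rw [map_mul, map_mul, hem, hem] at key
  have hin : ∀ x : G, em (inl x) = inl x := fun x => by simp [em]
  rw [hin, hin] at key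
  obtain ⟨h3, h4⟩ := h2 G g g' _ _ (hRM r hr) (hRM r' hr') key
  exact ⟨h3, List.map_injective_iff.2 hup h4⟩

end ORG
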