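import Pool.Agent.ORG.Targets2

/-!
# ORG: `O(n)` from the family theorem
-/

set_option autoImplicit false

open Monoid.Coprod

namespace ORG

noncomputable section

namespace OO_

/-- the doubled list -/
def db {A B G : Type} (f : A → G) (g : B → G) (s : List (A × B)) : List (Bool × G) :=
  s.flatMap fun p => [(false, f p.1), (true, g p.2)]

section

variable {A B G : Type} (f : A → G) (g : B → G)

@[simp] lemma db_nil : db f g [] = [] := rfl

@[simp] lemma db_cons (p : A × B) (s : List (A × B)) :
    db f g (p :: s) = (false, f p.1) :: (true, g p.2) :: db f g s := rfl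

lemma db_append (s t : List (A × B)) : db f g (s ++ t) = db f g s ++ db f g t := by
  simp [db, List.flatMap_append]

lemma db_length (s : List (A × B)) : (db f g s).length = 2 * s.length := by
  induction s with
  | nil => rfl
  | cons p s ih => simp [ih]; omega

lemma db_sign (s : List (A × B)) : ∀ (i : ℕ) (h : i < (db f g s).length),
    ((db f g s)[i]).1 = decide (i % 2 = 1) := by
  induction s with
  | nil => intro i h; simp at h
  | cons p s ih =>
    intro i h
    match i, h with
    | 0, _ => simp
    | 1, _ => simp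
    | i + 2, h =>
      have h' : i < (db f g s).length := by simpa using h
      have := ih i h'
      simp only [db_cons, List.getElem_cons_succ, this]
      congr 1
      simp

lemma db_take (s : List (A × B)) : ∀ c : ℕ, (db f g s).take (2 * c) = db f g (s.take c) := by
  induction s with
  | nil => intro c; simp
  | cons p s ih =>
    intro c
    cases c with
    | zero => simp
    | succ c =>
      have : 2 * (c + 1) = 2 * c + 1 + 1 := by ring
      rw [this, db_cons, List.take_succ_cons, List.take_succ_cons, ih, List.take_succ_cons,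
        db_cons]

lemma db_inj (hf : Function.Injective f) (hg : Function.Injective g) :
    ∀ s t : List (A × B), db f g s = db f g t → s = t := by
  intro s
  induction s with
  | nil =>
    intro t h
    cases t with
    | nil => rfl
    | cons q t => simp at h
  | cons p s ih =>
    intro t h
    cases t with
    | nil => simp at h
    | cons q t =>
      simp only [db_cons, List.cons.injEq, Prod.mk.injEq, true_and] at h
      rw [ih t h.2.2]
      congr 1
      exact Prod.ext (hf h.1) (hg h.2.1)

lemma db_rep (q : ℕ) (v : List (A × B)) :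
    db f g (List.replicate q v).flatten = (List.replicate q (db f g v)).flatten := by
  induction q with
  | zero => rfl
  | succ q ih => rw [List.replicate_succ, List.flatten_cons, db_append, ih, List.replicate_succ,
      List.flatten_cons]

lemma db_pr (hf : Function.Injective f) (hg : Function.Injective g) (s : List (A × B))
    (h : Pr s) : Pr (db f g s) := by
  intro q t ht
  have hs : s ≠ [] := by
    rintro rfl
    have := h 0 [] rfl
    omega
  have hlen := congrArg List.length ht
  rw [db_length, List.length_flatten, List.map_replicate, List.sum_replicate, smul_eq_mul] at hlen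
  have hs' : 0 < s.length := List.length_pos_iff.2 hs
  obtain _ | _ | q := q
  · rw [Nat.zero_mul] at hlen; omega
  · rfl
  exfalso
  have hpos : 0 < t.length := by
    rcases Nat.eq_zero_or_pos t.length with h0 | h0
    · rw [h0, Nat.mul_zero] at hlen; omega
    · exact h0
  have e1 : db f g s = t ++ (t ++ (List.replicate q t).flatten) := by
    rw [ht, List.replicate_succ, List.replicate_succ, List.flatten_cons, List.flatten_cons]
  have hc : t.length < (db f g s).length := by
    rw [e1, List.length_append, List.length_append]; omega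
  have h0 : 0 < (db f g s).length := by omega
  have e2 : (db f g s)[t.length] = (db f g s)[0] := by
    have a1 : (db f g s)[t.length]? = t[0]? := by
      rw [e1, List.getElem?_append_right le_rfl, Nat.sub_self, List.getElem?_append_left hpos]
    have a2 : (db f g s)[0]? = t[0]? := by
      rw [e1, List.getElem?_append_left hpos]
    have a3 := a1.trans a2.symm
    rw [List.getElem?_eq_getElem hc, List.getElem?_eq_getElem h0] at a3
    exact Option.some.inj a3
  have e3 := congrArg Prod.fst e2
  rw [db_sign f g s _ hc, db_sign f g s _ h0] at e3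
  have e4 : t.length % 2 = 0 := by
    by_contra hne
    have : t.length % 2 = 1 := by omega
    simp [this] at e3
  obtain ⟨c, hc2⟩ : ∃ c, t.length = 2 * c := ⟨t.length / 2, by omega⟩
  have e5 : t = db f g (s.take c) := by
    rw [← db_take, ← hc2, e1, List.take_left']
    rfl
  rw [e5, ← db_rep] at ht
  have := h _ _ (db_inj f g hf hg _ _ ht)
  omega

end

section

variable {G G' : Type} [Group G] [Group G']

lemma cr_of_ne (r : List (Bool × G)) (h : ∀ p ∈ r, p.2 ≠ 1) : CR r := by
  unfold CR
  have : ∀ l : List (Bool × G), (∀ p ∈ l, p.2 ≠ 1) →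
      l.IsChain fun p q => p.1 ≠ q.1 → p.2 ≠ 1 := by
    intro l
    induction l with
    | nil => intro _; exact List.isChain_nil
    | cons p l ih =>
      intro hl
      have ih' := ih fun q hq => hl q (List.mem_cons_of_mem _ hq)
      cases l with
      | nil => exact List.isChain_singleton _
      | cons q l =>
        exact List.isChain_cons_cons.2 ⟨fun _ => hl p List.mem_cons_self, ih'⟩
  refine this _ fun p hp => ?_
  rcases List.mem_append.1 hp with hp | hp
  · exact h p hp
  · exact h p hp

end

section

variable {A B G : Type} [Group A] [Group B] [Group G] (f : A →* G) (g : B →* G)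

lemma sg_db (s : List (A × B)) : sg (db f g s) = 0 := by
  induction s with
  | nil => rfl
  | cons p s ih =>
    unfold sg at ih ⊢
    simp only [db_cons, List.map_cons, List.sum_cons, ih]
    simp

lemma xs_false (s : List (A × B)) :
    Xs false (db f g s) = f (s.map Prod.fst).prod := by
  induction s with
  | nil => simp [Xs]
  | cons p s ih =>
    unfold Xs at ih ⊢
    simp only [db_cons, List.map_cons, List.prod_cons, map_mul, ← ih]
    simp

lemma xs_true (s : List (A × B)) :
    Xs true (db f g s) = g (s.map Prod.snd).prod := by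
  induction s with
  | nil => simp [Xs]
  | cons p s ih =>
    unfold Xs at ih ⊢
    simp only [db_cons, List.map_cons, List.prod_cons, map_mul, ← ih]
    simp

end

/-- the word of the doubled list -/
lemma wd_db {A B P : Type} [Group A] [Group B] [Group P] (φ : Cop A B →* P) (ν : P)
    (s : List (A × B)) :
    wd φ ν (db (inl : A →* Cop A B) (inr : B →* Cop A B) s) =
      ν⁻¹ * (s.map fun p => φ (inl p.1) * (ν * φ (inr p.2) * ν⁻¹)).prod * ν := by
  induction s with
  | nil => simp [wd]
  | cons p s ih =>
    unfold wd at ih ⊢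
    simp only [db_cons, List.map_cons, List.prod_cons, ih]
    simp only [Bool.false_eq_true, if_false, if_true]
    group

/-- the image of the word `ow` -/
lemma map_ow {A B P : Type} [Group A] [Group B] [Group P] (φ : Cop A B →* P)
    (s : List (A × B)) : φ (ow s) = (s.map fun p => φ (inl p.1) * φ (inr p.2)).prod := by
  unfold ow
  rw [map_list_prod, List.map_map]
  congr 1
  apply List.map_congr_left
  intro p _
  simp

end OO_

open OO_

/-- the group `Oq` embeds in the group of the doubled list -/
theorem OO_.emb (k : ℕ) {A B : Type} [Group A] [Group B] (s : List (A × B)) :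
    ∃ Φ : Oq k s →* GamF k (fun _ : Unit => db (inl : A →* Cop A B) (inr : B →* Cop A B) s),
      Function.Injective Φ ∧ (∀ a, Φ (Quo.mk _ (inl a)) = GamF.of k _ (inl a)) ∧
      ∃ u, ∀ b, Φ (Quo.mk _ (inr b)) = u * GamF.of k _ (inr b) * u⁻¹ := by
  set r : Unit → List (Bool × Cop A B) :=
    fun _ => db (inl : A →* Cop A B) (inr : B →* Cop A B) s with hr
  set ν : GamF k r := GamF.t k r () with hν
  -- the homomorphism
  let φ : Cop A B →* GamF k r := Monoid.Coprod.lift ((GamF.of k r).comp inl)
    ((MulAut.conj ν).toMonoidHom.comp ((GamF.of k r).comp inr))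
  have hφ1 : ∀ a, φ (inl a) = GamF.of k r (inl a) := fun a => by simp [φ]
  have hφ2 : ∀ b, φ (inr b) = ν * GamF.of k r (inr b) * ν⁻¹ := fun b => by simp [φ]
  have hrel : wd (GamF.of k r) ν (r ()) ^ k = 1 := by
    have h1 : Quo.mk _ (wd inl (inr (FreeGroup.of ())) (r ()) ^ k) = (1 : GamF k r) :=
      Quo.mk_rel ⟨(), rfl⟩
    rw [map_pow] at h1
    rw [← h1]
    congr 1
    unfold wd
    rw [map_list_prod, List.map_map]
    congr 1
    apply List.map_congr_left
    intro p _
    simp only [Function.comp_apply, map_mul]
    congr 1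
    by_cases hp : p.1 = true
    · simp only [hp, if_true]; rfl
    · simp only [hp, if_false, map_inv, Bool.false_eq_true]; rfl
  have hΦ : ∀ x ∈ ({ow s ^ k} : Set (Cop A B)), φ x = 1 := by
    rintro x hx
    rw [Set.mem_singleton_iff] at hx
    rw [hx, map_pow, map_ow]
    rw [wd_db] at hrel
    simp only [hφ1, hφ2]
    set w := (s.map fun p => (GamF.of k r) (inl p.1) * (ν * (GamF.of k r) (inr p.2) * ν⁻¹)).prod
      with hw
    have h2 : (ν⁻¹ * w * ν) = ν⁻¹ * w * (ν⁻¹)⁻¹ := by rw [inv_inv]
    rw [h2, conj_pow] at hrel
    have h3 : ν⁻¹ * w ^ k = ν⁻¹ := by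
      have := mul_inv_eq_one.1 hrel
      exact this
    exact mul_left_cancel (a := ν⁻¹) (by rw [h3, mul_one])
  let Φ : Oq k s →* GamF k r := Quo.lift _ φ hΦ
  -- the other homomorphism
  let z : Cop (Oq k s) Zm := inr (Multiplicative.ofAdd 1)
  let mk : Cop A B →* Oq k s := Quo.mk _
  let ψ : Cop A B →* Cop (Oq k s) Zm := Monoid.Coprod.lift (inl.comp (mk.comp inl))
    ((MulAut.conj z⁻¹).toMonoidHom.comp (inl.comp (mk.comp inr)))
  have hψ1 : ∀ a, ψ (inl a) = inl (mk (inl a)) := fun a => by simp [ψ]
  have hψ2 : ∀ b, ψ (inr b) = z⁻¹ * inl (mk (inr b)) * z := fun b => by simp [ψ]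
  let ξ : Cop (Cop A B) (FreeGroup Unit) →* Cop (Oq k s) Zm :=
    Monoid.Coprod.lift ψ (FreeGroup.lift fun _ => z)
  have hξ : ∀ x ∈ (Set.range fun i : Unit =>
      (wd inl (inr (FreeGroup.of i)) (r i) ^ k : Cop (Cop A B) (FreeGroup Unit))), ξ x = 1 := by
    rintro x ⟨i, rfl⟩
    change ξ (wd inl (inr (FreeGroup.of i)) (r i) ^ k) = 1
    rw [map_pow, hr, wd_db]
    have h1 : ξ (inr (FreeGroup.of i)) = z := by simp [ξ]
    have h2 : ∀ x, ξ (inl x) = ψ x := fun x => by simp [ξ]
    rw [map_mul, map_mul, map_inv, h1, map_list_prod, List.map_map]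
    have h3 : (s.map (ξ ∘ fun p : A × B =>
        (inl (inl p.1 : Cop A B) : Cop (Cop A B) (FreeGroup Unit)) *
        (inr (FreeGroup.of i) * inl (inr p.2 : Cop A B) * (inr (FreeGroup.of i))⁻¹))) =
        s.map fun p => inl (mk (inl p.1)) * inl (mk (inr p.2)) := by
      apply List.map_congr_left
      intro p _
      simp only [Function.comp_apply, map_mul, map_inv, h1, h2, hψ1, hψ2]
      group
    rw [h3]
    have h4 : (s.map fun p => (inl (mk (inl p.1)) * inl (mk (inr p.2)) : Cop (Oq k s) Zm)).prod =
        inl (mk (ow s)) := by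
      have := map_ow ((inl : Oq k s →* Cop (Oq k s) Zm).comp mk) s
      exact this.symm
    rw [h4]
    have h5 : mk (ow s) ^ k = 1 := by
      rw [← map_pow]
      exact Quo.mk_rel rfl
    have h6 : (z⁻¹ * inl (mk (ow s)) * z) = z⁻¹ * inl (mk (ow s)) * (z⁻¹)⁻¹ := by rw [inv_inv]
    rw [h6, conj_pow, ← map_pow, h5, map_one, mul_one, mul_inv_cancel]
  let Ξ : GamF k r →* Cop (Oq k s) Zm := Quo.lift _ ξ hξ
  have hΞ1 : ∀ x, Ξ (GamF.of k r x) = ψ x := by
    intro x
    change ξ (inl x) = ψ x
    simp [ξ]
  have hΞ2 : Ξ ν = z := by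
    change ξ (inr (FreeGroup.of ())) = z
    simp [ξ]
  have hcomp : ∀ y, Ξ (Φ y) = inl y := by
    have : Ξ.comp Φ = inl := by
      apply Quo.hom_ext
      intro x
      have h1 : (Ξ.comp φ) = inl.comp mk := by
        apply Monoid.Coprod.hom_ext
        · ext a
          simp only [MonoidHom.comp_apply, hφ1, hΞ1, hψ1]
        · ext b
          simp only [MonoidHom.comp_apply, hφ2, map_mul, map_inv, hΞ1, hΞ2, hψ2]
          group
      exact DFunLike.congr_fun h1 x
    exact fun y => DFunLike.congr_fun this y
  refine ⟨Φ, ?_, ?_, ν, ?_⟩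
  · intro x y hxy
    have := congrArg Ξ hxy
    rw [hcomp, hcomp] at this
    exact Monoid.Coprod.inl_injective this
  · intro a
    exact hφ1 a
  · intro b
    exact hφ2 b

theorem p_OO (hCT : T_CT) (hC1 : T_C1) (hC3 : T_C3) (hVC : T_VC) : T_OO := by
  intro m hFE n hn hnm k hk A B A' B' _ _ _ _ α β s hA hB hA' hB' hs hne hpr
  have hG : InC k (Cop A B) := hC3 k A B hA hB
  have hG' : InC 1 (Cop A' B') := hC3 1 A' B' hA' hB'
  set r : Unit → List (Bool × Cop A B) :=
    fun _ => db (inl : A →* Cop A B) (inr : B →* Cop A B) s with hr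
  let π : Cop A B →* Cop A' B' := Monoid.Coprod.map α β
  have hmp : ∀ s : List (A × B), mp π (db (inl : A →* Cop A B) (inr : B →* Cop A B) s) =
      db (inl : A' →* Cop A' B') (inr : B' →* Cop A' B') (s.map (Prod.map α β)) := by
    intro s
    induction s with
    | nil => rfl
    | cons p s ih =>
      unfold mp at ih ⊢
      simp only [db_cons, List.map_cons, ih]
      simp [π]
  obtain ⟨p₀, hp₀⟩ : ∃ p₀, p₀ ∈ s := by
    apply List.exists_mem_of_ne_nil
    rintro rfl
    simp at hs
    omega
  have hmem : ∀ p ∈ s, (false, (inl p.1 : Cop A B)) ∈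
      db (inl : A →* Cop A B) (inr : B →* Cop A B) s ∧ (true, (inr p.2 : Cop A B)) ∈
      db (inl : A →* Cop A B) (inr : B →* Cop A B) s := by
    intro p hp
    constructor
    · exact List.mem_flatMap.2 ⟨p, hp, by simp⟩
    · exact List.mem_flatMap.2 ⟨p, hp, by simp⟩
  -- the main point
  have key : ∀ (K : Type) [Group K] (F : Cop A' B' →* K), InC 1 K →
      F (inl (s.map fun p => α p.1).prod) * F (inr (s.map fun p => β p.2).prod) = 1 →
      (∃ p ∈ r (), F (π p.2) ≠ 1) →
      Function.Injective (GamF.of k r) ∧ InC k (GamF k r) := by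
    intro K _ F hK hF hp
    obtain ⟨p, hp, hpne⟩ := hp
    refine hFE K {F (π p.2)} ?_ k hk (Cop A B) (Cop A' B') π F Unit r hG hG' fun _ => ?_
    · refine hVC K hK _ (Set.finite_singleton _) ?_
      intro h
      exact hpne (Set.mem_singleton_iff.1 h).symm
    · refine ⟨?_, ?_, ?_, Or.inr ⟨?_, ?_⟩, p, hp, rfl⟩
      · rw [hr]
        rw [db_length, hs]
        exact hnm
      · refine cr_of_ne _ fun q hq => ?_
        rw [hr, hmp] at hq
        obtain ⟨u, hu, hq⟩ := List.mem_flatMap.1 hq
        obtain ⟨v, hv, rfl⟩ := List.mem_map.1 hu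
        have := hne v hv
        simp only [Prod.map_fst, Prod.map_snd, List.mem_cons, List.not_mem_nil, or_false] at hq
        rcases hq with rfl | rfl
        · intro h
          exact this.1 (Monoid.Coprod.inl_injective (h.trans (map_one _).symm))
        · intro h
          exact this.2 (Monoid.Coprod.inr_injective (h.trans (map_one _).symm))
      · rw [hr, hmp]
        exact db_pr _ _ Monoid.Coprod.inl_injective Monoid.Coprod.inr_injective _ hpr
      · exact sg_db _ _ s
      · rw [hr, xs_false, xs_true]
        have h1 : π (inl (s.map Prod.fst).prod) = inl (s.map fun p => α p.1).prod := by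
          simp only [π, map_list_prod, List.map_map]
          rfl
        have h2 : π (inr (s.map Prod.snd).prod) = inr (s.map fun p => β p.2).prod := by
          simp only [π, map_list_prod, List.map_map]
          rfl
        rw [h1, h2]
        exact hF
  have hfin : Function.Injective (GamF.of k r) ∧ InC k (GamF k r) := by
    have hne0 := hne p₀ hp₀
    have hπ1 : π (inl p₀.1) = inl (α p₀.1) := by simp [π]
    have hπ2 : π (inr p₀.2) = inr (β p₀.2) := by simp [π]
    by_cases hX : (s.map fun p => α p.1).prod = 1
    · refine key A' Monoid.Coprod.fst hA' ?_ ⟨_, (hmem p₀ hp₀).1, ?_⟩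
      · rw [hX]
        simp
      · rw [hπ1]
        simpa using hne0.1
    · by_cases hY : (s.map fun p => β p.2).prod = 1
      · refine key B' Monoid.Coprod.snd hB' ?_ ⟨_, (hmem p₀ hp₀).2, ?_⟩
        · rw [hY]
          simp
        · rw [hπ2]
          simpa using hne0.2
      · obtain ⟨h1, h2, h3⟩ := hCT A' B' _ _ hA' hB' hX hY
        refine key _ (Quo.mk _) h3 ?_ ⟨_, (hmem p₀ hp₀).1, ?_⟩
        · rw [← map_mul]
          exact Quo.mk_rel rfl
        · rw [hπ1]
          intro h
          exact hne0.1 (h1 (h.trans (map_one _).symm))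
  obtain ⟨Φ, hΦ, hΦ1, u, hΦ2⟩ := OO_.emb k s
  refine ⟨?_, ?_, hC1 k _ hfin.2 _ Φ hΦ⟩
  · intro a a' h
    have h1 := congrArg Φ h
    have h2 : GamF.of k r (inl a) = GamF.of k r (inl a') := by
      rw [← hΦ1 a, ← hΦ1 a']
      exact h1
    exact Monoid.Coprod.inl_injective (hfin.1 h2)
  · intro b b' h
    have h1 := congrArg Φ h
    have h2 : u * GamF.of k r (inr b) * u⁻¹ = u * GamF.of k r (inr b') * u⁻¹ := by
      rw [← hΦ2 b, ← hΦ2 b']
      exact h1
    have h3 := mul_left_cancel (mul_right_cancel h2)
    exact Monoid.Coprod.inr_injective (hfin.1 h3)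

end

end ORG
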