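import Pool.Agent.ORG.Targets2

/-!
# ORG: every one-relator group lies in some class (target `T_OR`)
-/

set_option autoImplicit false

open Monoid.Coprod

namespace ORG

noncomputable section

/-- one more letter -/
def OR_e (n : ℕ) : FreeGroup (Fin (n + 1)) →* Cop (FreeGroup (Fin n)) Zm :=
  FreeGroup.lift (Fin.cases (inr (Multiplicative.ofAdd 1)) fun i => inl (FreeGroup.of i))

/-- the inverse homomorphism -/
def OR_e' (n : ℕ) : Cop (FreeGroup (Fin n)) Zm →* FreeGroup (Fin (n + 1)) :=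
  Monoid.Coprod.lift (FreeGroup.map Fin.succ) (zpowersHom _ (FreeGroup.of 0))

lemma OR_e'_e (n : ℕ) (x : FreeGroup (Fin (n + 1))) : OR_e' n (OR_e n x) = x := by
  have : (OR_e' n).comp (OR_e n) = MonoidHom.id _ := by
    apply FreeGroup.ext_hom
    intro i
    refine Fin.cases ?_ (fun i => ?_) i
    · simp [OR_e, OR_e']
    · simp [OR_e, OR_e']
  exact DFunLike.congr_fun this x

/-- an injective homomorphism between quotients -/
lemma OR_quo {P P' : Type} [Group P] [Group P'] (e : P →* P') (e' : P' →* P)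
    (h : ∀ x, e' (e x) = x) (r : P) : ∃ f : Quo ({r} : Set P) →* Quo ({e r} : Set P'),
    Function.Injective f := by
  have h1 : ∀ x ∈ ({r} : Set P), ((Quo.mk ({e r} : Set P')).comp e) x = 1 := by
    rintro x rfl
    exact Quo.mk_rel (Set.mem_singleton _)
  have h2 : ∀ x ∈ ({e r} : Set P'), ((Quo.mk ({r} : Set P)).comp e') x = 1 := by
    rintro x rfl
    change Quo.mk ({r} : Set P) (e' (e r)) = 1
    rw [h]
    exact Quo.mk_rel (Set.mem_singleton _)
  refine ⟨Quo.lift _ _ h1, inj_of_left _ (Quo.lift _ _ h2) ?_⟩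
  apply Quo.hom_ext
  intro x
  change Quo.mk ({r} : Set P) (e' (e x)) = Quo.mk ({r} : Set P) x
  rw [h]

/-- Every one-relator group lies in some class. -/
theorem p_OR (hST : T_ST) (hC1 : T_C1) (hC3 : T_C3) (hCF : T_CF) : T_OR := by
  have key : ∀ (n : ℕ) (r : FreeGroup (Fin n)),
      ∃ k : ℕ, 1 ≤ k ∧ InC k (Quo ({r} : Set (FreeGroup (Fin n)))) := by
    intro n
    induction n with
    | zero =>
      intro r
      refine ⟨1, le_rfl, hC1 1 Unit (hCF 1).2.2.2.2 _ 1 ?_⟩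
      intro a b _
      obtain ⟨x, rfl⟩ := Quo.mk_surj _ a
      obtain ⟨y, rfl⟩ := Quo.mk_surj _ b
      rw [Subsingleton.elim x y]
    | succ n ih =>
      intro r
      obtain ⟨f, hf⟩ := OR_quo (OR_e n) (OR_e' n) (OR_e'_e n) r
      rcases hST (FreeGroup (Fin n)) (fun k _ => (hCF k).2.1 _) (OR_e n r) with
        ⟨q, hq, hQ⟩ | ⟨g, Θ, hΘ⟩
      · exact ⟨q, hq, hC1 q _ hQ _ f hf⟩
      · obtain ⟨k, hk, hK⟩ := ih g
        exact ⟨k, hk, hC1 k _ (hC3 k _ _ hK (hCF k).2.2.2.1) _ (Θ.comp f) (hΘ.comp hf)⟩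
  exact key

end

end ORG
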