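import Pool.Agent.ORG.Targets1

/-!
# ORG: `T_PUSH`

Presentations over a group and over a larger group, by amalgamated products.
-/

set_option autoImplicit false

open Monoid.Coprod

namespace ORG

noncomputable section

namespace PUSH_

/-- the two factors of an amalgamated product -/
def Fam (X Y : Type) : Bool → Type := fun b => Bool.rec X Y b

instance Fam.group {X Y : Type} [Group X] [Group Y] : ∀ b, Group (Fam X Y b)
  | false => inferInstanceAs (Group X)
  | true => inferInstanceAs (Group Y)

/-- the maps from the amalgamated subgroup -/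
def fam {H X Y : Type} [Group H] [Group X] [Group Y] (f : H →* X) (g : H →* Y) :
    ∀ b, H →* Fam X Y b
  | false => f
  | true => g

/-- amalgamated products exist -/
lemma exists_amalgam {H X Y : Type} [Group H] [Group X] [Group Y] (f : H →* X) (g : H →* Y)
    (hf : Function.Injective f) (hg : Function.Injective g) :
    ∃ (Z : Type) (_ : Group Z) (i : X →* Z) (j : Y →* Z), Function.Injective i ∧
      Function.Injective j ∧ i.comp f = j.comp g := by
  have hφ : ∀ b, Function.Injective (fam f g b) := by
    intro b
    cases b
    · exact hf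
    · exact hg
  refine ⟨Monoid.PushoutI (fam f g), inferInstance,
    (Monoid.PushoutI.of false : Fam X Y false →* _),
    (Monoid.PushoutI.of true : Fam X Y true →* _), Monoid.PushoutI.of_injective hφ false,
    Monoid.PushoutI.of_injective hφ true, ?_⟩
  exact (Monoid.PushoutI.of_comp_eq_base (φ := fam f g) false).trans
    (Monoid.PushoutI.of_comp_eq_base (φ := fam f g) true).symm

end PUSH_

/-- presentations over a group and over a larger group -/
theorem p_PUSH : T_PUSH := by
  intro B₀ B I _ _ φ R₀ hφ hR
  obtain ⟨Z, _, i, j, hi, hj, hij⟩ :=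
    PUSH_.exists_amalgam ((Quo.mk R₀).comp inl) φ hR hφ
  -- the homomorphism from `B * F(I)`
  set m : Cop B₀ (FreeGroup I) →* Cop B (FreeGroup I) :=
    Monoid.Coprod.map φ (MonoidHom.id (FreeGroup I)) with hm
  let k : Cop B (FreeGroup I) →* Z := Monoid.Coprod.lift j (i.comp ((Quo.mk R₀).comp inr))
  have hk : k.comp m = i.comp (Quo.mk R₀) := by
    apply Monoid.Coprod.hom_ext
    · ext b
      have := DFunLike.congr_fun hij b
      simp only [MonoidHom.comp_apply] at this
      simp [k, hm, this]
    · ext x
      simp [k, hm]
  have hk' : ∀ x ∈ m '' R₀, k x = 1 := by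
    rintro _ ⟨r, hr, rfl⟩
    have := DFunLike.congr_fun hk r
    simp only [MonoidHom.comp_apply] at this
    rw [this, Quo.mk_rel hr, map_one]
  constructor
  · have h1 : Function.Injective (fun b : B => Quo.lift (m '' R₀) k hk'
        (((Quo.mk (m '' R₀)).comp inl) b)) := by
      intro b b' hb
      apply hj
      simpa [k] using hb
    exact Function.Injective.of_comp (f := Quo.lift (m '' R₀) k hk') h1
  · have h2 : Function.Injective (fun z : Quo R₀ => Quo.lift (m '' R₀) k hk'
        (Quo.lift R₀ ((Quo.mk (m '' R₀)).comp m) (fun r hr => Quo.mk_rel ⟨r, hr, rfl⟩) z)) := by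
      intro z z' hz
      obtain ⟨x, rfl⟩ := Quo.mk_surj R₀ z
      obtain ⟨x', rfl⟩ := Quo.mk_surj R₀ z'
      apply hi
      have e := DFunLike.congr_fun hk x
      have e' := DFunLike.congr_fun hk x'
      simp only [MonoidHom.comp_apply] at e e'
      simp only [Quo.lift_mk, MonoidHom.comp_apply] at hz
      rw [← e, ← e', hz]
    exact Function.Injective.of_comp (f := Quo.lift (m '' R₀) k hk') h2

end

end ORG
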