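import Pool.Agent.ORG.Targets2

/-!
# ORG: path words at the bottom level, by reflection (helper43)
-/

set_option autoImplicit false

open Monoid.Coprod

namespace ORG

noncomputable section

namespace PWB_

/-- the reflection of the levels -/
def rf (D L : Type) [Group D] [Group L] : PP D L →* PP D L := PPlift inl fun h => lev D (-h)

lemma rf_inl (D L : Type) [Group D] [Group L] (d : D) : rf D L (inl d) = inl d := by
  simp [rf]

lemma rf_lev (D L : Type) [Group D] [Group L] (h : ℤ) (l : L) :
    rf D L (lev D h l) = lev D (-h) l := by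
  simp [rf]

lemma rf_rf (D L : Type) [Group D] [Group L] (x : PP D L) : rf D L (rf D L x) = x := by
  have : (rf D L).comp (rf D L) = MonoidHom.id _ := by
    apply PP_hom_ext
    · intro d
      simp only [MonoidHom.comp_apply, rf_inl, MonoidHom.id_apply]
    · intro h l
      simp only [MonoidHom.comp_apply, rf_lev, MonoidHom.id_apply, neg_neg]
  exact DFunLike.congr_fun this x

/-- opposite signs -/
def ng {G : Type} (r : List (Bool × G)) : List (Bool × G) := r.map fun p => (!p.1, p.2)

lemma ng_ng {G : Type} (r : List (Bool × G)) : ng (ng r) = r := by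
  simp [ng, Function.comp_def]

lemma rf_pw {G : Type} [Group G] (r : List (Bool × G)) :
    ∀ s : ℤ, rf Unit G (pw s r) = pw (-s) (ng r) := by
  induction r with
  | nil => intro s; simp [pw, ng]
  | cons p r ih =>
    intro s
    obtain ⟨b, g⟩ := p
    have h : -(s + if b = true then (1 : ℤ) else -1) = -s + if (!b) = true then 1 else -1 := by
      cases b <;> simp <;> ring
    have h1 : ng ((b, g) :: r) = (!b, g) :: ng r := rfl
    rw [h1, pw, pw, map_mul, rf_lev, ih, h]

lemma hts_ng {G : Type} (r : List (Bool × G)) :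
    ∀ s : ℤ, hts (-s) (ng r) = (hts s r).map fun h => -h := by
  induction r with
  | nil => intro s; simp [hts, ng]
  | cons p r ih =>
    intro s
    obtain ⟨b, g⟩ := p
    have h : -(s + if b = true then (1 : ℤ) else -1) = -s + if (!b) = true then 1 else -1 := by
      cases b <;> simp <;> ring
    have h1 : ng ((b, g) :: r) = (!b, g) :: ng r := rfl
    rw [h1, hts, hts, List.map_cons, ← ih, h]

lemma sg_ng {G : Type} (r : List (Bool × G)) : sg (ng r) = -sg r := by
  induction r with
  | nil => simp [sg, ng]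
  | cons p r ih =>
    obtain ⟨b, g⟩ := p
    have h1 : ng ((b, g) :: r) = (!b, g) :: ng r := rfl
    unfold sg at ih ⊢
    rw [h1, List.map_cons, List.map_cons, List.sum_cons, List.sum_cons, ih]
    cases b <;> simp <;> ring

lemma mp_ng {G G' : Type} [Group G] [Group G'] (π : G →* G') (r : List (Bool × G)) :
    mp π (ng r) = ng (mp π r) := by
  simp [mp, ng, Function.comp_def]

lemma CR_ng {G : Type} [Group G] {r : List (Bool × G)} (h : CR r) : CR (ng r) := by
  unfold CR at h ⊢
  have h1 : ng r ++ ng r = (r ++ r).map fun p => (!p.1, p.2) := by simp [ng]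
  rw [h1, List.isChain_map]
  refine h.imp fun p q hpq h2 => hpq fun h3 => h2 (by rw [h3])

lemma Pr_ng {G : Type} {r : List (Bool × G)} (h : Pr r) : Pr (ng r) := by
  intro q s hs
  refine h q (ng s) ?_
  rw [← ng_ng r, hs]
  simp [ng, List.map_flatten]

lemma seg_rf {D L : Type} [Group D] [Group L] {a b : ℤ} {x : PP D L} (hx : x ∈ seg D L a b) :
    rf D L x ∈ seg D L (-b) (-a) := by
  have h : seg D L a b ≤ (seg D L (-b) (-a)).comap (rf D L) := by
    unfold seg
    rw [Subgroup.closure_le]
    rintro x (⟨d, rfl⟩ | ⟨h, h1, h2, l, rfl⟩)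
    · refine Subgroup.subset_closure (Or.inl ⟨d, ?_⟩)
      rw [rf_inl]
    · refine Subgroup.subset_closure (Or.inr ⟨-h, by omega, by omega, l, ?_⟩)
      rw [rf_lev]
  exact h hx

lemma addOk {k : ℕ} {D L D' L' : Type} [Group D] [Group L] [Group D'] [Group L']
    {δ : D →* D'} {l : L →* L'} {ρ : PP D L} {a b t : ℤ}
    (h : AddOk k δ l (rf D L ρ) (seg D' L' (-b) (-a)) (-t)) :
    AddOk k δ l ρ (seg D' L' a b) t := by
  intro G G' _ _ θ f f' hG hG' hc hi
  have hn : (newl (f.comp (rf D L)) (-t)) (rf D L ρ) = newl f t ρ := by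
    have : (newl (f.comp (rf D L)) (-t)).comp (rf D L) = newl f t := by
      apply PP_hom_ext
      · intro d
        simp only [MonoidHom.comp_apply, rf_inl, newl, PPlift_inl]
      · intro h l
        simp only [MonoidHom.comp_apply, rf_lev, newl, PPlift_lev]
        by_cases hh : h = t
        · simp [hh]
        · have h2 : ¬ (-h = -t) := fun h3 => hh (neg_injective h3)
          rw [if_neg h2, if_neg hh]
          simp only [MonoidHom.comp_apply, rf_lev, neg_neg]
    exact DFunLike.congr_fun this ρ
  have hm : ∀ p, PPmap δ l (rf D L p) = rf D' L' (PPmap δ l p) := by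
    intro p
    have : (PPmap δ l).comp (rf D L) = (rf D' L').comp (PPmap δ l) := by
      apply PP_hom_ext
      · intro d
        simp only [MonoidHom.comp_apply, rf_inl, PPmap, PPlift_inl]
      · intro h l
        simp only [MonoidHom.comp_apply, rf_lev, PPmap, PPlift_lev]
    exact DFunLike.congr_fun this p
  have := h G G' θ (f.comp (rf D L)) (f'.comp (rf D' L')) hG hG' (fun p => by
    rw [MonoidHom.comp_apply, MonoidHom.comp_apply, hc, hm]) (by
    intro x hx y hy hxy
    have hx' := seg_rf (SetLike.mem_coe.1 hx)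
    have hy' := seg_rf (SetLike.mem_coe.1 hy)
    rw [neg_neg, neg_neg] at hx' hy'
    have h3 := hi hx' hy' hxy
    rw [← rf_rf D' L' x, h3, rf_rf])
  rw [hn] at this
  exact this

end PWB_

open PWB_ in
theorem p_PWB (hT : T_PWT) : T_PWB := by
  intro m hO k hk G G' _ _ π r hG hG' hm hcr hpr hsg s t b ht hb
  apply PWB_.addOk
  rw [rf_pw]
  have h1 : -(t + 1) = -t - 1 := by ring
  rw [h1]
  refine hT m hO k hk G G' π (ng r) hG hG' ?_ ?_ ?_ ?_ (-s) (-t) (-b) ?_ ?_
  · simpa [ng] using hm
  · rw [mp_ng]
    exact CR_ng hcr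
  · rw [mp_ng]
    exact Pr_ng hpr
  · rw [sg_ng, hsg, neg_zero]
  · rw [hts_ng]
    exact List.mem_map.2 ⟨t, ht, rfl⟩
  · rw [hts_ng]
    intro h hh
    obtain ⟨h', h2, rfl⟩ := List.mem_map.1 hh
    have := hb h' h2
    omega

end

end ORG
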