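import Pool.Agent.ORG.Targets2

/-!
# ORG, MP_34a894_al: ROOT, the primitive root of a list (helper14)
-/

set_option autoImplicit false

namespace ORG

namespace ROOT_

theorem flatten_mul {α : Type} (q q' : ℕ) (s : List α) :
    (List.replicate q (List.replicate q' s).flatten).flatten =
      (List.replicate (q * q') s).flatten := by
  induction q with
  | zero => simp
  | succ q ih =>
    rw [List.replicate_succ', List.flatten_append, ih, Nat.succ_mul, List.replicate_add,
      List.flatten_append]
    simp

theorem aux {α : Type} (n : ℕ) : ∀ r : List α, r.length ≤ n → r ≠ [] →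
    ∃ (q : ℕ) (s : List α), 1 ≤ q ∧ Pr s ∧ r = (List.replicate q s).flatten := by
  induction n with
  | zero =>
    intro r hr hne
    exact absurd (List.length_eq_zero_iff.1 (Nat.le_zero.1 hr)) hne
  | succ n ih =>
    intro r hr hne
    by_cases hP : Pr r
    · exact ⟨1, r, le_rfl, hP, by simp⟩
    · unfold Pr at hP
      push Not at hP
      obtain ⟨q, s, hrs, hq⟩ := hP
      have hq0 : q ≠ 0 := by
        rintro rfl
        exact hne (by simpa using hrs)
      have hs : s ≠ [] := by
        rintro rfl
        exact hne (by rw [hrs]; simp)
      have hlen : r.length = q * s.length := by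
        rw [hrs, List.length_flatten]
        simp
      have hsl : 1 ≤ s.length := List.length_pos_iff.2 hs
      have hq2 : 2 ≤ q := by omega
      have h2 : 2 * s.length ≤ q * s.length := Nat.mul_le_mul_right _ hq2
      obtain ⟨q', s', hq', hP', hs'⟩ := ih s (by omega) hs
      refine ⟨q * q', s', Nat.mul_pos (by omega) hq', hP', ?_⟩
      rw [hrs, hs', flatten_mul]

end ROOT_

/-- ROOT -/
theorem p_ROOT : T_ROOT := fun _ r hr => ROOT_.aux r.length r le_rfl hr

end ORG
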