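import Pool.Agent.ORG.Targets2

/-!
# ORG: rotation of cyclic chains and of primitive lists
-/

set_option autoImplicit false

namespace ORG

namespace ROT_

private lemma flat_snoc {α : Type} (x : α) (t : List α) (q : ℕ) :
    (List.replicate q (x :: t)).flatten ++ [x] =
      x :: (List.replicate q (t ++ [x])).flatten := by
  induction q with
  | zero => simp
  | succ q ih =>
    rw [List.replicate_succ, List.flatten_cons, List.append_assoc, ih, List.replicate_succ,
      List.flatten_cons]
    simp

private lemma rot1 {α : Type} (q : ℕ) (s : List α) :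
    ∃ s' : List α, ((List.replicate q s).flatten).rotate 1 = (List.replicate q s').flatten := by
  cases q with
  | zero => exact ⟨[], by simp⟩
  | succ q =>
    cases s with
    | nil => exact ⟨[], by simp⟩
    | cons x t =>
      refine ⟨t ++ [x], ?_⟩
      rw [List.replicate_succ, List.flatten_cons, List.cons_append, List.rotate_cons_succ,
        List.rotate_zero, List.append_assoc, flat_snoc, List.replicate_succ, List.flatten_cons]
      simp

private lemma rotn {α : Type} (n q : ℕ) (s : List α) :
    ∃ s' : List α, ((List.replicate q s).flatten).rotate n = (List.replicate q s').flatten := by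
  induction n with
  | zero => exact ⟨s, by simp⟩
  | succ n ih =>
    obtain ⟨s', h⟩ := ih
    obtain ⟨s'', h'⟩ := rot1 q s'
    exact ⟨s'', by rw [← List.rotate_rotate, h, h']⟩

end ROT_

open ROT_ in
theorem p_ROT : T_ROT := by
  intro α R l l'
  refine ⟨fun h => ?_, fun h q s hs => ?_⟩
  · cases l with
    | nil => simpa using h
    | cons a l0 =>
      have e1 : (a :: l0 ++ l') ++ (a :: l0 ++ l') = (a :: l0 ++ l' ++ a :: l0) ++ l' := by simp
      have e2 : (a :: l0 ++ l') ++ (a :: l0 ++ l') = (a :: l0) ++ (l' ++ (a :: l0 ++ l')) := by
        simp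
      have e3 : (l' ++ a :: l0) ++ (l' ++ a :: l0) = l' ++ (a :: l0 ++ l' ++ a :: l0) := by simp
      have h1 := h
      rw [e1, List.isChain_append] at h1
      rw [e2, List.isChain_append, List.isChain_append] at h
      rw [e3, List.isChain_append]
      refine ⟨h.2.1.1, h1.1, ?_⟩
      intro x hx y hy
      refine h.2.1.2.2 x hx y ?_
      simpa using hy
  · obtain ⟨s', h'⟩ := rotn l'.length q s
    refine h q s' ?_
    rw [← h', ← hs, List.rotate_append_length_eq]

end ORG
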