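import Pool.Agent.ORG.Targets2

/-!
# ORG, MP_34a894_al: ST, one-relator groups over `G * ℤ` (helper42)
-/

set_option autoImplicit false

open Monoid.Coprod

namespace ORG

namespace ST_

/-- membership in the class only depends on the normal subgroup -/
theorem key (k : ℕ) {P : Type} [Group P] (N N' : Subgroup P) [N.Normal]
    [N'.Normal] (h : N = N') : InC k (P ⧸ N) → InC k (P ⧸ N') := by
  subst h
  exact id

/-- an element and its conjugate have the same normal closure -/
theorem closure_conj {P : Type} [Group P] (x v : P) :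
    Subgroup.normalClosure ({x} : Set P) = Subgroup.normalClosure ({v * x * v⁻¹} : Set P) := by
  apply le_antisymm
  · apply Subgroup.normalClosure_le_normal
    intro y hy
    rw [Set.mem_singleton_iff] at hy
    subst hy
    have h1 : v * y * v⁻¹ ∈ Subgroup.normalClosure ({v * y * v⁻¹} : Set P) :=
      Subgroup.subset_normalClosure (Set.mem_singleton _)
    have h2 := Subgroup.normalClosure_normal.conj_mem _ h1 v⁻¹
    have h3 : v⁻¹ * (v * y * v⁻¹) * v⁻¹⁻¹ = y := by group
    rw [h3] at h2
    exact h2
  · apply Subgroup.normalClosure_le_normal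
    intro y hy
    rw [Set.mem_singleton_iff] at hy
    subst hy
    have h1 : x ∈ Subgroup.normalClosure ({x} : Set P) :=
      Subgroup.subset_normalClosure (Set.mem_singleton _)
    exact Subgroup.normalClosure_normal.conj_mem _ h1 v

theorem wd_append {G P : Type} [Group G] [Group P] (φ : G →* P) (ν : P)
    (r s : List (Bool × G)) : wd φ ν (r ++ s) = wd φ ν r * wd φ ν s := by
  simp [wd]

theorem wd_rep {G P : Type} [Group G] [Group P] (φ : G →* P) (ν : P) (q : ℕ)
    (s : List (Bool × G)) : wd φ ν (List.replicate q s).flatten = wd φ ν s ^ q := by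
  induction q with
  | zero => simp [wd]
  | succ q ih => rw [List.replicate_succ', List.flatten_append, wd_append, ih, pow_succ]; simp

theorem cr_of_rep {G : Type} [Group G] {q : ℕ} (hq : 1 ≤ q) {s : List (Bool × G)}
    (h : CR (List.replicate q s).flatten) : CR s := by
  have h1 : (List.replicate q s).flatten ++ (List.replicate q s).flatten =
      (s ++ s) ++ (List.replicate (2 * q - 2) s).flatten := by
    rw [← List.flatten_append, List.replicate_append_replicate]
    have : q + q = 2 + (2 * q - 2) := by omega
    rw [this, ← List.replicate_append_replicate, List.flatten_append]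
    simp [List.replicate]
  unfold CR at h ⊢
  rw [h1] at h
  exact h.left_of_append

theorem mp_id {G : Type} [Group G] (r : List (Bool × G)) : mp (MonoidHom.id G) r = r := by
  simp [mp]

end ST_

theorem p_ST (h_CJ : T_CJ) (h_ROOT : T_ROOT) (h_EA : T_EA) : T_ST := by
  intro G _ hG w
  obtain ⟨v, ⟨g, hw⟩ | ⟨r, hr, hcr, hw⟩⟩ := h_CJ G w
  · right
    have hR : Quo.mk ({g} : Set G) g = 1 := Quo.mk_rel (Set.mem_singleton g)
    have hW : Quo.mk ({w} : Set (Cop G Zm)) (inl g) = 1 := by
      have h1 : Quo.mk ({w} : Set (Cop G Zm)) w = 1 := Quo.mk_rel (Set.mem_singleton w)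
      have h2 : (inl g : Cop G Zm) = v⁻¹ * w * v := by rw [hw]; group
      rw [h2, map_mul, map_mul, h1, map_inv]
      group
    let Θ : Quo ({w} : Set (Cop G Zm)) →* Cop (Quo ({g} : Set G)) Zm :=
      Quo.lift _ (Monoid.Coprod.map (Quo.mk ({g} : Set G)) (MonoidHom.id Zm)) (by
        intro x hx
        rw [Set.mem_singleton_iff] at hx
        subst hx
        rw [hw]
        simp [hR])
    let Φ : Cop (Quo ({g} : Set G)) Zm →* Quo ({w} : Set (Cop G Zm)) :=
      Monoid.Coprod.lift (Quo.lift ({g} : Set G) ((Quo.mk ({w} : Set (Cop G Zm))).comp inl) (by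
        intro x hx
        rw [Set.mem_singleton_iff] at hx
        subst hx
        exact hW)) ((Quo.mk ({w} : Set (Cop G Zm))).comp inr)
    refine ⟨g, Θ, inj_of_left Θ Φ ?_⟩
    have key : Φ.comp (Monoid.Coprod.map (Quo.mk ({g} : Set G)) (MonoidHom.id Zm)) =
        Quo.mk ({w} : Set (Cop G Zm)) := by
      apply Monoid.Coprod.hom_ext
      · ext x
        simp [Φ]
      · ext
        simp [Φ]
    apply Quo.hom_ext
    intro x
    have := DFunLike.congr_fun key x
    simpa [Θ] using this
  · left
    obtain ⟨q, s, hq, hs, rfl⟩ := h_ROOT _ r hr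
    have hcs : CR s := ST_.cr_of_rep hq hcr
    refine ⟨q, hq, ?_⟩
    have h1 := (h_EA s.length q hq G G (MonoidHom.id G) s (hG q hq) (hG 1 le_rfl) rfl
      (by rw [ST_.mp_id]; exact hcs) (by rw [ST_.mp_id]; exact hs)).2
    have h2 : Subgroup.normalClosure
        ({wd inl (inr (Multiplicative.ofAdd 1)) s ^ q} : Set (Cop G Zm)) =
        Subgroup.normalClosure ({w} : Set (Cop G Zm)) := by
      rw [hw, ST_.wd_rep]
      exact ST_.closure_conj _ _
    exact ST_.key q _ _ h2 h1

end ORG
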