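import Pool.Agent.ORG.Targets2

/-!
# ORG: the substitution (target `T_SUB`)
-/

set_option autoImplicit false

open Monoid.Coprod

namespace ORG

namespace SUB_

noncomputable section

variable {H : Type} [Group H]

/-- the sign of the next letter, `b` at the end -/
def nx (b : Bool) : List (Bool × H) → Bool
  | [] => b
  | p :: _ => p.1

/-- the substitution on lists -/
def sb (b : Bool) (g : H) : List (Bool × H) → List (Bool × H)
  | [] => []
  | p :: r => (p.1, (if p.1 = b then g⁻¹ else 1) * p.2 * (if nx b r = b then 1 else g)) ::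
      sb b g r

lemma sb_length (b : Bool) (g : H) (r : List (Bool × H)) : (sb b g r).length = r.length := by
  induction r with
  | nil => rfl
  | cons p r ih => simp [sb, ih]

lemma nx_sb (b : Bool) (g : H) (r : List (Bool × H)) : nx b (sb b g r) = nx b r := by
  cases r <;> rfl

omit [Group H] in
lemma nx_append (b : Bool) (r r' : List (Bool × H)) (h : nx b r' = b) :
    nx b (r ++ r') = nx b r := by
  cases r with
  | nil => simpa [nx] using h
  | cons p r => rfl

lemma sb_append (b : Bool) (g : H) (r r' : List (Bool × H)) (h : nx b r' = b) :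
    sb b g (r ++ r') = sb b g r ++ sb b g r' := by
  induction r with
  | nil => rfl
  | cons p r ih => simp only [List.cons_append, sb, ih, nx_append b r r' h]

lemma sb_sb (b : Bool) (g : H) (r : List (Bool × H)) : sb b g⁻¹ (sb b g r) = r := by
  induction r with
  | nil => rfl
  | cons p r ih =>
    obtain ⟨e, x⟩ := p
    simp only [sb, ih, nx_sb]
    congr 2
    split_ifs <;> group

omit [Group H] in
lemma nx_flatten (b : Bool) (s : List (Bool × H)) (h : nx b s = b) (q : ℕ) :
    nx b (List.replicate q s).flatten = b := by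
  induction q with
  | zero => rfl
  | succ q ih =>
    rw [List.replicate_succ, List.flatten_cons, nx_append b _ _ ih, h]

lemma sb_flatten (b : Bool) (g : H) (s : List (Bool × H)) (h : nx b s = b) (q : ℕ) :
    sb b g (List.replicate q s).flatten = (List.replicate q (sb b g s)).flatten := by
  induction q with
  | zero => rfl
  | succ q ih =>
    rw [List.replicate_succ, List.flatten_cons, sb_append b g _ _ (nx_flatten b s h q), ih,
      List.replicate_succ, List.flatten_cons]

lemma sg_sb (b : Bool) (g : H) (r : List (Bool × H)) : sg (sb b g r) = sg r := by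
  induction r with
  | nil => rfl
  | cons p r ih =>
    simp only [sg, sb, List.map_cons, List.sum_cons] at ih ⊢
    rw [ih]

lemma nx_mp {G : Type} [Group G] (π : G →* H) (b : Bool) (r : List (Bool × G)) :
    nx b (mp π r) = nx b r := by
  cases r <;> rfl

lemma mp_sb {G : Type} [Group G] (π : G →* H) (b : Bool) (g : G) (r : List (Bool × G)) :
    mp π (sb b g r) = sb b (π g) (mp π r) := by
  induction r with
  | nil => rfl
  | cons p r ih =>
    have h1 : mp π (sb b g (p :: r)) = (p.1, π ((if p.1 = b then g⁻¹ else 1) * p.2 *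
      (if nx b r = b then 1 else g))) :: mp π (sb b g r) := rfl
    have h2 : mp π (p :: r) = (p.1, π p.2) :: mp π r := rfl
    rw [h1, h2, ih]
    simp only [sb, nx_mp]
    congr 2
    split_ifs <;> simp

/-- the relation of `CR` -/
lemma chain_sb (b : Bool) (g : H) (r : List (Bool × H))
    (h : r.IsChain fun p q => p.1 ≠ q.1 → p.2 ≠ 1) :
    (sb b g r).IsChain fun p q => p.1 ≠ q.1 → p.2 ≠ 1 := by
  induction r with
  | nil => exact List.IsChain.nil
  | cons p r ih =>
    cases r with
    | nil => exact List.IsChain.singleton _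
    | cons q r =>
      rw [List.isChain_cons_cons] at h
      have h2 := ih h.2
      have h1 := h.1
      simp only [sb] at h2 ⊢
      rw [List.isChain_cons_cons]
      refine ⟨fun hne => ?_, h2⟩
      have h3 := h1 hne
      obtain ⟨e, x⟩ := p
      obtain ⟨e', y⟩ := q
      simp only [nx] at hne h3 ⊢
      by_cases he : e = b
      · have he' : ¬ (e' = b) := fun h => hne (he.trans h.symm)
        rw [if_pos he, if_neg he']
        intro h4
        apply h3
        have : x = g * (g⁻¹ * x * g) * g⁻¹ := by group
        rw [this, h4]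
        group
      · have he' : e' = b := by
          cases b <;> cases e <;> cases e' <;> simp_all
        rw [if_neg he, if_pos he', one_mul, mul_one]
        exact h3

lemma CR_sb (b : Bool) (g : H) (r : List (Bool × H)) (hb : nx b r = b) (h : CR r) :
    CR (sb b g r) := by
  unfold CR at h ⊢
  rw [← sb_append b g r r hb]
  exact chain_sb b g _ h

lemma Pr_sb (b : Bool) (g : H) (r : List (Bool × H)) (hb : nx b r = b) (hr : r ≠ []) (h : Pr r) :
    Pr (sb b g r) := by
  intro q s hs
  have hq : q ≠ 0 := by
    rintro rfl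
    have : (sb b g r).length = 0 := by rw [hs]; rfl
    rw [sb_length] at this
    exact hr (List.length_eq_zero_iff.1 this)
  have hnx : nx b s = b := by
    cases s with
    | nil => rfl
    | cons p s =>
      obtain ⟨q', rfl⟩ := Nat.exists_eq_succ_of_ne_zero hq
      have h1 : nx b (sb b g r) = p.1 := by
        rw [hs, List.replicate_succ, List.flatten_cons]
        rfl
      rw [nx_sb, hb] at h1
      exact h1.symm
  apply h q (sb b g⁻¹ s)
  rw [← sb_flatten b g⁻¹ s hnx, ← hs, sb_sb]

/-- all coefficients trivial: a contradiction -/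
lemma exists_ne (r : List (Bool × H)) (h2 : 2 ≤ r.length) (hc : CR r) (hp : Pr r) :
    ∃ p ∈ r, p.2 ≠ 1 := by
  by_contra hcon
  push Not at hcon
  have key : ∀ (l : List (Bool × H)), (l.IsChain fun p q => p.1 ≠ q.1 → p.2 ≠ 1) →
      (∀ p ∈ l, p.2 = 1) → ∀ e, nx e l = e → l = List.replicate l.length (e, 1) := by
    intro l
    induction l with
    | nil => intro _ _ e _; rfl
    | cons p l ih =>
      intro hch hall e he
      have hp2 : p.2 = 1 := hall p (by simp)
      have hp1 : p.1 = e := he
      rw [List.length_cons, List.replicate_succ, ← ih hch.tail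
        (fun q hq => hall q (by simp [hq])) e ?_]
      · congr 1
        exact Prod.ext hp1 hp2
      · cases l with
        | nil => rfl
        | cons q l =>
          rw [List.isChain_cons_cons] at hch
          by_contra hne
          exact hch.1 (fun h => hne (h.symm.trans hp1)) hp2
  have hch : r.IsChain fun p q => p.1 ≠ q.1 → p.2 ≠ 1 := by
    unfold CR at hc
    exact hc.left_of_append
  have hne : r ≠ [] := by
    rintro rfl
    simp at h2
  obtain ⟨p, l, rfl⟩ := List.exists_cons_of_ne_nil hne
  have h3 := key _ hch hcon p.1 rfl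
  have h4 := hp (p :: l).length [(p.1, 1)] (by
    rw [h3]
    simp)
  omega

/-- the image of the letter -/
def nuv (b : Bool) (g : H) : Cop H Zm :=
  if b then inr (Multiplicative.ofAdd 1) * inl g⁻¹ else inl g * inr (Multiplicative.ofAdd 1)

/-- the substitution on the group -/
def sa (b : Bool) (g : H) : Cop H Zm →* Cop H Zm :=
  Monoid.Coprod.lift inl (zpowersHom (Cop H Zm) (nuv b g))

@[simp] lemma sa_inl (b : Bool) (g x : H) : sa b g (inl x) = inl x := by simp [sa]

@[simp] lemma sa_nu (b : Bool) (g : H) : sa b g (inr (Multiplicative.ofAdd 1)) = nuv b g := by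
  simp [sa]

lemma sa_comp (b : Bool) (g g' : H) (h : g * g' = 1) :
    (sa b g).comp (sa b g') = MonoidHom.id (Cop H Zm) := by
  have h' : g' = g⁻¹ := (inv_eq_of_mul_eq_one_right h).symm
  subst h'
  apply Monoid.Coprod.hom_ext
  · ext x
    simp
  · apply MonoidHom.ext_mint
    simp only [MonoidHom.comp_apply, sa_nu, MonoidHom.id_apply]
    cases b
    · simp only [nuv, Bool.false_eq_true, if_false, map_mul, sa_inl, sa_nu, ← mul_assoc]
      rw [← map_mul, inv_mul_cancel, MonoidHom.map_one, one_mul]
    · simp only [nuv, if_true, map_mul, sa_inl, sa_nu, mul_assoc]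
      rw [← map_mul, inv_inv, inv_mul_cancel, MonoidHom.map_one, mul_one]

lemma sa_wd (b : Bool) (g : H) (r : List (Bool × H)) :
    sa b g (wd inl (inr (Multiplicative.ofAdd 1)) r) =
      inl (if nx b r = b then 1 else g) * wd inl (inr (Multiplicative.ofAdd 1)) (sb b g r) := by
  induction r with
  | nil => simp [wd, sb, nx]
  | cons p r ih =>
    obtain ⟨e, x⟩ := p
    have h1 : ∀ (y : H) (l : List (Bool × H)),
        wd (inl : H →* Cop H Zm) (inr (Multiplicative.ofAdd 1)) ((e, y) :: l) =
        (if e then inr (Multiplicative.ofAdd 1) else (inr (Multiplicative.ofAdd 1))⁻¹) * inl y *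
          wd inl (inr (Multiplicative.ofAdd 1)) l := by
      intro y l
      simp [wd]
    have h2 : sb b g ((e, x) :: r) =
      (e, (if e = b then g⁻¹ else 1) * x * (if nx b r = b then 1 else g)) :: sb b g r := rfl
    have h3 : nx b ((e, x) :: r) = e := rfl
    have h4 : sa b g (if e then inr (Multiplicative.ofAdd 1) else (inr (Multiplicative.ofAdd 1))⁻¹) =
        inl (if e = b then 1 else g) *
          (if e then inr (Multiplicative.ofAdd 1) else (inr (Multiplicative.ofAdd 1))⁻¹) *
          inl (if e = b then g⁻¹ else 1) := by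
      cases b <;> cases e <;> simp [nuv]
    rw [h2, h1, h1, h3, map_mul, map_mul, ih, h4]
    simp only [map_mul, sa_inl, mul_assoc]

end

end SUB_

open SUB_ in
theorem p_SUB : T_SUB := by
  intro G G' _ _ π b g g' r' hcr hpr
  set L : List (Bool × G) := (b, g) :: (b, g') :: r' with hL
  have hsb : sb b g L = (b, 1) :: (b, g⁻¹ * g' * (if nx b r' = b then 1 else g)) :: sb b g r' := by
    simp only [hL, sb, nx]
    simp
  have hnxL : nx b L = b := rfl
  have hnx' : nx b (mp π L) = b := rfl
  have hne' : mp π L ≠ [] := by simp [mp, hL]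
  have hCR : CR (mp π (sb b g L)) := by
    rw [mp_sb]
    exact CR_sb b (π g) _ hnx' hcr
  have hPr : Pr (mp π (sb b g L)) := by
    rw [mp_sb]
    exact Pr_sb b (π g) _ hnx' hne' hpr
  refine ⟨g⁻¹ * g' * (if nx b r' = b then 1 else g), sb b g r', sa b g, sa b g⁻¹, ?_, ?_, ?_, ?_,
    ?_, sb_length b g r', ?_, ?_, ?_, ?_⟩
  · ext x
    simp
  · ext x
    simp
  · exact sa_comp b g g⁻¹ (mul_inv_cancel g)
  · exact sa_comp b g⁻¹ g (inv_mul_cancel g)
  · rw [sa_wd, hnxL, if_pos rfl, map_one, one_mul, hsb]
  · rw [← hsb, sg_sb]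
  · rw [← hsb]
    exact hCR
  · rw [← hsb]
    exact hPr
  · rw [← hsb]
    obtain ⟨p, hp, hp1⟩ := exists_ne (mp π (sb b g L)) (by simp [mp, hsb]) hCR hPr
    obtain ⟨p', hp', rfl⟩ := List.mem_map.1 hp
    exact ⟨p', hp', hp1⟩

end ORG
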