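import Pool.Agent.ORG.Targets2

/-!
# ORG: transfer between lists (T_TRF, helper2)
-/

set_option autoImplicit false

open Monoid.Coprod

namespace ORG

theorem p_TRF : T_TRF := by
  intro k G _ r r' a b v ha hb hab hba h
  have hbv : b (wd inl (inr (Multiplicative.ofAdd 1)) r') =
      (b v)⁻¹ * wd inl (inr (Multiplicative.ofAdd 1)) r * b v := by
    have h1 : wd inl (inr (Multiplicative.ofAdd 1)) r' =
        v⁻¹ * a (wd inl (inr (Multiplicative.ofAdd 1)) r) * v := by
      rw [h]
      group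
    have h2 : b (a (wd inl (inr (Multiplicative.ofAdd 1)) r)) =
        wd inl (inr (Multiplicative.ofAdd 1)) r := DFunLike.congr_fun hba _
    rw [h1, map_mul, map_mul, map_inv, h2]
  let Θ : Gam k r →* Gam k r' := Quo.lift _ ((Quo.mk _).comp a) (by
    rintro x rfl
    rw [MonoidHom.comp_apply, map_pow, h, conj_pow, map_mul, map_mul, map_inv,
      Quo.mk_rel (Set.mem_singleton _), mul_one, mul_inv_cancel])
  let Θ' : Gam k r' →* Gam k r := Quo.lift _ ((Quo.mk _).comp b) (by
    rintro x rfl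
    have h3 : (b v)⁻¹ * wd inl (inr (Multiplicative.ofAdd 1)) r * b v =
        (b v)⁻¹ * wd inl (inr (Multiplicative.ofAdd 1)) r * (b v)⁻¹⁻¹ := by rw [inv_inv]
    rw [MonoidHom.comp_apply, map_pow, hbv, h3, conj_pow, map_mul, map_mul, map_inv _ (b v)⁻¹,
      Quo.mk_rel (Set.mem_singleton _), mul_one, mul_inv_cancel])
  have hΘ : Θ'.comp Θ = MonoidHom.id _ := by
    apply Quo.hom_ext
    intro x
    change Quo.mk _ (b (a x)) = Quo.mk _ x
    rw [show b (a x) = x from DFunLike.congr_fun hba x]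
  refine ⟨Θ, inj_of_left Θ Θ' hΘ, fun g => ?_⟩
  change Quo.mk _ (a (inl g)) = Quo.mk _ (inl g)
  rw [show a (inl g) = inl g from DFunLike.congr_fun ha g]

end ORG
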