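import Pool.Agent.ORG.Targets2

set_option autoImplicit false

namespace ORG

private lemma TWO_aux {G : Type} [Group G] (r : List (Bool × G)) : ∀ (b : Bool) (g : G),
    (∃ (l : List (Bool × G)) (p q : Bool × G) (r' : List (Bool × G)),
      (b, g) :: r = l ++ p :: q :: r' ∧ p.1 = q.1) ∨
    (sg ((b, g) :: r) = 0 ∧ ∃ (l : List (Bool × G)) (p : Bool × G),
      (b, g) :: r = l ++ [p] ∧ p.1 = !b) ∨
    (sg ((b, g) :: r) = (if b then 1 else -1) ∧ ∃ (l : List (Bool × G)) (p : Bool × G),
      (b, g) :: r = l ++ [p] ∧ p.1 = b) := by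
  induction r with
  | nil =>
    intro b g
    right
    right
    refine ⟨by simp [sg], [], (b, g), rfl, rfl⟩
  | cons x r ih =>
    obtain ⟨b', g'⟩ := x
    intro b g
    have hs : sg ((b, g) :: (b', g') :: r) = (if b then (1 : ℤ) else -1) + sg ((b', g') :: r) := by
      simp [sg]
    by_cases hb : b = b'
    · left
      exact ⟨[], (b, g), (b', g'), r, rfl, hb⟩
    · have hb' : b' = !b := by
        revert hb
        cases b <;> cases b' <;> simp
      rcases ih b' g' with ⟨l, p, q, r', h, hp⟩ | ⟨h0, l, p, h, hp⟩ | ⟨h0, l, p, h, hp⟩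
      · left
        exact ⟨(b, g) :: l, p, q, r', by rw [h]; rfl, hp⟩
      · right
        right
        refine ⟨by rw [hs, h0, add_zero], (b, g) :: l, p, by rw [h]; rfl, ?_⟩
        rw [hp, hb', Bool.not_not]
      · right
        left
        refine ⟨?_, (b, g) :: l, p, by rw [h]; rfl, by rw [hp, hb']⟩
        rw [hs, h0, hb']
        cases b <;> simp

theorem p_TWO : T_TWO := by
  intro G _ r hr hl
  match r, hr, hl with
  | (b, g) :: x :: r, hr, _ =>
    rcases TWO_aux (x :: r) b g with ⟨l, p, q, r', h, hp⟩ | ⟨h0, _⟩ | ⟨_, l, p, h, hp⟩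
    · refine ⟨l, p :: q :: r', r' ++ l, p.1, p.2, q.2, h, ?_⟩
      have : q = (p.1, q.2) := by rw [hp]
      rw [← this]
      rfl
    · exact absurd h0 hr
    · cases l with
      | nil => simp at h
      | cons y l =>
        have hy : y = (b, g) := by
          have := congrArg List.head? h
          simpa using this.symm
        refine ⟨y :: l, [p], l, b, p.2, g, h, ?_⟩
        rw [hy]
        have : p = (b, p.2) := by rw [← hp]
        rw [← this]
        rfl

end ORG
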