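import Pool.Agent.ORG.Targets1

/-!
# ORG: Theorem V
-/

set_option autoImplicit false

open Monoid.Coprod

namespace ORG

noncomputable section

/-- the orders of the elements of the pairs of `GY` -/
lemma V_iord {E : Type} [Group E] (e : EGrp E) {K : Type} [Group K] (Y : Set K)
    (hY : ∀ y ∈ Y, IOrd y) (i : Y) :
    IOrd ((inl (i : K) : Cop K E)) ∧ IOrd (inr e.c : Cop K E) := by
  constructor
  · intro n hn
    rw [← map_zpow] at hn
    apply hY i i.2 n
    apply Monoid.Coprod.inl_injective (N := E)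
    rw [hn, map_one]
  · intro n hn
    rw [← map_zpow] at hn
    apply e.inf n
    apply Monoid.Coprod.inr_injective (M := K)
    rw [hn, map_one]

theorem p_V (hVPB : T_VPB) (hVN : T_VN) (hVE0 : T_VE0) (hCFG : T_CFG) (hCMI : T_CMI)
    (hHNL : T_HNL) (hVUN : T_VUN) (hVWA : T_VWA) : T_V := by
  intro E _ e K _ Y hV
  induction hV with
  | nil K =>
    let F : GY e K ∅ →* E := HN.lift _ _ (Monoid.Coprod.lift 1 (MonoidHom.id E)) (fun _ => 1)
      (fun i => i.2.elim)
    have hF : F (GYc e K ∅) = e.c := by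
      simp [F, GYc]
    refine hVPB E {e.c} (hVE0 E e) _ F _ (Set.finite_singleton _) ?_
    rintro y rfl
    exact hF
  | loc K Y hYf h ih =>
    have hIO : ∀ y ∈ Y, IOrd y := (hVN K Y (Vis.loc K Y hYf h)).2
    refine Vis.loc _ _ (Set.finite_singleton _) ?_
    intro P hP hc
    obtain ⟨B₀, I₀, hx, hy, hB₀, hFB, -, -, hinj, g, -, hg⟩ :=
      hHNL (Cop K E) Y (fun i : Y => (inl (i : K) : Cop K E)) (fun _ => inr e.c)
        (fun i => V_iord e Y hIO i) P hP {inr e.c} ∅ (Set.finite_singleton _) Set.finite_empty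
    have hcB : (inr e.c : Cop K E) ∈ B₀ := hFB rfl
    obtain ⟨K₁, E₁, hK₁, -, hBr⟩ := hCFG K E B₀ hB₀
    let K₀ : Subgroup K := K₁ ⊔ Subgroup.closure Y
    have hYK : Y ⊆ K₀ := fun y hy =>
      (le_sup_right : Subgroup.closure Y ≤ K₀) (Subgroup.subset_closure hy)
    have hK₀ : K₀.FG := hK₁.sup ⟨hYf.toFinset, by simp⟩
    let M : Cop K₀ E →* Cop K E := Monoid.Coprod.map K₀.subtype (MonoidHom.id E)
    have hM : Function.Injective M :=
      hCMI _ _ _ _ K₀.subtype (MonoidHom.id E) K₀.subtype_injective Function.injective_id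
    have hBM : B₀ ≤ M.range := by
      intro b hb
      obtain ⟨w, hw⟩ := hBr hb
      refine ⟨Monoid.Coprod.map (Subgroup.inclusion (le_sup_left : K₁ ≤ K₀)) E₁.subtype w, ?_⟩
      rw [← hw]
      have : M.comp (Monoid.Coprod.map (Subgroup.inclusion (le_sup_left : K₁ ≤ K₀)) E₁.subtype) =
          Monoid.Coprod.map K₁.subtype E₁.subtype := by
        apply Monoid.Coprod.hom_ext
        · ext k
          simp [M]
        · ext k
          simp [M]
      exact DFunLike.congr_fun this w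
    obtain ⟨g₀, -, hg₀⟩ := exists_hom_of_le_range M hM B₀ hBM
    let ψ : HN (rs (fun i : Y => (inl (i : K) : Cop K E)) B₀ I₀ hx)
        (rs (fun _ : Y => (inr e.c : Cop K E)) B₀ I₀ hy) →* GY e K₀ (Subtype.val ⁻¹' Y) :=
      HN.map _ _ _ _ g₀
        (fun i : I₀ => (⟨⟨(i.1 : K), hYK i.1.2⟩, i.1.2⟩ : (Subtype.val ⁻¹' Y : Set K₀)))
        (by
          intro i
          apply hM
          rw [hg₀]
          simp [M, rs])
        (by
          intro i
          apply hM
          rw [hg₀]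
          simp [M, rs])
    refine hVPB _ _ (ih K₀ hK₀ hYK) P (ψ.comp g) _ ?_ ?_
    · exact (Set.finite_singleton _).preimage Subtype.val_injective.injOn
    · intro p hp
      have hp' : (p : GY e K Y) = GYc e K Y := hp
      have h1 : g p = HN.of _ _ (⟨inr e.c, hcB⟩ : B₀) := by
        apply hinj
        refine ((hg p).trans hp').trans ?_
        exact (HN.map_of (rs (fun i : Y => (inl (i : K) : Cop K E)) B₀ I₀ hx)
          (rs (fun _ : Y => (inr e.c : Cop K E)) B₀ I₀ hy)
          (fun i : Y => (inl (i : K) : Cop K E)) (fun _ : Y => (inr e.c : Cop K E))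
          B₀.subtype Subtype.val (fun _ => rfl) (fun _ => rfl)
          (⟨inr e.c, hcB⟩ : B₀)).symm
      have h2 : g₀ (⟨inr e.c, hcB⟩ : B₀) = inr e.c := by
        apply hM
        rw [hg₀]
        simp [M]
      change ψ (g p) = GYc e K₀ (Subtype.val ⁻¹' Y)
      rw [h1]
      simp only [ψ]
      rw [HN.map_of, h2]
      rfl
  | ext K Y χ hYf h ih =>
    have hIO : ∀ y ∈ Y, IOrd y := (hVN K Y (Vis.ext K Y χ hYf h)).2
    obtain ⟨φ, hφ, Θ, hΘ⟩ := hVUN E e K χ Y
    refine Vis.ext _ _ φ (Set.finite_singleton _) ?_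
    intro Y' hY'f hY'
    have h1 : ∀ z ∈ Y', ∃ n : ℤ, z = hat φ (GYc e K Y) (Multiplicative.ofAdd n) := by
      intro z hz
      obtain ⟨y, hy, -, a, ha⟩ := hY' z hz
      rw [Set.mem_singleton_iff] at hy
      refine ⟨Multiplicative.toAdd a, ?_⟩
      rw [ha, hy]
      rfl
    choose! f hf using h1
    refine hVPB _ _ (hVWA E e K χ Y hYf hIO ih (f '' Y') (hY'f.image f)) _ Θ Y' hY'f ?_
    intro z hz
    rw [hf z hz, hΘ]
    exact ⟨f z, ⟨z, hz, rfl⟩, rfl⟩

end

end ORG
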