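import Pool.Agent.ORG.Targets1

/-!
# ORG-VC (helper17): visibility in groups of `C_1`
-/

set_option autoImplicit false

open Monoid.Coprod

namespace ORG

noncomputable section

namespace VC_

lemma copI_one (J : Type) (x : CopI J (Multiplicative (ZMod 1))) : x = 1 := by
  induction x using Monoid.CoprodI.induction_on with
  | one => rfl
  | of j m =>
    have h : m = 1 := Subsingleton.elim _ _
    rw [h, map_one]
  | mul x y hx hy => rw [hx, hy, one_mul]

/-- the projection of the model with `k = 1` to the free group -/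
def pf (S J : Type) : Mdl 1 S J →* FreeGroup S :=
  Monoid.Coprod.lift (MonoidHom.id _) 1

lemma pf_inj (S J : Type) : Function.Injective (pf S J) := by
  refine inj_of_left (pf S J) inl ?_
  apply Monoid.Coprod.hom_ext
  · ext s
    simp [pf]
  · refine MonoidHom.ext fun x => ?_
    have h : x = 1 := copI_one J x
    rw [h, map_one, map_one]

end VC_

open VC_

theorem p_VC (h_VPB : T_VPB) (h_VFR : T_VFR) : T_VC := by
  intro K _ hK
  induction hK with
  | base G h =>
    intro Y hY h1
    refine Vis.loc G Y hY fun P hP _ => ?_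
    obtain ⟨S, J, f, hf⟩ := h P hP
    set F : P →* FreeGroup S := (pf S J).comp f with hF
    have hFi : Function.Injective F := (pf_inj S J).comp hf
    have hYP : (Subtype.val ⁻¹' Y : Set P).Finite := hY.preimage Subtype.val_injective.injOn
    refine h_VPB (FreeGroup S) (F '' (Subtype.val ⁻¹' Y)) ?_ P F (Subtype.val ⁻¹' Y) hYP
      fun y hy => ⟨y, hy, rfl⟩
    refine h_VFR S _ (hYP.image F) ?_
    rintro ⟨y, hy, h2⟩
    have h3 : y = 1 := hFi (h2.trans (map_one F).symm)
    rw [h3] at hy
    exact h1 hy
  | loc G h ih =>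
    intro Y hY h1
    refine Vis.loc G Y hY fun P hP _ => ?_
    exact ih P hP (Subtype.val ⁻¹' Y) (hY.preimage Subtype.val_injective.injOn) h1
  | ext G χ h ih =>
    intro Y hY h1
    refine Vis.ext G Y χ hY fun Y' hY' h2 => ih Y' hY' fun h3 => ?_
    obtain ⟨y, hy, _, a, h4⟩ := h2 1 h3
    have h5 : y = 1 := hat_eq_one.1 h4.symm
    rw [h5] at hy
    exact h1 hy

end

end ORG
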