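import Pool.Agent.ORG.Targets1

/-!
# ORG-VCP: conjugates of nonzero powers of visible elements
-/

set_option autoImplicit false

open Monoid.Coprod

namespace ORG

theorem VCP_zm {x : Zm} {a : ℤ} (ha : a ≠ 0) (h : x ^ a = 1) : x = 1 := by
  have h1 : a * Multiplicative.toAdd x = 0 := by
    have h2 := congrArg Multiplicative.toAdd h
    rw [toAdd_zpow, toAdd_one, smul_eq_mul] at h2
    exact h2
  rcases mul_eq_zero.1 h1 with h3 | h3
  · exact absurd h3 ha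
  · exact toAdd_eq_zero.1 h3

theorem VCP_aux (hV : T_VPB) {K : Type} [inst : Group K] {Y : Set K} (h : Vis K Y) :
    ∀ Y2 : Set K, Y2.Finite →
      (∀ z ∈ Y2, ∃ y ∈ Y, ∃ (g : K) (a : ℤ), a ≠ 0 ∧ z = g * y ^ a * g⁻¹) → Vis K Y2 := by
  induction h with
  | nil K =>
    intro Y2 _ h2
    have h3 : Y2 = ∅ := by
      rw [Set.eq_empty_iff_forall_notMem]
      intro z hz
      obtain ⟨y, hy, _⟩ := h2 z hz
      exact hy
    rw [h3]
    exact Vis.nil K
  | loc K Y hY hP ih =>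
    intro Y2 hf h2
    refine Vis.loc K Y2 hf fun P hPfg hPY => ?_
    have h3 : ∀ z : K, ∃ g : K, z ∈ Y2 → ∃ y ∈ Y, ∃ a : ℤ, a ≠ 0 ∧ z = g * y ^ a * g⁻¹ := by
      intro z
      by_cases hz : z ∈ Y2
      · obtain ⟨y, hy, g, a, ha, h⟩ := h2 z hz
        exact ⟨g, fun _ => ⟨y, hy, a, ha, h⟩⟩
      · exact ⟨1, fun h => absurd h hz⟩
    choose γ hγ using h3
    set C : Set K := Y ∪ γ '' Y2 with hC
    have hCf : C.Finite := hY.union (hf.image γ)
    set P₁ : Subgroup K := P ⊔ Subgroup.closure C with hP1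
    have hP1fg : P₁.FG := hPfg.sup ⟨hCf.toFinset, by rw [Set.Finite.coe_toFinset]⟩
    have hle : P ≤ P₁ := le_sup_left
    have hCle : C ⊆ P₁ := fun x hx =>
      (le_sup_right : Subgroup.closure C ≤ P₁) (Subgroup.subset_closure hx)
    have hYP : Y ⊆ P₁ := fun x hx => hCle (Or.inl hx)
    have hY2P : Y2 ⊆ P₁ := fun x hx => hle (hPY hx)
    have h4 : Vis P₁ (Subtype.val ⁻¹' Y2) := by
      refine ih P₁ hP1fg hYP _ (hf.preimage Subtype.val_injective.injOn) ?_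
      rintro ⟨z, hz⟩ hz2
      obtain ⟨y, hy, a, ha, h5⟩ := hγ z hz2
      refine ⟨⟨y, hYP hy⟩, hy, ⟨γ z, hCle (Or.inr ⟨z, hz2, rfl⟩)⟩, a, ha, ?_⟩
      apply Subtype.ext
      simp only [Subgroup.coe_mul, Subgroup.coe_inv, SubgroupClass.coe_zpow]
      exact h5
    refine hV P₁ _ h4 P (Subgroup.inclusion hle) _ (hf.preimage Subtype.val_injective.injOn) ?_
    intro y hy
    exact hy
  | ext K Y χ hY hP ih =>
    intro Y2 hf h2
    refine Vis.ext K Y2 χ hf fun Y' hY' hz' => ?_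
    have h3 : ∀ z : Hat χ, ∃ u : Hat χ, z ∈ Y' → (∃ y ∈ Y, χ y = 1 ∧ ∃ h, u = hat χ y h) ∧
        ∃ (g : Hat χ) (a : ℤ), a ≠ 0 ∧ z = g * u ^ a * g⁻¹ := by
      intro z
      by_cases hz : z ∈ Y'
      · obtain ⟨y2, hy2, hχ2, h, hzh⟩ := hz' z hz
        obtain ⟨y, hy, g, a, ha, h5⟩ := h2 y2 hy2
        have h6 : χ y = 1 := by
          apply VCP_zm ha
          rw [h5, map_mul, map_mul, map_zpow, map_inv] at hχ2
          have h7 := mul_inv_eq_one.1 hχ2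
          exact mul_eq_left.1 h7
        refine ⟨hat χ y (h * χ g), fun _ => ⟨⟨y, hy, h6, _, rfl⟩, hat χ g h, a, ha, ?_⟩⟩
        rw [hzh, h5, hat_mul, hat_mul, hat_inv, hat_zpow_of h6, map_mul, map_zpow, h6, one_zpow,
          mul_one, mul_inv_cancel_right]
      · exact ⟨1, fun h => absurd h hz⟩
    choose υ hυ using h3
    refine ih (υ '' Y') (hY'.image υ) ?_ Y' hY' ?_
    · rintro _ ⟨z, hz, rfl⟩
      exact (hυ z hz).1
    · intro z hz
      exact ⟨υ z, ⟨z, hz, rfl⟩, (hυ z hz).2⟩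

theorem p_VCP (hV : T_VPB) : T_VCP := fun _ _ _ h => VCP_aux hV h

end ORG
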