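import Pool.Agent.ORG.Targets1

/-! ORG-VE0: the element c is visible in the group E. -/

set_option autoImplicit false

namespace ORG

theorem p_VE0 : T_VE0 := by
  intro E _ e
  have hc : e.c ≠ 1 := by
    intro h
    have := e.inf 1 (by rw [zpow_one, h])
    omega
  refine e.zed E (MonoidHom.id E) {e.c} (Set.finite_singleton _) ?_
  intro Y' _ hY'
  have hE : Y' = ∅ := by
    rw [Set.eq_empty_iff_forall_notMem]
    intro z hz
    obtain ⟨y, hy, h1, -⟩ := hY' z hz
    rw [Set.mem_singleton_iff] at hy
    rw [MonoidHom.id_apply, hy] at h1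
    exact hc h1
  rw [hE]
  exact Vis.nil _

end ORG
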