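import Pool.Agent.ORG.Targets1

/-!
# ORG: the combinatorial step for free groups (leveled words)
-/

set_option autoImplicit false

namespace ORG

noncomputable section

namespace VF1_

variable {S : Type}

theorem lft_append (χ : S → ℤ) (u v : List (S × Bool)) : ∀ h : ℤ,
    lft χ h (u ++ v) = lft χ h u ++ lft χ (h + csum χ u) v := by
  induction u with
  | nil => intro h; simp [lft, csum]
  | cons p u ih =>
    obtain ⟨s, e⟩ := p
    intro h
    cases e with
    | true =>
      have e1 : h + csum χ ((s, true) :: u) = h + χ s + csum χ u := by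
        simp [csum, add_assoc]
      rw [List.cons_append, lft, lft, ih, e1, List.cons_append]
    | false =>
      have e1 : h + csum χ ((s, false) :: u) = h - χ s + csum χ u := by
        simp only [csum, List.map_cons, List.sum_cons, Bool.false_eq_true, if_false]
        ring
      rw [List.cons_append, lft, lft, ih, e1, List.cons_append]

theorem lset_append {T : Type} (u v : List (T × Bool)) : lset (u ++ v) = lset u ∪ lset v := by
  ext s
  constructor
  · rintro ⟨p, hp, h⟩
    rcases List.mem_append.1 hp with h1 | h1
    · exact Or.inl ⟨p, h1, h⟩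
    · exact Or.inr ⟨p, h1, h⟩
  · rintro (⟨p, hp, h⟩ | ⟨p, hp, h⟩)
    · exact ⟨p, List.mem_append.2 (Or.inl hp), h⟩
    · exact ⟨p, List.mem_append.2 (Or.inr hp), h⟩

theorem lset_cons {T : Type} (p : T × Bool) (v : List (T × Bool)) :
    lset (p :: v) = insert p.1 (lset v) := by
  ext s
  constructor
  · rintro ⟨q, hq, h⟩
    rcases List.mem_cons.1 hq with h1 | h1
    · left
      rw [← h, h1]
    · exact Or.inr ⟨q, h1, h⟩
  · rintro (h | ⟨q, hq, h⟩)
    · exact ⟨p, List.mem_cons_self, h.symm⟩
    · exact ⟨q, List.mem_cons_of_mem _ hq, h⟩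

theorem lset_nil {T : Type} : lset ([] : List (T × Bool)) = ∅ := by
  ext s
  constructor
  · rintro ⟨q, hq, -⟩
    exact absurd hq List.not_mem_nil
  · intro h
    exact h.elim

theorem lset_finite {T : Type} (v : List (T × Bool)) : (lset v).Finite := by
  induction v with
  | nil => rw [lset_nil]; exact Set.finite_empty
  | cons p v ih => rw [lset_cons]; exact ih.insert _

theorem fst_image (χ : S → ℤ) (L : List (S × Bool)) : ∀ h : ℤ,
    Prod.fst '' lset (lft χ h L) = lset L := by
  induction L with
  | nil => intro h; simp [lft, lset_nil]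
  | cons p L ih =>
    obtain ⟨s, e⟩ := p
    intro h
    cases e with
    | true => rw [lft, lset_cons, lset_cons, Set.image_insert_eq, ih]
    | false => rw [lft, lset_cons, lset_cons, Set.image_insert_eq, ih]

theorem esum_notMem (s : S) (v : List (S × Bool)) (h : ∀ p ∈ v, p.1 ≠ s) : esum s v = 0 := by
  induction v with
  | nil => simp [esum]
  | cons p v ih =>
    have h1 := h p List.mem_cons_self
    have h2 := ih fun q hq => h q (List.mem_cons_of_mem _ hq)
    unfold esum at h2 ⊢
    rw [List.map_cons, List.sum_cons, h2, if_neg h1, add_zero]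

theorem esum_cons (s : S) (e : Bool) (v : List (S × Bool)) (h : ∀ p ∈ v, p.1 ≠ s) :
    esum s ((s, e) :: v) ≠ 0 := by
  have h2 := esum_notMem s v h
  unfold esum at h2 ⊢
  rw [List.map_cons, List.sum_cons, h2]
  cases e <;> simp

theorem csum_cons (χ : S → ℤ) (s : S) (e : Bool) (v : List (S × Bool)) :
    csum χ ((s, e) :: v) = (if e then χ s else -χ s) + csum χ v := by
  simp [csum]

theorem split (s : S) (M : List (S × Bool)) (h : ∃ p ∈ M, p.1 = s) :
    ∃ (v : List (S × Bool)) (e' : Bool) (L : List (S × Bool)), M = v ++ (s, e') :: L ∧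
      ∀ p ∈ v, p.1 ≠ s := by
  induction M with
  | nil =>
    obtain ⟨p, hp, -⟩ := h
    exact absurd hp List.not_mem_nil
  | cons q M ih =>
    by_cases hq : q.1 = s
    · refine ⟨[], q.2, M, ?_, fun p hp => absurd hp List.not_mem_nil⟩
      rw [← hq]
      rfl
    · obtain ⟨p, hp, hps⟩ := h
      rcases List.mem_cons.1 hp with h1 | h1
      · exact absurd (h1 ▸ hps) hq
      · obtain ⟨v, e', L, hL, hv⟩ := ih ⟨p, h1, hps⟩
        refine ⟨q :: v, e', L, ?_, ?_⟩
        · rw [hL]; rfl
        · intro r hr
          rcases List.mem_cons.1 hr with h2 | h2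
          · rw [h2]; exact hq
          · exact hv r h2

/-- the height of a letter -/
def ht (χ : S → ℤ) (h : ℤ) (s : S) (e : Bool) : ℤ := if e then h else h - χ s

theorem lft_cons (χ : S → ℤ) (h : ℤ) (s : S) (e : Bool) (L : List (S × Bool)) :
    lft χ h ((s, e) :: L) =
      ((s, ht χ h s e), e) :: lft χ (h + if e then χ s else -χ s) L := by
  cases e with
  | true => simp [lft, ht]
  | false => simp [lft, ht, sub_eq_add_neg]

theorem two (χ : S → ℤ) : ∀ (n : ℕ) (L : List (S × Bool)), L.length ≤ n →
    FreeGroup.IsReduced L → L ≠ [] → (∀ s, esum s L = 0) →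
    (∀ u v w : List (S × Bool), L = u ++ v ++ w → csum χ v = 0 → ∀ s, esum s v = 0) →
    ∀ h : ℤ, ∃ (s : S) (a b : ℤ), a ≠ b ∧ (s, a) ∈ lset (lft χ h L) ∧
      (s, b) ∈ lset (lft χ h L) := by
  intro n
  induction n with
  | zero =>
    intro L hn _ h1
    exact absurd (List.length_eq_zero_iff.1 (Nat.le_zero.1 hn)) h1
  | succ n ih =>
    intro L hn hred hne hes hgen h
    obtain ⟨⟨s, e⟩, M, rfl⟩ := List.exists_cons_of_ne_nil hne
    have hocc : ∃ p ∈ M, p.1 = s := by
      by_contra hcon
      push Not at hcon
      exact esum_cons s e M hcon (hes s)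
    obtain ⟨v, e', L', rfl, hv⟩ := split s M hocc
    set h1 : ℤ := h + if e then χ s else -χ s with hh1
    have e1 : lft χ h ((s, e) :: (v ++ (s, e') :: L')) =
        ((s, ht χ h s e), e) :: (lft χ h1 v ++ (((s, ht χ (h1 + csum χ v) s e'), e') ::
          lft χ ((h1 + csum χ v) + if e' then χ s else -χ s) L')) := by
      rw [lft_cons, lft_append, lft_cons]
    have ma : (s, ht χ h s e) ∈ lset (lft χ h ((s, e) :: (v ++ (s, e') :: L'))) := by
      rw [e1, lset_cons]
      exact Or.inl rfl
    have mb : (s, ht χ (h1 + csum χ v) s e') ∈
        lset (lft χ h ((s, e) :: (v ++ (s, e') :: L'))) := by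
      rw [e1, lset_cons, lset_append, lset_cons]
      exact Or.inr (Or.inr (Or.inl rfl))
    by_cases hab : ht χ h s e = ht χ (h1 + csum χ v) s e'
    · by_cases hee : e' = e
      · exfalso
        have hc : csum χ ((s, e) :: v) = 0 := by
          rw [csum_cons]
          rw [hee, hh1] at hab
          unfold ht at hab
          cases e with
          | true => simp only [if_true] at hab ⊢; linarith
          | false => simp only [Bool.false_eq_true, if_false] at hab ⊢; linarith
        exact esum_cons s e v hv (hgen [] ((s, e) :: v) ((s, e') :: L') (by simp) hc s)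
      · have hc : csum χ v = 0 := by
          rw [hh1] at hab
          unfold ht at hab
          cases e with
          | true =>
            cases e' with
            | true => exact absurd rfl hee
            | false =>
              simp only [if_true, Bool.false_eq_true, if_false] at hab
              linarith
          | false =>
            cases e' with
            | false => exact absurd rfl hee
            | true =>
              simp only [if_true, Bool.false_eq_true, if_false] at hab
              linarith
        have hvne : v ≠ [] := by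
          intro hv0
          rw [hv0] at hred
          rw [List.nil_append, FreeGroup.isReduced_cons_cons] at hred
          exact hee (hred.1 rfl).symm
        have hvlen : v.length ≤ n := by
          rw [List.length_cons, List.length_append, List.length_cons] at hn
          omega
        have hvred : FreeGroup.IsReduced v :=
          (List.isChain_append.mp (List.isChain_of_isChain_cons hred)).1
        obtain ⟨t, a, b, hne', hta, htb⟩ := ih v hvlen hvred hvne
          (hgen [(s, e)] v ((s, e') :: L') (by simp) hc)
          (fun u v' w huv => hgen ((s, e) :: u) v' (w ++ (s, e') :: L') (by simp [huv])) h1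
        refine ⟨t, a, b, hne', ?_, ?_⟩
        · rw [e1, lset_cons, lset_append]
          exact Or.inr (Or.inl hta)
        · rw [e1, lset_cons, lset_append]
          exact Or.inr (Or.inl htb)
    · exact ⟨s, _, _, hab, ma, mb⟩

end VF1_

open VF1_ in
theorem p_VF1 : T_VF1 := by
  intro S χ L hred hne hes hgen h
  obtain ⟨s, a, b, hab, ha, hb⟩ := two χ L.length L le_rfl hred hne hes hgen h
  have hfin := lset_finite (lft χ h L)
  rw [← fst_image χ L h]
  refine lt_of_le_of_ne (Set.ncard_image_le hfin) fun heq => ?_
  have hinj := (Set.ncard_image_iff hfin).1 heq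
  exact hab (Prod.mk.inj (hinj ha hb rfl)).2

end

end ORG
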