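import Pool.Agent.ORG.Targets1

set_option autoImplicit false

open Monoid.Coprod

namespace ORG

namespace VF2_

variable {S : Type}

/-- the homomorphism to the wreath type group -/
noncomputable def theta (χ : S → ℤ) : FreeGroup S →* Wr (FreeGroup (S × ℤ)) Zm :=
  FreeGroup.lift fun s => ⟨fun a => FreeGroup.of (s, Multiplicative.toAdd a),
    Multiplicative.ofAdd (χ s)⟩

lemma theta_of (χ : S → ℤ) (s : S) : theta χ (FreeGroup.of s) =
    ⟨fun a => FreeGroup.of (s, Multiplicative.toAdd a), Multiplicative.ofAdd (χ s)⟩ := by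
  simp [theta]

lemma theta_a (χ : S → ℤ) (g : FreeGroup S) : (theta χ g).a =
    (FreeGroup.lift (fun s => Multiplicative.ofAdd (χ s)) : FreeGroup S →* Zm) g := by
  have : (Wr.pr.comp (theta χ) : FreeGroup S →* Zm) =
      (FreeGroup.lift (fun s => Multiplicative.ofAdd (χ s)) : FreeGroup S →* Zm) := by
    ext s
    simp [theta_of]
  exact DFunLike.congr_fun this g

lemma theta_mk (χ : S → ℤ) (L : List (S × Bool)) : ∀ h : ℤ,
    (theta χ (FreeGroup.mk L)).f (Multiplicative.ofAdd h) = FreeGroup.mk (lft χ h L) := by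
  induction L with
  | nil =>
    intro h
    rw [← FreeGroup.one_eq_mk, map_one]
    exact FreeGroup.one_eq_mk
  | cons p L ih =>
    rintro h
    obtain ⟨s, b⟩ := p
    have hp : FreeGroup.mk ((s, b) :: L) = FreeGroup.mk [(s, b)] * FreeGroup.mk L := by
      rw [FreeGroup.mul_mk]
      rfl
    rw [hp, map_mul, Wr.mul_f]
    cases b with
    | true =>
      have h1 : (FreeGroup.mk [(s, true)] : FreeGroup S) = FreeGroup.of s := rfl
      rw [h1, theta_of]
      change FreeGroup.of (s, h) *
        (theta χ (FreeGroup.mk L)).f (Multiplicative.ofAdd (h + χ s)) = _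
      rw [ih]
      change FreeGroup.mk [((s, h), true)] * _ = _
      rw [FreeGroup.mul_mk]
      rfl
    | false =>
      have h1 : (FreeGroup.mk [(s, false)] : FreeGroup S) = (FreeGroup.of s)⁻¹ := rfl
      rw [h1, map_inv, theta_of]
      change (FreeGroup.of (s, h + -χ s))⁻¹ *
        (theta χ (FreeGroup.mk L)).f (Multiplicative.ofAdd (h + -χ s)) = _
      rw [ih]
      change FreeGroup.mk [((s, h + -χ s), false)] * _ = _
      rw [FreeGroup.mul_mk, ← sub_eq_add_neg]
      rfl

lemma lft_cons (χ : S → ℤ) (h : ℤ) (s : S) (b : Bool) (L : List (S × Bool)) :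
    lft χ h ((s, b) :: L) = ((s, if b then h else h - χ s), b) ::
      lft χ (if b then h + χ s else h - χ s) L := by
  cases b <;> rfl

lemma lft_length (χ : S → ℤ) (L : List (S × Bool)) : ∀ h : ℤ,
    (lft χ h L).length = L.length := by
  induction L with
  | nil => intro h; rfl
  | cons p L ih =>
    intro h
    obtain ⟨s, b⟩ := p
    rw [lft_cons, List.length_cons, List.length_cons, ih]

lemma lft_red (χ : S → ℤ) (L : List (S × Bool)) : ∀ h : ℤ,
    FreeGroup.IsReduced L → FreeGroup.IsReduced (lft χ h L) := by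
  induction L with
  | nil => intro h _; simp [lft, FreeGroup.IsReduced]
  | cons p L ih =>
    intro h hr
    obtain ⟨s, b⟩ := p
    cases L with
    | nil => rw [lft_cons]; simp [lft, FreeGroup.IsReduced]
    | cons p' L =>
      obtain ⟨s', b'⟩ := p'
      have hr' : FreeGroup.IsReduced ((s', b') :: L) := by
        unfold FreeGroup.IsReduced at hr ⊢
        exact (List.isChain_cons_cons.1 hr).2
      have h1 := ih (if b then h + χ s else h - χ s) hr'
      have h2 : s = s' → b = b' := by
        unfold FreeGroup.IsReduced at hr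
        exact (List.isChain_cons_cons.1 hr).1
      rw [lft_cons]
      rw [lft_cons] at h1 ⊢
      unfold FreeGroup.IsReduced at h1 ⊢
      rw [List.isChain_cons_cons]
      refine ⟨?_, h1⟩
      intro he
      exact h2 (congrArg Prod.fst he)

end VF2_

/-- `T_VF2` -/
theorem p_VF2 : T_VF2 := by
  intro S χ
  refine ⟨Hat.lift _ (VF2_.theta χ) (VF2_.theta_a χ), fun L h => ⟨?_, ?_, ?_⟩⟩
  · rw [Hat.lift_hat, VF2_.theta_mk]
  · exact VF2_.lft_red χ L h
  · exact VF2_.lft_length χ L h

end ORG
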