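import Pool.Agent.ORG.Targets1

/-!
# ORG: visibility in free groups
-/

set_option autoImplicit false

open Monoid.Coprod

namespace ORG

namespace VFR_

lemma lift_csum {S : Type} (χ : S → ℤ) (L : List (S × Bool)) :
    (FreeGroup.lift (fun s => Multiplicative.ofAdd (χ s)) : FreeGroup S →* Zm) (FreeGroup.mk L) =
      Multiplicative.ofAdd (csum χ L) := by
  rw [FreeGroup.lift_mk]
  induction L with
  | nil => simp [csum]
  | cons p L ih =>
    rw [List.map_cons, List.prod_cons, ih]
    have h : csum χ (p :: L) = (if p.2 then χ p.1 else -χ p.1) + csum χ L := by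
      simp [csum]
    rw [h, ofAdd_add]
    congr 1
    rcases p with ⟨s, b⟩
    cases b <;> simp

open Classical in
lemma csum_esum {S : Type} (s : S) (L : List (S × Bool)) :
    csum (fun t => if t = s then 1 else 0) L = esum s L := by
  unfold csum esum
  congr 1
  apply List.map_congr_left
  intro p _
  by_cases h : p.1 = s
  · simp [h]
  · simp [h]

lemma char_eq {S : Type} (χ : FreeGroup S →* Zm) :
    ∃ χ0 : S → ℤ, χ = FreeGroup.lift (fun s => Multiplicative.ofAdd (χ0 s)) := by
  refine ⟨fun s => Multiplicative.toAdd (χ (FreeGroup.of s)), ?_⟩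
  apply FreeGroup.ext_hom
  intro s
  simp

lemma lset_finite {T : Type} (L : List (T × Bool)) : (lset L).Finite := by
  have h : lset L = Prod.fst '' {p | p ∈ L} := by
    ext s
    constructor
    · rintro ⟨p, hp, rfl⟩
      exact ⟨p, hp, rfl⟩
    · rintro ⟨p, hp, rfl⟩
      exact ⟨p, hp, rfl⟩
  rw [h]
  exact (List.finite_toSet L).image _

lemma lset_le {T : Type} (L : List (T × Bool)) : (lset L).ncard ≤ L.length := by
  induction L with
  | nil =>
    have h : lset ([] : List (T × Bool)) = ∅ := by
      ext s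
      simp [lset]
    rw [h]
    simp
  | cons p L ih =>
    have h : lset (p :: L) = insert p.1 (lset L) := by
      ext s
      simp only [lset, List.mem_cons, Set.mem_insert_iff]
      constructor
      · rintro ⟨q, hq | hq, rfl⟩
        · left
          rw [hq]
        · right
          exact ⟨q, hq, rfl⟩
      · rintro (hs | ⟨q, hq, rfl⟩)
        · exact ⟨p, Or.inl rfl, hs.symm⟩
        · exact ⟨q, Or.inr hq, rfl⟩
    rw [h]
    refine (Set.ncard_insert_le _ _).trans ?_
    simpa using ih

open Classical in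
/-- the set of the group elements of the subwords -/
lemma sub_finite {S : Type} (L : List (S × Bool)) :
    {x : FreeGroup S | ∃ u v w : List (S × Bool), L = u ++ v ++ w ∧ x = FreeGroup.mk v}.Finite := by
  refine (((Set.finite_Iic L.length).prod (Set.finite_Iic L.length)).image
    (fun p : ℕ × ℕ => FreeGroup.mk ((L.drop p.1).take p.2))).subset ?_
  rintro x ⟨u, v, w, h, rfl⟩
  refine ⟨(u.length, v.length), ⟨?_, ?_⟩, ?_⟩
  · change u.length ≤ L.length
    rw [h, List.length_append, List.length_append]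
    omega
  · change v.length ≤ L.length
    rw [h, List.length_append, List.length_append]
    omega
  · rw [h]
    simp

open Classical in
theorem main (h_VPB : T_VPB) (h_GEN : T_GEN) (h_VF1 : T_VF1) (h_VF2 : T_VF2) (m : ℕ) :
    ∀ (S : Type) (Y : Set (FreeGroup S)), Y.Finite → 1 ∉ Y →
      (∀ w ∈ Y, ∃ L : List (S × Bool), FreeGroup.IsReduced L ∧ w = FreeGroup.mk L ∧
        L.length < (lset L).ncard + m) → Vis (FreeGroup S) Y := by
  induction m with
  | zero =>
    intro S Y _ _ hY
    have h : Y = ∅ := by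
      refine Set.eq_empty_of_forall_notMem fun w hw => ?_
      obtain ⟨L, -, -, h1⟩ := hY w hw
      have h2 := lset_le L
      omega
    rw [h]
    exact Vis.nil _
  | succ m ih =>
    intro S Y hfin h1 hY0
    have hY : ∀ w ∈ Y, w.toWord.length < (lset w.toWord).ncard + (m + 1) := by
      intro w hw
      obtain ⟨L, hr, rfl, hl⟩ := hY0 w hw
      rw [FreeGroup.toWord_mk, hr.reduce_eq]
      exact hl
    let V : Set (FreeGroup S) := ⋃ w ∈ Y,
      {x : FreeGroup S | ∃ u v v' : List (S × Bool), w.toWord = u ++ v ++ v' ∧ x = FreeGroup.mk v}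
    have hV : V.Finite := hfin.biUnion fun w _ => sub_finite w.toWord
    obtain ⟨χ, hχ⟩ := h_GEN (FreeGroup S) V hV
    obtain ⟨χ0, rfl⟩ := char_eq χ
    have gen : ∀ w ∈ Y, ∀ u v v' : List (S × Bool), w.toWord = u ++ v ++ v' → csum χ0 v = 0 →
        ∀ s, esum s v = 0 := by
      intro w hw u v v' he hc s
      by_contra hs
      have h2 : FreeGroup.mk v ∈ V := Set.mem_biUnion hw ⟨u, v, v', he, rfl⟩
      refine hχ _ h2 ⟨FreeGroup.lift (fun t => Multiplicative.ofAdd (if t = s then 1 else 0)), ?_⟩ ?_
      · rw [lift_csum, csum_esum]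
        intro h3
        exact hs (by simpa using h3)
      · rw [lift_csum, hc]
        rfl
    refine Vis.ext (FreeGroup S) Y
      (FreeGroup.lift (fun s => Multiplicative.ofAdd (χ0 s))) hfin fun Y' hY' hsub => ?_
    obtain ⟨Θ, hΘ⟩ := h_VF2 S χ0
    refine h_VPB _ (Θ '' Y') (ih _ _ (hY'.image _) ?_ ?_) _ Θ Y' hY' fun y hy => ⟨y, hy, rfl⟩
    · rintro ⟨z, hz, hz1⟩
      obtain ⟨y, hy, hy1, h, rfl⟩ := hsub z hz
      have h2 := hΘ y.toWord (Multiplicative.toAdd h)
      rw [ofAdd_toAdd, FreeGroup.mk_toWord, hz1] at h2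
      have h3 := h2.2.1 FreeGroup.isReduced_toWord
      have h4 : (lft χ0 (Multiplicative.toAdd h) y.toWord) = [] := by
        have h5 := congrArg FreeGroup.toWord h2.1
        rw [FreeGroup.toWord_one, FreeGroup.toWord_mk, h3.reduce_eq] at h5
        exact h5.symm
      have h5 : y.toWord = [] := by
        have h6 := h2.2.2
        rw [h4] at h6
        exact List.length_eq_zero_iff.1 h6.symm
      rw [FreeGroup.toWord_eq_nil_iff] at h5
      exact h1 (h5 ▸ hy)
    · rintro _ ⟨z, hz, rfl⟩
      obtain ⟨y, hy, hy1, h, rfl⟩ := hsub z hz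
      have h2 := hΘ y.toWord (Multiplicative.toAdd h)
      rw [ofAdd_toAdd, FreeGroup.mk_toWord] at h2
      have h3 := h2.2.1 FreeGroup.isReduced_toWord
      refine ⟨_, h3, h2.1, ?_⟩
      rw [h2.2.2]
      have h4 : csum χ0 y.toWord = 0 := by
        have h5 := lift_csum χ0 y.toWord
        rw [FreeGroup.mk_toWord, hy1] at h5
        exact (ofAdd_eq_one.1 h5.symm)
      have h5 : ∀ s, esum s y.toWord = 0 := gen y hy [] y.toWord [] (by simp) h4
      have h6 : y.toWord ≠ [] := by
        rw [Ne, FreeGroup.toWord_eq_nil_iff]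
        intro h7
        exact h1 (h7 ▸ hy)
      have h7 := h_VF1 S χ0 y.toWord FreeGroup.isReduced_toWord h6 h5
        (fun u v w he hc => gen y hy u v w he hc) (Multiplicative.toAdd h)
      have h8 := hY y hy
      omega

end VFR_

open Classical in
/-- (V4) free groups -/
theorem p_VFR (h_VPB : T_VPB) (h_GEN : T_GEN) (h_VF1 : T_VF1) (h_VF2 : T_VF2) : T_VFR := by
  intro S Y hY h1
  obtain ⟨m, hm⟩ := (hY.image fun w : FreeGroup S => w.toWord.length).bddAbove
  refine VFR_.main h_VPB h_GEN h_VF1 h_VF2 (m + 1) S Y hY h1 fun w hw => ?_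
  refine ⟨w.toWord, FreeGroup.isReduced_toWord, FreeGroup.mk_toWord.symm, ?_⟩
  have h2 := hm ⟨w, hw, rfl⟩
  simp only at h2
  omega

end ORG
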