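import Pool.Agent.ORG.Targets1

set_option autoImplicit false

open Monoid.Coprod

namespace ORG

noncomputable section

lemma VN_one : ∀ (K : Type) [Group K] (Y : Set K), Vis K Y → (1 : K) ∉ Y := by
  intro K _ Y h
  induction h with
  | nil K => simp
  | loc K Y hY _ ih =>
    intro h1
    have hP : (Subgroup.closure Y).FG := by
      obtain ⟨S, hS⟩ := hY.exists_finset_coe
      exact ⟨S, by rw [hS]⟩
    exact ih _ hP Subgroup.subset_closure (by simpa using h1)
  | ext K Y χ hY _ ih =>
    intro h1
    refine ih {1} (Set.finite_singleton _) ?_ (Set.mem_singleton _)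
    intro z hz
    refine ⟨1, h1, map_one χ, 1, ?_⟩
    rw [hat_one]
    exact hz

lemma VN_fin : ∀ (K : Type) [Group K] (Y : Set K), Vis K Y → Y.Finite := by
  intro K _ Y h
  induction h with
  | nil K => exact Set.finite_empty
  | loc K Y hY _ ih => exact hY
  | ext K Y χ hY _ ih => exact hY

theorem p_VN (h2 : T_VCP) : T_VN := by
  intro K _ Y h
  refine ⟨VN_fin K Y h, ?_⟩
  intro y hy n hn
  by_contra hn0
  have := h2 K Y h {1} (Set.finite_singleton _) (by
    intro z hz
    rw [Set.mem_singleton_iff] at hz
    exact ⟨y, hy, 1, n, hn0, by rw [hz, hn]; simp⟩)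
  exact VN_one K {1} this (Set.mem_singleton _)

end

end ORG
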