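import Pool.Agent.ORG.Targets1

/-!
# ORG: visibility pulls back (helper84)
-/

set_option autoImplicit false

open Monoid.Coprod

namespace ORG

noncomputable section

theorem p_VPB : T_VPB := by
  intro K _ Y h
  induction h with
  | nil K =>
    intro L _ F YL _ h2
    have : YL = ∅ := Set.eq_empty_of_forall_notMem fun y hy => h2 y hy
    rw [this]
    exact Vis.nil L
  | loc K Y hY _ ih =>
    intro L _ F YL h1 h2
    refine Vis.loc L YL h1 fun P hP hYP => ?_
    have hPF : (P.map F).FG := by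
      obtain ⟨S, hS⟩ := hP
      classical
      exact ⟨S.image F, by rw [Finset.coe_image, ← MonoidHom.map_closure, hS]⟩
    have hK0 : (P.map F ⊔ Subgroup.closure Y).FG :=
      Subgroup.FG.sup hPF ⟨hY.toFinset, by rw [Set.Finite.coe_toFinset]⟩
    refine ih (P.map F ⊔ Subgroup.closure Y) hK0
      (fun y hy => Subgroup.mem_sup_right (Subgroup.subset_closure hy)) P
      ((F.comp P.subtype).codRestrict _ fun p =>
        Subgroup.mem_sup_left (Subgroup.mem_map_of_mem F p.2)) _
      (h1.preimage Subtype.val_injective.injOn) fun y hy => ?_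
    exact h2 y.1 hy
  | ext K Y χ hY _ ih =>
    intro L _ F YL h1 h2
    refine Vis.ext L YL (χ.comp F) h1 fun Y' hY' h' => ?_
    refine ih (Hat.map (χ.comp F) χ F (fun _ => rfl) '' Y') (hY'.image _) ?_ _
      (Hat.map (χ.comp F) χ F (fun _ => rfl)) Y' hY' fun y hy => ⟨y, hy, rfl⟩
    rintro _ ⟨z, hz, rfl⟩
    obtain ⟨y, hy, h3, a, rfl⟩ := h' z hz
    exact ⟨F y, h2 y hy, h3, a, Hat.map_hat _ _ _ _ _ _⟩

end

end ORG
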