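import Pool.Agent.ORG.Targets1

/-!
# ORG-VUN: unrolling
-/

set_option autoImplicit false

open Monoid.Coprod

namespace ORG

noncomputable section

namespace VUN_

variable {E : Type} [Group E] (e : EGrp E) {K : Type} [Group K] (χ : K →* Zm) (Y : Set K)

/-- the base group at all levels -/
def bs : Cop K E →* Wr (WN e χ Y Set.univ) Zm :=
  Wr.mk' (1 : Cop K E →* Zm) (fun g a => HN.of _ _
    (Monoid.CoprodI.of (M := fun _ : ℤ => Cop K E) (i := Multiplicative.toAdd a) g)) (by
      intro g h a
      rw [map_mul, map_mul, MonoidHom.one_apply, mul_one])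

/-- the stable letter with the index `(y, h)` -/
def tt (y : Y) (h : ℤ) : WN e χ Y Set.univ := HN.t _ _ (⟨(y, h), trivial⟩ : (Set.univ : Set (Y × ℤ)))

open Classical in
/-- the values of the stable letters -/
def st (y : Y) : Wr (WN e χ Y Set.univ) Zm :=
  if χ y = 1 then ⟨fun a => tt e χ Y y (Multiplicative.toAdd a - 1), Multiplicative.ofAdd (-1)⟩
  else ⟨fun a => tt e χ Y y (Multiplicative.toAdd a), 1⟩

theorem st_rel (y : Y) : st e χ Y y * bs e χ Y (inl (y : K)) = bs e χ Y (inr e.c) * st e χ Y y := by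
  unfold st
  split_ifs with h
  · apply Wr.ext
    · funext a
      have h1 := HN.rel (fun i : (Set.univ : Set (Y × ℤ)) =>
        (Monoid.CoprodI.of (M := fun _ : ℤ => Cop K E) (i := i.1.2)
        (inl (i.1.1 : K)) : CopI ℤ (Cop K E))) (wny e χ Y Set.univ)
        ⟨(y, Multiplicative.toAdd a - 1), trivial⟩
      have h2 : wny e χ Y Set.univ ⟨(y, Multiplicative.toAdd a - 1), trivial⟩ =
          Monoid.CoprodI.of (M := fun _ : ℤ => Cop K E) (i := Multiplicative.toAdd a)
            (inr e.c) := by
        unfold wny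
        simp only
        rw [if_pos h, sub_add_cancel]
      rw [h2] at h1
      simp only [Wr.mul_f, bs, Wr.mk'_f, Wr.mk'_a, MonoidHom.one_apply, mul_one]
      have h3 : Multiplicative.toAdd (a * Multiplicative.ofAdd (-1)) =
          Multiplicative.toAdd a - 1 := rfl
      rw [h3]
      exact h1
    · change Multiplicative.ofAdd (-1) * (1 : Zm) = (1 : Zm) * Multiplicative.ofAdd (-1)
      rw [mul_one, one_mul]
  · apply Wr.ext
    · funext a
      have h1 := HN.rel (fun i : (Set.univ : Set (Y × ℤ)) =>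
        (Monoid.CoprodI.of (M := fun _ : ℤ => Cop K E) (i := i.1.2)
        (inl (i.1.1 : K)) : CopI ℤ (Cop K E))) (wny e χ Y Set.univ)
        ⟨(y, Multiplicative.toAdd a), trivial⟩
      have h2 : wny e χ Y Set.univ ⟨(y, Multiplicative.toAdd a), trivial⟩ =
          Monoid.CoprodI.of (M := fun _ : ℤ => Cop K E) (i := Multiplicative.toAdd a)
            (inr e.c) := by
        unfold wny
        simp only
        rw [if_neg h]
      rw [h2] at h1
      simp only [Wr.mul_f, bs, Wr.mk'_f, Wr.mk'_a, MonoidHom.one_apply, mul_one]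
      exact h1
    · rfl

/-- the character -/
def ph : GY e K Y →* Zm := HN.lift _ _ (1 : Cop K E →* Zm) (fun y : Y => (st e χ Y y).a) (by
  intro y
  simp)

/-- the unrolling -/
def th : GY e K Y →* Wr (WN e χ Y Set.univ) Zm :=
  HN.lift _ _ (bs e χ Y) (st e χ Y) (st_rel e χ Y)

theorem th_a (g : GY e K Y) : (th e χ Y g).a = ph e χ Y g := by
  have : Wr.pr.comp (th e χ Y) = ph e χ Y := by
    apply HN.hom_ext
    · intro b
      simp [th, ph, bs]
    · intro i
      simp [th, ph]
  exact DFunLike.congr_fun this g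

end VUN_

open VUN_ in
theorem p_VUN : T_VUN := by
  intro E _ e K _ χ Y
  refine ⟨ph e χ Y, ?_, Hat.lift (ph e χ Y) (th e χ Y) (th_a e χ Y), ?_⟩
  · unfold GYc ph
    rw [HN.lift_of, MonoidHom.one_apply]
  · intro h
    rw [Hat.lift_hat]
    unfold GYc th
    rw [HN.lift_of]
    rfl

end

end ORG
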