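import Pool.Agent.ORG.Targets1

/-!
# ORG: the windows (target `T_VW`)
-/

set_option autoImplicit false

open Monoid.Coprod

namespace ORG

noncomputable section

namespace VW_

variable {E : Type} [Group E] (e : EGrp E) {K : Type} [Group K] (χ : K →* Zm) (Y : Set K)

/-- the powers of `c` given by the character -/
private def cc : K →* E := (zpowersHom E e.c).comp χ

private lemma cc_apply (k : K) : cc e χ k = e.c ^ Multiplicative.toAdd (χ k) := by
  simp [cc, zpowersHom_apply]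

open Classical in
/-- homomorphisms from `WN` -/
private def wl {H : Type} [Group H] (J : Set (Y × ℤ)) (f : ℤ → Cop K E →* H) (s : J → H)
    (h : ∀ i : J, s i * f i.1.2 (inl (i.1.1 : K)) =
      f (if χ i.1.1 = 1 then i.1.2 + 1 else i.1.2) (inr e.c) * s i) : WN e χ Y J →* H :=
  HN.lift _ _ (Monoid.CoprodI.lift f) s (by
    intro i
    have := h i
    simp only [wny, Monoid.CoprodI.lift_of]
    exact this)

open Classical in
private lemma wl_c {H : Type} [Group H] (J : Set (Y × ℤ)) (f : ℤ → Cop K E →* H) (s : J → H)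
    (h : ∀ i : J, s i * f i.1.2 (inl (i.1.1 : K)) =
      f (if χ i.1.1 = 1 then i.1.2 + 1 else i.1.2) (inr e.c) * s i) (m : ℤ) :
    wl e χ Y J f s h (WNc e χ Y J m) = f m (inr e.c) := by
  simp [wl, WNc]

open Classical in
private lemma rel (J : Set (Y × ℤ)) (i : J) :
    HN.t (fun i : J => (Monoid.CoprodI.of (M := fun _ : ℤ => Cop K E) (i := i.1.2)
      (inl (i.1.1 : K)) : CopI ℤ (Cop K E))) (wny e χ Y J) i * HN.of (fun i : J =>
      (Monoid.CoprodI.of (M := fun _ : ℤ => Cop K E) (i := i.1.2)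
      (inl (i.1.1 : K)) : CopI ℤ (Cop K E))) (wny e χ Y J)
      (Monoid.CoprodI.of (M := fun _ : ℤ => Cop K E) (i := i.1.2) (inl (i.1.1 : K))) =
    WNc e χ Y J (if χ i.1.1 = 1 then i.1.2 + 1 else i.1.2) *
      HN.t (fun i : J => (Monoid.CoprodI.of (M := fun _ : ℤ => Cop K E) (i := i.1.2)
      (inl (i.1.1 : K)) : CopI ℤ (Cop K E))) (wny e χ Y J) i := by
  exact HN.rel (fun i : J => (Monoid.CoprodI.of (M := fun _ : ℤ => Cop K E) (i := i.1.2)
      (inl (i.1.1 : K)) : CopI ℤ (Cop K E))) (wny e χ Y J) i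

open Classical in
/-- the homomorphism from the window to `E` -/
private lemma exists_rho (a : ℤ) (n : ℕ) :
    ∃ ρ : WN e χ Y {p | a ≤ p.2 ∧ p.2 < a + n} →* E, ρ (WNc e χ Y _ a) = e.c := by
  refine ⟨wl e χ Y _ (fun h => if h = a then Monoid.Coprod.lift (cc e χ) (MonoidHom.id E) else 1)
    (fun i => if i.1.2 = a ∧ χ i.1.1 ≠ 1 then (e.e (Multiplicative.toAdd (χ i.1.1)))⁻¹ else 1)
    ?_, ?_⟩
  · intro i
    have hi : a ≤ i.1.2 := i.2.1
    by_cases h1 : χ i.1.1 = 1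
    · have h2 : ¬ (i.1.2 + 1 = a) := by omega
      simp only [h1, ne_eq, not_true_eq_false, and_false, if_false, if_true, if_neg h2, one_mul,
        MonoidHom.one_apply, mul_one]
      by_cases h3 : i.1.2 = a
      · rw [if_pos h3]
        simp [cc_apply, h1]
      · rw [if_neg h3]
        simp
    · by_cases h3 : i.1.2 = a
      · simp only [h1, h3, ne_eq, not_false_eq_true, and_self, if_true, if_false,
          Monoid.Coprod.lift_apply_inl, Monoid.Coprod.lift_apply_inr, MonoidHom.id_apply, cc_apply]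
        have hp : Multiplicative.toAdd (χ (i.1.1 : K)) ≠ 0 := by
          intro h
          exact h1 (Multiplicative.toAdd.injective h)
        rw [← e.conj _ hp]
        group
      · simp [h1, h3]
  · rw [wl_c]
    simp

open Classical in
/-- the homomorphism from the larger window to the group of Lemma S -/
private lemma exists_phi (a : ℤ) (n : ℕ) :
    ∃ Φ : WN e χ Y {p | a ≤ p.2 ∧ p.2 < a + ((n + 1 : ℕ) : ℤ)} →*
      GS e χ (WNc e χ Y {p | a + 1 ≤ p.2 ∧ p.2 < a + 1 + (n : ℤ)} (a + 1)) Y,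
      Φ (WNc e χ Y _ a) = HN.of _ _ (inl (inr e.c) :
        Cop (Cop K E) (WN e χ Y {p | a + 1 ≤ p.2 ∧ p.2 < a + 1 + (n : ℤ)})) ∧
      ∀ h : ℤ, h ≠ a → Φ (WNc e χ Y _ h) = HN.of _ _ (inr (WNc e χ Y _ h) :
        Cop (Cop K E) (WN e χ Y {p | a + 1 ≤ p.2 ∧ p.2 < a + 1 + (n : ℤ)})) := by
  let J : Set (Y × ℤ) := {p | a ≤ p.2 ∧ p.2 < a + ((n + 1 : ℕ) : ℤ)}
  let J1 : Set (Y × ℤ) := {p | a + 1 ≤ p.2 ∧ p.2 < a + 1 + (n : ℤ)}
  have hJ : ∀ i : J, i.1.2 ≠ a → i.1 ∈ J1 := by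
    intro i hi
    have h1 : a ≤ i.1.2 := i.2.1
    have h2 : i.1.2 < a + ((n + 1 : ℕ) : ℤ) := i.2.2
    push_cast at h2
    exact ⟨by omega, by omega⟩
  let x1 : J1 → CopI ℤ (Cop K E) := fun i =>
    (Monoid.CoprodI.of (M := fun _ : ℤ => Cop K E) (i := i.1.2) (inl (i.1.1 : K)))
  let cR : WN e χ Y J1 := WNc e χ Y J1 (a + 1)
  let xg : Y → Cop (Cop K E) (WN e χ Y J1) := fun i => inl (inl (i : K))
  let f : ℤ → Cop K E →* GS e χ cR Y := fun h =>
    if h = a then (HN.of xg (gsy e χ cR Y)).comp inl else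
      (HN.of xg (gsy e χ cR Y)).comp (inr.comp ((HN.of x1 (wny e χ Y J1)).comp
        (Monoid.CoprodI.of (M := fun _ : ℤ => Cop K E) (i := h))))
  let s : J → GS e χ cR Y := fun i =>
    if h : i.1.2 = a then HN.t xg (gsy e χ cR Y) i.1.1 else
      HN.of xg (gsy e χ cR Y) (inr (HN.t x1 (wny e χ Y J1) ⟨i.1, hJ i h⟩))
  have hf1 : f a = (HN.of xg (gsy e χ cR Y)).comp inl := if_pos rfl
  have hf2 : ∀ h, h ≠ a → f h = (HN.of xg (gsy e χ cR Y)).comp (inr.comp
      ((HN.of x1 (wny e χ Y J1)).comp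
        (Monoid.CoprodI.of (M := fun _ : ℤ => Cop K E) (i := h)))) := fun h hh => if_neg hh
  have hs1 : ∀ i : J, i.1.2 = a → s i = HN.t xg (gsy e χ cR Y) i.1.1 := fun i hi => dif_pos hi
  have hs2 : ∀ (i : J) (h : i.1.2 ≠ a), s i = HN.of xg (gsy e χ cR Y)
      (inr (HN.t x1 (wny e χ Y J1) ⟨i.1, hJ i h⟩)) := fun i hi => dif_neg hi
  have hrel : ∀ i : J, s i * f i.1.2 (inl (i.1.1 : K)) =
      f (if χ i.1.1 = 1 then i.1.2 + 1 else i.1.2) (inr e.c) * s i := by
    intro i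
    by_cases hi : i.1.2 = a
    · rw [hs1 i hi, hi, hf1]
      have h1 := HN.rel xg (gsy e χ cR Y) i.1.1
      have h2 : f (if χ i.1.1 = 1 then a + 1 else a) (inr e.c) =
          HN.of xg (gsy e χ cR Y) (gsy e χ cR Y i.1.1) := by
        by_cases h3 : χ (i.1.1 : K) = 1
        · rw [if_pos h3, hf2 _ (by omega)]
          simp only [gsy, if_pos h3]
          rfl
        · rw [if_neg h3, hf1]
          simp only [gsy, if_neg h3]
          rfl
      rw [h2]
      exact h1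
    · have h1 := HN.rel x1 (wny e χ Y J1) ⟨i.1, hJ i hi⟩
      rw [hs2 i hi, hf2 _ hi]
      have h0 : a ≤ i.1.2 := i.2.1
      have h2 : f (if χ i.1.1 = 1 then i.1.2 + 1 else i.1.2) (inr e.c) =
          HN.of xg (gsy e χ cR Y) (inr (HN.of x1 (wny e χ Y J1)
            (wny e χ Y J1 ⟨i.1, hJ i hi⟩))) := by
        rw [hf2]
        · rfl
        · by_cases h3 : χ (i.1.1 : K) = 1
          · rw [if_pos h3]
            omega
          · rw [if_neg h3]
            exact hi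
      rw [h2]
      simp only [MonoidHom.comp_apply]
      rw [← map_mul, ← map_mul, ← map_mul, ← map_mul]
      exact congrArg _ (congrArg _ h1)
  refine ⟨wl e χ Y J f s hrel, ?_, ?_⟩
  · rw [wl_c, hf1]
    rfl
  · intro h hh
    rw [wl_c, hf2 h hh]
    rfl

end VW_

open VW_ in
/-- The windows: the elements `c` of all levels are visible. -/
theorem p_VW (hLS : T_LS) (hVPB : T_VPB) : T_VW := by
  intro E _ e K _ χ Y hY hord hV n
  induction n with
  | zero =>
    intro a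
    have : (WNc e χ Y {p | a ≤ p.2 ∧ p.2 < a + ((0 : ℕ) : ℤ)} '' Set.Ico a (a + ((0 : ℕ) : ℤ)))
        = ∅ := by simp
    rw [this]
    exact Vis.nil _
  | succ n ih =>
    intro a
    obtain ⟨ρ, hρ⟩ := exists_rho e χ Y (a + 1) n
    obtain ⟨Φ, hΦ1, hΦ2⟩ := exists_phi e χ Y a n
    have h1 := hLS E e K (WN e χ Y {p | a + 1 ≤ p.2 ∧ p.2 < a + 1 + (n : ℤ)}) χ
      (WNc e χ Y _ (a + 1)) Y ρ _ hY hord hV hρ (ih (a + 1))
    refine hVPB _ _ h1 _ Φ _ ((Set.finite_Ico _ _).image _) ?_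
    rintro _ ⟨h, hh, rfl⟩
    by_cases ha : h = a
    · subst ha
      exact ⟨_, Or.inl rfl, hΦ1.symm⟩
    · refine ⟨inr (WNc e χ Y _ h), Or.inr ⟨_, ⟨h, ?_, rfl⟩, rfl⟩, (hΦ2 h ha).symm⟩
      have h3 := hh.1
      have h4 := hh.2
      push_cast at h4
      exact ⟨by omega, by omega⟩

end

end ORG
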