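import Pool.Agent.ORG.Targets1

/-!
# ORG: all levels (target `T_VWA`)
-/

set_option autoImplicit false

open Monoid.Coprod

namespace ORG

noncomputable section

namespace VWA_

private lemma iord_map {G H : Type} [Group G] [Group H] (f : G →* H) (hf : Function.Injective f)
    {g : G} (hg : IOrd g) : IOrd (f g) := by
  intro n hn
  rw [← map_zpow] at hn
  exact hg n ((map_eq_one_iff f hf).1 hn)

private lemma bound {α : Type} (S : Set α) (hS : S.Finite) (f : α → ℤ) (T : Set ℤ)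
    (hT : T.Finite) : ∃ (a : ℤ) (n : ℕ), (∀ s ∈ S, a ≤ f s ∧ f s < a + n) ∧
      ∀ t ∈ T, a ≤ t ∧ t < a + n := by
  have hU : (f '' S ∪ T).Finite := (hS.image f).union hT
  obtain ⟨a, ha⟩ := hU.bddBelow
  obtain ⟨b, hb⟩ := hU.bddAbove
  refine ⟨a, (b + 1 - a).toNat, fun s hs => ?_, fun t ht => ?_⟩
  · have h1 := ha (Or.inl ⟨s, hs, rfl⟩)
    have h2 := hb (Or.inl ⟨s, hs, rfl⟩)
    have h3 := Int.self_le_toNat (b + 1 - a)
    exact ⟨h1, by lia⟩
  · have h1 := ha (Or.inr ht)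
    have h2 := hb (Or.inr ht)
    have h3 := Int.self_le_toNat (b + 1 - a)
    exact ⟨h1, by lia⟩

end VWA_

open VWA_ in
theorem p_VWA (h1 : T_VPB) (h2 : T_HNL) (h3 : T_VW) : T_VWA := by
  intro E _ e K _ χ Y hY hO hV T hT
  refine Vis.loc _ _ (hT.image _) ?_
  intro P hP hPT
  have hord : ∀ i : (Set.univ : Set (Y × ℤ)),
      IOrd (Monoid.CoprodI.of (M := fun _ : ℤ => Cop K E) (i := i.1.2)
        (inl (i.1.1 : K)) : CopI ℤ (Cop K E)) ∧ IOrd (wny e χ Y Set.univ i) := by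
    intro i
    refine ⟨iord_map _ (Monoid.CoprodI.of_injective _) (iord_map _ inl_injective
      (hO _ i.1.1.2)), ?_⟩
    exact iord_map _ (Monoid.CoprodI.of_injective _) (iord_map _ inr_injective e.inf)
  let F : Set (CopI ℤ (Cop K E)) := (fun h : ℤ =>
    Monoid.CoprodI.of (M := fun _ : ℤ => Cop K E) (i := h) (inr e.c)) '' T
  obtain ⟨B₀, I₀, hx, hy, -, hF, -, hI, hinj, g, hg, hgp⟩ :=
    h2 _ _ _ _ hord P hP F ∅ (hT.image _) Set.finite_empty
  obtain ⟨a, n, ha1, ha2⟩ := bound I₀ hI (fun i => i.1.2) T hT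
  let J : Set (Y × ℤ) := {p | a ≤ p.2 ∧ p.2 < a + n}
  let j : I₀ → J := fun i => ⟨i.1.1, ha1 i.1 i.2⟩
  let M := HN.map (rs _ B₀ I₀ hx) (rs _ B₀ I₀ hy)
    (fun i : J => (Monoid.CoprodI.of (M := fun _ : ℤ => Cop K E) (i := i.1.2)
      (inl (i.1.1 : K)) : CopI ℤ (Cop K E))) (wny e χ Y J) B₀.subtype j
      (fun _ => rfl) (fun _ => rfl)
  refine h1 _ _ (h3 E e K χ Y hY hO hV n a) P (M.comp g) _ ?_ ?_
  · exact (hT.image _).preimage Subtype.val_injective.injOn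
  · rintro p ⟨h, hh, hp⟩
    refine ⟨h, ha2 h hh, ?_⟩
    have hm : Monoid.CoprodI.of (M := fun _ : ℤ => Cop K E) (i := h) (inr e.c) ∈ B₀ :=
      hF ⟨h, hh, rfl⟩
    have e1 : g p = HN.of _ _ ⟨_, hm⟩ := by
      apply hinj
      rw [hgp, HN.map_of, ← hp]
      rfl
    have e2 : M (g p) = HN.of _ _ (B₀.subtype ⟨_, hm⟩) := by
      rw [e1]
      exact HN.map_of (rs _ B₀ I₀ hx) (rs _ B₀ I₀ hy) _ _ B₀.subtype j _ _ ⟨_, hm⟩
    exact e2.symm

end

end ORG
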