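import Pool.Agent.ORG.Targets2

set_option autoImplicit false

open Monoid.Coprod

namespace ORG

noncomputable section

namespace WIN_

variable {D L D' L' : Type} [Group D] [Group L] [Group D'] [Group L']

lemma smono {a b a' b' : ℤ} (h1 : a' ≤ a) (h2 : b ≤ b') : seg D L a b ≤ seg D L a' b' := by
  unfold seg
  apply Subgroup.closure_mono
  apply Set.union_subset_union_right
  rintro x ⟨h, hh1, hh2, l, rfl⟩
  exact ⟨h, by omega, by omega, l, rfl⟩

lemma pmap_id : PPmap (MonoidHom.id D) (MonoidHom.id L) = MonoidHom.id (PP D L) := by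
  apply PP_hom_ext
  · intro d
    simp [PPmap]
  · intro h l
    simp [PPmap]

lemma pmap_seg (δ : D →* D') (l : L →* L') {a b : ℤ} {x : PP D L} (hx : x ∈ seg D L a b) :
    PPmap δ l x ∈ seg D' L' a b := by
  unfold seg at hx
  induction hx using Subgroup.closure_induction with
  | mem x hx =>
    apply Subgroup.subset_closure
    rcases hx with ⟨d, rfl⟩ | ⟨h, h1, h2, y, rfl⟩
    · left
      exact ⟨δ d, by simp [PPmap]⟩
    · right
      exact ⟨h, h1, h2, l y, by simp [PPmap]⟩
  | one => rw [map_one]; exact Subgroup.one_mem _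
  | mul x y _ _ hx hy => rw [map_mul]; exact Subgroup.mul_mem _ hx hy
  | inv x _ hx => rw [map_inv]; exact Subgroup.inv_mem _ hx

/-- the inductive statement -/
def Good (k : ℕ) (w : ℤ) (ρ : ℤ → PP D L) (n : ℤ) : Prop :=
  ∀ a b : ℤ, b - a ≤ n → InC k (Wab k w ρ a b) ∧ WInj k w ρ a (b - 1) a b ∧
    WInj k w ρ (a + 1) b a b

/-- composition of the one step injections -/
lemma chain (k : ℕ) (w : ℤ) (ρ : ℤ → PP D L) (n : ℤ) (h : Good k w ρ n) :
    ∀ (m : ℕ) (a b a' b' : ℤ), a' ≤ a → b ≤ b' → b' - a' ≤ n → (a - a') + (b' - b) = m →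
      WInj k w ρ a b a' b' := by
  intro m
  induction m with
  | zero =>
    intro a b a' b' ha hb hn hm
    have h1 : a = a' := by push_cast at hm; omega
    have h2 : b = b' := by push_cast at hm; omega
    subst h1
    subst h2
    intro x _ hx
    exact hx
  | succ m ih =>
    intro a b a' b' ha hb hn hm x hx h1
    rcases lt_or_eq_of_le hb with hlt | heq
    · have h2 := (h a' b' hn).2.1 x (smono ha (by omega) hx) h1
      exact ih a b a' (b' - 1) ha (by omega) (by omega) (by push_cast at hm; omega) x hx h2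
    · have hlt : a' < a := by push_cast at hm; omega
      have h2 := (h a' b' hn).2.2 x (smono (by omega) hb hx) h1
      exact ih a b (a' + 1) b' (by omega) hb (by omega) (by push_cast at hm; omega) x hx h2

/-- small windows -/
lemma small (h1 : T_WN1) (k : ℕ) (w : ℤ) (ρ : ℤ → PP D L) (hD : InC k D) (hL : InC k L) (a b : ℤ)
    (hab : b - a < w) : InC k (Wab k w ρ a b) ∧ WInj k w ρ a (b - 1) a b ∧
      WInj k w ρ (a + 1) b a b := by
  obtain ⟨h, h'⟩ := h1 k D L w ρ a b hab
  refine ⟨h hD hL, ?_, ?_⟩
  · intro x hx hx1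
    rw [h' x (smono le_rfl (by omega) hx) hx1, map_one]
  · intro x hx hx1
    rw [h' x (smono (by omega) le_rfl hx) hx1, map_one]

end WIN_

open WIN_ in
theorem p_WIN (h1 : T_WN1) (h2 : T_WN2) (h3 : T_WN3) (h4 : T_WN4) : T_WIN := by
  intro k hk D L D' L' _ _ _ _ δ l w ρ hw hρ hD hL hD' hL' hT hB hT' hB'
  set ρ' : ℤ → PP D' L' := fun y => PPmap δ l (ρ y) with hρ'
  have hρ'' : ∀ y, ρ' y ∈ seg D' L' y (y + w) := fun y => pmap_seg δ l (hρ y)
  have hid : (fun y => PPmap (MonoidHom.id D') (MonoidHom.id L') (ρ' y)) = ρ' := by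
    funext y
    rw [pmap_id]
    rfl
  have main : ∀ n : ℕ, Good k w ρ (w - 1 + n) ∧ Good 1 w ρ' (w - 1 + n) := by
    intro n
    induction n with
    | zero =>
      constructor
      · intro a b hab
        exact small h1 k w ρ hD hL a b (by push_cast at hab; omega)
      · intro a b hab
        exact small h1 1 w ρ' hD' hL' a b (by push_cast at hab; omega)
    | succ n ih =>
      obtain ⟨ih1, ih2⟩ := ih
      have inj : ∀ a b a' b' : ℤ, a' ≤ a → b ≤ b' → b' - a' ≤ w - 1 + n → b - a < w →
          ∀ x ∈ seg D' L' a b, Quo.mk (WR 1 w ρ' a' b') x = 1 → x = 1 := by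
        intro a b a' b' ha hb hn hab x hx hx1
        obtain ⟨m, hm⟩ := Int.eq_ofNat_of_zero_le (show 0 ≤ (a - a') + (b' - b) by omega)
        have h5 := chain 1 w ρ' _ ih2 m a b a' b' ha hb hn hm x hx hx1
        exact (h1 1 D' L' w ρ' a b hab).2 x hx h5
      constructor
      · intro a b hab
        by_cases hs : b - a < w
        · exact small h1 k w ρ hD hL a b hs
        · have hn : b - a ≤ w + n := by push_cast at hab; omega
          have t1 := hT (b - w)
          rw [show b - w + w - 1 = b - 1 by ring, show b - w + w = b by ring] at t1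
          have t2 := hB a
          have r1 := h2 k D L D' L' δ l w ρ a b hw hρ (by omega) t1
            (ih1 a (b - 1) (by omega)).1 (ih2 a (b - 1) (by omega)).1
            (inj (b - w) (b - 1) a (b - 1) (by omega) le_rfl (by omega) (by omega))
          have r2 := h3 k D L D' L' δ l w ρ a b hw hρ (by omega) t2
            (ih1 (a + 1) b (by omega)).1 (ih2 (a + 1) b (by omega)).1
            (inj (a + 1) (a + w) (a + 1) b le_rfl (by omega) (by omega) (by omega))
          exact ⟨r1.1, r1.2, r2.2⟩
      · intro a b hab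
        by_cases hs : b - a < w
        · exact small h1 1 w ρ' hD' hL' a b hs
        · have hn : b - a ≤ w + n := by push_cast at hab; omega
          have t1 := hT' (b - w)
          rw [show b - w + w - 1 = b - 1 by ring, show b - w + w = b by ring] at t1
          have t2 := hB' a
          have r1 := h2 1 D' L' D' L' (MonoidHom.id D') (MonoidHom.id L') w ρ' a b hw hρ''
            (by omega) t1 (ih2 a (b - 1) (by omega)).1
          rw [hid] at r1
          have r1 := r1 (ih2 a (b - 1) (by omega)).1
            (inj (b - w) (b - 1) a (b - 1) (by omega) le_rfl (by omega) (by omega))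
          have r2 := h3 1 D' L' D' L' (MonoidHom.id D') (MonoidHom.id L') w ρ' a b hw hρ''
            (by omega) t2 (ih2 (a + 1) b (by omega)).1
          rw [hid] at r2
          have r2 := r2 (ih2 (a + 1) b (by omega)).1
            (inj (a + 1) (a + w) (a + 1) b le_rfl (by omega) (by omega) (by omega))
          exact ⟨r1.1, r1.2, r2.2⟩
  have all : ∀ a b : ℤ, InC k (Wab k w ρ a b) := by
    intro a b
    exact ((main (b - a).toNat).1 a b (by omega)).1
  have winj : ∀ a b a' b' : ℤ, a' ≤ a → b ≤ b' → WInj k w ρ a b a' b' := by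
    intro a b a' b' ha hb
    by_cases hab : 0 ≤ (a - a') + (b' - b)
    · obtain ⟨m, hm⟩ := Int.eq_ofNat_of_zero_le hab
      exact chain k w ρ _ (main (b' - a').toNat).1 m a b a' b' ha hb (by omega) hm
    · omega
  obtain ⟨c1, c2⟩ := h4 k D L w ρ hρ all winj
  refine ⟨c1, fun a x hx hx1 => ?_⟩
  exact (h1 k D L w ρ a (a + w - 1) (by omega)).2 x hx (c2 a (a + w - 1) x hx hx1)

end

end ORG
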