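import Pool.Agent.ORG.Targets2

/-!
# ORG-WN1: small windows have no relators
-/

set_option autoImplicit false

open Monoid.Coprod

namespace ORG

namespace WN1_

variable {D L : Type} [Group D] [Group L]

/-- `kap` on `D` -/
lemma kap_inl (a b : ℤ) (d : D) : kap D L a b (inl d) = inl d := by
  simp [kap]

/-- `kap` on the levels of the window -/
lemma kap_lev_pos (a b h : ℤ) (hh : a ≤ h ∧ h ≤ b) (l : L) :
    kap D L a b (lev D h l) = lev D h l := by
  simp [kap, hh]

/-- `kap` on the levels outside the window -/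
lemma kap_lev_neg (a b h : ℤ) (hh : ¬ (a ≤ h ∧ h ≤ b)) (l : L) :
    kap D L a b (lev D h l) = 1 := by
  rw [kap, PPlift_lev, if_neg hh]
  rfl

/-- `kap` fixes the segment -/
lemma kap_seg (a b : ℤ) {x : PP D L} (hx : x ∈ seg D L a b) : kap D L a b x = x := by
  rw [seg] at hx
  induction hx using Subgroup.closure_induction with
  | mem x hx =>
    rcases hx with ⟨d, rfl⟩ | ⟨h, h1, h2, l, rfl⟩
    · exact kap_inl a b d
    · exact kap_lev_pos a b h ⟨h1, h2⟩ l
  | one => exact map_one _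
  | mul x y _ _ hx hy => rw [map_mul, hx, hy]
  | inv x _ hx => rw [map_inv, hx]

/-- `mk` kills the levels outside the window -/
lemma mk_kap (k : ℕ) (w : ℤ) (ρ : ℤ → PP D L) (a b : ℤ) (x : PP D L) :
    Quo.mk (WR k w ρ a b) (kap D L a b x) = Quo.mk (WR k w ρ a b) x := by
  have h : (Quo.mk (WR k w ρ a b)).comp (kap D L a b) = Quo.mk (WR k w ρ a b) := by
    apply PP_hom_ext
    · intro d
      rw [MonoidHom.comp_apply, kap_inl]
    · intro h l
      rw [MonoidHom.comp_apply]
      by_cases hh : a ≤ h ∧ h ≤ b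
      · rw [kap_lev_pos a b h hh]
      · rw [kap_lev_neg a b h hh, map_one]
        exact (Quo.mk_rel (R := WR k w ρ a b) (Or.inr ⟨h, l, hh, rfl⟩)).symm
  exact DFunLike.congr_fun h x

/-- a small window contains no relators -/
lemma kap_rel (k : ℕ) (w : ℤ) (ρ : ℤ → PP D L) (a b : ℤ) (hw : b - a < w) :
    ∀ x ∈ WR k w ρ a b, kap D L a b x = 1 := by
  rintro x (⟨y, h1, h2, -⟩ | ⟨h, l, hh, rfl⟩)
  · omega
  · exact kap_lev_neg a b h hh l

end WN1_

open WN1_ in
/-- small windows -/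
theorem p_WN1 (h1 : T_C1) (h3 : T_C3) (h3i : T_C3I) : T_WN1 := by
  intro k D L _ _ w ρ a b hw
  let g : Wab k w ρ a b →* PP D L := Quo.lift (WR k w ρ a b) (kap D L a b) (kap_rel k w ρ a b hw)
  have hg : ∀ x, g (Quo.mk (WR k w ρ a b) x) = kap D L a b x := fun x => rfl
  refine ⟨fun hD hL => ?_, ?_⟩
  · refine h1 k (PP D L) (h3 k D (CopI ℤ L) hD (h3i k ℤ L hL)) (Wab k w ρ a b) g ?_
    rw [injective_iff_map_eq_one]
    intro z hz
    obtain ⟨x, rfl⟩ := Quo.mk_surj (WR k w ρ a b) z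
    rw [hg] at hz
    rw [← mk_kap, hz, map_one]
  · intro x hx h
    have h' := congrArg g h
    rw [hg, map_one, kap_seg a b hx] at h'
    exact h'

end ORG
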