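import Pool.Agent.ORG.Targets2

/-! ORG-WN2: adding a level at the top of a window (helper12). -/

set_option autoImplicit false

open Monoid.Coprod

namespace ORG

namespace WN2_

variable {D L : Type} [Group D] [Group L]

/-- homomorphisms which agree on the generators of a segment agree on it -/
theorem seg_eq {H : Type} [Group H] (f g : PP D L →* H) (a b : ℤ)
    (h1 : ∀ d, f (inl d) = g (inl d))
    (h2 : ∀ h : ℤ, a ≤ h → h ≤ b → ∀ l, f (lev D h l) = g (lev D h l))
    (x : PP D L) (hx : x ∈ seg D L a b) : f x = g x := by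
  unfold seg at hx
  induction hx using Subgroup.closure_induction with
  | mem y hy =>
    rcases hy with ⟨d, rfl⟩ | ⟨h, ha, hb, l, rfl⟩
    · exact h1 d
    · exact h2 h ha hb l
  | one => rw [map_one, map_one]
  | mul x y _ _ hx hy => rw [map_mul, map_mul, hx, hy]
  | inv x _ hx => rw [map_inv, map_inv, hx]

theorem seg_mono {a b a' b' : ℤ} (h1 : a' ≤ a) (h2 : b ≤ b') : seg D L a b ≤ seg D L a' b' := by
  unfold seg
  apply Subgroup.closure_mono
  apply Set.union_subset_union_right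
  rintro x ⟨h, ha, hb, l, rfl⟩
  exact ⟨h, h1.trans ha, hb.trans h2, l, rfl⟩

theorem kap_seg (a b : ℤ) (x : PP D L) (hx : x ∈ seg D L a b) : kap D L a b x = x := by
  refine seg_eq (kap D L a b) (MonoidHom.id _) a b ?_ ?_ x hx
  · intro d
    simp [kap]
  · intro h ha hb l
    rw [kap, PPlift_lev, if_pos ⟨ha, hb⟩, MonoidHom.id_apply]

theorem newl_seg {G : Type} [Group G] (f : PP D L →* G) (t a b : ℤ)
    (ht : ¬ (a ≤ t ∧ t ≤ b)) (x : PP D L) (hx : x ∈ seg D L a b) :
    newl f t x = inl (f x) := by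
  refine seg_eq (newl f t) (inl.comp f) a b ?_ ?_ x hx
  · intro d
    simp [newl]
  · intro h ha hb l
    have : h ≠ t := by
      rintro rfl
      exact ht ⟨ha, hb⟩
    rw [newl, PPlift_lev, if_neg this]
    rfl

theorem mk_lev_out (k : ℕ) (w : ℤ) (ρ : ℤ → PP D L) (a b h : ℤ) (hh : ¬ (a ≤ h ∧ h ≤ b)) (l : L) :
    Quo.mk (WR k w ρ a b) (lev D h l) = 1 :=
  Quo.mk_rel (Or.inr ⟨h, l, hh, rfl⟩)

theorem mk_rho (k : ℕ) (w : ℤ) (ρ : ℤ → PP D L) (a b y : ℤ) (h1 : a ≤ y) (h2 : y + w ≤ b) :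
    Quo.mk (WR k w ρ a b) (ρ y ^ k) = 1 :=
  Quo.mk_rel (Or.inl ⟨y, h1, h2, rfl⟩)

end WN2_

open WN2_ in
theorem p_WN2 (hC1 : T_C1) : T_WN2 := by
  intro k D L D' L' _ _ _ _ δ l w ρ a b hw hρ hab hadd hG hG' hinj
  -- the homomorphism θ
  have hθ : ∀ x ∈ WR k w ρ a (b - 1),
      ((Quo.mk (WR 1 w (fun y => PPmap δ l (ρ y)) a (b - 1))).comp (PPmap δ l)) x = 1 := by
    rintro x (⟨y, h1, h2, rfl⟩ | ⟨h, l0, hh, rfl⟩)
    · have := mk_rho 1 w (fun y => PPmap δ l (ρ y)) a (b - 1) y h1 h2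
      rw [pow_one] at this
      rw [map_pow, MonoidHom.comp_apply, this, one_pow]
    · have : PPmap δ l (lev D h l0) = lev D' h (l l0) := by
        rw [PPmap, PPlift_lev]
        rfl
      rw [MonoidHom.comp_apply, this]
      exact mk_lev_out 1 w (fun y => PPmap δ l (ρ y)) a (b - 1) h hh (l l0)
  have hinjOn : Set.InjOn (Quo.mk (WR 1 w (fun y => PPmap δ l (ρ y)) a (b - 1)))
      (seg D' L' (b - w) (b - 1)) := by
    intro x hx y hy hxy
    have h1 := hinj (x * y⁻¹) (Subgroup.mul_mem _ hx (Subgroup.inv_mem _ hy)) (by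
      rw [map_mul, map_inv, hxy, mul_inv_cancel])
    exact mul_inv_eq_one.1 h1
  obtain ⟨hQ1, hQ2⟩ := hadd (Wab k w ρ a (b - 1)) (Wab 1 w (fun y => PPmap δ l (ρ y)) a (b - 1))
    (Quo.lift _ _ hθ) (Quo.mk (WR k w ρ a (b - 1)))
    (Quo.mk (WR 1 w (fun y => PPmap δ l (ρ y)) a (b - 1))) hG hG'
    (fun p => Quo.lift_mk _ _ _ p) hinjOn
  set f : PP D L →* Wab k w ρ a (b - 1) := Quo.mk (WR k w ρ a (b - 1)) with hf
  set R : Set (Cop (Wab k w ρ a (b - 1)) L) := {newl f b (ρ (b - w)) ^ k} with hR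
  -- the homomorphism α
  have hα : ∀ x ∈ WR k w ρ a b, ((Quo.mk R).comp (newl f b)) x = 1 := by
    rintro x (⟨y, h1, h2, rfl⟩ | ⟨h, l0, hh, rfl⟩)
    · by_cases hy : y + w = b
      · have hy' : y = b - w := by omega
        subst hy'
        rw [MonoidHom.comp_apply, map_pow]
        exact Quo.mk_rel (by rw [hR]; rfl)
      · rw [MonoidHom.comp_apply, map_pow, newl_seg f b y (y + w) (by omega) _ (hρ y),
          ← map_pow, ← map_pow, hf, mk_rho k w ρ a (b - 1) y h1 (by omega), map_one, map_one]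
    · have hhb : h ≠ b := by
        rintro rfl
        exact hh ⟨by omega, le_refl _⟩
      rw [MonoidHom.comp_apply, newl, PPlift_lev, if_neg hhb]
      change Quo.mk R (inl (f (lev D h l0))) = 1
      rw [hf, mk_lev_out k w ρ a (b - 1) h (by omega) l0, map_one, map_one]
  let α : Wab k w ρ a b →* Quo R := Quo.lift _ _ hα
  -- the homomorphism β
  have hγ : ∀ x ∈ WR k w ρ a (b - 1),
      ((Quo.mk (WR k w ρ a b)).comp (kap D L a (b - 1))) x = 1 := by
    rintro x (⟨y, h1, h2, rfl⟩ | ⟨h, l0, hh, rfl⟩)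
    · rw [MonoidHom.comp_apply, map_pow,
        kap_seg a (b - 1) _ (seg_mono h1 h2 (hρ y)),
        mk_rho k w ρ a b y h1 (by omega)]
    · rw [MonoidHom.comp_apply, kap, PPlift_lev, if_neg hh]
      simp
  let γ : Wab k w ρ a (b - 1) →* Wab k w ρ a b := Quo.lift _ _ hγ
  let B : Cop (Wab k w ρ a (b - 1)) L →* Wab k w ρ a b :=
    Monoid.Coprod.lift γ ((Quo.mk (WR k w ρ a b)).comp (lev D b))
  have hB : ∀ x ∈ seg D L a b, B (newl f b x) = Quo.mk (WR k w ρ a b) x := by
    intro x hx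
    refine seg_eq (B.comp (newl f b)) (Quo.mk (WR k w ρ a b)) a b ?_ ?_ x hx
    · intro d
      have h1 : newl f b (inl d) = inl (f (inl d)) := by simp [newl]
      have h2 : γ (f (inl d)) = Quo.mk (WR k w ρ a b) (kap D L a (b - 1) (inl d)) :=
        Quo.lift_mk _ _ _ _
      have h3 : kap D L a (b - 1) (inl d : PP D L) = inl d := by simp [kap]
      rw [MonoidHom.comp_apply, h1, Monoid.Coprod.lift_apply_inl, h2, h3]
    · intro h ha hb l0
      by_cases hhb : h = b
      · subst hhb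
        have h1 : newl f h (lev D h l0) = inr l0 := by
          rw [newl, PPlift_lev, if_pos rfl]
        rw [MonoidHom.comp_apply, h1, Monoid.Coprod.lift_apply_inr]
        rfl
      · have h1 : newl f b (lev D h l0) = inl (f (lev D h l0)) := by
          rw [newl, PPlift_lev, if_neg hhb]
          rfl
        have h2 : γ (f (lev D h l0)) = Quo.mk (WR k w ρ a b) (kap D L a (b - 1) (lev D h l0)) :=
          Quo.lift_mk _ _ _ _
        have h3 : kap D L a (b - 1) (lev D h l0) = lev D h l0 := by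
          rw [kap, PPlift_lev, if_pos ⟨ha, by omega⟩]
        rw [MonoidHom.comp_apply, h1, Monoid.Coprod.lift_apply_inl, h2, h3]
  have hβ : ∀ x ∈ R, B x = 1 := by
    intro x hx
    rw [hR, Set.mem_singleton_iff] at hx
    rw [hx, map_pow, hB _ (seg_mono (by omega) (by omega) (hρ (b - w))), ← map_pow]
    exact mk_rho k w ρ a b (b - w) (by omega) (by omega)
  let β : Quo R →* Wab k w ρ a b := Quo.lift _ _ hβ
  have hid : β.comp α = MonoidHom.id _ := by
    apply Quo.hom_ext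
    intro x
    have h0 : ((β.comp α).comp (Quo.mk (WR k w ρ a b)) : PP D L →* Wab k w ρ a b) =
        Quo.mk (WR k w ρ a b) := by
      have h1 : ∀ x ∈ seg D L a b, (β.comp α) (Quo.mk (WR k w ρ a b) x) =
          Quo.mk (WR k w ρ a b) x := fun x hx => hB x hx
      apply PP_hom_ext
      · intro d
        exact h1 _ (Subgroup.subset_closure (Or.inl ⟨d, rfl⟩))
      · intro h l0
        by_cases hh : a ≤ h ∧ h ≤ b
        · exact h1 _ (Subgroup.subset_closure (Or.inr ⟨h, hh.1, hh.2, l0, rfl⟩))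
        · rw [MonoidHom.comp_apply, mk_lev_out k w ρ a b h hh l0, map_one]
    exact DFunLike.congr_fun h0 x
  refine ⟨hC1 k _ hQ2 _ α (inj_of_left α β hid), ?_⟩
  intro x hx hx1
  have h1 : α (Quo.mk (WR k w ρ a b) x) = 1 := by rw [hx1, map_one]
  have h2 : α (Quo.mk (WR k w ρ a b) x) = Quo.mk R (newl f b x) := Quo.lift_mk _ _ _ _
  rw [h2, newl_seg f b a (b - 1) (by omega) x hx] at h1
  apply hQ1
  rw [map_one]
  exact h1

end ORG
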