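import Pool.Agent.ORG.Targets2

/-!
# ORG: adding a level at the bottom of a window (T_WN3, helper66)
-/

set_option autoImplicit false

open Monoid.Coprod

namespace ORG

namespace WN3_

variable {D L : Type} [Group D] [Group L]

theorem newl_inl {G : Type} [Group G] (f : PP D L →* G) (t : ℤ) (d : D) :
    newl f t (inl d) = inl (f (inl d)) := by
  rw [newl, PPlift_inl]
  rfl

theorem newl_lev_self {G : Type} [Group G] (f : PP D L →* G) (t : ℤ) (x : L) :
    newl f t (lev D t x) = inr x := by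
  rw [newl, PPlift_lev, if_pos rfl]

theorem newl_lev {G : Type} [Group G] (f : PP D L →* G) (t h : ℤ) (x : L) (hh : h ≠ t) :
    newl f t (lev D h x) = inl (f (lev D h x)) := by
  rw [newl, PPlift_lev, if_neg hh]
  rfl

theorem newl_seg {G : Type} [Group G] (f : PP D L →* G) (t a b : ℤ) (ht : ¬ (a ≤ t ∧ t ≤ b))
    (x : PP D L) (hx : x ∈ seg D L a b) : newl f t x = inl (f x) := by
  unfold seg at hx
  induction hx using Subgroup.closure_induction with
  | mem z hz =>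
    rcases hz with ⟨d, rfl⟩ | ⟨h, h1, h2, y, rfl⟩
    · exact newl_inl f t d
    · refine newl_lev f t h y ?_
      rintro rfl
      exact ht ⟨h1, h2⟩
  | one => simp
  | mul u v _ _ hu hv => rw [map_mul, hu, hv, map_mul, map_mul]
  | inv u _ hu => rw [map_inv, hu, map_inv, map_inv]

theorem kap_inl (a b : ℤ) (d : D) : kap D L a b (inl d) = inl d := by
  rw [kap, PPlift_inl]

theorem kap_lev (a b h : ℤ) (x : L) (hh : a ≤ h ∧ h ≤ b) :
    kap D L a b (lev D h x) = lev D h x := by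
  rw [kap, PPlift_lev, if_pos hh]

theorem kap_lev' (a b h : ℤ) (x : L) (hh : ¬ (a ≤ h ∧ h ≤ b)) :
    kap D L a b (lev D h x) = 1 := by
  rw [kap, PPlift_lev, if_neg hh]
  rfl

theorem kap_seg (a b a' b' : ℤ) (ha : a ≤ a') (hb : b' ≤ b) (x : PP D L)
    (hx : x ∈ seg D L a' b') : kap D L a b x = x := by
  unfold seg at hx
  induction hx using Subgroup.closure_induction with
  | mem z hz =>
    rcases hz with ⟨d, rfl⟩ | ⟨h, h1, h2, y, rfl⟩
    · exact kap_inl a b d
    · exact kap_lev a b h y ⟨ha.trans h1, h2.trans hb⟩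
  | one => simp
  | mul u v _ _ hu hv => rw [map_mul, hu, hv]
  | inv u _ hu => rw [map_inv, hu]

end WN3_

open WN3_

theorem p_WN3 (hC1 : T_C1) : T_WN3 := by
  intro k D L D' L' _ _ _ _ δ l w ρ a b hw hρ hab hadd hC hC' hinj'
  set ρ' : ℤ → PP D' L' := fun y => PPmap δ l (ρ y) with hρ'
  set f : PP D L →* Wab k w ρ (a + 1) b := Quo.mk (WR k w ρ (a + 1) b) with hf
  set f' : PP D' L' →* Wab 1 w ρ' (a + 1) b := Quo.mk (WR 1 w ρ' (a + 1) b) with hf'
  have hθ : ∀ x ∈ WR k w ρ (a + 1) b, (f'.comp (PPmap δ l)) x = 1 := by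
    rintro x (⟨y, hy1, hy2, rfl⟩ | ⟨h, z, hh, rfl⟩)
    · have h1 : f' (ρ' y ^ 1) = 1 := Quo.mk_rel (Or.inl ⟨y, hy1, hy2, rfl⟩)
      rw [pow_one] at h1
      rw [map_pow, MonoidHom.comp_apply]
      change (f' (ρ' y)) ^ k = 1
      rw [h1, one_pow]
    · rw [MonoidHom.comp_apply]
      have h1 : PPmap δ l (lev D h z) = lev D' h (l z) := by
        rw [PPmap, PPlift_lev]
        rfl
      rw [h1]
      exact Quo.mk_rel (Or.inr ⟨h, l z, hh, rfl⟩)
  obtain ⟨hi, hQ⟩ := hadd (Wab k w ρ (a + 1) b) (Wab 1 w ρ' (a + 1) b)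
    (Quo.lift (WR k w ρ (a + 1) b) (f'.comp (PPmap δ l)) hθ) f f' hC hC' (fun p => rfl) (by
      intro x hx y hy hxy
      have h1 : x * y⁻¹ = 1 := by
        refine hinj' _ ((seg D' L' (a + 1) (a + w)).mul_mem hx
          ((seg D' L' (a + 1) (a + w)).inv_mem hy)) ?_
        rw [map_mul, map_inv]
        change f' x * (f' y)⁻¹ = 1
        rw [hxy, mul_inv_cancel]
      exact mul_inv_eq_one.1 h1)
  -- the map `α`
  have hab' : a ≤ b := by linarith
  have hα : ∀ x ∈ WR k w ρ a b,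
      ((Quo.mk ({newl f a (ρ a) ^ k} : Set (Cop (Wab k w ρ (a + 1) b) L))).comp (newl f a)) x
        = 1 := by
    rintro x (⟨y, hy1, hy2, rfl⟩ | ⟨h, z, hh, rfl⟩)
    · rcases eq_or_lt_of_le hy1 with rfl | hlt
      · rw [MonoidHom.comp_apply, map_pow]
        exact Quo.mk_rel rfl
      · have h1 : newl f a (ρ y ^ k) = inl (f (ρ y ^ k)) :=
          newl_seg f a y (y + w) (by intro h; linarith [h.1]) _
            ((seg D L y (y + w)).pow_mem (hρ y) k)
        have h2 : f (ρ y ^ k) = 1 := Quo.mk_rel (Or.inl ⟨y, hlt, hy2, rfl⟩)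
        rw [MonoidHom.comp_apply, h1, h2, map_one, map_one]
    · have hne : h ≠ a := by
        rintro rfl
        exact hh ⟨le_rfl, hab'⟩
      have h2 : f (lev D h z) = 1 := Quo.mk_rel (Or.inr ⟨h, z, fun h' =>
        hh ⟨by linarith [h'.1], h'.2⟩, rfl⟩)
      rw [MonoidHom.comp_apply, newl_lev f a h z hne, h2, map_one, map_one]
  -- the map `β`
  have hβG : ∀ x ∈ WR k w ρ (a + 1) b,
      ((Quo.mk (WR k w ρ a b)).comp (kap D L (a + 1) b)) x = 1 := by
    rintro x (⟨y, hy1, hy2, rfl⟩ | ⟨h, z, hh, rfl⟩)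
    · rw [MonoidHom.comp_apply, map_pow,
        kap_seg (a + 1) b y (y + w) hy1 hy2 _ (hρ y)]
      exact Quo.mk_rel (Or.inl ⟨y, by linarith, hy2, rfl⟩)
    · rw [MonoidHom.comp_apply, kap_lev' _ _ _ _ hh, map_one]
  set βG : Wab k w ρ (a + 1) b →* Wab k w ρ a b :=
    Quo.lift (WR k w ρ (a + 1) b) ((Quo.mk (WR k w ρ a b)).comp (kap D L (a + 1) b)) hβG
    with hβGd
  have hβGf : ∀ x, βG (f x) = Quo.mk (WR k w ρ a b) (kap D L (a + 1) b x) := fun x => rfl
  set β₀ : Cop (Wab k w ρ (a + 1) b) L →* Wab k w ρ a b :=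
    Monoid.Coprod.lift βG ((Quo.mk (WR k w ρ a b)).comp (lev D a)) with hβ₀
  have hγ : β₀.comp (newl f a) = Quo.mk (WR k w ρ a b) := by
    apply PP_hom_ext
    · intro d
      rw [MonoidHom.comp_apply, newl_inl, hβ₀, lift_apply_inl, hβGf, kap_inl]
    · intro h z
      rw [MonoidHom.comp_apply]
      by_cases hha : h = a
      · subst hha
        rw [newl_lev_self, hβ₀, lift_apply_inr]
        rfl
      · rw [newl_lev f a h z hha, hβ₀, lift_apply_inl, hβGf]
        by_cases hh : a + 1 ≤ h ∧ h ≤ b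
        · rw [kap_lev _ _ _ _ hh]
        · rw [kap_lev' _ _ _ _ hh, map_one]
          have hmem : lev D h z ∈ WR k w ρ a b := by
            refine Or.inr ⟨h, z, fun h' => hh ⟨?_, h'.2⟩, rfl⟩
            have : a < h := lt_of_le_of_ne h'.1 (Ne.symm hha)
            linarith
          exact (Quo.mk_rel hmem).symm
  have hβ : ∀ x ∈ ({newl f a (ρ a) ^ k} : Set (Cop (Wab k w ρ (a + 1) b) L)), β₀ x = 1 := by
    intro x hx
    rw [Set.mem_singleton_iff] at hx
    subst hx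
    have h1 : β₀ (newl f a (ρ a ^ k)) = Quo.mk (WR k w ρ a b) (ρ a ^ k) :=
      DFunLike.congr_fun hγ _
    rw [← map_pow, h1]
    exact Quo.mk_rel (Or.inl ⟨a, le_rfl, hab, rfl⟩)
  have hαinj : Function.Injective (Quo.lift (WR k w ρ a b) _ hα) := by
    refine inj_of_left _ (Quo.lift _ β₀ hβ) ?_
    apply Quo.hom_ext
    intro x
    exact DFunLike.congr_fun hγ x
  refine ⟨hC1 k _ hQ _ _ hαinj, ?_⟩
  intro x hx hx1
  have h1 : Quo.lift (WR k w ρ a b) _ hα (Quo.mk (WR k w ρ a b) x) = 1 := by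
    rw [hx1, map_one]
  rw [Quo.lift_mk, MonoidHom.comp_apply,
    newl_seg f a (a + 1) b (by intro h; linarith [h.1]) x hx] at h1
  have h2 : ((Quo.mk ({newl f a (ρ a) ^ k} : Set (Cop (Wab k w ρ (a + 1) b) L))).comp inl) (f x) =
      ((Quo.mk ({newl f a (ρ a) ^ k} : Set (Cop (Wab k w ρ (a + 1) b) L))).comp inl) 1 := by
    rw [map_one]
    exact h1
  exact hi h2

end ORG
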