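import Pool.Agent.ORG.P_WN1

/-!
# ORG-WN4: the union of the windows
-/

set_option autoImplicit false

open Monoid.Coprod

namespace ORG

namespace WN4_

variable {D L : Type} [Group D] [Group L]

/-- segments are monotone -/
lemma seg_mono {a b a' b' : ℤ} (h1 : a' ≤ a) (h2 : b ≤ b') : seg D L a b ≤ seg D L a' b' := by
  apply Subgroup.closure_mono
  rintro x (hx | ⟨h, ha, hb, l, rfl⟩)
  · exact Or.inl hx
  · exact Or.inr ⟨h, h1.trans ha, hb.trans h2, l, rfl⟩

/-- every element lies in a segment -/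
lemma exists_seg (x : PP D L) : ∃ N : ℕ, x ∈ seg D L (-N) N := by
  have hmul : ∀ x y : PP D L, (∃ N : ℕ, x ∈ seg D L (-N) N) → (∃ N : ℕ, y ∈ seg D L (-N) N) →
      ∃ N : ℕ, x * y ∈ seg D L (-N) N := by
    rintro x y ⟨N, hN⟩ ⟨M, hM⟩
    refine ⟨max N M, Subgroup.mul_mem _ (seg_mono ?_ ?_ hN) (seg_mono ?_ ?_ hM)⟩
    · push_cast; omega
    · push_cast; omega
    · push_cast; omega
    · push_cast; omega
  induction x using Monoid.Coprod.induction_on with
  | inl d => exact ⟨0, Subgroup.subset_closure (Or.inl ⟨d, rfl⟩)⟩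
  | inr u =>
    induction u using Monoid.CoprodI.induction_on with
    | one => exact ⟨0, by rw [map_one]; exact Subgroup.one_mem _⟩
    | of h l =>
      refine ⟨h.natAbs, Subgroup.subset_closure (Or.inr ⟨h, ?_, ?_, l, rfl⟩)⟩
      · omega
      · omega
    | mul u v hu hv =>
      rw [map_mul]
      exact hmul _ _ hu hv
  | mul x y hx hy => exact hmul x y hx hy

/-- the elements which are trivial in all large windows -/
def ker (k : ℕ) (w : ℤ) (ρ : ℤ → PP D L) : Subgroup (PP D L) where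
  carrier := {x | ∃ N₀ : ℕ, ∀ N : ℕ, N₀ ≤ N → Quo.mk (WR k w ρ (-N) N) x = 1}
  one_mem' := ⟨0, fun N _ => map_one _⟩
  mul_mem' := by
    rintro x y ⟨N, hN⟩ ⟨M, hM⟩
    refine ⟨max N M, fun K hK => ?_⟩
    rw [map_mul, hN K (le_trans (le_max_left _ _) hK), hM K (le_trans (le_max_right _ _) hK),
      mul_one]
  inv_mem' := by
    rintro x ⟨N, hN⟩
    exact ⟨N, fun K hK => by rw [map_inv, hN K hK, inv_one]⟩

instance (k : ℕ) (w : ℤ) (ρ : ℤ → PP D L) : (ker k w ρ).Normal where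
  conj_mem := by
    rintro x ⟨N, hN⟩ g
    exact ⟨N, fun K hK => by rw [map_mul, map_mul, map_inv, hN K hK, mul_one, mul_inv_cancel]⟩

/-- elements which are trivial in the union are trivial in all large windows -/
lemma le_ker (k : ℕ) (w : ℤ) (ρ : ℤ → PP D L) (x : PP D L)
    (hx : Quo.mk (Set.range fun y : ℤ => ρ y ^ k) x = 1) : x ∈ ker k w ρ := by
  have h : Subgroup.normalClosure (Set.range fun y : ℤ => ρ y ^ k) ≤ ker k w ρ := by
    apply Subgroup.normalClosure_le_normal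
    rintro _ ⟨y, rfl⟩
    refine ⟨y.natAbs + w.natAbs, fun N hN => Quo.mk_rel (Or.inl ⟨y, ?_, ?_, rfl⟩)⟩
    · omega
    · omega
  exact h (Quo.mk_eq_one.1 hx)

end WN4_

open WN1_ WN4_ in
/-- the union of the windows -/
theorem p_WN4 (h1 : T_C1) (hw : T_WNW) : T_WN4 := by
  intro k D L _ _ w ρ hρ hC hI
  have key : ∀ a b : ℤ, ∀ x ∈ seg D L a b,
      Quo.mk (Set.range fun y : ℤ => ρ y ^ k) x = 1 → Quo.mk (WR k w ρ a b) x = 1 := by
    intro a b x hx h
    obtain ⟨N₀, hN⟩ := le_ker k w ρ x h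
    refine hI a b (-((N₀ + a.natAbs + b.natAbs : ℕ) : ℤ)) ((N₀ + a.natAbs + b.natAbs : ℕ) : ℤ)
      ?_ ?_ x hx (hN _ ?_)
    · omega
    · omega
    · omega
  refine ⟨InC.loc _ fun P hP => ?_, key⟩
  -- the map of a window to the union
  have hΘ : ∀ a b : ℤ, ∀ x ∈ WR k w ρ a b,
      ((Quo.mk (Set.range fun y : ℤ => ρ y ^ k)).comp (kap D L a b)) x = 1 := by
    rintro a b x (⟨y, h1, h2, rfl⟩ | ⟨h, l, hh, rfl⟩)
    · rw [MonoidHom.comp_apply, map_pow, kap_seg a b (seg_mono h1 h2 (hρ y))]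
      exact Quo.mk_rel ⟨y, rfl⟩
    · rw [MonoidHom.comp_apply, kap_lev_neg a b h hh, map_one]
  let Θ : ∀ a b : ℤ, Wab k w ρ a b →* Winf k ρ := fun a b =>
    Quo.lift (WR k w ρ a b) ((Quo.mk _).comp (kap D L a b)) (hΘ a b)
  have hseg : ∀ a b : ℤ, ∀ x ∈ seg D L a b, Θ a b (Quo.mk (WR k w ρ a b) x) =
      Quo.mk (Set.range fun y : ℤ => ρ y ^ k) x := by
    intro a b x hx
    change Quo.mk _ (kap D L a b x) = _
    rw [kap_seg a b hx]
  have hinj : ∀ a b, Function.Injective (Θ a b) := by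
    intro a b
    rw [injective_iff_map_eq_one]
    intro z hz
    obtain ⟨x, hx, rfl⟩ := (hw k D L w ρ hρ).1 a b z
    rw [hseg a b x hx] at hz
    exact key a b x hx hz
  -- finitely many elements lie in one window
  have hfin : ∀ S : Finset (Winf k ρ), ∃ N : ℕ, ∀ s ∈ S, s ∈ (Θ (-N) N).range := by
    classical
    intro S
    have hx : ∀ s : Winf k ρ, ∃ N : ℕ, ∀ M : ℕ, N ≤ M → s ∈ (Θ (-M) M).range := by
      intro s
      obtain ⟨x, rfl⟩ := Quo.mk_surj _ s
      obtain ⟨N, hN⟩ := exists_seg x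
      refine ⟨N, fun M hM => ⟨Quo.mk _ x, hseg _ _ x (seg_mono ?_ ?_ hN)⟩⟩
      · omega
      · omega
    choose f hf using hx
    exact ⟨S.sup f, fun s hs => hf s _ (Finset.le_sup hs)⟩
  obtain ⟨S, hS⟩ := hP
  obtain ⟨N, hN⟩ := hfin S
  have hle : P ≤ (Θ (-N) N).range := by
    rw [← hS, Subgroup.closure_le]
    exact fun s hs => hN s hs
  obtain ⟨g, hg, -⟩ := exists_hom_of_le_range (Θ (-N) N) (hinj _ _) P hle
  exact h1 k _ (hC _ _) P g hg

end ORG
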