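import Pool.Agent.ORG.P_WN1

/-!
# ORG-WNW: maps between windows
-/

set_option autoImplicit false

open Monoid.Coprod

namespace ORG

namespace WNW_

variable {D L : Type} [Group D] [Group L]

/-- segments are monotone -/
lemma seg_mono {a b a' b' : ℤ} (ha : a' ≤ a) (hb : b ≤ b') : seg D L a b ≤ seg D L a' b' := by
  refine Subgroup.closure_mono ?_
  rintro x (hx | ⟨h, h1, h2, l, rfl⟩)
  · exact Or.inl hx
  · exact Or.inr ⟨h, le_trans ha h1, le_trans h2 hb, l, rfl⟩

/-- `D` lies in the segments -/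
lemma inl_mem_seg (a b : ℤ) (d : D) : (inl d : PP D L) ∈ seg D L a b :=
  Subgroup.subset_closure (Or.inl ⟨d, rfl⟩)

/-- the levels of the window lie in the segment -/
lemma lev_mem_seg (a b h : ℤ) (hh : a ≤ h ∧ h ≤ b) (l : L) : lev D h l ∈ seg D L a b :=
  Subgroup.subset_closure (Or.inr ⟨h, hh.1, hh.2, l, rfl⟩)

/-- `kap` has values in the segment -/
lemma kap_mem_seg (a b : ℤ) (x : PP D L) : kap D L a b x ∈ seg D L a b := by
  let g : PP D L →* seg D L a b :=
    PPlift ((inl : D →* PP D L).codRestrict (seg D L a b) fun d => inl_mem_seg a b d) fun h =>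
      if hh : a ≤ h ∧ h ≤ b then
        (lev D h : L →* PP D L).codRestrict (seg D L a b) fun l => lev_mem_seg a b h hh l
      else 1
  have hg : (seg D L a b).subtype.comp g = kap D L a b := by
    apply PP_hom_ext
    · intro d
      rw [WN1_.kap_inl, MonoidHom.comp_apply]
      change ((g (inl d) : seg D L a b) : PP D L) = inl d
      rw [show g (inl d) = _ from PPlift_inl _ _ d]
      rfl
    · intro h l
      rw [MonoidHom.comp_apply]
      change ((g (lev D h l) : seg D L a b) : PP D L) = _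
      rw [show g (lev D h l) = _ from PPlift_lev _ _ h l]
      by_cases hh : a ≤ h ∧ h ≤ b
      · rw [dif_pos hh, WN1_.kap_lev_pos a b h hh]
        rfl
      · rw [dif_neg hh, WN1_.kap_lev_neg a b h hh]
        rfl
  rw [← hg]
  exact (g x).2

/-- a map of windows which agrees with the projection on the segment -/
lemma exists_map (k : ℕ) (w : ℤ) (ρ : ℤ → PP D L) (hρ : ∀ y, ρ y ∈ seg D L y (y + w))
    (a b a' b' : ℤ) (ha : a' ≤ a) (hb : b ≤ b') :
    ∀ x ∈ WR k w ρ a b, ((Quo.mk (WR k w ρ a' b')).comp (kap D L a b)) x = 1 := by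
  rintro x (⟨y, h1, h2, rfl⟩ | ⟨h, l, hh, rfl⟩)
  · rw [MonoidHom.comp_apply, map_pow, WN1_.kap_seg a b (seg_mono h1 h2 (hρ y))]
    exact Quo.mk_rel (R := WR k w ρ a' b') (Or.inl ⟨y, le_trans ha h1, le_trans h2 hb, rfl⟩)
  · rw [MonoidHom.comp_apply, WN1_.kap_lev_neg a b h hh, map_one]

end WNW_

open WNW_ in
/-- maps between windows -/
theorem p_WNW : T_WNW := by
  intro k D L _ _ w ρ hρ
  refine ⟨fun a b z => ?_, fun a b a' b' ha hb x hx h => ?_⟩
  · obtain ⟨x, rfl⟩ := Quo.mk_surj (WR k w ρ a b) z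
    exact ⟨kap D L a b x, kap_mem_seg a b x, WN1_.mk_kap k w ρ a b x⟩
  · let g : Wab k w ρ a b →* Wab k w ρ a' b' :=
      Quo.lift (WR k w ρ a b) ((Quo.mk (WR k w ρ a' b')).comp (kap D L a b))
        (exists_map k w ρ hρ a b a' b' ha hb)
    have hg : g (Quo.mk (WR k w ρ a b) x) =
        Quo.mk (WR k w ρ a' b') (kap D L a b x) := rfl
    rw [h, map_one, WN1_.kap_seg a b hx] at hg
    exact hg.symm

end ORG
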