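import Pool.Agent.ORG.Targets1

/-!
# ORG-ZE: the class `Zed` is closed under extensions by `ℤ`
-/

set_option autoImplicit false

open Monoid.Coprod

namespace ORG

namespace ZE_

noncomputable section

variable {A : Type} [Group A]

/-- the power `t ^ h` -/
def pw (t : A) (h : Zm) : A := t ^ (Multiplicative.toAdd h)

lemma pi_pw (π : A →* Zm) (t : A) (ht : π t = Multiplicative.ofAdd 1) (h : Zm) :
    π (pw t h) = h := by
  unfold pw
  rw [map_zpow, ht, ← ofAdd_zsmul]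
  simp

variable {G : Type} [Group G]

/-- the element of the kernel -/
def kc (π : A →* Zm) (t : A) (ht : π t = Multiplicative.ofAdd 1) (Ψ : G →* A) (g : G) (h : Zm) :
    π.ker :=
  ⟨pw t h * Ψ g * (pw t (h * (π.comp Ψ) g))⁻¹, by
    rw [MonoidHom.mem_ker, map_mul, map_mul, map_inv, pi_pw π t ht, pi_pw π t ht,
      MonoidHom.comp_apply]
    group⟩

lemma kc_coe (π : A →* Zm) (t : A) (ht : π t = Multiplicative.ofAdd 1) (Ψ : G →* A) (g : G)
    (h : Zm) : (kc π t ht Ψ g h : A) = pw t h * Ψ g * (pw t (h * (π.comp Ψ) g))⁻¹ := rfl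

lemma kc_mul (π : A →* Zm) (t : A) (ht : π t = Multiplicative.ofAdd 1) (Ψ : G →* A) (g g' : G)
    (h : Zm) : kc π t ht Ψ (g * g') h = kc π t ht Ψ g h * kc π t ht Ψ g' (h * (π.comp Ψ) g) := by
  apply Subtype.ext
  rw [Subgroup.coe_mul, kc_coe, kc_coe, kc_coe, map_mul, map_mul, ← mul_assoc h]
  group

/-- the homomorphism `Ψ₁` -/
def psi (π : A →* Zm) (t : A) (ht : π t = Multiplicative.ofAdd 1) (Ψ : G →* A) :
    Hat (π.comp Ψ) →* π.ker :=
  Hat.coc (π.comp Ψ) (kc π t ht Ψ) (kc_mul π t ht Ψ)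

/-- the cocycle of `θ` -/
def tc (π : A →* Zm) (t : A) (ht : π t = Multiplicative.ofAdd 1) (Ψ : G →* A) (g : G) (h : Zm) :
    Wr (Hat Ψ) π.ker :=
  ⟨fun a => hat Ψ g ((a : A) * pw t h), kc π t ht Ψ g h⟩

lemma tc_mul (π : A →* Zm) (t : A) (ht : π t = Multiplicative.ofAdd 1) (Ψ : G →* A) (g g' : G)
    (h : Zm) : tc π t ht Ψ (g * g') h = tc π t ht Ψ g h * tc π t ht Ψ g' (h * (π.comp Ψ) g) := by
  apply Wr.ext
  · funext b
    change hat Ψ (g * g') ((b : A) * pw t h) = hat Ψ g ((b : A) * pw t h) *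
      hat Ψ g' (((b * kc π t ht Ψ g h : π.ker) : A) * pw t (h * (π.comp Ψ) g))
    have e : ((b * kc π t ht Ψ g h : π.ker) : A) * pw t (h * (π.comp Ψ) g) =
        (b : A) * pw t h * Ψ g := by
      rw [Subgroup.coe_mul, kc_coe]
      group
    rw [e, hat_mul]
  · exact kc_mul π t ht Ψ g g' h

/-- the homomorphism `θ` -/
def theta (π : A →* Zm) (t : A) (ht : π t = Multiplicative.ofAdd 1) (Ψ : G →* A) :
    Hat (π.comp Ψ) →* Wr (Hat Ψ) π.ker :=
  Hat.coc (π.comp Ψ) (tc π t ht Ψ) (tc_mul π t ht Ψ)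

lemma theta_a (π : A →* Zm) (t : A) (ht : π t = Multiplicative.ofAdd 1) (Ψ : G →* A)
    (z : Hat (π.comp Ψ)) : (theta π t ht Ψ z).a = psi π t ht Ψ z := by
  have : Wr.pr.comp (theta π t ht Ψ) = psi π t ht Ψ := by
    apply Hat.hom_ext
    intro g a
    rw [MonoidHom.comp_apply, theta, psi, Hat.coc_hat, Hat.coc_hat]
    rfl
  exact DFunLike.congr_fun this z

/-- the homomorphism `Hat Ψ₁ → Hat Ψ` -/
def FF (π : A →* Zm) (t : A) (ht : π t = Multiplicative.ofAdd 1) (Ψ : G →* A) :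
    Hat (psi π t ht Ψ) →* Hat Ψ :=
  Hat.lift (psi π t ht Ψ) (theta π t ht Ψ) (theta_a π t ht Ψ)

lemma FF_hat (π : A →* Zm) (t : A) (ht : π t = Multiplicative.ofAdd 1) (Ψ : G →* A) (g : G)
    (h : Zm) (a : π.ker) :
    FF π t ht Ψ (hat (psi π t ht Ψ) (hat (π.comp Ψ) g h) a) = hat Ψ g ((a : A) * pw t h) := by
  rw [FF, Hat.lift_hat, theta, Hat.coc_hat]
  rfl

lemma psi_eq_one (π : A →* Zm) (t : A) (ht : π t = Multiplicative.ofAdd 1) (Ψ : G →* A) (y : G)
    (h : Zm) (hy : (π.comp Ψ) y = 1) (h1 : psi π t ht Ψ (hat (π.comp Ψ) y h) = 1) :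
    Ψ y = 1 := by
  rw [psi, Hat.coc_hat] at h1
  have h2 := congrArg (Subtype.val) h1
  rw [kc_coe, hy, mul_one] at h2
  have h3 : pw t h * Ψ y * (pw t h)⁻¹ = 1 := h2
  exact (conj_eq_one_iff).1 h3

theorem surj (hV : T_VPB) (A : Type) [Group A] (π : A →* Zm) (t : A)
    (ht : π t = Multiplicative.ofAdd 1) (hZ : Zed π.ker) : Zed A := by
  intro G _ Ψ Y hYf hY
  refine Vis.ext G Y (π.comp Ψ) hYf ?_
  intro Y' hY'f hY'
  refine hZ (Hat (π.comp Ψ)) (psi π t ht Ψ) Y' hY'f ?_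
  intro Y'' hY''f hY''
  refine hV (Hat Ψ) (FF π t ht Ψ '' Y'') ?_ (Hat (psi π t ht Ψ)) (FF π t ht Ψ) Y'' hY''f
    (fun y hy => Set.mem_image_of_mem _ hy)
  refine hY _ (hY''f.image _) ?_
  rintro _ ⟨z, hz, rfl⟩
  obtain ⟨y', hy', h1, a, rfl⟩ := hY'' z hz
  obtain ⟨y, hy, h2, h, rfl⟩ := hY' y' hy'
  exact ⟨y, hy, psi_eq_one π t ht Ψ y h h2 h1, _, FF_hat π t ht Ψ y h a⟩

/-- the set of the values of a character -/
def vals (π : A →* Zm) : AddSubgroup ℤ where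
  carrier := {n | ∃ a, π a = Multiplicative.ofAdd n}
  zero_mem' := ⟨1, by simp⟩
  add_mem' := by
    rintro m n ⟨a, ha⟩ ⟨b, hb⟩
    exact ⟨a * b, by rw [map_mul, ha, hb, ofAdd_add]⟩
  neg_mem' := by
    rintro m ⟨a, ha⟩
    exact ⟨a⁻¹, by rw [map_inv, ha, ofAdd_neg]⟩

end

end ZE_

theorem p_ZE (hV : T_VPB) (hS : T_ZS) : T_ZE := by
  intro A _ π hZ
  obtain ⟨d, hd⟩ := Int.subgroup_cyclic (ZE_.vals π)
  have hmem : ∀ a : A, ∃ n : ℤ, Multiplicative.toAdd (π a) = n * d := by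
    intro a
    have h1 : Multiplicative.toAdd (π a) ∈ ZE_.vals π := ⟨a, by simp⟩
    rw [hd, AddSubgroup.mem_closure_singleton] at h1
    obtain ⟨n, hn⟩ := h1
    exact ⟨n, by rw [← hn, smul_eq_mul]⟩
  by_cases h0 : d = 0
  · have hk : ∀ a : A, a ∈ π.ker := by
      intro a
      obtain ⟨n, hn⟩ := hmem a
      rw [h0, mul_zero] at hn
      rw [MonoidHom.mem_ker]
      exact toAdd_eq_zero.1 hn
    refine hS A π.ker ((MonoidHom.id A).codRestrict π.ker hk) ?_ hZ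
    intro a b hab
    exact congrArg Subtype.val hab
  · have hdm : d ∈ ZE_.vals π := by
      rw [hd]
      exact AddSubgroup.subset_closure rfl
    obtain ⟨t, ht⟩ := hdm
    let π' : A →* Zm := MonoidHom.mk' (fun a => Multiplicative.ofAdd
      (Multiplicative.toAdd (π a) / d)) (by
        intro a b
        obtain ⟨n, hn⟩ := hmem a
        obtain ⟨k, hk⟩ := hmem b
        rw [map_mul, toAdd_mul, hn, hk, ← add_mul, Int.mul_ediv_cancel _ h0,
          Int.mul_ediv_cancel _ h0, Int.mul_ediv_cancel _ h0, ofAdd_add])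
    have hπ' : ∀ a, π' a = Multiplicative.ofAdd (Multiplicative.toAdd (π a) / d) := fun _ => rfl
    have hker : π'.ker = π.ker := by
      ext a
      rw [MonoidHom.mem_ker, MonoidHom.mem_ker, hπ']
      obtain ⟨n, hn⟩ := hmem a
      rw [hn, Int.mul_ediv_cancel _ h0]
      constructor
      · intro h
        have h1 : n = 0 := ofAdd_eq_one.1 h
        rw [h1, zero_mul] at hn
        exact toAdd_eq_zero.1 hn
      · intro h
        rw [h] at hn
        have h1 : n * d = 0 := by rw [← hn]; rfl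
        have h2 : n = 0 := (mul_eq_zero.1 h1).resolve_right h0
        rw [h2]
        rfl
    have ht' : π' t = Multiplicative.ofAdd 1 := by
      rw [hπ', ht, toAdd_ofAdd, Int.ediv_self h0]
    refine ZE_.surj hV A π' t ht' ?_
    rw [hker]
    exact hZ

end ORG
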