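import Pool.Agent.ORG.Targets1

/-!
# ORG: the class Zed is local
-/

set_option autoImplicit false

open Monoid.Coprod

namespace ORG

noncomputable section

theorem p_ZL (hV : T_VPB) : T_ZL := by
  intro A _ hA G _ Ψ Y hY hh
  refine Vis.loc G Y hY fun P hP hYP => ?_
  have hfg : (P.map Ψ).FG := by
    rw [Subgroup.fg_iff_submonoid_fg, Subgroup.map_toSubmonoid]
    exact ((Subgroup.fg_iff_submonoid_fg P).1 hP).map Ψ
  let Ψ₀ : P →* P.map Ψ := Ψ.subgroupMap P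
  have hΨ : ∀ g : P, ((Ψ₀ g : P.map Ψ) : A) = Ψ g := fun g => rfl
  refine hA (P.map Ψ) hfg P Ψ₀ (Subtype.val ⁻¹' Y)
    (hY.preimage Subtype.val_injective.injOn) fun Y' hY' h' => ?_
  let Θ : Hat Ψ₀ →* Hat Ψ := Hat.coc Ψ₀ (fun g a => hat Ψ (g : G) (a : A)) (by
    intro g h a
    rw [Subgroup.coe_mul, hat_mul, Subgroup.coe_mul, hΨ])
  have hΘ : ∀ g a, Θ (hat Ψ₀ g a) = hat Ψ (g : G) (a : A) := fun g a => Hat.coc_hat _ _ _ _ _
  refine hV (Hat Ψ) (Θ '' Y') (hh _ (hY'.image _) ?_) _ Θ Y' hY' fun y hy => ⟨y, hy, rfl⟩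
  rintro _ ⟨z, hz, rfl⟩
  obtain ⟨y, hy, h3, a, rfl⟩ := h' z hz
  refine ⟨y, hy, ?_, a, hΘ y a⟩
  have h4 := congrArg Subtype.val h3
  exact h4

end

end ORG
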