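import Pool.Agent.ORG.Targets1

/-!
# ORG: the class Zed is closed under subgroups (helper43)
-/

set_option autoImplicit false

open Monoid.Coprod

namespace ORG

noncomputable section

/-- left cosets of the image: a function with `s (a * i b) = s a * b` -/
private lemma ZS_sec (A₀ A : Type) [Group A₀] [Group A] (i : A₀ →* A)
    (hi : Function.Injective i) : ∃ s : A → A₀, ∀ a b, s (a * i b) = s a * b := by
  have h : ∀ a : A, ∃ b : A₀, i b = ((QuotientGroup.mk a : A ⧸ i.range).out)⁻¹ * a := by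
    intro a
    have h1 : (QuotientGroup.mk ((QuotientGroup.mk a : A ⧸ i.range).out) : A ⧸ i.range) =
        QuotientGroup.mk a := QuotientGroup.out_eq' _
    exact QuotientGroup.eq.1 h1
  choose s hs using h
  refine ⟨s, fun a b => hi ?_⟩
  have h2 : (QuotientGroup.mk (a * i b) : A ⧸ i.range) = QuotientGroup.mk a := by
    have h3 : a⁻¹ * (a * i b) ∈ i.range := ⟨b, by rw [inv_mul_cancel_left]⟩
    exact (QuotientGroup.eq.2 h3).symm
  rw [hs, map_mul, hs, h2, mul_assoc]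

theorem p_ZS (hV : T_VPB) : T_ZS := by
  intro A₀ A _ _ i hi hA G _ Ψ Y hY hh
  obtain ⟨s, hs⟩ := ZS_sec A₀ A i hi
  refine hA G (i.comp Ψ) Y hY fun Y' hY' h' => ?_
  let Θ : Hat (i.comp Ψ) →* Hat Ψ := Hat.coc (i.comp Ψ) (fun g a => hat Ψ g (s a)) (by
    intro g h a
    rw [hat_mul, MonoidHom.comp_apply, hs])
  have hΘ : ∀ g a, Θ (hat (i.comp Ψ) g a) = hat Ψ g (s a) := fun g a => Hat.coc_hat _ _ _ _ _
  refine hV (Hat Ψ) (Θ '' Y') (hh _ (hY'.image _) ?_) _ Θ Y' hY' fun y hy => ⟨y, hy, rfl⟩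
  rintro _ ⟨z, hz, rfl⟩
  obtain ⟨y, hy, h3, a, rfl⟩ := h' z hz
  exact ⟨y, hy, hi (by rw [map_one]; exact h3), s a, hΘ y a⟩

end

end ORG
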