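import Pool.Agent.ORG.Targets1

/-!
# ORG-ZZ: `Zm` and the trivial groups may be used as targets
-/

set_option autoImplicit false

open Monoid.Coprod

namespace ORG

theorem p_ZZ (hV : T_VPB) : T_ZZ := by
  refine ⟨?_, ?_⟩
  · intro G _ Ψ Y hY h
    exact Vis.ext G Y Ψ hY h
  · intro A _ hA G _ Ψ Y hY h
    let F : G →* Hat Ψ := MonoidHom.mk' (fun g => hat Ψ g 1) (by
      intro g g'
      rw [hat_mul, Subsingleton.elim (1 * Ψ g) 1])
    have hF : ∀ g, F g = hat Ψ g 1 := fun g => rfl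
    have h1 : Vis (Hat Ψ) (F '' Y) := by
      apply h _ (hY.image F)
      rintro _ ⟨y, hy, rfl⟩
      exact ⟨y, hy, Subsingleton.elim _ _, 1, hF y⟩
    exact hV (Hat Ψ) (F '' Y) h1 G F Y hY fun y hy => ⟨y, hy, rfl⟩

end ORG
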