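import Pool.Agent.ORG.P_AOC
import Pool.Agent.ORG.P_BL
import Pool.Agent.ORG.P_CF
import Pool.Agent.ORG.P_CFG
import Pool.Agent.ORG.P_CIG
import Pool.Agent.ORG.P_CIJ
import Pool.Agent.ORG.P_CJ
import Pool.Agent.ORG.P_CMI
import Pool.Agent.ORG.P_CRI
import Pool.Agent.ORG.P_CYC
import Pool.Agent.ORG.P_DAI
import Pool.Agent.ORG.P_DAS
import Pool.Agent.ORG.P_EZA
import Pool.Agent.ORG.P_FEH
import Pool.Agent.ORG.P_FXC
import Pool.Agent.ORG.P_GEN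
import Pool.Agent.ORG.P_HFP
import Pool.Agent.ORG.P_HMI
import Pool.Agent.ORG.P_C1
import Pool.Agent.ORG.P_C2
import Pool.Agent.ORG.P_C3I
import Pool.Agent.ORG.P_HND
import Pool.Agent.ORG.P_HNH
import Pool.Agent.ORG.P_HNI
import Pool.Agent.ORG.P_HTR
import Pool.Agent.ORG.P_C3
import Pool.Agent.ORG.P_C4
import Pool.Agent.ORG.P_C5
import Pool.Agent.ORG.P_E1
import Pool.Agent.ORG.P_LA
import Pool.Agent.ORG.P_LM
import Pool.Agent.ORG.P_LMF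
import Pool.Agent.ORG.P_DAF
import Pool.Agent.ORG.P_LSH
import Pool.Agent.ORG.P_NF1
import Pool.Agent.ORG.P_NF2
import Pool.Agent.ORG.P_BC
import Pool.Agent.ORG.P_NFS
import Pool.Agent.ORG.P_PUSH
import Pool.Agent.ORG.P_FEL
import Pool.Agent.ORG.P_GUN
import Pool.Agent.ORG.P_FX1
import Pool.Agent.ORG.P_HNS
import Pool.Agent.ORG.P_HNL
import Pool.Agent.ORG.P_ROOT
import Pool.Agent.ORG.P_ROT
import Pool.Agent.ORG.P_ML
import Pool.Agent.ORG.P_PWT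
import Pool.Agent.ORG.P_PWB
import Pool.Agent.ORG.P_SUB
import Pool.Agent.ORG.P_TRF
import Pool.Agent.ORG.P_TWO
import Pool.Agent.ORG.P_VE0
import Pool.Agent.ORG.P_VF1
import Pool.Agent.ORG.P_VF2
import Pool.Agent.ORG.P_VPB
import Pool.Agent.ORG.P_VCP
import Pool.Agent.ORG.P_VFR
import Pool.Agent.ORG.P_VC
import Pool.Agent.ORG.P_EP
import Pool.Agent.ORG.P_VN
import Pool.Agent.ORG.P_LR
import Pool.Agent.ORG.P_LRV
import Pool.Agent.ORG.P_LS3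
import Pool.Agent.ORG.P_LS
import Pool.Agent.ORG.P_VUN
import Pool.Agent.ORG.P_VW
import Pool.Agent.ORG.P_VWA
import Pool.Agent.ORG.P_V
import Pool.Agent.ORG.P_WN1
import Pool.Agent.ORG.P_WN2
import Pool.Agent.ORG.P_WN3
import Pool.Agent.ORG.P_WNW
import Pool.Agent.ORG.P_WN4
import Pool.Agent.ORG.P_WIN
import Pool.Agent.ORG.P_ACT
import Pool.Agent.ORG.P_ACF
import Pool.Agent.ORG.P_EZ
import Pool.Agent.ORG.P_FX2
import Pool.Agent.ORG.P_FE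
import Pool.Agent.ORG.P_ZL
import Pool.Agent.ORG.P_ZS
import Pool.Agent.ORG.P_ZE
import Pool.Agent.ORG.P_ZZ
import Pool.Agent.ORG.P_EE
import Pool.Agent.ORG.P_CH
import Pool.Agent.ORG.P_CT
import Pool.Agent.ORG.P_OO
import Pool.Agent.ORG.P_EA
import Pool.Agent.ORG.P_ST
import Pool.Agent.ORG.P_OR

/-!
# ORG: all targets without hypotheses
-/

set_option autoImplicit false

namespace ORG

theorem mAOC : T_AOC := p_AOC
theorem mBL : T_BL := p_BL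
theorem mCF : T_CF := p_CF
theorem mCFG : T_CFG := p_CFG
theorem mCIG : T_CIG := p_CIG
theorem mCIJ : T_CIJ := p_CIJ
theorem mCJ : T_CJ := p_CJ
theorem mCMI : T_CMI := p_CMI
theorem mCRI : T_CRI := p_CRI
theorem mCYC : T_CYC := p_CYC
theorem mDAI : T_DAI := p_DAI
theorem mDAS : T_DAS := p_DAS
theorem mEZA : T_EZA := p_EZA
theorem mFEH : T_FEH := p_FEH
theorem mFXC : T_FXC := p_FXC
theorem mGEN : T_GEN := p_GEN
theorem mHFP : T_HFP := p_HFP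
theorem mHMI : T_HMI := p_HMI mCMI
theorem mC1 : T_C1 := p_C1 mHMI
theorem mC2 : T_C2 := p_C2 mCMI mCIJ mCFG mCIG mC1
theorem mC3I : T_C3I := p_C3I mC1 mC2
theorem mHND : T_HND := p_HND
theorem mHNH : T_HNH := p_HNH
theorem mHNI : T_HNI := p_HNI
theorem mHTR : T_HTR := p_HTR
theorem mC3 : T_C3 := p_C3 mCMI mCIJ mCFG mCIG mC1 mC2 mHFP mHTR
theorem mC4 : T_C4 := p_C4 mC1 mC3 mCF
theorem mC5 : T_C5 := p_C5 mC1 mC3 mCF
theorem mE1 : T_E1 := p_E1 mC1 mC3 mCF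
theorem mLA : T_LA := p_LA
theorem mLM : T_LM := p_LM
theorem mLMF : T_LMF := p_LMF
theorem mDAF : T_DAF := p_DAF mLMF
theorem mLSH : T_LSH := p_LSH
theorem mNF1 : T_NF1 := p_NF1
theorem mNF2 : T_NF2 := p_NF2 mNF1
theorem mBC : T_BC := p_BC mNF1 mNF2
theorem mNFS : T_NFS := p_NFS mNF2
theorem mPUSH : T_PUSH := p_PUSH
theorem mFEL : T_FEL := p_FEL mPUSH mC1 mCFG
theorem mGUN : T_GUN := p_GUN mPUSH mC1
theorem mFX1 : T_FX1 := p_FX1 mGUN mC4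
theorem mHNS : T_HNS := p_HNS mHNI mPUSH
theorem mHNL : T_HNL := p_HNL mHNS
theorem mROOT : T_ROOT := p_ROOT
theorem mROT : T_ROT := p_ROT
theorem mML : T_ML := p_ML mROT mAOC mBL mBC mCRI
theorem mPWT : T_PWT := p_PWT mROT mAOC mNFS
theorem mPWB : T_PWB := p_PWB mPWT
theorem mSUB : T_SUB := p_SUB
theorem mTRF : T_TRF := p_TRF
theorem mTWO : T_TWO := p_TWO
theorem mVE0 : T_VE0 := p_VE0
theorem mVF1 : T_VF1 := p_VF1
theorem mVF2 : T_VF2 := p_VF2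
theorem mVPB : T_VPB := p_VPB
theorem mVCP : T_VCP := p_VCP mVPB
theorem mVFR : T_VFR := p_VFR mVPB mGEN mVF1 mVF2
theorem mVC : T_VC := p_VC mVPB mVFR
theorem mEP : T_EP := p_EP mTWO mROT mTRF mSUB mVC mC1
theorem mVN : T_VN := p_VN mVCP
theorem mLR : T_LR := p_LR mVN mC1 mC3 mC4 mCF mHNL mHNH mHND
theorem mLRV : T_LRV := p_LRV mVN mVPB mHNL mHNH mHND
theorem mLS3 : T_LS3 := p_LS3 mVPB mHNL mLRV
theorem mLS : T_LS := p_LS mVPB mLSH mLS3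
theorem mVUN : T_VUN := p_VUN
theorem mVW : T_VW := p_VW mLS mVPB
theorem mVWA : T_VWA := p_VWA mVPB mHNL mVW
theorem mV : T_V := p_V mVPB mVN mVE0 mCFG mCMI mHNL mVUN mVWA
theorem mWN1 : T_WN1 := p_WN1 mC1 mC3 mC3I
theorem mWN2 : T_WN2 := p_WN2 mC1
theorem mWN3 : T_WN3 := p_WN3 mC1
theorem mWNW : T_WNW := p_WNW
theorem mWN4 : T_WN4 := p_WN4 mC1 mWNW
theorem mWIN : T_WIN := p_WIN mWN1 mWN2 mWN3 mWN4
theorem mACT : T_ACT := p_ACT mLM mLMF mLA mML mWIN mCF mC1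
theorem mACF : T_ACF := p_ACF mACT mDAS mDAF mC1
theorem mEZ : T_EZ := p_EZ mPWT mPWB mWIN mEZA mC1 mC5 mCF
theorem mFX2 : T_FX2 := p_FX2 mFXC mFEH mDAS mDAI mFX1 mDAF mACF mC1
theorem mFE : T_FE := p_FE mFEL mFX2 mC1
theorem mZL : T_ZL := p_ZL mVPB
theorem mZS : T_ZS := p_ZS mVPB
theorem mZE : T_ZE := p_ZE mVPB mZS
theorem mZZ : T_ZZ := p_ZZ mVPB
theorem mEE : T_EE := p_EE mZZ mZL mZS mZE
theorem mCH : T_CH := p_CH mVC mVCP mV mEE mLR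
theorem mCT : T_CT := p_CT mC1 mC3 mCH mHNI mVC mVN
theorem mOO : T_OO := p_OO mCT mC1 mC3 mVC
theorem mEA : T_EA := p_EA mE1 mFE mOO mEP mEZ
theorem mST : T_ST := p_ST mCJ mROOT mEA
theorem mOR : T_OR := p_OR mST mC1 mC3 mCF

end ORG
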