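import Pool.Agent.ORG.Targets2

/-! AOC : `AddOk` and conjugation. -/

set_option autoImplicit false

open Monoid.Coprod

namespace ORG

namespace AOC_

/-- the conclusion only depends on the normal subgroup -/
theorem key (k : ℕ) {G P : Type} [Group G] [Group P] (i : G →* P) (N N' : Subgroup P) [N.Normal]
    [N'.Normal] (h : N = N') :
    (Function.Injective ((QuotientGroup.mk' N).comp i) ∧ InC k (P ⧸ N)) →
    (Function.Injective ((QuotientGroup.mk' N').comp i) ∧ InC k (P ⧸ N')) := by
  subst h
  exact id

/-- an element and its conjugate have the same normal closure -/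
theorem closure_conj {P : Type} [Group P] (x v : P) :
    Subgroup.normalClosure ({x} : Set P) = Subgroup.normalClosure ({v * x * v⁻¹} : Set P) := by
  apply le_antisymm
  · apply Subgroup.normalClosure_le_normal
    intro y hy
    rw [Set.mem_singleton_iff] at hy
    subst hy
    have h1 : v * y * v⁻¹ ∈ Subgroup.normalClosure ({v * y * v⁻¹} : Set P) :=
      Subgroup.subset_normalClosure (Set.mem_singleton _)
    have h2 := Subgroup.normalClosure_normal.conj_mem _ h1 v⁻¹
    have h3 : v⁻¹ * (v * y * v⁻¹) * v⁻¹⁻¹ = y := by group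
    rw [h3] at h2
    exact h2
  · apply Subgroup.normalClosure_le_normal
    intro y hy
    rw [Set.mem_singleton_iff] at hy
    subst hy
    have h1 : x ∈ Subgroup.normalClosure ({x} : Set P) :=
      Subgroup.subset_normalClosure (Set.mem_singleton _)
    exact Subgroup.normalClosure_normal.conj_mem _ h1 v

end AOC_

theorem p_AOC : T_AOC := by
  intro k D L D' L' _ _ _ _ δ l ρ v S t h G G' _ _ θ f f' hG hG' hθ hf
  have h1 := h G G' θ f f' hG hG' hθ hf
  have h2 : newl f t (v * ρ * v⁻¹) ^ k =
      newl f t v * newl f t ρ ^ k * (newl f t v)⁻¹ := by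
    rw [map_mul, map_mul, map_inv, conj_pow]
  have h3 : Subgroup.normalClosure ({newl f t ρ ^ k} : Set (Cop G L)) =
      Subgroup.normalClosure ({newl f t (v * ρ * v⁻¹) ^ k} : Set (Cop G L)) := by
    rw [h2]
    exact AOC_.closure_conj _ _
  exact AOC_.key k (inl : G →* Cop G L) _ _ h3 h1

end ORG
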