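import Pool.Agent.ORG.Targets2

/-!
# ORG-FE: the family theorem
-/

set_option autoImplicit false

open Monoid.Coprod

namespace ORG

/-! ### Lists -/

section

variable {G G' : Type} [Group G] [Group G']

theorem FE_mp_mp {G'' : Type} [Group G''] (f : G →* G') (g : G' →* G'') (r : List (Bool × G)) :
    mp g (mp f r) = mp (g.comp f) r := by
  unfold mp
  rw [List.map_map]
  rfl

theorem FE_len (f : G →* G') (r : List (Bool × G)) : (mp f r).length = r.length := by
  unfold mp
  rw [List.length_map]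

theorem FE_sg (f : G →* G') (r : List (Bool × G)) : sg (mp f r) = sg r := by
  unfold sg mp
  rw [List.map_map]
  rfl

theorem FE_Xs (f : G →* G') (b : Bool) (r : List (Bool × G)) :
    Xs b (mp f r) = f (Xs b r) := by
  induction r with
  | nil => simp [Xs, mp]
  | cons p r ih =>
    have h1 : mp f (p :: r) = (p.1, f p.2) :: mp f r := rfl
    rw [h1]
    unfold Xs at ih ⊢
    by_cases hp : (p.1 == b) = true
    · have h2 : ((p.1, f p.2) :: mp f r).filter (fun q => q.1 == b) =
          (p.1, f p.2) :: (mp f r).filter (fun q => q.1 == b) := List.filter_cons_of_pos hp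
      have h3 : (p :: r).filter (fun q => q.1 == b) = p :: r.filter (fun q => q.1 == b) :=
        List.filter_cons_of_pos hp
      rw [h2, h3, List.map_cons, List.map_cons, List.prod_cons, List.prod_cons, ih, map_mul]
    · have h2 : ((p.1, f p.2) :: mp f r).filter (fun q => q.1 == b) =
          (mp f r).filter (fun q => q.1 == b) := List.filter_cons_of_neg hp
      have h3 : (p :: r).filter (fun q => q.1 == b) = r.filter (fun q => q.1 == b) :=
        List.filter_cons_of_neg hp
      rw [h2, h3, ih]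

theorem FE_CR (f : G →* G') (r : List (Bool × G))
    (h : CR (mp f r)) : CR r := by
  unfold CR at h ⊢
  unfold mp at h
  rw [← List.map_append, List.isChain_map] at h
  refine h.imp fun p q hpq hne h1 => hpq hne ?_
  show f p.2 = 1
  rw [h1, map_one]

theorem FE_Pr (f : G →* G') (r : List (Bool × G)) (h : Pr (mp f r)) : Pr r := by
  intro q s hs
  refine h q (mp f s) ?_
  unfold mp
  rw [hs, List.map_flatten, List.map_replicate]

end

/-! ### No relators -/

theorem FE_nil (hC1 : T_C1) (k : ℕ) (B I : Type) [Group B] [IsEmpty I]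
    (r : I → List (Bool × B)) (hB : InC k B) :
    Function.Injective (GamF.of k r) ∧ InC k (GamF k r) := by
  let f : GamF k r →* B := Quo.lift _ (Monoid.Coprod.lift (MonoidHom.id B)
    (FreeGroup.lift fun i : I => isEmptyElim i)) (by
      rintro _ ⟨i, rfl⟩
      exact isEmptyElim i)
  have hf : ∀ b, f (GamF.of k r b) = b := by
    intro b
    show Quo.lift _ _ _ (Quo.mk _ (inl b)) = b
    rw [Quo.lift_mk]
    simp
  refine ⟨Function.LeftInverse.injective hf, ?_⟩
  have hg : (GamF.of k r).comp f = MonoidHom.id (GamF k r) := by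
    apply Quo.hom_ext
    intro w
    have h1 : ((GamF.of k r).comp f).comp (Quo.mk _) =
        (MonoidHom.id (GamF k r)).comp (Quo.mk _) := by
      apply Monoid.Coprod.hom_ext
      · ext b
        show GamF.of k r (f (GamF.of k r b)) = GamF.of k r b
        rw [hf]
      · ext i
        exact isEmptyElim i
    exact DFunLike.congr_fun h1 w
  exact hC1 k B hB _ f (inj_of_left f (GamF.of k r) hg)

/-! ### Restriction of the conditions -/

theorem FE_cond {B B' K B₀ B₀' K₀ : Type} [Group B] [Group B'] [Group K] [Group B₀]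
    [Group B₀'] [Group K₀] (π : B →* B') (F : B' →* K) (π₀ : B₀ →* B₀') (F₀ : B₀' →* K₀)
    (ι : B₀ →* B) (ι' : B₀' →* B') (κ : K₀ →* K)
    (hκ : Function.Injective κ) (h1 : ∀ b, ι' (π₀ b) = π (ι b)) (h2 : ∀ b, κ (F₀ b) = F (ι' b))
    (Y : Set K) (m : ℕ) (r₀ : List (Bool × B₀)) (h : FCond π F Y m (mp ι r₀)) :
    FCond π₀ F₀ (κ ⁻¹' Y) m r₀ := by
  have h3 : mp ι' (mp π₀ r₀) = mp π (mp ι r₀) := by
    rw [FE_mp_mp, FE_mp_mp]
    congr 1
    ext b
    exact h1 b
  have h4 : ∀ b, κ (F₀ (π₀ b)) = F (π (ι b)) := by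
    intro b
    rw [h2, h1]
  refine ⟨?_, ?_, ?_, ?_, ?_⟩
  · rw [← FE_len ι]; exact h.len
  · apply FE_CR ι'
    rw [h3]
    exact h.cr
  · apply FE_Pr ι'
    rw [h3]
    exact h.pr
  · rcases h.ext with ⟨hs, b, g, g', r', hr, hg⟩ | ⟨hs, hX⟩
    · left
      rw [FE_sg] at hs
      refine ⟨hs, ?_⟩
      match r₀, hr with
      | [], hr => exact absurd hr (by simp [mp])
      | [x], hr => exact absurd hr (by simp [mp])
      | (x1, x2) :: (y1, y2) :: s, hr =>
        have hr2 : (x1, ι x2) :: (y1, ι y2) :: mp ι s = (b, g) :: (b, g') :: r' := hr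
        rw [List.cons.injEq, List.cons.injEq, Prod.mk.injEq, Prod.mk.injEq] at hr2
        obtain ⟨⟨hx1, hx2⟩, ⟨hy1, hy2⟩, _⟩ := hr2
        refine ⟨b, x2, y2, s, ?_, ?_⟩
        · rw [hx1, hy1]
        · apply hκ
          rw [h4, hx2, hg, map_one]
    · right
      rw [FE_sg] at hs
      rw [FE_Xs, FE_Xs] at hX
      refine ⟨hs, ?_⟩
      apply hκ
      rw [map_mul, h4, h4, hX, map_one]
  · obtain ⟨p, hp, hpY⟩ := h.vis
    obtain ⟨p₀, hp₀, rfl⟩ := List.mem_map.1 hp
    refine ⟨p₀, hp₀, ?_⟩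
    show κ (F₀ (π₀ p₀.2)) ∈ Y
    rw [h4]
    exact hpY

theorem FE_fg_map {G G' : Type} [Group G] [Group G'] {P : Subgroup G} (h : P.FG)
    (f : G →* G') : (P.map f).FG := by
  classical
  obtain ⟨S, hS⟩ := h
  exact ⟨S.image f, by rw [Finset.coe_image, ← MonoidHom.map_closure, hS]⟩

theorem FE_aux (hFEL : T_FEL) (hFX2 : T_FX2) (hC1 : T_C1) (m : ℕ) (hE : ∀ m' < m, EEm m')
    {K : Type} [inst : Group K] {Y : Set K} (h : Vis K Y) : FConcl m K Y := by
  induction h with
  | nil K =>
    intro k hk B B' _ _ π F I _ r hB hB' hr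
    have hI : IsEmpty I := ⟨fun i => by
      obtain ⟨p, _, hp⟩ := (hr i).vis
      exact hp⟩
    exact FE_nil hC1 k B I r hB
  | loc K Y hY hP ih =>
    intro k hk B B' _ _ π F I _ r hB hB' hr
    refine hFEL k B I r fun B₀ hB₀ r₀ hr₀ => ?_
    set B₀' : Subgroup B' := B₀.map π with hB₀'
    set K₀ : Subgroup K := B₀'.map F ⊔ Subgroup.closure Y with hK₀
    have hfg : K₀.FG := (FE_fg_map (FE_fg_map hB₀ π) F).sup ⟨hY.toFinset, by rw [Set.Finite.coe_toFinset]⟩
    have hYK : Y ⊆ K₀ := fun y hy =>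
      (le_sup_right : Subgroup.closure Y ≤ K₀) (Subgroup.subset_closure hy)
    have hF₀ : ∀ b : B₀', (F.comp B₀'.subtype) b ∈ K₀ := fun b =>
      (le_sup_left : B₀'.map F ≤ K₀) (Subgroup.mem_map_of_mem F b.2)
    refine ih K₀ hfg hYK k hk B₀ B₀' (π.subgroupMap B₀)
      ((F.comp B₀'.subtype).codRestrict K₀ hF₀) I r₀
      (hC1 k B hB _ B₀.subtype B₀.subtype_injective)
      (hC1 1 B' hB' _ B₀'.subtype B₀'.subtype_injective) fun i => ?_
    have h1 := hr i
    rw [← hr₀ i] at h1
    exact FE_cond π F _ _ B₀.subtype B₀'.subtype K₀.subtype K₀.subtype_injective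
      (fun _ => rfl) (fun _ => rfl) Y m (r₀ i) h1
  | ext K Y χ hY hP ih => exact hFX2 m hE K Y χ hY ih

theorem p_FE (hFEL : T_FEL) (hFX2 : T_FX2) (hC1 : T_C1) : T_FE := by
  intro m hE K _ Y h
  exact FE_aux hFEL hFX2 hC1 m hE h

end ORG
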