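import Pool.Agent.ORG.Targets1

/-!
# ORG: target GEN, one character for finitely many elements
-/

set_option autoImplicit false

namespace ORG

theorem p_GEN : T_GEN := by
  intro G _ V hV
  induction V, hV using Set.Finite.induction_on with
  | empty => exact ⟨1, fun v hv => absurd hv (Set.notMem_empty v)⟩
  | @insert v V hv hV ih =>
    obtain ⟨χ, hχ⟩ := ih
    by_cases h1 : χ v ≠ 1
    · refine ⟨χ, fun u hu hψ => ?_⟩
      rcases Set.mem_insert_iff.1 hu with rfl | hu
      · exact h1
      · exact hχ u hu hψ
    · rw [not_not] at h1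
      by_cases h2 : ∃ ψ : G →* Zm, ψ v ≠ 1
      · obtain ⟨ψ, hψ⟩ := h2
        -- the bad exponents
        have hfin : (⋃ u ∈ V, {N : ℤ | χ u ≠ 1 ∧ (χ u) ^ N * ψ u = 1}).Finite := by
          refine Set.Finite.biUnion hV fun u _ => ?_
          refine Set.Subsingleton.finite ?_
          rintro N ⟨hu, hN⟩ N' ⟨_, hN'⟩
          have h3 : (χ u) ^ N = (χ u) ^ N' := mul_right_cancel (hN.trans hN'.symm)
          have h4 : N * Multiplicative.toAdd (χ u) = N' * Multiplicative.toAdd (χ u) := by
            have := congrArg Multiplicative.toAdd h3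
            simpa [toAdd_zpow] using this
          have h5 : Multiplicative.toAdd (χ u) ≠ 0 := fun h => hu (by
            rw [← ofAdd_toAdd (χ u), h, ofAdd_zero])
          exact mul_right_cancel₀ h5 h4
        obtain ⟨N, hN⟩ := hfin.exists_notMem
        refine ⟨χ ^ N * ψ, fun u hu hu' => ?_⟩
        rcases Set.mem_insert_iff.1 hu with rfl | hu
        · have h6 : (χ ^ N * ψ) u = (χ u) ^ N * ψ u := rfl
          rw [h6, h1, one_zpow, one_mul]
          exact hψ
        · intro hc
          have h6 : (χ ^ N * ψ) u = (χ u) ^ N * ψ u := rfl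
          rw [h6] at hc
          apply hN
          simp only [Set.mem_iUnion]
          exact ⟨u, hu, hχ u hu hu', hc⟩
      · refine ⟨χ, fun u hu hψ => ?_⟩
        rcases Set.mem_insert_iff.1 hu with rfl | hu
        · exact absurd hψ h2
        · exact hχ u hu hψ

end ORG
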