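import Pool.Agent.ORG.Targets2

set_option autoImplicit false

open Monoid.Coprod

namespace ORG

noncomputable section

/-- functoriality of leveled lists -/
theorem p_LMF : T_LMF := by
  intro B B' D D' _ _ _ _ π χ χ' hχ δ ι ι' h t y r
  induction r generalizing y with
  | nil => rfl
  | cons p r ih =>
    obtain ⟨b, g⟩ := p
    cases b with
    | true =>
      have h1 := ih (y + t + Multiplicative.toAdd (χ g))
      simp only [lml, mpm, mp, List.map_cons, Prod.map, id] at h1 ⊢
      rw [h, Hat.map_hat, hχ]
      exact congrArg _ h1
    | false =>
      have h1 := ih (y - t + Multiplicative.toAdd (χ g))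
      simp only [lml, mpm, mp, List.map_cons, Prod.map, id] at h1 ⊢
      rw [h, Hat.map_hat, hχ]
      exact congrArg _ h1

end

end ORG
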