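import Pool.Agent.ORG.Targets1

/-!
# ORG: visibility in `Gamma3` (part of Lemma S)
-/

set_option autoImplicit false

open Monoid.Coprod

namespace ORG

noncomputable section

namespace LS3_

private lemma iord_inl {A B : Type} [Group A] [Group B] {a : A} (h : IOrd a) :
    IOrd (inl a : Cop A B) := by
  intro n hn
  rw [← map_zpow] at hn
  exact h n ((map_eq_one_iff _ inl_injective).1 hn)

private lemma iord_inr {A B : Type} [Group A] [Group B] {b : B} (h : IOrd b) :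
    IOrd (inr b : Cop A B) := by
  intro n hn
  rw [← map_zpow] at hn
  exact h n ((map_eq_one_iff _ inr_injective).1 hn)

end LS3_

open LS3_ in
theorem p_LS3 (hVPB : T_VPB) (hHNL : T_HNL) (hLRV : T_LRV) : T_LS3 := by
  intro E _ e K R _ _ χ cR Y ζ ρ ZR hY hord hV hρ hR Z hZ hZr
  classical
  refine Vis.loc _ _ hZ ?_
  intro P hP hZP
  -- infinite orders
  have hxo : ∀ i : G3I E χ Y, IOrd (g3x R χ Y ζ i) := by
    intro i
    refine iord_inl ?_
    intro n hn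
    rw [← hat_zpow_of i.2, hat_eq_one] at hn
    exact hord _ i.1.1.2 n hn
  have hyo : ∀ i : G3I E χ Y, IOrd (g3y (E := E) χ cR Y i) := by
    intro i
    refine iord_inr ?_
    intro n hn
    have h2 := congrArg (Monoid.CoprodI.lift (fun _ : E => ρ)) hn
    rw [map_zpow, Monoid.CoprodI.lift_of, hρ, map_one] at h2
    exact e.inf n h2
  -- the base elements of the marks
  have hc : ∀ z : G3 χ cR Y ζ, z ∈ Z → ∃ b : Cop (Hat χ) (CopI E R), z = HN.of _ _ b ∧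
      ∃ r ∈ ZR, ∃ m : E, b = inr (Monoid.CoprodI.of (M := fun _ : E => R) (i := m) r) := by
    intro z hz
    obtain ⟨r, hr, m, h⟩ := hZr z hz
    exact ⟨_, h, r, hr, m, rfl⟩
  choose! c hc1 hc2 using hc
  obtain ⟨B₀, I₀, hx, hy, hB, hF, -, hI, hinj, g, hg, hgp⟩ :=
    hHNL _ _ (g3x R χ Y ζ) (g3y χ cR Y) (fun i => ⟨hxo i, hyo i⟩) P hP (c '' Z) ∅
      (hZ.image c) Set.finite_empty
  have : Finite I₀ := hI.to_subtype
  -- the target
  let q : G3I E χ Y → Hat χ := fun p => hat χ (p.1.1 : K) (Multiplicative.ofAdd (ζ p.1.2))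
  have hYf : (q '' I₀).Finite := hI.image q
  have hVis := hV (q '' I₀) hYf (by
    rintro _ ⟨p, -, rfl⟩
    exact ⟨p.1.1, p.1.1.2, p.2, _, rfl⟩)
  let f0 : Cop (Hat χ) (CopI E R) →* GY e (Hat χ) (q '' I₀) :=
    (HN.of _ _).comp (lift inl (Monoid.CoprodI.lift fun _ : E => (inr : E →* _).comp ρ))
  have f0y : ∀ i : G3I E χ Y, f0 (g3y χ cR Y i) = GYc e (Hat χ) (q '' I₀) := by
    intro i
    simp only [f0, MonoidHom.comp_apply, g3y, lift_apply_inr, Monoid.CoprodI.lift_of, hρ]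
    rfl
  have f0x : ∀ i : G3I E χ Y, f0 (g3x R χ Y ζ i) = HN.of _ _ (inl (q i)) := by
    intro i
    simp only [f0, MonoidHom.comp_apply, g3x, lift_apply_inl, q]
  let F : HN (rs (g3x R χ Y ζ) B₀ I₀ hx) (rs (g3y χ cR Y) B₀ I₀ hy) →*
      GY e (Hat χ) (q '' I₀) :=
    HN.lift _ _ (f0.comp B₀.subtype)
      (fun i => HN.t _ _ (⟨q i.1, i.1, i.2, rfl⟩ : ↥(q '' I₀))) (by
        intro i
        change HN.t _ _ _ * f0 (g3x R χ Y ζ i.1) = f0 (g3y χ cR Y i.1) * HN.t _ _ _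
        rw [f0x, f0y]
        exact HN.rel _ _ (⟨q i.1, i.1, i.2, rfl⟩ : ↥(q '' I₀)))
  -- the marks are visible in `B₀`
  let Z₀ : Set B₀ := Subtype.val ⁻¹' (c '' Z)
  have hZ₀f : Z₀.Finite := (hZ.image c).preimage Subtype.val_injective.injOn
  have hZ₀ : Vis B₀ Z₀ := by
    refine hVPB R ZR hR B₀ ((lift (1 : Hat χ →* R)
      (Monoid.CoprodI.lift fun _ : E => MonoidHom.id R)).comp B₀.subtype) Z₀ hZ₀f ?_
    rintro b ⟨z, hz, hb⟩
    obtain ⟨r, hr, m, h⟩ := hc2 z hz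
    rw [MonoidHom.comp_apply, Subgroup.subtype_apply, ← hb, h, lift_apply_inr,
      Monoid.CoprodI.lift_of, MonoidHom.id_apply]
    exact hr
  have hmain := hLRV _ _ hVis B₀ I₀ (rs (g3x R χ Y ζ) B₀ I₀ hx) (rs (g3y χ cR Y) B₀ I₀ hy) F Z₀
    hZ₀ (by
      intro i
      rw [Set.mem_singleton_iff]
      simp only [F, HN.lift_of]
      exact f0y i.1)
  refine hVPB _ _ hmain P g _ (hZ.preimage Subtype.val_injective.injOn) ?_
  intro p hp
  refine ⟨⟨c (p : G3 χ cR Y ζ), hF ⟨_, hp, rfl⟩⟩, ⟨_, hp, rfl⟩, ?_⟩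
  apply hinj
  rw [hgp, HN.map_of]
  exact (hc1 _ hp).symm

end

end ORG
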