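import Pool.Agent.ORG.Targets2

/-! PWT : path words at the top level. -/

set_option autoImplicit false
set_option linter.unusedSectionVars false

open Monoid.Coprod

namespace ORG

noncomputable section

namespace PWT_

section basic

variable {G : Type}

theorem sg_nil [Group G] : sg ([] : List (Bool × G)) = 0 := rfl

theorem sg_cons [Group G] (b : Bool) (g : G) (r : List (Bool × G)) :
    sg ((b, g) :: r) = (if b then 1 else -1) + sg r := by
  simp [sg]

theorem sg_append [Group G] (l l' : List (Bool × G)) : sg (l ++ l') = sg l + sg l' := by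
  simp [sg]

theorem sg_mp {G' : Type} [Group G] [Group G'] (π : G →* G') (r : List (Bool × G)) :
    sg (mp π r) = sg r := by
  simp [sg, mp, Function.comp_def]

theorem hts_append [Group G] (s : ℤ) (l l' : List (Bool × G)) :
    hts s (l ++ l') = hts s l ++ hts (s + sg l) l' := by
  induction l generalizing s with
  | nil => simp [hts, sg_nil]
  | cons p l ih =>
    obtain ⟨b, g⟩ := p
    simp only [List.cons_append, hts, ih, sg_cons, add_assoc]

theorem hts_mp {G' : Type} [Group G] [Group G'] (π : G →* G') (s : ℤ) (r : List (Bool × G)) :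
    hts s (mp π r) = hts s r := by
  induction r generalizing s with
  | nil => rfl
  | cons p r ih =>
    obtain ⟨b, g⟩ := p
    have h := ih (s + if b then 1 else -1)
    simp only [mp, List.map_cons, Prod.map, id, hts] at h ⊢
    rw [h]

theorem pw_append [Group G] (s : ℤ) (l l' : List (Bool × G)) :
    pw s (l ++ l') = pw s l * pw (s + sg l) l' := by
  induction l generalizing s with
  | nil => simp [pw, sg_nil]
  | cons p l ih =>
    obtain ⟨b, g⟩ := p
    simp only [List.cons_append, pw, ih, sg_cons, add_assoc, mul_assoc]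

theorem mem_hts [Group G] (s t : ℤ) (r : List (Bool × G)) (h : t ∈ hts s r) :
    ∃ l l', r = l ++ l' ∧ s + sg l = t := by
  induction r generalizing s with
  | nil => simp [hts] at h
  | cons p r ih =>
    obtain ⟨b, g⟩ := p
    rw [hts, List.mem_cons] at h
    rcases h with h | h
    · exact ⟨[(b, g)], r, rfl, by rw [sg_cons, sg_nil, h, add_zero]⟩
    · obtain ⟨l, l', h1, h2⟩ := ih _ h
      exact ⟨(b, g) :: l, l', by rw [h1, List.cons_append], by rw [sg_cons, ← h2]; ring⟩

theorem mp_append {G' : Type} [Group G] [Group G'] (π : G →* G') (l l' : List (Bool × G)) :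
    mp π (l ++ l') = mp π l ++ mp π l' := by
  simp [mp]

theorem pw_mp {G' : Type} [Group G] [Group G'] (π : G →* G') (s : ℤ) (r : List (Bool × G)) :
    PPmap (MonoidHom.id Unit) π (pw s r) = pw s (mp π r) := by
  induction r generalizing s with
  | nil => simp [pw, mp]
  | cons p r ih =>
    obtain ⟨b, g⟩ := p
    have h := ih (s + if b then 1 else -1)
    simp only [mp, List.map_cons, Prod.map, id, pw, map_mul] at h ⊢
    rw [h]
    simp [PPmap]

theorem lev_mem_seg [Group G] (a b h : ℤ) (h1 : a ≤ h) (h2 : h ≤ b) (g : G) :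
    lev Unit h g ∈ seg Unit G a b :=
  Subgroup.subset_closure (Or.inr ⟨h, h1, h2, g, rfl⟩)

theorem pw_mem_seg [Group G] (a b s : ℤ) (r : List (Bool × G))
    (h : ∀ x ∈ hts s r, a ≤ x ∧ x ≤ b) : pw s r ∈ seg Unit G a b := by
  induction r generalizing s with
  | nil => exact Subgroup.one_mem _
  | cons p r ih =>
    obtain ⟨e, g⟩ := p
    rw [hts] at h
    rw [pw]
    refine Subgroup.mul_mem _ ?_ (ih _ fun x hx => h x (List.mem_cons_of_mem _ hx))
    have := h _ List.mem_cons_self
    exact lev_mem_seg a b _ this.1 this.2 g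

theorem newl_seg {D L H : Type} [Group D] [Group L] [Group H] (f : PP D L →* H) (t a b : ℤ)
    (hb : b < t) (x : PP D L) (hx : x ∈ seg D L a b) : newl f t x = inl (f x) := by
  have h : Set.EqOn (newl f t) ((inl : H →* Cop H L).comp f) (seg D L a b : Set (PP D L)) := by
    apply MonoidHom.eqOn_closure
    rintro y (⟨d, rfl⟩ | ⟨h, h1, h2, l, rfl⟩)
    · simp [newl]
    · have h3 : h ≠ t := by omega
      simp [newl, h3]
  exact h hx

theorem newl_lev {D L H : Type} [Group D] [Group L] [Group H] (f : PP D L →* H) (t : ℤ) (l : L) :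
    newl f t (lev D t l) = inr l := by
  simp [newl]

end basic

section blocks

variable {G : Type} [Group G]

/-- the list of a list of blocks -/
def fl (bl : List (List (Bool × G) × G)) : List (Bool × G) :=
  bl.flatMap fun b => b.1 ++ [(true, b.2)]

omit [Group G] in
theorem fl_cons (b : List (Bool × G) × G) (bl : List (List (Bool × G) × G)) :
    fl (b :: bl) = (b.1 ++ [(true, b.2)]) ++ fl bl := by
  simp [fl]

omit [Group G] in
theorem fl_append (bl bl' : List (List (Bool × G) × G)) :
    fl (bl ++ bl') = fl bl ++ fl bl' := by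
  simp [fl]

/-- the conditions on a block -/
structure Bk (t a : ℤ) (b : List (Bool × G) × G) : Prop where
  hd : ∃ g l, b.1 = (false, g) :: l
  ht : ∀ h ∈ hts t b.1, a ≤ h ∧ h ≤ t - 1
  su : sg b.1 = -1

/-- the first return to the height `t` -/
theorem split (t a : ℤ) (r : List (Bool × G)) : ∀ u : ℤ, u < t → u + sg r = t →
    (∀ h ∈ hts u r, a ≤ h ∧ h ≤ t) → ∃ l y r', r = l ++ (true, y) :: r' ∧
      (∀ h ∈ hts u l, a ≤ h ∧ h ≤ t - 1) ∧ u + sg l = t - 1 := by
  induction r with
  | nil =>
    intro u h1 h2
    rw [sg_nil] at h2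
    omega
  | cons p r ih =>
    intro u h1 h2 h3
    obtain ⟨b, g⟩ := p
    rw [sg_cons] at h2
    rw [hts] at h3
    have h4 := h3 _ List.mem_cons_self
    by_cases h5 : (u + if b then 1 else -1) = t
    · cases b with
      | false =>
        simp only [Bool.false_eq_true, if_false] at h5
        omega
      | true =>
        simp only [if_true] at h5
        exact ⟨[], g, r, rfl, by simp [hts], by rw [sg_nil]; omega⟩
    · obtain ⟨l, y, r', e1, e2, e3⟩ := ih (u + if b then 1 else -1) (by omega)
        (by omega) (fun h hh => h3 h (List.mem_cons_of_mem _ hh))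
      refine ⟨(b, g) :: l, y, r', by rw [e1, List.cons_append], ?_, by rw [sg_cons]; omega⟩
      intro h hh
      rw [hts, List.mem_cons] at hh
      rcases hh with hh | hh
      · rw [hh]
        omega
      · exact e2 h hh

/-- decomposition into blocks -/
theorem dec (t a : ℤ) : ∀ (n : ℕ) (r : List (Bool × G)), r.length ≤ n → sg r = 0 →
    (∀ h ∈ hts t r, a ≤ h ∧ h ≤ t) → ∃ bl : List (List (Bool × G) × G), r = fl bl ∧
      ∀ b ∈ bl, Bk t a b := by
  intro n
  induction n with
  | zero =>
    intro r hr _ _
    refine ⟨[], ?_, by simp⟩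
    rw [List.length_eq_zero_iff.1 (Nat.le_zero.1 hr)]
    rfl
  | succ n ih =>
    intro r hr h1 h2
    match r with
    | [] => exact ⟨[], rfl, by simp⟩
    | (true, g) :: r =>
      rw [hts] at h2
      have := (h2 _ List.mem_cons_self).2
      simp only [if_true] at this
      omega
    | (false, g) :: r =>
      rw [hts] at h2
      rw [sg_cons] at h1
      simp only [Bool.false_eq_true, if_false] at h1 h2
      have h3 := h2 _ List.mem_cons_self
      obtain ⟨l, y, r', e1, e2, e3⟩ := split t a r (t + -1) (by omega) (by omega)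
        (fun h hh => h2 h (List.mem_cons_of_mem _ hh))
      have e4 : sg r' = 0 := by
        rw [e1, sg_append, sg_cons] at h1
        simp only [if_true] at h1
        omega
      have e5 : ∀ h ∈ hts t r', a ≤ h ∧ h ≤ t := by
        intro h hh
        apply h2 h
        apply List.mem_cons_of_mem
        rw [e1, hts_append, List.mem_append]
        right
        rw [hts, List.mem_cons]
        right
        have : (t + -1 + sg l + if true = true then 1 else -1) = t := by
          simp only [if_true]
          omega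
        rw [this]
        exact hh
      obtain ⟨bl, f1, f2⟩ := ih r' (by
        rw [e1] at hr
        simp only [List.length_cons, List.length_append] at hr
        omega) e4 e5
      refine ⟨((false, g) :: l, y) :: bl, ?_, ?_⟩
      · rw [fl_cons, ← f1, e1]
        simp
      · intro b hb
        rw [List.mem_cons] at hb
        rcases hb with rfl | hb
        · refine ⟨⟨g, l, rfl⟩, ?_, ?_⟩
          · intro h hh
            simp only [hts, Bool.false_eq_true, if_false, List.mem_cons] at hh
            rcases hh with hh | hh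
            · omega
            · exact e2 h hh
          · rw [sg_cons]
            simp only [Bool.false_eq_true, if_false]
            omega
        · exact f2 b hb

theorem fl_length (t a : ℤ) (bl : List (List (Bool × G) × G)) (h : ∀ b ∈ bl, Bk t a b) :
    2 * bl.length ≤ (fl bl).length := by
  induction bl with
  | nil => simp
  | cons b bl ih =>
    rw [fl_cons]
    have h1 := ih fun b hb => h b (List.mem_cons_of_mem _ hb)
    obtain ⟨g, l, hl⟩ := (h b List.mem_cons_self).hd
    simp only [List.length_append, List.length_cons, hl, List.length_nil]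
    omega

theorem pw_fl (t a : ℤ) (bl : List (List (Bool × G) × G)) (h : ∀ b ∈ bl, Bk t a b) :
    pw t (fl bl) = (bl.map fun b => pw t b.1 * lev Unit t b.2).prod := by
  induction bl with
  | nil => rfl
  | cons b bl ih =>
    have h1 := ih fun b hb => h b (List.mem_cons_of_mem _ hb)
    have h2 := (h b List.mem_cons_self).su
    rw [fl_cons, pw_append, pw_append, sg_append, h2, sg_cons, List.map_cons, List.prod_cons, ← h1]
    simp only [sg_nil, pw, if_true, mul_one, add_zero, neg_add_cancel, neg_add_cancel_right]

theorem newl_fl {H : Type} [Group H] (f : PP Unit G →* H) (t a : ℤ)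
    (bl : List (List (Bool × G) × G)) (h : ∀ b ∈ bl, Bk t a b) :
    newl f t (pw t (fl bl)) = ow (bl.map fun b => (f (pw t b.1), b.2)) := by
  rw [pw_fl t a bl h, ow, map_list_prod, List.map_map, List.map_map]
  congr 1
  apply List.map_congr_left
  intro b hb
  simp only [Function.comp_apply, map_mul, newl_lev]
  rw [newl_seg f t a (t - 1) (by omega) _ (pw_mem_seg _ _ _ _ (h b hb).ht)]

/-- the sign after a block -/
theorem fl_head (t a : ℤ) (bl : List (List (Bool × G) × G)) (h : ∀ b ∈ bl, Bk t a b)
    (hb : bl ≠ []) : ∃ g l, fl bl = (false, g) :: l := by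
  match bl with
  | [] => exact absurd rfl hb
  | b :: bl =>
    obtain ⟨g, l, hl⟩ := (h b List.mem_cons_self).hd
    exact ⟨g, l ++ [(true, b.2)] ++ fl bl, by rw [fl_cons, hl]; simp⟩

end blocks

section phi

variable {G : Type} [Group G]

/-- the map to `G * ℤ` -/
def phi (G : Type) [Group G] : PP Unit G →* Cop G Zm :=
  PPlift 1 fun h => (MulAut.conj (inr (Multiplicative.ofAdd h) : Cop G Zm)).toMonoidHom.comp inl

theorem phi_pw (s : ℤ) (r : List (Bool × G)) : phi G (pw s r) =
    inr (Multiplicative.ofAdd s) * wd inl (inr (Multiplicative.ofAdd 1)) r *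
      (inr (Multiplicative.ofAdd (s + sg r)))⁻¹ := by
  induction r generalizing s with
  | nil => simp [pw, wd, sg_nil]
  | cons p r ih =>
    obtain ⟨b, g⟩ := p
    have h1 : phi G (lev Unit (s + if b then 1 else -1) g) =
        inr (Multiplicative.ofAdd (s + if b then 1 else -1)) * inl g *
          (inr (Multiplicative.ofAdd (s + if b then 1 else -1)))⁻¹ := by
      simp [phi, mul_assoc]
    have h2 : (inr (Multiplicative.ofAdd (s + if b then 1 else -1)) : Cop G Zm) =
        inr (Multiplicative.ofAdd s) * (if b then inr (Multiplicative.ofAdd 1) else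
          (inr (Multiplicative.ofAdd 1))⁻¹) := by
      rw [ofAdd_add, map_mul]
      congr 1
      cases b with
      | false => simp only [Bool.false_eq_true, if_false, ofAdd_neg, map_inv]
      | true => simp only [if_true]
    rw [pw, map_mul, h1, ih, sg_cons, ← add_assoc, h2]
    simp only [wd, List.map_cons, List.prod_cons]
    group

end phi

section nf

variable {G : Type} [Group G]

/-- the relation of reduced lists -/
abbrev Rr (p q : Bool × G) : Prop := p.1 ≠ q.1 → p.2 ≠ 1

theorem chain_last (l : List (Bool × G)) (y : G) (h : (l ++ [(true, y)]).IsChain Rr) :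
    (l ++ [(true, (1 : G))]).IsChain Rr := by
  rw [List.isChain_append] at h ⊢
  refine ⟨h.1, List.isChain_singleton _, ?_⟩
  intro p hp q hq
  simp only [List.head?_cons, Option.mem_some_iff] at hq
  have := h.2.2 p hp (true, y) (by simp)
  rw [← hq]
  exact this

theorem wd_last (l : List (Bool × G)) :
    (wd inl (inr (Multiplicative.ofAdd 1)) (l ++ [(true, (1 : G))]) : Cop G Zm) =
      wd inl (inr (Multiplicative.ofAdd 1)) l * inr (Multiplicative.ofAdd 1) := by
  simp [wd]

/-- the list of a path word -/
theorem pw_inj (hNFS : T_NFS) (t : ℤ) (l l' : List (Bool × G)) (y y' : G)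
    (h : (l ++ [(true, y)]).IsChain Rr) (h' : (l' ++ [(true, y')]).IsChain Rr)
    (hs : sg l = -1) (hs' : sg l' = -1) (he : pw t l = pw t l') : l = l' := by
  have h1 := congrArg (phi G) he
  rw [phi_pw, phi_pw, hs, hs'] at h1
  have h2 := mul_left_cancel (mul_right_cancel h1)
  have h3 := (hNFS G 1 1 _ _ (chain_last l y h) (chain_last l' y' h')
    (by rw [wd_last, wd_last, h2])).2
  exact List.append_cancel_right h3

theorem pw_ne (hNFS : T_NFS) (t : ℤ) (l : List (Bool × G)) (y : G)
    (h : (l ++ [(true, y)]).IsChain Rr) (hs : sg l = -1) : pw t l ≠ 1 := by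
  intro he
  have h1 := congrArg (phi G) he
  rw [phi_pw, hs, map_one (phi G)] at h1
  have h2 : (wd inl (inr (Multiplicative.ofAdd 1)) l : Cop G Zm) =
      (inr (Multiplicative.ofAdd 1))⁻¹ := by
    rw [ofAdd_add, map_mul, ofAdd_neg, map_inv] at h1
    rw [mul_inv_eq_one, mul_right_inj] at h1
    exact h1
  have h3 := (hNFS G 1 1 _ [] (chain_last l y h) List.isChain_nil
    (by rw [wd_last, h2]; simp [wd])).2
  simp at h3

end nf

/-- repetitions of images -/
theorem rep {α β γ : Type} [Inhabited γ] (bl : List α) (F : α → β) (K : α → γ)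
    (h : ∀ b ∈ bl, ∀ c ∈ bl, F b = F c → K b = K c) (q : ℕ) (σ : List β)
    (he : bl.map F = (List.replicate q σ).flatten) :
    ∃ τ : List γ, bl.map K = (List.replicate q τ).flatten := by
  classical
  let H : β → γ := fun y => if hy : ∃ b ∈ bl, F b = y then K hy.choose else default
  have hH : ∀ b ∈ bl, H (F b) = K b := by
    intro b hb
    have hy : ∃ c ∈ bl, F c = F b := ⟨b, hb, rfl⟩
    have h1 : H (F b) = K hy.choose := dif_pos hy
    rw [h1]
    exact h _ hy.choose_spec.1 _ hb hy.choose_spec.2
  refine ⟨σ.map H, ?_⟩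
  have h1 : bl.map K = (bl.map F).map H := by
    rw [List.map_map]
    exact List.map_congr_left fun b hb => (hH b hb).symm
  rw [h1, he]
  simp

theorem flat_rep {α : Type} (q : ℕ) (τ : List (List α)) :
    ((List.replicate q τ).flatten).flatten = (List.replicate q τ.flatten).flatten := by
  induction q with
  | zero => rfl
  | succ q ih => simp [List.replicate_succ, ih]

/-- lists starting at the top level -/
theorem key (hNFS : T_NFS) (m : ℕ) (hOO : ∀ n, 1 ≤ n → 2 * n ≤ m → OOn n) (k : ℕ) (hk : 1 ≤ k)
    (G G' : Type) [Group G] [Group G'] (π : G →* G') (r : List (Bool × G)) (hG : InC k G)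
    (hG' : InC 1 G') (hlen : r.length ≤ m) (hcr : CR (mp π r)) (hpr : Pr (mp π r))
    (hsg : sg r = 0) (t a : ℤ) (hh : ∀ h ∈ hts t r, a ≤ h ∧ h ≤ t) :
    AddOk k (MonoidHom.id Unit) π (pw t r) (seg Unit G' a (t - 1)) t := by
  obtain ⟨bl, rfl, hb⟩ := dec t a r.length r le_rfl hsg hh
  have hne : bl ≠ [] := by
    rintro rfl
    exact absurd (hpr 0 [] rfl) (by norm_num)
  intro H H' _ _ θ f f' hH hH' hc hf'
  have hlen' := fl_length t a bl hb
  have hc' : ∀ b ∈ bl, θ (f (pw t b.1)) = f' (pw t (mp π b.1)) := by
    intro b _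
    rw [hc, pw_mp]
  -- chains
  have hch : ∀ b ∈ bl, ((mp π b.1) ++ [(true, π b.2)]).IsChain Rr ∧ π b.2 ≠ 1 := by
    intro b hbb
    obtain ⟨b1, b2, hbl⟩ := List.append_of_mem hbb
    have h1 : (mp π (fl bl ++ fl bl)).IsChain Rr := by
      rw [mp_append]
      exact hcr
    obtain ⟨g, l, hl⟩ := fl_head t a (b2 ++ bl) (by
      intro c hc
      rw [List.mem_append] at hc
      rcases hc with hc | hc
      · exact hb c (by rw [hbl]; simp [hc])
      · exact hb c hc) (by
        intro h
        exact hne (List.append_eq_nil_iff.1 h).2)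
    have h2 : fl bl ++ fl bl = fl b1 ++ ((b.1 ++ [(true, b.2)]) ++ ((false, g) :: l)) := by
      rw [← hl, fl_append]
      nth_rewrite 1 [hbl]
      rw [fl_append, fl_cons]
      simp
    rw [h2, mp_append, mp_append, mp_append, List.isChain_append] at h1
    have h3 := h1.2.1
    rw [List.isChain_append] at h3
    refine ⟨h3.1, ?_⟩
    have := h3.2.2 (true, π b.2) (by simp [mp]) (false, π g) (by simp [mp])
    exact this (by simp)
  have hsu : ∀ b ∈ bl, sg (mp π b.1) = -1 := by
    intro b hbb
    rw [sg_mp]
    exact (hb b hbb).su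
  have hsegm : ∀ b ∈ bl, pw t (mp π b.1) ∈ seg Unit G' a (t - 1) := by
    intro b hbb
    apply pw_mem_seg
    rw [hts_mp]
    exact (hb b hbb).ht
  have h1 : 1 ≤ bl.length := List.length_pos_iff.2 hne
  have := hOO bl.length h1 (by omega) k hk H G H' G' θ π
    (bl.map fun b => (f (pw t b.1), b.2)) hH hG hH' hG' (by simp) (by
      intro p hp
      rw [List.mem_map] at hp
      obtain ⟨b, hbb, rfl⟩ := hp
      refine ⟨?_, (hch b hbb).2⟩
      change θ (f (pw t b.1)) ≠ 1
      rw [hc' b hbb]
      intro h
      rw [← map_one f'] at h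
      exact pw_ne hNFS t _ _ (hch b hbb).1 (hsu b hbb)
        (hf' (hsegm b hbb) (Subgroup.one_mem _) h)) (by
      intro q σ hq
      rw [List.map_map] at hq
      obtain ⟨τ, hτ⟩ := rep bl _ (fun b => mp π b.1 ++ [(true, π b.2)]) (by
        intro b hbb c hcc h
        simp only [Function.comp_apply, Prod.map_apply, Prod.mk.injEq] at h
        rw [hc' b hbb, hc' c hcc] at h
        have h1 := hf' (hsegm b hbb) (hsegm c hcc) h.1
        have h2 := pw_inj hNFS t _ _ _ _ (hch b hbb).1 (hch c hcc).1 (hsu b hbb) (hsu c hcc) h1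
        rw [h2, h.2]) q σ hq
      apply hpr q τ.flatten
      rw [← flat_rep, ← hτ, fl, List.flatMap, mp, List.map_flatten, List.map_map]
      congr 1
      apply List.map_congr_left
      intro b _
      simp [mp])
  rw [newl_fl f t a bl hb]
  exact ⟨this.1, this.2.2⟩

end PWT_

/-- path words at the top level -/
theorem p_PWT (hROT : T_ROT) (hAOC : T_AOC) (hNFS : T_NFS) : T_PWT := by
  intro m hOO k hk G G' _ _ π r hG hG' hlen hcr hpr hsg s t a ht hh
  obtain ⟨l, l', rfl, e⟩ := PWT_.mem_hts s t r ht
  have e2 : sg l + sg l' = 0 := by rw [← PWT_.sg_append]; exact hsg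
  have e3 : t + sg l' = s := by omega
  have hrot : pw s (l ++ l') = pw s l * pw t (l' ++ l) * (pw s l)⁻¹ := by
    rw [PWT_.pw_append, e, PWT_.pw_append, e3]
    group
  rw [hrot]
  apply hAOC
  rw [PWT_.mp_append] at hcr hpr
  apply PWT_.key hNFS m hOO k hk G G' π (l' ++ l) hG hG'
  · simpa [add_comm] using hlen
  · rw [PWT_.mp_append]
    exact (hROT _ _ _ _).1 hcr
  · rw [PWT_.mp_append]
    exact (hROT _ (fun _ _ => True) _ _).2 hpr
  · rw [PWT_.sg_append]
    omega
  · intro h hm
    apply hh
    rw [PWT_.hts_append, List.mem_append, e3] at hm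
    rw [PWT_.hts_append, List.mem_append, e]
    exact hm.symm

end

end ORG
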