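import Pool.Agent.ORG.Defs

/-!
# ORG: targets, part 1 (the classes `C_k`, visibility, HNN families, Theorem V)

Full context: `Blueprint.md`, sections 0 to 4. `g_a` means `hat Ψ g a`.
-/

set_option autoImplicit false

open Monoid.Coprod

namespace ORG

noncomputable section

/-! ## Free products -/

/-- Maps of free products with injective components are injective.
Proof: e.g. `Monoid.Coprod G H` is a quotient of `CoprodI` over `Bool`; or normal forms of
`Monoid.CoprodI` (reduced words go to reduced words of the same length); or PushoutI injectivity. -/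
def T_CMI : Prop := ∀ (G H G' H' : Type) [Group G] [Group H] [Group G'] [Group H'] (f : G →* G')
  (g : H →* H'), Function.Injective f → Function.Injective g →
  Function.Injective (Monoid.Coprod.map f g)

/-- Maps between free products of copies are injective. Proof: reduced words
(`Monoid.CoprodI.Word`) go to reduced words of the same length. -/
def T_CIJ : Prop := ∀ (I I' L L' : Type) [Group L] [Group L'] (j : I → I') (f : L →* L'),
  Function.Injective j → Function.Injective f → Function.Injective (CImap j f)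

/-- Finitely generated subgroups of free products lie in free products of f.g. subgroups.
Proof: every element lies in such a range (induction), and ranges for larger `G₀, H₀` are larger. -/
def T_CFG : Prop := ∀ (G H : Type) [Group G] [Group H] (P : Subgroup (Cop G H)), P.FG →
  ∃ (G₀ : Subgroup G) (H₀ : Subgroup H), G₀.FG ∧ H₀.FG ∧
    P ≤ (Monoid.Coprod.map G₀.subtype H₀.subtype).range

/-- The same for free products of copies; the index set becomes finite. -/
def T_CIG : Prop := ∀ (I L : Type) [Group L] (P : Subgroup (CopI I L)), P.FG →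
  ∃ (I₀ : Finset I) (L₀ : Subgroup L), L₀.FG ∧
    P ≤ (CImap (Subtype.val : I₀ → I) L₀.subtype).range

/-! ## The classes `C_k` -/

/-- (C1) `C_k` is closed under injective homomorphisms into it.
Proof: induction on `InC k G`, for all `H, f`. base: for `P ≤ H` f.g. `P.map f` is f.g.; compose.
loc: use `loc`; `P ≤ H` f.g., `P → P.map f` injective, induction hypothesis for `P.map f`.
ext: use `ext` with `χ.comp f`; `Hat.map` is injective because (`Hat.map_coe`) it is the restriction
of `Monoid.Coprod.map f id`, injective by `T_CMI`. -/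
def T_C1 : Prop := ∀ (k : ℕ) (G : Type) [Group G], InC k G → ∀ (H : Type) [Group H] (f : H →* G),
  Function.Injective f → InC k H

/-- `Hat.map` is injective if `F` is (restriction of `Monoid.Coprod.map F id`, `Hat.map_coe`). -/
def T_HMI : Prop := ∀ (G G' A : Type) [Group G] [Group G'] [Group A] (Ψ : G →* A)
  (Ψ' : G' →* A) (F : G →* G') (h : ∀ g, Ψ' (F g) = Ψ g), Function.Injective F →
  Function.Injective (Hat.map Ψ Ψ' F h)

/-- Free groups, `ℤ/k`, `ℤ`, the trivial group and the model groups are in `C_k` (all by `base`). -/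
def T_CF : Prop := ∀ k : ℕ, (∀ S J : Type, InC k (Mdl k S J)) ∧ (∀ S : Type, InC k (FreeGroup S)) ∧
  InC k (Multiplicative (ZMod k)) ∧ InC k Zm ∧ InC k Unit

/-- (C2) `F(X) * (*_I B)` is in `C_k` for `B` in `C_k`.
Proof: induction on `InC k B`, for all `X, I`.
base: a f.g. `P` lies in the image of `F(X) * (*_{I₀} B₀)` (`T_CFG`, `T_CIG`), `I₀` finite, `B₀` f.g.,
`B₀` embeds in `Mdl k S J`, so `F(X) * (*_{I₀} B₀)` embeds in `F(X) * (*_{I₀} Mdl k S J)`, which is
isomorphic to `Mdl k (X ⊕ I₀ × S) (I₀ × J)`.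
loc: use `loc`; `P` lies in the image of `F(X) * (*_I B₀)`, `B₀` f.g., injective; induction hypothesis
and C1.
ext: use `ext` with the character which is trivial on `F(X)` and `χ` on every copy of `B`;
its `Hat` embeds in `F(X × Zm) * (*_I Hat χ)`: `hat x a ↦ (x,a)`, `hat b a ↦ hat χ b a` in the same
copy (`Hat.lift` with a homomorphism from the free product to `Wr`), left inverse
`(x,a) ↦ hat x a` and `Hat.map` on the copies; check on the generators with `Hat.hom_ext_of`. -/
def T_C2 : Prop := ∀ (k : ℕ) (B : Type) [Group B], InC k B → ∀ X I : Type,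
  InC k (Cop (FreeGroup X) (CopI I B))

/-- The `Hat` of a free product embeds in the free product of the `Hat`s.
Proof: `hat (inl g) a ↦ inl (hat g a)`, `hat (inr h) a ↦ inr (hat h a)`; `Hat.lift` with a
homomorphism `G * H → Wr`; left inverse `lift (Hat.map ..) (Hat.map ..)`. -/
def T_HFP : Prop := ∀ (G H A : Type) [Group G] [Group H] [Group A] (α : G →* A) (β : H →* A),
  ∃ Θ : Hat (Monoid.Coprod.lift α β) →* Cop (Hat α) (Hat β), Function.Injective Θ ∧
    (∀ g a, Θ (hat _ (inl g) a) = inl (hat α g a)) ∧ ∀ h a, Θ (hat _ (inr h) a) = inr (hat β h a)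

/-- For the trivial homomorphism `Hat` embeds in the free product of copies indexed by `A`
(`hat g a ↦ g` in the copy `a`, left inverse clear). -/
def T_HTR : Prop := ∀ (G A : Type) [Group G] [Group A],
  ∃ Θ : Hat (1 : G →* A) →* CopI A G, Function.Injective Θ ∧
    ∀ g a, Θ (hat _ g a) = Monoid.CoprodI.of (M := fun _ : A => G) (i := a) g

/-- (C3) `C_k` is closed under free products.
Proof: induction on `InC k A`, for all `B`.
base: `A` in `Base`. Now induction on `InC k B` (for all `A` in `Base`, i.e. with the hypothesis of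
`InC.base`): base: f.g. subgroups lie in `A₀ * B₀` (`T_CFG`), which embeds in
`Mdl * Mdl ≅ Mdl k (S ⊕ S') (J ⊕ J')`. loc: clear (`T_CFG`, C1). ext: character trivial on `A`,
`Hat ↪ Hat (1 : A →* Zm) * Hat χ ↪ (*_Zm A) * Hat χ` (`T_HFP`, `T_HTR`), and `*_Zm A` satisfies the
hypothesis of `InC.base` (as in C2).
loc for `A`: f.g. subgroups lie in `A₀ * B`; induction hypothesis and C1.
ext for `A`: character `χ` on `A`, trivial on `B`: `Hat ↪ Hat χ * (*_Zm B)`; `*_Zm B` is in `C_k` by
C2; induction hypothesis for `Hat χ`. -/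
def T_C3 : Prop := ∀ (k : ℕ) (A B : Type) [Group A] [Group B], InC k A → InC k B →
  InC k (Cop A B)

/-- free products of copies (from C2, C1) -/
def T_C3I : Prop := ∀ (k : ℕ) (I B : Type) [Group B], InC k B → InC k (CopI I B)

/-- (C4) `Hat χ` is a subgroup of `G * ℤ`. -/
def T_C4 : Prop := ∀ (k : ℕ) (G : Type) [Group G], InC k G → ∀ χ : G →* Zm, InC k (Hat χ)

/-- (C5) extensions by `ℤ`.
Proof: `G = N ⋊ Zm`, `χ` the projection, `t := inr (ofAdd 1)`. `ext` with `χ`:
`Hat χ → N * F(Zm)`, `hat g a ↦ q_a⁻¹ n(g,a) q_{a χ(g)}` with `n(g,a) = inr a * g * inr (a χ(g))⁻¹`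
which lies in `N` (cocycle: `Hat.coc`); left inverse: `n ↦ hat n 1`, `q_a ↦ hat (inr a) 1`:
`hat (inr a) 1 * hat g a = hat (inr a * g) 1 = hat (n(g,a) * inr (a χ(g))) 1`.
`N * F(Zm)` is in `C_k` by C3, `T_CF`; then C1. -/
def T_C5 : Prop := ∀ (k : ℕ) (N : Type) [Group N] (φ : Zm →* MulAut N), InC k N →
  InC k (N ⋊[φ] Zm)

/-! ## Visibility -/

/-- (V1) pull back along arbitrary homomorphisms.
Proof: induction on `Vis K Y`, for all `L, F, YL`. nil: `YL = ∅`. loc: use `loc` for `L`: for `P ≤ L`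
f.g. containing `YL`, `K₀ := P.map F ⊔ closure Y` is f.g. and contains `Y`; induction hypothesis for
`K₀` and `P → K₀`. ext: use `ext` with `χ.comp F`; `Hat.map : Hat (χ.comp F) → Hat χ` maps a finite
set `Y'` of elements `hat y h`, `y ∈ YL`, `χ (F y) = 1`, to the finite set of the `hat (F y) h`. -/
def T_VPB : Prop := ∀ (K : Type) [Group K] (Y : Set K), Vis K Y → ∀ (L : Type) [Group L]
  (F : L →* K) (YL : Set L), YL.Finite → (∀ y ∈ YL, F y ∈ Y) → Vis L YL

/-- (V2) conjugates of nonzero powers.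
Proof: induction. nil: `Y2 = ∅`. loc: for `P` f.g. with `Y2 ⊆ P` let `P₁` be generated by `P`, `Y` and
the conjugating elements `g` (finitely many); induction hypothesis for `P₁`, then V1 along
`P → P₁`. ext: the same `χ`; `χ (g y^a g⁻¹) = 1` implies `χ y = 1` (`Zm` is torsion free) and
`(g y^a g⁻¹)_h = g_h (y_{h χ(g)})^a g_h⁻¹` (`hat_mul`, `hat_inv`, `hat_zpow_of`). -/
def T_VCP : Prop := ∀ (K : Type) [Group K] (Y : Set K), Vis K Y → ∀ Y2 : Set K, Y2.Finite →
  (∀ z ∈ Y2, ∃ y ∈ Y, ∃ (g : K) (a : ℤ), a ≠ 0 ∧ z = g * y ^ a * g⁻¹) → Vis K Y2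

/-- (V3) visible sets are finite and consist of elements of infinite order.
Proof: first `1 ∉ Y` by induction (loc: take `P = closure Y`; ext: otherwise `Y' := {1}`, as
`hat 1 h = 1`). If `y^n = 1`, `n ≠ 0`, then V2 gives `Vis K {1}`, contradiction. -/
def T_VN : Prop := ∀ (K : Type) [Group K] (Y : Set K), Vis K Y → Y.Finite ∧ ∀ y ∈ Y, IOrd y

/-- one character for finitely many elements. Proof: induction on `V`: if `χ` is good for `V` and
`ψ v ≠ 1`, take `χ^N * ψ` with `N` large (finitely many `N` are bad). -/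
def T_GEN : Prop := ∀ (G : Type) [Group G] (V : Set G), V.Finite →
  ∃ χ : G →* Zm, ∀ v ∈ V, (∃ ψ : G →* Zm, ψ v ≠ 1) → χ v ≠ 1

/-- The combinatorial step for free groups: a nonempty reduced word `L` with all exponent sums zero,
`χ` not zero on the subwords with nonzero exponent sums. Then the leveled word has more different
letters.
Proof: otherwise (the letters of `L` are the first components of those of the leveled word) each
letter `s` occurs at one height only. Show by strong induction on the length that a nonempty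
reduced word `L` (with the genericity for subwords, all exponent sums zero) has a letter at two heights,
for every starting height `h`. Let `s` be the first letter of `L`, `L = (s,e) :: v ++ (s,e') :: L''`, `s`
not in `v` (`s` occurs again since `esum s L = 0`). Heights of both occurrences equal: if `e' = e`
then `csum χ ((s,e) :: v) = 0`, so `esum s ((s,e) :: v) = 0`, but it is `±1`. If `e' = -e` then
`csum χ v = 0`, so all exponent sums of `v` are zero, `v` is nonempty because `L` is reduced; the leveled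
word of `v` (starting at the right height) is a part of the leveled word of `L`; induction. -/
def T_VF1 : Prop := ∀ (S : Type) (χ : S → ℤ) (L : List (S × Bool)), FreeGroup.IsReduced L →
  L ≠ [] → (∀ s, esum s L = 0) →
  (∀ u v w : List (S × Bool), L = u ++ v ++ w → csum χ v = 0 → ∀ s, esum s v = 0) →
  ∀ h : ℤ, (lset L).ncard < (lset (lft χ h L)).ncard

/-- `Hat` of a free group: the homomorphism to the free group on `S × ℤ`; leveled words are reduced.
Proof: `Hat.lift` with the homomorphism `FreeGroup S → Wr (FreeGroup (S × ℤ)) Zm` sending `s` to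
`(a ↦ (s, toAdd a), ofAdd (χ s))`; induction on `L` (for all `h`). Reducedness: adjacent letters of the
leveled word with the same letter have the same sign because this holds in `L`. -/
def T_VF2 : Prop := ∀ (S : Type) (χ : S → ℤ), ∃ Θ :
  Hat (FreeGroup.lift (fun s => Multiplicative.ofAdd (χ s)) : FreeGroup S →* Zm) →*
    FreeGroup (S × ℤ),
  ∀ (L : List (S × Bool)) (h : ℤ),
    Θ (hat _ (FreeGroup.mk L) (Multiplicative.ofAdd h)) = FreeGroup.mk (lft χ h L) ∧
    (FreeGroup.IsReduced L → FreeGroup.IsReduced (lft χ h L)) ∧ (lft χ h L).length = L.length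

/-- (V4) free groups.
Proof: write the elements of `Y` as reduced words. Induction on a bound `m` for
`length L - ncard (lset L)` (natural number, `ncard (lset L) ≤ length L`), for all `S, Y`.
`Y` empty: nil. Choose `χ` with `T_GEN` for the finite set of all `FreeGroup.mk v`, `v` a subword of a
word of `Y` (some `ψ` is not trivial on `mk v` iff some `esum s v ≠ 0`, take `ψ = ` exponent sum of `s`).
`ext` with `χ`. Unseen words have all exponent sums zero (`χ(w) = 1`, genericity for the whole word).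
For finite `Y'` of `hat w h`, V1 along `Θ` of `T_VF2`; the image words have the same
length and more letters (`T_VF1`), so the bound drops (if `m = 0` there is no unseen word,
because `ncard (lset L) ≤ length L` always, so `Y' = ∅`). -/
def T_VFR : Prop := ∀ (S : Type) (Y : Set (FreeGroup S)), Y.Finite → 1 ∉ Y →
  Vis (FreeGroup S) Y

/-- (V5) all finite sets of nontrivial elements of groups of `C_1` are visible.
Proof: induction on `InC 1 K`. base: use `loc`: `P` f.g., `P → Mdl 1 S J`, and `Mdl 1 S J → FreeGroup S`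
is injective because `Multiplicative (ZMod 1)` is trivial; V1 and V4. loc: `loc`. ext: `ext`,
`hat y h ≠ 1` by `hat_eq_one`. -/
def T_VC : Prop := ∀ (K : Type) [Group K], InC 1 K → ∀ Y : Set K, Y.Finite → 1 ∉ Y → Vis K Y

/-! ## Other targets for characters -/

/-- (V6 i). Zm: this is `Vis.ext`. For a trivial group `A`: `G → Hat Ψ`, `g ↦ hat g 1` is a
homomorphism, V1. -/
def T_ZZ : Prop := Zed Zm ∧ ∀ (A : Type) [Group A], Subsingleton A → Zed A

/-- (V6 ii). Proof: `loc` for `G`: `P ≤ G` f.g. containing `Y`, `A₀ := P.map Ψ` f.g.,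
`Ψ₀ : P → A₀`; `Zed A₀`: for `Y'` finite in `Hat Ψ₀`, V1 along `Hat Ψ₀ → Hat Ψ`,
`hat p a ↦ hat p a` (`Hat.coc`). -/
def T_ZL : Prop := ∀ (A : Type) [Group A], (∀ P : Subgroup A, P.FG → Zed P) → Zed A

/-- (V6 iii). Proof: for `i : A₀ → A` injective. Choose representatives of the left cosets of the image:
`a = r(a) i(s(a))`, `s (a * i b) = s a * b`. `Hat (i.comp Ψ) → Hat Ψ`, `hat g a ↦ hat g (s a)`
(`Hat.coc`), V1. -/
def T_ZS : Prop := ∀ (A₀ A : Type) [Group A₀] [Group A] (i : A₀ →* A), Function.Injective i →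
  Zed A → Zed A₀

/-- (V6 iv). Proof: if `π` is trivial, `A` embeds in `π.ker` (`T_ZS`). Otherwise the image of `π` is
generated by some `ofAdd d`, `d ≠ 0`, and `π = (π')^d` with `π'` surjective with the same kernel; so
let `π` be surjective, `π t = ofAdd 1`; for `h : Zm` write `t^h := t ^ toAdd h`.
Given `G, Ψ, Y`: `Vis.ext` with `χ := π.comp Ψ`. Let `Y'` be a finite set of `hat χ y h`,
`χ y = 1`. `Ψ₁ : Hat χ → π.ker`, `hat g h ↦ t^h Ψ(g) t^{-(h χ(g))}` (`Hat.coc`). `Zed π.ker` for
`Ψ₁` and `Y'`: `Ψ₁ (hat y h) = 1` iff `Ψ y = 1`. Homomorphism `Hat Ψ₁ → Hat Ψ`,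
`hat (hat g h) a ↦ hat g (a * t^h)`: `Hat.lift` with the homomorphism `Hat χ → Wr (Hat Ψ) π.ker`
which is `Hat.coc` of `(g,h) ↦ (a ↦ hat g (a * t^h), Ψ₁ (hat g h))`. Then V1 and the hypothesis. -/
def T_ZE : Prop := ∀ (A : Type) [Group A] (π : A →* Zm), Zed π.ker → Zed A

/-- (V7) existence of the group `E`.
Proof: `E := Multiplicative ℚ ⋊ W`, `W := Multiplicative ({p : ℤ // p ≠ 0} →₀ ℤ)`, the basis element
`e_p` acting as multiplication by `p`; `c := inl (ofAdd 1)`. `conj`, `inf`: direct. `zed`: first, every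
subgroup `P` of `Multiplicative ℚ` is in `Zed`: by `T_ZL` let `P` be f.g.; there is `N ≠ 0` with
`N q` integral for all `q ∈ P`, so `P → Zm` injective, its kernel is trivial, `T_ZZ`, `T_ZE` (or
`T_ZS`). Next, by induction on a finite set `T` of indices: every subgroup `P ≤ E` on which all
coordinates outside `T` vanish is in `Zed` (for `T = ∅` it embeds in `Multiplicative ℚ`; for
`insert p T`: `π :=` the coordinate `p`, the kernel of `π` on `P` embeds in `E` with the coordinates
outside `T` zero; `T_ZE`, `T_ZS`). Finally `T_ZL`: a f.g. subgroup has finitely many nonzero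
coordinates. -/
def T_EE : Prop := ∃ (E : Type) (_ : Group E), Nonempty (EGrp E)

/-- `c` is visible in `E` (`Zed E` with `Ψ = id`: `c` is seen, so `Y' = ∅`). -/
def T_VE0 : Prop := ∀ (E : Type) [Group E] (e : EGrp E), Vis E {e.c}

/-! ## HNN families -/

/-- (G1) the base group embeds.
Proof: two elements `x, y` of infinite order of a group `B`: there is a permutation `f` of `B × ℕ` with
`f (x b, n) = y · f (b, n)` (left multiplication on the first coordinate): the orbits of `⟨x⟩` on
`B × ℕ` are free, `B × ℕ ≃ ℤ × (orbits)`, and the number of orbits is `max #B ℵ₀` for both `x` and `y`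
(`#(B × ℕ) = ℵ₀ * #orbits` and `#orbits` is infinite because of `ℕ`). Hence `HN.lift` to
`Equiv.Perm (B × ℕ)`, which is injective on `B`. -/
def T_HNI : Prop := ∀ (B I : Type) [Group B] (x y : I → B), (∀ i, IOrd (x i) ∧ IOrd (y i)) →
  Function.Injective (HN.of x y)

/-- Presentations over a group and over a larger group. For `φ : B₀ → B` injective and
`R₀ ⊆ B₀ * F(I)` such that `B₀` embeds in `Quo R₀`: `B` embeds in `Quo R`, `R` the image of
`R₀` in `B * F(I)`, and `Quo R₀ → Quo R` is injective.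
Proof: amalgamated product `Quo R₀ *_{B₀} B` (`Monoid.PushoutI`, `Monoid.PushoutI.of_injective` or
so); there are homomorphisms between it and `Quo R` compatible with `B`, `F(I)`. -/
def T_PUSH : Prop := ∀ (B₀ B I : Type) [Group B₀] [Group B] (φ : B₀ →* B)
  (R₀ : Set (Cop B₀ (FreeGroup I))), Function.Injective φ →
  Function.Injective ((Quo.mk R₀).comp inl : B₀ →* Quo R₀) →
  Function.Injective ((Quo.mk (Monoid.Coprod.map φ (MonoidHom.id _) '' R₀)).comp inl :
    B →* Quo (Monoid.Coprod.map φ (MonoidHom.id (FreeGroup I)) '' R₀)) ∧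
  Function.Injective (Quo.lift R₀
    ((Quo.mk (Monoid.Coprod.map φ (MonoidHom.id (FreeGroup I)) '' R₀)).comp
      (Monoid.Coprod.map φ (MonoidHom.id (FreeGroup I))))
    (fun r hr => Quo.mk_rel ⟨r, hr, rfl⟩))

/-- (G2) `HN.map` is injective.
Proof: `Q := Quo` of the image of `HNrel x y` in `B' * F(I)`; by G1 and `T_PUSH` `B'` and `HN x y`
embed in `Q`. Let `HN'` be the HNN family over `Q` with the pairs `x', y'` (infinite order); `Q` embeds
in it. `HN x' y' → HN'`: `B' → Q`, `t (j i) ↦` the letter `i` in `Q` (`j` injective), the other letters to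
the stable letters of `HN'`. The composition with `HN.map` is the inclusion `HN x y → Q → HN'`. -/
def T_HNS : Prop := ∀ (B B' I I' : Type) [Group B] [Group B'] (x y : I → B) (x' y' : I' → B')
  (φ : B →* B') (j : I → I') (hx : ∀ i, φ (x i) = x' (j i)) (hy : ∀ i, φ (y i) = y' (j i)),
  Function.Injective φ → Function.Injective j → (∀ i, IOrd (x' i) ∧ IOrd (y' i)) →
  Function.Injective (HN.map x y x' y' φ j hx hy)

/-- (G3) f.g. subgroups. Proof: every element lies in the range of such a map (generators, closure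
under products by enlarging `B₀, I₀`), for f.g. `P` take a common one; add `F, J` and the `x i, y i`,
`i ∈ I₀`. Injectivity: `T_HNS`; then `g` is the inverse on the range. -/
def T_HNL : Prop := ∀ (B I : Type) [Group B] (x y : I → B), (∀ i, IOrd (x i) ∧ IOrd (y i)) →
  ∀ P : Subgroup (HN x y), P.FG → ∀ (F : Set B) (J : Set I), F.Finite → J.Finite →
  ∃ (B₀ : Subgroup B) (I₀ : Set I) (hx : ∀ i ∈ I₀, x i ∈ B₀) (hy : ∀ i ∈ I₀, y i ∈ B₀),
    B₀.FG ∧ F ⊆ B₀ ∧ J ⊆ I₀ ∧ I₀.Finite ∧
    Function.Injective (HN.map (rs x B₀ I₀ hx) (rs y B₀ I₀ hy) x y B₀.subtype Subtype.val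
      (fun _ => rfl) (fun _ => rfl)) ∧
    ∃ g : P →* HN (rs x B₀ I₀ hx) (rs y B₀ I₀ hy), Function.Injective g ∧
      ∀ p : P, HN.map (rs x B₀ I₀ hx) (rs y B₀ I₀ hy) x y B₀.subtype Subtype.val
        (fun _ => rfl) (fun _ => rfl) (g p) = (p : HN x y)

/-- (G4) `Hat` of an HNN family embeds in an HNN family over `Hat * F`.
Proof: `b_i := χ(t_i)`, `a_i := χ(y_i) = χ(x_i)`. Define `Θ` by `Hat.lift` with the homomorphism
`HN x y → Wr` (`HN.lift`) `b ↦ (h ↦ of (inl (hat b h)), χ b)`, `t_i ↦ (h ↦ s_i(h), χ t_i)`, where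
for unseen `i` (`a_i = 1`) `s_i(h) :=` stable letter `(i,h)`, and for seen `i`, `h = r * a_i^j` with `r` in
`0 ≤ toAdd r < |toAdd a_i|` (Euclidean division), `s_i(h) := (hat (y_i^j) r)⁻¹ * inr (i,r) *
hat (x_i^j) (r * b_i)`. The relation is `s_i(h) * hat (x_i) (h * b_i) = hat (y_i) h * s_i (h * a_i)`.
Left inverse `HN → Hat χ`: `inl z ↦ Hat.map z`, `inr (i,r) ↦ hat (t_i) r`, stable letter
`(i,h) ↦ hat (t_i) h`; check on generators (`Hat.hom_ext_of` with the generating set `HN.closure`); for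
seen `i` this is `t_i x_i^j = y_i^j t_i`. -/
def T_HNH : Prop := ∀ (B I : Type) [Group B] (x y : I → B) (χ : HN x y →* Zm),
  ∃ Θ : Hat χ →* HN (hnx x y χ) (hny x y χ), Function.Injective Θ ∧
    ∀ b h, Θ (hat χ (HN.of x y b) h) =
      HN.of (hnx x y χ) (hny x y χ) (inl (hat (hnc x y χ) b h))

/-- The homomorphism from a finite part of the HNN family of G4 to `Hat` of the target.
Proof: `HN.lift` with `lift (Hat.map ..) 1` on the base group (restricted to `B₀`) and
`t_(i,h) ↦ hat (F t_i) h`; the relation is `hat_mul` for `F t_i F x_i = F y_i F t_i` where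
`χ (F y_i) = 1`. -/
def T_HND : Prop := ∀ (B I D : Type) [Group B] [Group D] (x y : I → B) (F : HN x y →* D)
  (χ : D →* Zm), ∃ F' : HN (hnx x y (χ.comp F)) (hny x y (χ.comp F)) →* Hat χ,
    (∀ b h, F' (HN.of _ _ (inl (hat _ b h))) = hat χ (F (HN.of x y b)) h)

/-- Lemma R. Proof: induction on `Vis D Y`, for all other data. All `x i, y i` have infinite order
(V3 for `F (of (y i))`, which is conjugate to `F (of (x i))`).
nil: `I` is empty, `HN x y` embeds in `B` (`HN.lift` is a left inverse of `HN.of`, which is surjective);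
C1. loc: `InC.loc`; `P` f.g.; `T_HNL` with `J = univ`: `P` embeds in `HN` over `B₀`, `I₀`;
`D₀ :=` range of the restriction of `F` joined with `closure Y`, f.g. (`HN` over f.g. `B₀` and finite
`I₀` is f.g.); induction hypothesis, C1.
ext: `InC.ext` with `χ.comp F`; by G4 and C1 it is enough that `HN (hnx ..) (hny ..)` is in `C_k`;
`InC.loc`, `T_HNL` (infinite orders: `hat z h` has infinite order if `z` has and it is unseen,
also for `x`: `χ x_i = χ y_i`): `P` embeds in `HN` over `B₁ ≤ HNB` f.g. and `I₁` finite;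
`B₁` is in `C_k` (C3, C4, C1); `F'` of `T_HND` restricted; its values on the `y`'s are
`hat (F y_i) h`, unseen; induction hypothesis for the finite set of these. -/
def T_LR : Prop := ∀ (D : Type) [Group D] (Y : Set D), Vis D Y → ∀ (k : ℕ) (B I : Type) [Group B]
  [Finite I] (x y : I → B) (F : HN x y →* D), InC k B → (∀ i, F (HN.of x y (y i)) ∈ Y) →
  InC k (HN x y)

/-- Lemma R'. Proof: induction on `Vis D Y`, for all other data, as for Lemma R. nil: `I` empty,
`HN x y → B`, V1. loc: `Vis.loc`; `T_HNL` with `F = Z`, `J = univ`; `Vis B₀ _` by V1; induction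
hypothesis; V1 along `g`. ext: `Vis.ext` with `χ.comp F`: for `Z'` a finite set of `hat (of z) h`,
`z ∈ Z` unseen: V1 along `Θ` of G4; `Vis.loc`, `T_HNL` (with `F = ` the elements `inl (hat z h)`);
`B₁ → Hat → B` (`Hat.fst`, and `F(I × Zm) ↦ 1`) maps `inl (hat z h)` to `z`, so the set is visible in
`B₁` by V1; induction hypothesis with `T_HND`. -/
def T_LRV : Prop := ∀ (D : Type) [Group D] (Y : Set D), Vis D Y → ∀ (B I : Type) [Group B]
  [Finite I] (x y : I → B) (F : HN x y →* D) (Z : Set B), Vis B Z →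
  (∀ i, F (HN.of x y (y i)) ∈ Y) → Vis (HN x y) (HN.of x y '' Z)

/-! ## Theorem V -/

/-- The algebra in Lemma S: `Ψ : G_R → E` and the homomorphism from `Hat Ψ` to `Gamma3`.
Proof: `Ψ := HN.lift`: `k ↦ c^{χ(k)}`, identity on `E`, `1` on `R`, `t_i ↦ (e p)⁻¹`, `p = χ(i)`, if
`p ≠ 0`, `t_i ↦ 1` if `p = 0`. `ζ`: choose representatives of the left cosets of `⟨c⟩` (`c` has infinite
order). `Θ := Hat.lift` with the homomorphism `G_R → Wr (G3 ..) E` (`HN.lift`):
`k ↦ (m ↦ hat k (ζ m), Ψ k)`, `g ↦ (m ↦ 1, g)` for `g ∈ E`, `r ↦ (m ↦ r in the copy m, 1)`,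
`t_n ↦ (m ↦ t_(n,m), 1)` for unseen `n`,
`t_s ↦ (m ↦ hat (s^{ζ m}) (ζ (m c^{-ζ m} (e p)⁻¹)), (e p)⁻¹)` for seen `s`, `p = χ(s)`.
Relation for seen `s`: see the blueprint, Lemma S; uses `c^j (e p)⁻¹ = (e p)⁻¹ c^{p j}`. -/
def T_LSH : Prop := ∀ (E : Type) [Group E] (e : EGrp E) (K R : Type) [Group K] [Group R]
  (χ : K →* Zm) (cR : R) (Y : Set K), ∃ (Ψ : GS e χ cR Y →* E) (ζ : E → ℤ),
  (∀ (m : E) (j : ℤ), ζ (m * e.c ^ j) = ζ m + j) ∧
  (∀ g : E, Ψ (HN.of _ _ (inl (inr g))) = g) ∧ (∀ r : R, Ψ (HN.of _ _ (inr r)) = 1) ∧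
  ∃ Θ : Hat Ψ →* G3 χ cR Y ζ, ∀ (r : R) (m : E), Θ (hat Ψ (HN.of _ _ (inr r)) m) =
    HN.of _ _ (inr (Monoid.CoprodI.of (M := fun _ : E => R) (i := m) r))

/-- Visibility in `Gamma3`.
Proof: `Vis.loc` and `T_HNL` (the second elements have infinite order because `ρ cR = c` has; the
first ones because `n` has infinite order and is unseen): it is enough to see the marks in `HN` over
`B₁ ≤ Hat χ * (*_E R)` f.g. and a finite set `I₁` of pairs `(n,m)`. `T_LRV` with
`D := GY e (Hat χ) Y'`, `Y'` the finite set of the `hat n (ζ m)`, `(n,m) ∈ I₁`, visible `{c}` by `VIH`;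
`F` := identity on `Hat χ`, `ρ` on all copies of `R`, `t_(n,m) ↦ t_{hat n (ζ m)}`; and the marks are
visible in `B₁` by V1 along `B₁ → R` (`Hat χ ↦ 1`, identity on the copies). -/
def T_LS3 : Prop := ∀ (E : Type) [Group E] (e : EGrp E) (K R : Type) [Group K] [Group R]
  (χ : K →* Zm) (cR : R) (Y : Set K) (ζ : E → ℤ) (ρ : R →* E) (ZR : Set R), Y.Finite →
  (∀ y ∈ Y, IOrd y) → VIH e χ Y → ρ cR = e.c → Vis R ZR →
  ∀ Z : Set (G3 χ cR Y ζ), Z.Finite → (∀ z ∈ Z, ∃ r ∈ ZR, ∃ m : E, z =
    HN.of _ _ (inr (Monoid.CoprodI.of (M := fun _ : E => R) (i := m) r))) → Vis (G3 χ cR Y ζ) Z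

/-- Lemma S. Proof: `T_LSH`; `Zed E` for `Ψ`: `c_E` is seen, so a finite set `Y'` of unseen marks consists
of `hat r m`, `r ∈ ZR`; V1 along `Θ` and `T_LS3`. -/
def T_LS : Prop := ∀ (E : Type) [Group E] (e : EGrp E) (K R : Type) [Group K] [Group R]
  (χ : K →* Zm) (cR : R) (Y : Set K) (ρ : R →* E) (ZR : Set R), Y.Finite →
  (∀ y ∈ Y, IOrd y) → VIH e χ Y → ρ cR = e.c → Vis R ZR →
  Vis (GS e χ cR Y) (HN.of _ _ '' (({inl (inr e.c)} : Set (Cop (Cop K E) R)) ∪ inr '' ZR))

/-- The windows. Proof: induction on `n`, for all `a`. `n = 0`: nil. Step: `T_LS` with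
`R := WN e χ Y {p | a+1 ≤ p.2 < a+1+n}`, `cR := WNc (a+1)`, `ρ`: level `a+1` to `E` by
`(c^{χ(.)}, id)`, the other levels to `1`, `t_(s,a+1) ↦ (e χ(s))⁻¹` for seen `s`, the other letters to
`1`; `ZR :=` the `WNc h`, `a+1 ≤ h < a+1+n`. Homomorphism `WN e χ Y {p | a ≤ p.2 < a+(n+1)} → GS`:
level `a` to `K * E`, level `h ≠ a` to `R` (level `h`), `t_(y,a) ↦ t_y`, `t_(y,h) ↦ t_(y,h)` in `R` for
`h > a`. V1. See the blueprint, Unrolling. -/
def T_VW : Prop := ∀ (E : Type) [Group E] (e : EGrp E) (K : Type) [Group K] (χ : K →* Zm)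
  (Y : Set K), Y.Finite → (∀ y ∈ Y, IOrd y) → VIH e χ Y → ∀ (n : ℕ) (a : ℤ),
  Vis (WN e χ Y {p | a ≤ p.2 ∧ p.2 < a + n}) (WNc e χ Y _ '' Set.Ico a (a + n))

/-- All levels. Proof: `Vis.loc`, `T_HNL`: `P` f.g. embeds in `HN` over `B₀` and a finite `I₀`, which maps
to `WN` with `J = {p | a ≤ p.2 < a+n}` for suitable `a, n` (`HN.map`; `I₀ ⊆ J`, and the levels of the
marks in `Set.Ico a (a+n)`); V1 and `T_VW`. -/
def T_VWA : Prop := ∀ (E : Type) [Group E] (e : EGrp E) (K : Type) [Group K] (χ : K →* Zm)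
  (Y : Set K), Y.Finite → (∀ y ∈ Y, IOrd y) → VIH e χ Y → ∀ T : Set ℤ, T.Finite →
  Vis (WN e χ Y Set.univ) (WNc e χ Y _ '' T)

/-- The unrolling: `φ : GY → Zm` and `Hat φ → WN`.
Proof: `φ := HN.lift`: `1` on `K * E`, `t_y ↦ 1` for seen `y`, `t_y ↦ ofAdd (-1)` for unseen `y`.
`Θ := Hat.lift` with `GY → Wr (WN ..) Zm`: `g ↦ (h ↦ g at the level h, 1)`, `t_s ↦ (h ↦ t_(s,h), 1)`
for seen `s`, `t_n ↦ (h ↦ t_(n,h-1), ofAdd (-1))` for unseen `n`; the relation for `n` is
`t_(n,h-1) n^(h-1) = c^(h) t_(n,h-1)`. -/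
def T_VUN : Prop := ∀ (E : Type) [Group E] (e : EGrp E) (K : Type) [Group K] (χ : K →* Zm)
  (Y : Set K), ∃ φ : GY e K Y →* Zm, φ (GYc e K Y) = 1 ∧ ∃ Θ : Hat φ →* WN e χ Y Set.univ,
    ∀ h : ℤ, Θ (hat φ (GYc e K Y) (Multiplicative.ofAdd h)) = WNc e χ Y Set.univ h

/-- Theorem V. Proof: induction on `Vis K Y`. nil: `GY → E` (kill `K`), V1, `T_VE0`.
loc: `Vis.loc`; by `T_HNL` (infinite orders by V3) a f.g. `P ≤ GY e K Y` containing `c` embeds in
`HN` over a f.g. `B₀ ≤ K * E` and `I₀`; `B₀ ≤ K₀ * E` with `K₀` f.g. containing `Y` (`T_CFG`), so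
`P → GY e K₀ Y` (a homomorphism from `HN` over `B₀`, using that `K₀ * E → K * E` is injective, `T_CMI`);
V1 and the induction hypothesis. ext: `VIH` is the induction hypothesis; `Vis.ext` with `φ` of
`T_VUN`; V1 along `Θ`, `T_VWA`. (Infinite orders by V3.) -/
def T_V : Prop := ∀ (E : Type) [Group E] (e : EGrp E) (K : Type) [Group K] (Y : Set K),
  Vis K Y → Vis (GY e K Y) {GYc e K Y}

/-- Corollary H. Proof: blueprint. `Y := {x_i} ∪ {y_i}`, visible by V5; `F : HN x y → GY e B Y`,
`t_i ↦ (t_{y_i})⁻¹ t_{x_i}`; `F y_i = (t_{y_i})⁻¹ c t_{y_i}`, visible by Theorem V, V2; Lemma R. -/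
def T_CH : Prop := ∀ (B I : Type) [Group B] [Finite I] (x y : I → B), InC 1 B →
  (∀ i, x i ≠ 1 ∧ y i ≠ 1) → InC 1 (HN x y)

/-- Corollary T (with the relation `a b = 1`). Proof: `Γ := HN` over `A * B` with one letter `f`,
`x := inl a`, `y := inr b⁻¹`; in `C_1` by C3, Corollary H; `A * B` embeds in `Γ` by G1 (infinite orders by
V5, V3). `Quo → Γ`: `a' ↦ f a' f⁻¹`, `b' ↦ b'`. It is injective: `Γ → Quo * Zm`,
`a' ↦ z⁻¹ a' z`, `b' ↦ b'`, `f ↦ z` (`z = inr (ofAdd 1)`), composed it is `inl`. -/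
def T_CT : Prop := ∀ (A B : Type) [Group A] [Group B] (a : A) (b : B), InC 1 A → InC 1 B →
  a ≠ 1 → b ≠ 1 →
  Function.Injective ((Quo.mk _).comp inl : A →* Quo ({inl a * inr b} : Set (Cop A B))) ∧
  Function.Injective ((Quo.mk _).comp inr : B →* Quo ({inl a * inr b} : Set (Cop A B))) ∧
  InC 1 (Quo ({inl a * inr b} : Set (Cop A B)))

end

end ORG
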