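import Pool.Agent.ORG.Defs2
import Pool.Agent.ORG.Targets1

/-!
# ORG: targets, part 2 (lists, windows, relators)

Full context: `Blueprint.md`, sections 5 to 10.
-/

set_option autoImplicit false

open Monoid.Coprod

namespace ORG

noncomputable section

/-! ## Normal forms -/

/-- (NF1) a nonempty reduced list has a nontrivial word.
Proof: homomorphism `PP D Zm → CoprodI` over the index set `Option (ℤ × Bool)` with factors `D` (index
`none`) and `Zm` (others): `d ↦ d`, the letter `h` goes to `a_h b_h`, `a_h`, `b_h` generators of the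
factors `(h,true)`, `(h,false)`. The image of `inl d * wm r` is the product of the list: `d` (if
`≠ 1`), then for each `(h,true,d)`: `a_h, b_h, d`, for each `(h,false,d)`: `b_h⁻¹, a_h⁻¹, d`, with `d`
omitted if `d = 1`. Neighbours are in different factors because `r` is reduced, so this is
a nonempty `Monoid.CoprodI.Word` (or `NeWord`), its product is not `1`. -/
def T_NF1 : Prop := ∀ (D : Type) [Group D] (d : D) (r : List (ℤ × Bool × D)), RM r → r ≠ [] →
  (inl d : PP D Zm) * wm r ≠ 1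

/-- (NF2) uniqueness. Proof: induction on `r.length + r'.length`. If one of the lists is empty use
NF1. Otherwise let the last entries be `(h,e,d₁)`, `(h',e',d₁')`. The word of
`d`, `r` without last coefficient, times `d₁ d₁'⁻¹`, times the inverse of the word of `d'`, `r'` without its
last coefficient is trivial; if it is reduced at the junction we contradict NF1 (the inverse of
a reduced word is reduced: letters reversed with opposite signs, coefficients inverted). Hence
`h = h'`, `e = e'`, `d₁ = d₁'`, cancel and use the induction hypothesis. -/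
def T_NF2 : Prop := ∀ (D : Type) [Group D] (d d' : D) (r r' : List (ℤ × Bool × D)), RM r → RM r' →
  (inl d : PP D Zm) * wm r = inl d' * wm r' → d = d' ∧ r = r'

/-- Normal forms with one letter. Proof: map `Cop G Zm → PP G Zm`, `ν ↦` the letter of level `0`;
NF2 (NF1) for the lists with all levels `0`. -/
def T_NFS : Prop := ∀ (G : Type) [Group G] (g g' : G) (r r' : List (Bool × G)),
  r.IsChain (fun p q => p.1 ≠ q.1 → p.2 ≠ 1) → r'.IsChain (fun p q => p.1 ≠ q.1 → p.2 ≠ 1) →
  (inl g : Cop G Zm) * wd inl (inr (Multiplicative.ofAdd 1)) r =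
    inl g' * wd inl (inr (Multiplicative.ofAdd 1)) r' → g = g' ∧ r = r'

/-! ## Rotations and repetitions -/

/-- rotation of cyclic chains and of primitive lists.
Proof: a chain on `(l ++ l') ++ (l ++ l')` gives one on `(l ++ l') ++ (l ++ l') ++ (l ++ l')` (if the list is
not empty), which contains `(l' ++ l) ++ (l' ++ l)`. If `l' ++ l` is the `q`-fold repetition of `s` then
`l ++ l'` is the `q`-fold repetition of a rotation of `s`. -/
def T_ROT : Prop := ∀ (α : Type) (R : α → α → Prop) (l l' : List α),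
  (((l ++ l') ++ (l ++ l')).IsChain R → ((l' ++ l) ++ (l' ++ l)).IsChain R) ∧
  (Pr (l ++ l') → Pr (l' ++ l))

/-- every nonempty list is a repetition of a primitive one (take `q` maximal). -/
def T_ROOT : Prop := ∀ (α : Type) (r : List α), r ≠ [] →
  ∃ (q : ℕ) (s : List α), 1 ≤ q ∧ Pr s ∧ r = (List.replicate q s).flatten

/-- Transfer between lists.
Proof: `a` induces a homomorphism `Gam k r → Gam k r'` with inverse induced by `b`, compatible
with `G` (conjugate relators have the same normal closure). -/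
def T_TRF : Prop := ∀ (k : ℕ) (G : Type) [Group G] (r r' : List (Bool × G))
  (a b : Cop G Zm →* Cop G Zm) (v : Cop G Zm), a.comp inl = inl → b.comp inl = inl →
  a.comp b = MonoidHom.id _ → b.comp a = MonoidHom.id _ →
  a (wd inl (inr (Multiplicative.ofAdd 1)) r) =
    v * wd inl (inr (Multiplicative.ofAdd 1)) r' * v⁻¹ →
  ∃ Θ : Gam k r →* Gam k r', Function.Injective Θ ∧ ∀ g, Θ (Gam.of k r g) = Gam.of k r' g

/-! ## Windows -/

/-- Small windows have no relators.
Proof: no `y` satisfies `a ≤ y` and `y + w ≤ b`, so `WR` consists of the elements of the levels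
outside `[a,b]`. `Quo.lift` of `kap` is injective (if `kap x = 1` then `mk x = mk (kap x) = 1`, since `mk`
kills the other levels), so `Wab` embeds in `PP D L`, which is in `C_k` (C3, C3I). For `x` in the segment
`kap x = x`. -/
def T_WN1 : Prop := ∀ (k : ℕ) (D L : Type) [Group D] [Group L] (w : ℤ) (ρ : ℤ → PP D L) (a b : ℤ),
  b - a < w → (InC k D → InC k L → InC k (Wab k w ρ a b)) ∧
  ∀ x ∈ seg D L a b, Quo.mk (WR k w ρ a b) x = 1 → x = 1

/-- Maps between windows. Proof: every element is `mk` of `kap x`, which lies in the segment. For the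
second part: `mk' ∘ kap D L a b` kills `WR k w ρ a b` (`kap` fixes `ρ y` for `[y,y+w] ⊆ [a,b]` and
kills the levels outside `[a,b]`) and agrees with `mk'` on the segment. -/
def T_WNW : Prop := ∀ (k : ℕ) (D L : Type) [Group D] [Group L] (w : ℤ) (ρ : ℤ → PP D L),
  (∀ y, ρ y ∈ seg D L y (y + w)) → (∀ (a b : ℤ) (z : Wab k w ρ a b), ∃ x ∈ seg D L a b,
    Quo.mk _ x = z) ∧
  ∀ a b a' b' : ℤ, a' ≤ a → b ≤ b' → ∀ x ∈ seg D L a b, Quo.mk (WR k w ρ a b) x = 1 →
    Quo.mk (WR k w ρ a' b') x = 1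

/-- Adding the level `b` at the top.
Proof: `AddOk` with `G := Wab k w ρ a (b-1)`, `G' := Wab 1 w ρ' a (b-1)` (`ρ' y := PPmap δ l (ρ y)`),
`f, f'` the projections, `θ` induced by `PPmap`. Let `Q := Quo {newl f b (ρ (b-w)) ^ k}`.
`α : Wab a b → Q` induced by `newl f b`: kills the levels outside `[a,b]` and `ρ y ^ k`: for
`y + w ≤ b - 1` the level `b` does not occur, `newl f b (ρ y) = inl (f (ρ y))`. `β : Q → Wab a b`: `G → Wab a b`
by `T_WNW` (`Quo.lift` of `mk ∘ kap D L a (b-1)`), `L ↦` the level `b`. `β ∘ α = id`, so `α` is injective,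
and `Wab a b` is in `C_k` by C1. For `x` in the segment `[a,b-1]`: `α (mk x) = mk (inl (f x))`, and
`G → Q` is injective. -/
def T_WN2 : Prop := ∀ (k : ℕ) (D L D' L' : Type) [Group D] [Group L] [Group D'] [Group L']
  (δ : D →* D') (l : L →* L') (w : ℤ) (ρ : ℤ → PP D L) (a b : ℤ), 1 ≤ w →
  (∀ y, ρ y ∈ seg D L y (y + w)) → a + w ≤ b →
  AddOk k δ l (ρ (b - w)) (seg D' L' (b - w) (b - 1)) b → InC k (Wab k w ρ a (b - 1)) →
  InC 1 (Wab 1 w (fun y => PPmap δ l (ρ y)) a (b - 1)) →
  (∀ x ∈ seg D' L' (b - w) (b - 1),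
    Quo.mk (WR 1 w (fun y => PPmap δ l (ρ y)) a (b - 1)) x = 1 → x = 1) →
  InC k (Wab k w ρ a b) ∧ WInj k w ρ a (b - 1) a b

/-- Adding the level `a` at the bottom. Proof as for `T_WN2`, with the relator `ρ a`. -/
def T_WN3 : Prop := ∀ (k : ℕ) (D L D' L' : Type) [Group D] [Group L] [Group D'] [Group L']
  (δ : D →* D') (l : L →* L') (w : ℤ) (ρ : ℤ → PP D L) (a b : ℤ), 1 ≤ w →
  (∀ y, ρ y ∈ seg D L y (y + w)) → a + w ≤ b →
  AddOk k δ l (ρ a) (seg D' L' (a + 1) (a + w)) a → InC k (Wab k w ρ (a + 1) b) →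
  InC 1 (Wab 1 w (fun y => PPmap δ l (ρ y)) (a + 1) b) →
  (∀ x ∈ seg D' L' (a + 1) (a + w),
    Quo.mk (WR 1 w (fun y => PPmap δ l (ρ y)) (a + 1) b) x = 1 → x = 1) →
  InC k (Wab k w ρ a b) ∧ WInj k w ρ (a + 1) b a b

/-- The union of the windows.
Proof: let `x` in the segment `[a,b]` be trivial in `Winf`: it lies in the normal closure of finitely
many `ρ y ^ k`, all with `[y,y+w] ⊆ [a',b']`, where also `[a,b] ⊆ [a',b']`; `Quo.mk (WR .. a' b') ∘
kap D L a' b'` kills these `ρ y ^ k` and fixes `x`, so `mk x = 1` in `Wab a' b'`; then `WInj`.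
`InC.loc`: a f.g. `P ≤ Winf` lies in the range of `Wab a b → Winf` for some `a, b` (every element of
`PP D L` lies in a segment); this map is injective; C1. -/
def T_WN4 : Prop := ∀ (k : ℕ) (D L : Type) [Group D] [Group L] (w : ℤ) (ρ : ℤ → PP D L),
  (∀ y, ρ y ∈ seg D L y (y + w)) → (∀ a b, InC k (Wab k w ρ a b)) →
  (∀ a b a' b' : ℤ, a' ≤ a → b ≤ b' → WInj k w ρ a b a' b') →
  InC k (Winf k ρ) ∧ ∀ a b : ℤ, ∀ x ∈ seg D L a b,
    Quo.mk (Set.range fun y : ℤ => ρ y ^ k) x = 1 → Quo.mk (WR k w ρ a b) x = 1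

/-- Window lemma. Proof: blueprint, section 6. By strong induction on `b - a` for both families
(`k`, `ρ`) and (`1`, `ρ'`) simultaneously: `Wab a b` is in `C_k` (resp. `C_1`) and (if `b - a ≥ w`)
`WInj a (b-1) a b`, `WInj (a+1) b a b`; composing, `WInj` for all pairs of windows (for `b - a < w` from
`T_WN1`: elements of a segment which are trivial in a small window are `1`). `T_WN1` for
`b - a < w`, `T_WN2`, `T_WN3` for `b - a ≥ w`. Then `T_WN4`, `T_WN1`. -/
def T_WIN : Prop := ∀ (k : ℕ), 1 ≤ k → ∀ (D L D' L' : Type) [Group D] [Group L] [Group D']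
  [Group L'] (δ : D →* D') (l : L →* L') (w : ℤ) (ρ : ℤ → PP D L), 1 ≤ w →
  (∀ y, ρ y ∈ seg D L y (y + w)) → InC k D → InC k L → InC 1 D' → InC 1 L' →
  (∀ y, AddOk k δ l (ρ y) (seg D' L' y (y + w - 1)) (y + w)) →
  (∀ y, AddOk k δ l (ρ y) (seg D' L' (y + 1) (y + w)) y) →
  (∀ y, AddOk 1 (MonoidHom.id D') (MonoidHom.id L') (PPmap δ l (ρ y))
    (seg D' L' y (y + w - 1)) (y + w)) →
  (∀ y, AddOk 1 (MonoidHom.id D') (MonoidHom.id L') (PPmap δ l (ρ y))
    (seg D' L' (y + 1) (y + w)) y) →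
  InC k (Winf k ρ) ∧ ∀ a : ℤ, ∀ x ∈ seg D L a (a + w - 1),
    Quo.mk (Set.range fun y : ℤ => ρ y ^ k) x = 1 → x = 1

/-! ## Leveled lists -/

/-- `AddOk` only depends on the relator up to conjugation by elements of the segment and level.
Proof: `newl f t (v ρ v⁻¹) = newl f t v * newl f t ρ * (newl f t v)⁻¹`, and the normal closures of `x ^ k`
and of its conjugate agree. -/
def T_AOC : Prop := ∀ (k : ℕ) (D L D' L' : Type) [Group D] [Group L] [Group D'] [Group L']
  (δ : D →* D') (l : L →* L') (ρ v : PP D L) (S : Subgroup (PP D' L')) (t : ℤ),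
  AddOk k δ l ρ S t → AddOk k δ l (v * ρ * v⁻¹) S t

/-- Blocks. Proof: (1) induction; (2) induction on `bl`; (3) `newl f t` agrees with `inl ∘ f` on
`inl d * wm tail` because the level `t` does not occur in the tail, and sends the letter `t` to
`inr (ofAdd 1)`; (4) induction; (5) sums of lengths. -/
def T_BL : Prop := ∀ (D : Type) [Group D] (t : ℤ),
  (∀ (r : List (ℤ × Bool × D)) (p : ℤ × Bool × D), p.1 = t → ∃ bl,
    p :: r = ub t bl ∧ ∀ b ∈ bl, ∀ q ∈ b.2.2, q ∈ r ∧ q.1 ≠ t) ∧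
  (∀ bl : List (Bool × D × List (ℤ × Bool × D)),
    wm (ub t bl) = wd (MonoidHom.id (PP D Zm)) (lev D t (Multiplicative.ofAdd 1)) (tb bl)) ∧
  (∀ (G : Type) [Group G] (f : PP D Zm →* G) (bl : List (Bool × D × List (ℤ × Bool × D))),
    (∀ b ∈ bl, ∀ q ∈ b.2.2, q.1 ≠ t) → newl f t (wm (ub t bl)) =
      wd inl (inr (Multiplicative.ofAdd 1)) (mp f (tb bl))) ∧
  (∀ (D' : Type) [Group D'] (δ : D →* D') (bl : List (Bool × D × List (ℤ × Bool × D))),
    mpm δ (ub t bl) = ub t (bl.map (Prod.map id (Prod.map δ (mpm δ)))) ∧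
    mp (PPmap δ (MonoidHom.id Zm)) (tb bl) = tb (bl.map (Prod.map id (Prod.map δ (mpm δ))))) ∧
  (∀ bl : List (Bool × D × List (ℤ × Bool × D)), (∃ q ∈ ub t bl, q.1 ≠ t) →
    (tb bl).length < (ub t bl).length)

/-- The list in the top letter is cyclically reduced and primitive.
Proof: `CR`: for cyclically consecutive blocks `(e,d,tail)`, `(e',..)` with `e ≠ e'`: if `tail = []` then
the letters are adjacent, `CRM` gives `d ≠ 1`. If `tail ≠ []` then `inl d * wm tail ≠ 1` by NF1 (tails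
are reduced). `Pr`: if `tb bl` is the repetition `q` times of some list then so is `bl`: the entries
`(e, inl d * wm tail)` determine `(e, d, tail)` by NF2; hence `ub t bl` is a repetition. -/
def T_BC : Prop := ∀ (D : Type) [Group D] (t : ℤ) (bl : List (Bool × D × List (ℤ × Bool × D))),
  CRM (ub t bl) → (∀ b ∈ bl, ∀ q ∈ b.2.2, q.1 ≠ t) →
  CR (tb bl) ∧ (Pr (ub t bl) → Pr (tb bl))

/-- `CR` and `Pr` under maps injective on a subgroup containing the coefficients.
Proof: `1 ∈ S`, so `f g = 1` iff `g = 1` for `g ∈ S`; if `mp f r` is a repetition of `s'` then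
all entries of `r` at corresponding places agree. -/
def T_CRI : Prop := ∀ (G G' : Type) [Group G] [Group G'] (f : G →* G') (S : Subgroup G)
  (r : List (Bool × G)), Set.InjOn f S → (∀ p ∈ r, p.2 ∈ S) →
  (CR r → CR (mp f r)) ∧ (Pr r → Pr (mp f r))

/-- Leveled lists may be used to adjoin a level.
Proof: rotate `r` so that it starts with a letter of level `t` (`T_ROT`, `T_AOC`; `wm (l ++ l')` and
`wm (l' ++ l)` are conjugate), write it as `ub t bl` (`T_BL`). Given `G, G', θ, f, f'`: the relator is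
`newl f t (wm (ub t bl)) = wd inl ν (mp f (tb bl))` so the quotient is `Gam k (mp f (tb bl))`, of length
`< m`, and `mp θ (mp f (tb bl)) = mp f' (mp (PPmap δ id) (tb bl)) = mp f' (tb bl')`, `bl'` the image of
`bl`; it is `CR` and `Pr` by `T_BC` (for `mpm δ r`) and `T_CRI` (the coefficients of `tb bl'` lie in
`seg D' Zm a b`). Apply `EEm` for this length. -/
def T_ML : Prop := ∀ m : ℕ, (∀ m' < m, EEm m') → ∀ k : ℕ, 1 ≤ k → ∀ (D D' : Type) [Group D]
  [Group D'] (δ : D →* D') (r : List (ℤ × Bool × D)), r.length ≤ m → CRM (mpm δ r) →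
  Pr (mpm δ r) → ∀ t a b : ℤ, ¬ (a ≤ t ∧ t ≤ b) → (∀ p ∈ r, p.1 = t ∨ (a ≤ p.1 ∧ p.1 ≤ b)) →
  (∃ p ∈ r, p.1 = t) → (∃ p ∈ r, p.1 ≠ t) →
  AddOk k δ (MonoidHom.id Zm) (wm r) (seg D' Zm a b) t

/-- Properties of leveled lists. `T` is the total height change.
Proof: (1),(2),(3) induction on `r`. (4): `lml y r ++ lml y r = lml y (r ++ r)` by (1) as the total is `0`;
adjacent entries with the same level and different signs come from adjacent entries with
different signs, whose coefficient is not `1`, so `ι (hat g h) ≠ 1` (`hat_eq_one`, injectivity). (5): an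
equality of entries of the leveled list implies equality of the entries of `r` (`hat_inj`). -/
def T_LM : Prop := ∀ (B D : Type) [Group B] [Group D] (χ : B →* Zm) (ι : Hat χ →* D) (t : ℤ),
  (∀ (r r' : List (Bool × B)) (y : ℤ), lml χ ι t y (r ++ r') = lml χ ι t y r ++
    lml χ ι t (y + t * sg r + (r.map fun p => Multiplicative.toAdd (χ p.2)).sum) r') ∧
  (∀ (r : List (Bool × B)) (y z : ℤ), (lml χ ι t (y + z) r).map Prod.fst =
    (lml χ ι t y r).map fun p => p.1 + z) ∧
  (∀ (r : List (Bool × B)) (y : ℤ), (lml χ ι t y r).length = r.length) ∧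
  (Function.Injective ι → ∀ (r : List (Bool × B)) (y : ℤ),
    t * sg r + (r.map fun p => Multiplicative.toAdd (χ p.2)).sum = 0 → CR r →
    CRM (lml χ ι t y r)) ∧
  (Function.Injective ι → ∀ (r : List (Bool × B)) (y : ℤ), Pr r → Pr (lml χ ι t y r))

/-- Functoriality of leveled lists (induction on `r`). -/
def T_LMF : Prop := ∀ (B B' D D' : Type) [Group B] [Group B'] [Group D] [Group D'] (π : B →* B')
  (χ : B →* Zm) (χ' : B' →* Zm) (hχ : ∀ b, χ' (π b) = χ b) (δ : D →* D') (ι : Hat χ →* D)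
  (ι' : Hat χ' →* D'), (∀ z, δ (ι z) = ι' (Hat.map χ χ' π hχ z)) →
  ∀ (t y : ℤ) (r : List (Bool × B)), mpm δ (lml χ ι t y r) = lml χ' ι' t y (mp π r)

/-- Active lists have two levels.
Proof: let all levels agree. If `t ≠ 0`: `r = (b,g) :: (b,g') :: r'`, `χ (g) = 1`: the levels of
the first two letters differ by `± t`. So `t = 0`, and then the level changes by `toAdd (χ g)` at each
entry, cyclically (the total is `0`), so all `χ(g)` are trivial (the last one because the total is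
`0`), contradiction. -/
def T_LA : Prop := ∀ (B D : Type) [Group B] [Group D] (χ : B →* Zm) (ι : Hat χ →* D) (t : ℤ)
  (r : List (Bool × B)), t * sg r + (r.map fun p => Multiplicative.toAdd (χ p.2)).sum = 0 →
  (∃ p ∈ r, χ p.2 ≠ 1) → (t ≠ 0 → ∃ (b : Bool) (g g' : B) (r' : List (Bool × B)),
    r = (b, g) :: (b, g') :: r' ∧ χ g = 1) → ∀ y : ℤ, ∃ p ∈ lml χ ι t y r, ∃ q ∈ lml χ ι t y r,
    p.1 ≠ q.1

/-- One active list.
Proof: let `lo < hi` be the extreme levels of `lml χ ι t 0 r` (`T_LA`), `w := hi - lo`,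
`ρ y := wm (lml χ ι t (y - lo) r)`, all its levels lie in `[y,y+w]` and both ends occur (`T_LM` (2)).
Window lemma with `L = L' = Zm`, `l = id`: `AddOk` for both ends by `T_ML` (`T_LM`, `T_LMF`; the hypotheses
for `mpm δ (lml χ ι t y r) = lml χ' ι' t y (mp π r)`), for the second family with `k = 1`, `δ = id`,
`B = B'`. So `Winf k ρ` is in `C_k` and `D` embeds in it (`D` is contained in every segment). `DA` is
isomorphic to `Winf`: homomorphisms both ways, the letter `(j,h)` corresponds to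
`lev D h (ofAdd 1)`, and `y ↦ y - lo` is a bijection of `ℤ`. -/
def T_ACT : Prop := ∀ m : ℕ, (∀ m' < m, EEm m') → ∀ k : ℕ, 1 ≤ k → ∀ (B B' D D' : Type) [Group B]
  [Group B'] [Group D] [Group D'] (π : B →* B') (χ : B →* Zm) (χ' : B' →* Zm)
  (hχ : ∀ b, χ' (π b) = χ b) (δ : D →* D') (ι : Hat χ →* D) (ι' : Hat χ' →* D'),
  (∀ z, δ (ι z) = ι' (Hat.map χ χ' π hχ z)) → Function.Injective ι' → InC k D → InC 1 D' →
  ∀ (J : Type) [Unique J] (t : J → ℤ) (r : J → List (Bool × B)),
  (∀ j, ACond π χ' m (t j) (r j)) →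
  Function.Injective (DA.of k χ ι t r) ∧ InC k (DA k χ ι t r)

/-- Splitting a family. Proof: `Θ`: `d ↦ d`, the letter `(j,h)` to the letter `(⟨j,_⟩,h)` of the first or the
second family; left inverse: `DA` of the first family maps to the whole `DA`, etc. -/
def T_DAS : Prop := ∀ (k : ℕ) (B D : Type) [Group B] [Group D] (χ : B →* Zm) (ι : Hat χ →* D)
  (J : Type) (t : J → ℤ) (r : J → List (Bool × B)) (S : Set J),
  ∃ Θ : DA k χ ι t r →* DA k χ ((DA.of k χ ι (fun j : S => t j) (fun j : S => r j)).comp ι)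
    (fun j : (Sᶜ : Set J) => t j) (fun j : (Sᶜ : Set J) => r j),
    Function.Injective Θ ∧ ∀ d, Θ (DA.of k χ ι t r d) = DA.of _ _ _ _ _ (DA.of _ _ _ _ _ d)

/-- Functoriality of `DA` in the group (`k` on one side, `1` on the other).
Proof: `Quo.lift`; the image of a relator is the `k`-th power of a relator (`T_LMF`). -/
def T_DAF : Prop := ∀ (k : ℕ) (B B' D D' : Type) [Group B] [Group B'] [Group D] [Group D']
  (π : B →* B') (χ : B →* Zm) (χ' : B' →* Zm) (hχ : ∀ b, χ' (π b) = χ b) (δ : D →* D')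
  (ι : Hat χ →* D) (ι' : Hat χ' →* D'), (∀ z, δ (ι z) = ι' (Hat.map χ χ' π hχ z)) →
  ∀ (J : Type) (t : J → ℤ) (r : J → List (Bool × B)),
  ∃ Δ : DA k χ ι t r →* DA 1 χ' ι' t (fun j => mp π (r j)),
    ∀ d, Δ (DA.of k χ ι t r d) = DA.of 1 χ' ι' t (fun j => mp π (r j)) (δ d)

/-- Finitely many active lists.
Proof: induction on the number of elements of `J`. `J` empty: `DA ≅ D`. Otherwise let `j ∈ J`,
`S := {j}ᶜ`; by induction (for `k` and, with `B = B'`, `π = id`, `k = 1`, for the primed family) `D`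
embeds in `D₁ := DA` for `S`, in `C_k`, `D'` embeds in `D₁'`, in `C_1`; `T_DAF`; `T_ACT` for `D₁, D₁'` and
the index set `Sᶜ` (unique element); `T_DAS`, C1. (For the primed family `ACond` is about
`mp id (mp π r) = mp π r`.) -/
def T_ACF : Prop := ∀ m : ℕ, (∀ m' < m, EEm m') → ∀ k : ℕ, 1 ≤ k → ∀ (B B' D D' : Type) [Group B]
  [Group B'] [Group D] [Group D'] (π : B →* B') (χ : B →* Zm) (χ' : B' →* Zm)
  (hχ : ∀ b, χ' (π b) = χ b) (δ : D →* D') (ι : Hat χ →* D) (ι' : Hat χ' →* D'),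
  (∀ z, δ (ι z) = ι' (Hat.map χ χ' π hχ z)) → Function.Injective ι' → InC k D → InC 1 D' →
  ∀ (J : Type) [Finite J] (t : J → ℤ) (r : J → List (Bool × B)),
  (∀ j, ACond π χ' m (t j) (r j)) →
  Function.Injective (DA.of k χ ι t r) ∧ InC k (DA k χ ι t r)

/-! ## The family theorem -/

/-- `Hat` of `GamF`. Proof: `Hat.lift` with the homomorphism `GamF k r → Wr (DA ..) Zm`
(`Quo.lift`): `b ↦ (h ↦ hat b h, χ b)`, letter `i ↦ (h ↦ letter (i, toAdd h), ofAdd (t i))`. The first
coordinate of `wd` of a list at the height `h` is `wg` of `lml .. (toAdd h) ..` (induction), the second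
coordinate of the word of `r i` is `1` (as `w_i ^ k = 1` and `k ≥ 1`), so the `k`-th power goes to `1`.
Left inverse `DA → Hat χΓ`: `hat b h ↦ hat (of b) h`, `(i,h) ↦ hat (letter i) (ofAdd h)`. -/
def T_FEH : Prop := ∀ (k : ℕ), 1 ≤ k → ∀ (B I : Type) [Group B] (r : I → List (Bool × B))
  (χΓ : GamF k r →* Zm) (t : I → ℤ), (∀ i, χΓ (GamF.t k r i) = Multiplicative.ofAdd (t i)) →
  ∃ Θ : Hat χΓ →* DA k (χΓ.comp (GamF.of k r)) (MonoidHom.id _) t r, Function.Injective Θ ∧
    ∀ b h, Θ (hat χΓ (GamF.of k r b) h) = DA.of k _ _ t r (hat _ b h)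

/-- Inactive lists: all letters of the leveled list have the same level.
Proof: `lml χ id 0 y r` has all levels `y`, the relator with index `(i,y)` of `DA` is the relator with
index `(i,y)` of `GamF`. -/
def T_DAI : Prop := ∀ (k : ℕ) (B I : Type) [Group B] (χ : B →* Zm) (t : I → ℤ)
  (r : I → List (Bool × B)), (∀ i, t i = 0) → (∀ i, ∀ p ∈ r i, χ p.2 = 1) →
  ∃ Θ : DA k χ (MonoidHom.id (Hat χ)) t r →* GamF k (fun p : I × ℤ => hl χ p.2 (r p.1)),
    Function.Injective Θ ∧ ∀ z, Θ (DA.of k χ _ t r z) = GamF.of k _ z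

/-- Infinite families. Proof: `GamF` of the finite subfamilies: for `T ⊆ T'` the map is injective:
`GamF T'` is an amalgamated product of `GamF T` and `GamF (T' \ T)` over `B` (use `T_PUSH` with
`φ : B → GamF (T' \ T)` and the relators of `T`, or `Monoid.PushoutI`). If an element of `GamF T` is trivial
in `GamF J`, it is trivial in `GamF T'` for a finite `T' ⊇ T` (finitely many relators; kill the other
letters). So `GamF T → GamF J` is injective; `InC.loc`, C1: a f.g. subgroup lies in the range for some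
finite `T`. -/
def T_GUN : Prop := ∀ (k : ℕ) (B J : Type) [Group B] (r : J → List (Bool × B)),
  (∀ T : Finset J, Function.Injective (GamF.of k (fun j : T => r j)) ∧
    InC k (GamF k (fun j : T => r j))) →
  Function.Injective (GamF.of k r) ∧ InC k (GamF k r)

/-- Reduction to f.g. groups `B₀` (step `loc`).
Proof: `T_PUSH` (for `φ = B₀.subtype`): `B` embeds in `GamF k r` and `GamF k r₀` embeds in `GamF k r`,
for one `B₀` containing all coefficients. `InC.loc`: a f.g. subgroup of `GamF k r` lies in the range of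
`GamF k r₀` for a f.g. `B₀` (enlarge); C1. -/
def T_FEL : Prop := ∀ (k : ℕ) (B I : Type) [Group B] [Finite I] (r : I → List (Bool × B)),
  (∀ (B₀ : Subgroup B), B₀.FG → ∀ r₀ : I → List (Bool × B₀),
    (∀ i, mp B₀.subtype (r₀ i) = r i) →
    Function.Injective (GamF.of k r₀) ∧ InC k (GamF k r₀)) →
  Function.Injective (GamF.of k r) ∧ InC k (GamF k r)

/-- The inactive part in the step `ext`.
Proof: `T_GUN`; for a finite set `T` of pairs `(i,h)` apply the hypothesis `hIH` with
`Y' := {hat χ (F (π g)) (floor of h / M) : (i,h) ∈ T, (b,g) ∈ r i, F (π g) ∈ Y}`, the groups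
`Hat χB`, `Hat χB'`, `Hat.map`, `F̂ : Hat χB' → Hat χ`, `hat g h ↦ hat (F g) (h / M)` (`Hat.coc`; here
`χB' g = (χ (F g)) ^ M` and `(h + M c) / M = h / M + c`), and the lists `hl χB h (r i)`: `CR` and `Pr` since
`g ↦ hat g h` is injective on the elements in question, `ext` since `hat` at the height `h` is
multiplicative on unseen elements. -/
def T_FX1 : Prop := ∀ (m : ℕ) (K : Type) [Group K] (Y : Set K) (χ : K →* Zm), Y.Finite →
  (∀ Y' : Set (Hat χ), Y'.Finite → (∀ z ∈ Y', ∃ y ∈ Y, χ y = 1 ∧ ∃ h, z = hat χ y h) →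
    FConcl m (Hat χ) Y') →
  ∀ (k : ℕ), 1 ≤ k → ∀ (B B' : Type) [Group B] [Group B'] (π : B →* B') (F : B' →* K) (M : ℕ),
  1 ≤ M → ∀ (χB' : B' →* Zm) (χB : B →* Zm), (∀ g, χB' g = χ (F g) ^ M) →
  (∀ b, χB b = χB' (π b)) → ∀ (I : Type) [Finite I] (r : I → List (Bool × B)), InC k B →
  InC 1 B' → (∀ i, FCond π F Y m (r i)) → (∀ i, ∀ p ∈ r i, χB p.2 = 1) →
  Function.Injective (GamF.of k (fun p : I × ℤ => hl χB p.2 (r p.1))) ∧
  InC k (GamF k (fun p : I × ℤ => hl χB p.2 (r p.1)))

/-- Existence of the character on `GamF`.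
Proof: `M :=` product over `i` of `|sg (r i)|` if `sg (r i) ≠ 0`, `1` otherwise. `χB' := (χ.comp F) ^ M`,
`χB := χB'.comp π`. `t i := -(sum of the toAdd (χB g)) / sg (r i)` if `sg (r i) ≠ 0` (divisible), `0`
otherwise (then the sum is `0`: it is `M` times the value of `χ` at
`F (π (Xs false r)) * F (π (Xs true r)) = 1`). `χΓ` by `Quo.lift`. `act`, `two`: for `t i ≠ 0` the list is of
the first kind, its first coefficient has `F (π g) = 1`, so `χB g = 1`. -/
def T_FXC : Prop := ∀ (m : ℕ) (K : Type) [Group K] (Y : Set K) (χ : K →* Zm) (k : ℕ)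
  (B B' : Type) [Group B] [Group B'] (π : B →* B') (F : B' →* K) (I : Type) [Finite I]
  (r : I → List (Bool × B)), (∀ i, FCond π F Y m (r i)) →
  ∃ (M : ℕ) (t : I → ℤ) (χB' : B' →* Zm) (χΓ : GamF k r →* Zm), 1 ≤ M ∧
    (∀ g, χB' g = χ (F g) ^ M) ∧ (∀ b, χΓ (GamF.of k r b) = χB' (π b)) ∧
    (∀ i, χΓ (GamF.t k r i) = Multiplicative.ofAdd (t i)) ∧
    (∀ i, (∀ p ∈ r i, χB' (π p.2) = 1) → t i = 0) ∧
    ∀ i, (∃ p ∈ r i, χB' (π p.2) ≠ 1) → ACond π χB' m (t i) (r i)

/-- The step `ext`.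
Proof: `T_FXC`, `T_FEH`. Let `χB := χΓ.comp (GamF.of k r)`, `S :=` the set of inactive `i` (all
`χB' (π p.2) = 1`). `T_DAS` with `D = Hat χB`, `ι = id`: `DA ↪ DA(DA(Hat χB; S); Sᶜ)`. `D₁ := DA(Hat χB; S)` is
in `C_k` and contains `Hat χB` by `T_DAI`, `T_FX1` (C1); similarly `D₁' := DA(Hat χB'; S)` for `k = 1`,
`B = B'`, `π = id`, lists `mp π (r i)`; `T_DAF`; `T_ACF` for `D₁, D₁'`, `Sᶜ`. So `DA` is in `C_k` and contains
`Hat χB`. By `T_FEH` `Hat χΓ` is in `C_k` (C1), so `GamF k r` is (`InC.ext`). If `GamF.of b = 1` then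
`χB b = 1` and `DA.of (hat b 1) = Θ (hat (of b) 1) = 1`, so `hat b 1 = 1`, `b = 1` (`hat_eq_one`). -/
def T_FX2 : Prop := ∀ m : ℕ, (∀ m' < m, EEm m') → ∀ (K : Type) [Group K] (Y : Set K)
  (χ : K →* Zm), Y.Finite →
  (∀ Y' : Set (Hat χ), Y'.Finite → (∀ z ∈ Y', ∃ y ∈ Y, χ y = 1 ∧ ∃ h, z = hat χ y h) →
    FConcl m (Hat χ) Y') → FConcl m K Y

/-- The family theorem. Proof: induction on `Vis K Y`. nil: `I` is empty (`FCond.vis`), `GamF k r ≅ B`.
loc: `T_FEL`; for `B₀, r₀`: `B₀' := B₀.map π`, `K₀ := B₀'.map F ⊔ closure Y`; `B₀` is in `C_k`, `B₀'` in `C_1` by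
C1; the conditions for `π₀ : B₀ → B₀'`, `F₀ : B₀' → K₀` and the preimage of `Y` (induction hypothesis for
`K₀`). ext: `T_FX2`. -/
def T_FE : Prop := ∀ m : ℕ, (∀ m' < m, EEm m') → FEm m

/-! ## `O(n)` -/

/-- `O(n)` from the family theorem. Proof: blueprint, section 8.
`r := s.flatMap fun p => [(false, p.1), (true, p.2)]` over `A * B` (via `inl`, `inr`), `π := α * β`
to `A' * B'`. `I := Unit`. `GamF k r` contains `Oq k s`: `inl a ↦ a`, `inr b ↦ ν b ν⁻¹` (the relator
goes to `ν (wd r) ν⁻¹`); it is injective with left inverse `GamF → Oq * Zm`, `a ↦ a`,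
`b ↦ ν⁻¹ b ν`, `ν ↦ ν` followed by nothing (compose: `Oq → Oq * Zm` is `inl`). `CR`: all coefficients
of `mp π r` are nontrivial. `Pr`: if `mp π r` is the `q`-fold repetition of a list of length `c` then `c` is
even (signs alternate, compare the first sign with the sign at place `c`, if `q ≥ 2`), so the list of
pairs is a `q`-fold repetition. `ext`: `sg r = 0`, `Xs false r = inl x_1 ... inl x_n`, `Xs true r =
inr y_1 ... inr y_n`. `K` and `F`: let `X', Y'` be the products of the images. If `X' ≠ 1`, `Y' ≠ 1`: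
`K := Quo {inl X' * inr Y'}`, `F := Quo.mk`, `T_CT`. If `X' = 1`: `K := A'`, `F := fst`. If `Y' = 1`, `X' ≠ 1`:
`K := B'`, `F := snd`. `Y := {F (inl x'_1)}` (resp. `{F (inr y'_1)}` in the last case), visible by `T_VC`. -/
def T_OO : Prop := ∀ m : ℕ, FEm m → ∀ n : ℕ, 1 ≤ n → 2 * n ≤ m → OOn n

/-! ## `E(m)` -/

/-- `E(1)`: `Gam k [(e,g)]` is `G * ℤ/k`.
Proof: the homomorphism `Gam → G * Multiplicative (ZMod k)`: `ν ↦ z g⁻¹` if `e = true`
(`ν g ↦ z`, `z^k = 1`), `ν ↦ g z⁻¹` if `e = false` (`ν⁻¹ g ↦ z`), with left inverse; C3, `T_CF`. -/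
def T_E1 : Prop := EEm 1

/-- Two adjacent equal signs. Proof: otherwise the signs alternate cyclically and the exponent sum is
`0`. -/
def T_TWO : Prop := ∀ (G : Type) (_ : Group G) (r : List (Bool × G)), sg r ≠ 0 → 2 ≤ r.length →
  ∃ (l l' r' : List (Bool × G)) (b : Bool) (g g' : G), r = l ++ l' ∧
    l' ++ l = (b, g) :: (b, g') :: r'

/-- The substitution `ν = ν' g⁻¹` (if `b = true`), `ν = g ν'` (if `b = false`).
Proof: for `b = true` every coefficient `g_j` becomes `[e_j = +] g⁻¹ * g_j * [e_{j+1} = -] g`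
(cyclically; the last one is followed by the first sign `+`), and the word of `r` goes exactly to the word
of `r₁`. For `b = false` symmetric: `[e_j = -] g⁻¹ * g_j * [e_{j+1} = +] g`, with `ν ↦ g ν`. The first
coefficient becomes `1`. `CR` and `Pr` of the images are preserved: for different signs the new
coefficient is `g_j` or `g⁻¹ g_j g`; a repetition of the new list gives one of the old list (the old
list is obtained from the new one by the inverse rule, which commutes with repetition). If all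
`π` of the new coefficients are trivial then all signs agree by `CR` and `mp π r₁` is an `m`-fold
repetition, contradiction to `Pr` and `m ≥ 2`. -/
def T_SUB : Prop := ∀ (G G' : Type) [Group G] [Group G'] (π : G →* G') (b : Bool) (g g' : G)
  (r' : List (Bool × G)), CR (mp π ((b, g) :: (b, g') :: r')) →
  Pr (mp π ((b, g) :: (b, g') :: r')) →
  ∃ (g₁ : G) (r₁ : List (Bool × G)) (a c : Cop G Zm →* Cop G Zm), a.comp inl = inl ∧
    c.comp inl = inl ∧ a.comp c = MonoidHom.id _ ∧ c.comp a = MonoidHom.id _ ∧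
    a (wd inl (inr (Multiplicative.ofAdd 1)) ((b, g) :: (b, g') :: r')) =
      wd inl (inr (Multiplicative.ofAdd 1)) ((b, 1) :: (b, g₁) :: r₁) ∧
    r₁.length = r'.length ∧ sg ((b, 1) :: (b, g₁) :: r₁) = sg ((b, g) :: (b, g') :: r') ∧
    CR (mp π ((b, 1) :: (b, g₁) :: r₁)) ∧ Pr (mp π ((b, 1) :: (b, g₁) :: r₁)) ∧
    ∃ p ∈ (b, 1) :: (b, g₁) :: r₁, π p.2 ≠ 1

/-- `E(m)` for exponent sum not zero.
Proof: `T_TWO`, rotation (`T_ROT`, `T_TRF` with `a = b = id`: the words of `l ++ l'` and `l' ++ l` are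
conjugate), `T_SUB`, `T_TRF`; then `FEm m` with `K = B' = G'`, `F = id`, `I = Unit`,
`Y := {π p.2}` for the `p` of `T_SUB`, visible by `T_VC`; `GamF` with `I = Unit` is isomorphic to
`Gam`. -/
def T_EP : Prop := ∀ m : ℕ, 2 ≤ m → FEm m → ∀ (k : ℕ), 1 ≤ k → ∀ (G G' : Type) [Group G]
  [Group G'] (π : G →* G') (r : List (Bool × G)), InC k G → InC 1 G' → r.length = m →
  CR (mp π r) → Pr (mp π r) → sg r ≠ 0 →
  Function.Injective (Gam.of k r) ∧ InC k (Gam k r)

/-- Path words at the top level.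
Proof: rotate `r` (`T_ROT`, `T_AOC`, `pw s (l ++ l') = pw s l * pw (s + sg l) l'`) so that the path
starts at the height `t` just after a coefficient of level `t`: `r = β_1 ++ ... ++ β_n`, every
`β_i = β_i' ++ [(true, y_i)]` a path from `t` to `t` with heights `< t` in between, `β_i'` not empty and
starting with sign `false`. So `2 n ≤ length`. `pw t r = Π (x_i * lev t y_i)`, `x_i = pw t β_i'` in the
segment `[a,t-1]`. Given `G₁, G₁', θ, f, f'`: `newl f t` of it is `ow` of the list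
`(f x_i, y_i)`. `OOn n` with `A = G₁`, `B = G`, `A' = G₁'`, `B' = G'`: `π y_i ≠ 1` by `CR` (the next sign
is `false`). `x'_i := pw t (mp π β_i')`: the homomorphism `PP Unit G' → Cop G' Zm`, `lev h g ↦ ν^h g ν^{-h}`
sends it to `ν^t wd(mp π β_i' ++ [(true,1)]) ν^{-t}`, where the list is reduced and not empty; by
`T_NFS` it is not `1` and determines the list. `f'` is injective on the segment. So `f' x'_i ≠ 1`, and
a repetition of the list `(f' x'_i, π y_i)` gives one of `mp π r`. -/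
def T_PWT : Prop := ∀ m : ℕ, (∀ n, 1 ≤ n → 2 * n ≤ m → OOn n) → ∀ k : ℕ, 1 ≤ k →
  ∀ (G G' : Type) [Group G] [Group G'] (π : G →* G') (r : List (Bool × G)), InC k G →
  InC 1 G' → r.length ≤ m → CR (mp π r) → Pr (mp π r) → sg r = 0 →
  ∀ s t a : ℤ, t ∈ hts s r → (∀ h ∈ hts s r, a ≤ h ∧ h ≤ t) →
  AddOk k (MonoidHom.id Unit) π (pw s r) (seg Unit G' a (t - 1)) t

/-- Path words at the bottom level. Proof: as `T_PWT`, or from `T_PWT` by the reflection
`lev h ↦ lev (-h)` and the list with opposite signs. -/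
def T_PWB : Prop := ∀ m : ℕ, (∀ n, 1 ≤ n → 2 * n ≤ m → OOn n) → ∀ k : ℕ, 1 ≤ k →
  ∀ (G G' : Type) [Group G] [Group G'] (π : G →* G') (r : List (Bool × G)), InC k G →
  InC 1 G' → r.length ≤ m → CR (mp π r) → Pr (mp π r) → sg r = 0 →
  ∀ s t b : ℤ, t ∈ hts s r → (∀ h ∈ hts s r, t ≤ h ∧ h ≤ b) →
  AddOk k (MonoidHom.id Unit) π (pw s r) (seg Unit G' (t + 1) b) t

/-- `Gam` of a list of exponent sum zero embeds in a semidirect product.
Proof: `φ (ofAdd z)` is induced by the shift `lev h ↦ lev (h + z)` of `PP Unit G`, which sends `pw y r`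
to `pw (y + z) r`. `Θ`: `g ↦ inl (lev 0 g)`, `ν ↦ inr (ofAdd 1)`; the word of `r` goes to
`inl (pw 0 r)` (exponent sum zero). Left inverse: `lev h g ↦ ν^h g ν^{-h}`, `ofAdd z ↦ ν^z`. -/
def T_EZA : Prop := ∀ (k : ℕ) (G : Type) [Group G] (r : List (Bool × G)), sg r = 0 →
  ∃ (φ : Zm →* MulAut (Winf k (fun y : ℤ => pw y r))) (Θ : Gam k r →*
    (Winf k (fun y : ℤ => pw y r) ⋊[φ] Zm)), Function.Injective Θ ∧
    ∀ g, Θ (Gam.of k r g) = SemidirectProduct.inl (Quo.mk _ (lev Unit 0 g))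

/-- `E(m)` for exponent sum zero.
Proof: `lo`, `hi` the extreme values of `hts 0 r`; `lo < hi` as `r` is not empty and consecutive heights
differ (`m ≥ 2`, exponent sum `0`). `w := hi - lo`, `ρ y := pw (y - lo) r`. Window lemma with `D = D' = Unit`,
`L = G`, `L' = G'`, `l = π`: `AddOk` by `T_PWT`, `T_PWB` (heights of `pw (y-lo) r` lie in `[y,y+w]`; for
the primed family with `k = 1`, `π = id`, `PPmap id π (pw s r) = pw s (mp π r)`). `Winf k ρ` is the group
with the relators `pw y r`, `y ∈ ℤ`. So it is in `C_k` and `lev 0` is injective to it. `T_EZA`, C5, C1. -/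
def T_EZ : Prop := ∀ m : ℕ, 2 ≤ m → (∀ n, 1 ≤ n → 2 * n ≤ m → OOn n) → ∀ (k : ℕ), 1 ≤ k →
  ∀ (G G' : Type) [Group G] [Group G'] (π : G →* G') (r : List (Bool × G)), InC k G →
  InC 1 G' → r.length = m → CR (mp π r) → Pr (mp π r) → sg r = 0 →
  Function.Injective (Gam.of k r) ∧ InC k (Gam k r)

/-- All `E(m)`. Proof: strong induction on `m`. `m = 0`: `Pr []` is false. `m = 1`: `T_E1`. `m ≥ 2`: `T_FE`,
`T_OO`, `T_EP`, `T_EZ`. -/
def T_EA : Prop := ∀ m : ℕ, EEm m

/-! ## One-relator groups -/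

/-- Conjugates of elements of `G * ℤ`.
Proof: every element has the form `inl g * wd r`, conjugate to `wd r₁` with `r₁` the list with the last
coefficient multiplied by `g` (if `r` is not empty). If a list is not `CR` there is
(after rotation) an adjacent pair `(e,1), (-e,g)` (or the list has such a pair cyclically); cancel it: the
list gets shorter by `2`. Induction on the length. -/
def T_CJ : Prop := ∀ (G : Type) [Group G] (w : Cop G Zm), ∃ v : Cop G Zm,
  (∃ g : G, w = v * inl g * v⁻¹) ∨ ∃ r : List (Bool × G), r ≠ [] ∧ CR r ∧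
    w = v * wd inl (inr (Multiplicative.ofAdd 1)) r * v⁻¹

/-- One-relator groups over `G * ℤ`, `G` free: the quotient by a conjugate.
Proof: by `T_CJ` either the relator is conjugate to `inl g`: the quotient embeds in
`Quo {g} * Zm`; or to `wd r`, `r = (s repeated q times)`, `Pr s` (`T_ROOT`), `wd r = (wd s)^q`, `CR s`
(from `CR r`; clear if `q = 1`, and inside `r` if `q ≥ 2`); `T_EA` with `k = q`, `G' = G`, `π = id`. -/
def T_ST : Prop := ∀ (G : Type) [Group G], (∀ k, 1 ≤ k → InC k G) → ∀ w : Cop G Zm,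
  (∃ q : ℕ, 1 ≤ q ∧ InC q (Quo ({w} : Set (Cop G Zm)))) ∨
  ∃ (g : G) (Θ : Quo ({w} : Set (Cop G Zm)) →* Cop (Quo ({g} : Set G)) Zm),
    Function.Injective Θ

/-- Every one-relator group lies in some class.
Proof: induction on `n`. `n = 0`: trivial group. `FreeGroup (Fin (n+1)) ≃* Cop (FreeGroup (Fin n)) Zm`;
`T_ST` with `G = FreeGroup (Fin n)` (`T_CF`); in the second case the induction hypothesis for `g` and
C3, `T_CF`, C1. -/
def T_OR : Prop := ∀ (n : ℕ) (r : FreeGroup (Fin n)),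
  ∃ k : ℕ, 1 ≤ k ∧ InC k (PresentedGroup ({r} : Set (FreeGroup (Fin n))))

end

end ORG
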