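import Pool.Agent.ORG.Targets1
import Pool.Agent.HGP2.Defs

/-!
# ORG: target, part 3 (the class `Cyc` of HGP2)
-/

set_option autoImplicit false

namespace ORG

/-- The classes `C_k` are contained in the class `Cyc` of HGP2.
Proof: induction on `InC k G`.
base: `Cyc.union` with `H S := closure S`: it is enough that `Mdl k S J` is in `Cyc` (`Cyc.pull` for injective
homomorphisms, kernel `⊥` finite). By `Cyc.union` again (and `T_CFG`, `T_CIG`, `T_CIJ` or directly,
with retractions) `S`, `J` finite; add the free factors one by one: `Cop A Zm` embeds in (is) the HNN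
extension of `A` over the trivial subgroups; `Cop A (ℤ/k)` embeds in the HNN extension `X` of
`A × ℤ/k` over the trivial subgroups (`a ↦ a`, `z ↦ t z t⁻¹`; e.g. `X ≃ (A × ℤ/k) * Zm` and map back), and
`A × ℤ/k` is in `Cyc` by `Cyc.pull` along the projection to `A`, which has finite kernel (`k ≥ 1`). The
trivial group is in `Cyc` (`Cyc.axial`, e.g. `X = Unit`, `d = 0`).
loc: `Cyc.union`. ext: `Cop G Zm` is isomorphic to `Hat χ ⋊ Zm` (the projection `Cop G Zm → Zm` splits:
`inr`; e.g. `SemidirectProduct.mulEquivOfSection`-like or direct: the homomorphism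
`Cop G Zm → Hat χ ⋊ Zm`, `w ↦ (w * inr (p w)⁻¹, p w)`, `φ` conjugation by `inr`, is injective), so
`Cyc.ext`, then `Cyc.pull` along `inl : G → Cop G Zm`. -/
def T_CYC : Prop := ∀ k : ℕ, 1 ≤ k → ∀ (G : Type) [Group G], InC k G → HGQ.Cyc G

end ORG
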